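import Pool.Agent.SwT.Uf
import Pool.Agent.SwR.Ext

/-!
# STAR with exponent 2/3: extensible triples, with the tall piece (rows ea - ec)
-/

set_option autoImplicit false

namespace Pool.Agent.SwT

open Finset
open scoped Classical
open Pool.Agent.R19 Pool.Agent.SwR Pool.Agent.SwP

variable [Pool.Agent.SwP.Dim]

/-- mass of the pieces of height more than `T` -/
noncomputable def tall (x : ℝ) (L : ℕ) (T : ℤ) : ℝ := ∑ v ∈ (irs L).filter (fun v => T < D v 0), x ^ v.length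

-- BEGIN ea
/-- low bridge followed by one tall piece -/
private noncomputable def ea_ExW (L g S : ℕ) : Finset Word :=
  (wle L).filter fun W => ∃ u v : Word, W = u ++ v ∧ Br u ∧ Ir v ∧ D u 0 < (g : ℤ) ∧
    (S : ℤ) - g < D v 0

private theorem ea_sum_W {x : ℝ} (hx : 0 ≤ x) (hB : ∀ L s, Bs x L s ≤ 1)
    (L g S : ℕ) : ∑ W ∈ ea_ExW L g S, x ^ W.length ≤ g * tall x L ((S : ℤ) - g) := by
  have hex : ∀ W : Word, ∃ u v : Word, W ∈ ea_ExW L g S → (W = u ++ v ∧ Br u ∧ Ir v ∧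
      D u 0 < (g : ℤ) ∧ (S : ℤ) - g < D v 0) := by
    intro W
    by_cases h : W ∈ ea_ExW L g S
    · have h1 := (mem_filter.1 h).2
      obtain ⟨u, v, h2⟩ := h1
      exact ⟨u, v, fun _ => h2⟩
    · exact ⟨[], [], fun h' => absurd h' h⟩
  choose A B hAB using hex
  have h1 : ∑ W ∈ ea_ExW L g S, x ^ W.length ≤
      ∑ y ∈ ((wle L).filter (fun u => Br u ∧ D u 0 < (g : ℤ))) ×ˢ
        ((irs L).filter (fun v => (S : ℤ) - g < D v 0)),
        x ^ y.1.length * x ^ y.2.length := by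
    refine Pool.Agent.SwP.sum_le_of_inj (fun W => (A W, B W)) ?_ ?_ ?_ ?_
    · intro W hW
      obtain ⟨h2, h3, h4, h5, h8⟩ := hAB W hW
      have h6 := mem_wle.1 (mem_filter.1 hW).1
      have h7 := congrArg List.length h2
      rw [List.length_append] at h7
      rw [mem_product, mem_filter, mem_filter, mem_wle, ex_mem_irs]
      simp only
      refine ⟨⟨by omega, h3, h5⟩, ⟨by omega, h4⟩, h8⟩
    · intro W hW W' hW' h
      simp only [Prod.mk.injEq] at h
      obtain ⟨h2, _⟩ := hAB W hW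
      obtain ⟨h3, _⟩ := hAB W' hW'
      rw [h2, h3, h.1, h.2]
    · intro W hW
      obtain ⟨h2, _⟩ := hAB W hW
      have h7 := congrArg List.length h2
      rw [List.length_append] at h7
      rw [h7, pow_add]
    · intro y _
      exact mul_nonneg (pow_nonneg hx _) (pow_nonneg hx _)
  refine h1.trans ?_
  rw [sum_product]
  have ht : 0 ≤ tall x L ((S : ℤ) - g) := sum_nonneg fun v _ => pow_nonneg hx _
  have h2 : ∀ u ∈ (wle L).filter (fun u => Br u ∧ D u 0 < (g : ℤ)),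
      ∑ v ∈ (irs L).filter (fun v => (S : ℤ) - g < D v 0), x ^ u.length * x ^ v.length =
        x ^ u.length * tall x L ((S : ℤ) - g) := by
    intro u _
    rw [← mul_sum]
    rfl
  rw [sum_congr rfl h2, ← sum_mul]
  exact mul_le_mul_of_nonneg_right (ex_sum_low hx hB L g) ht

/-- MODULE ea. `ex_ext_sum` with the tall piece: in its proof `W = u ++ v`, `Br u`, `Ir v`, `D u 0 < g`
(`ex_geom`) and `D W 0 ≥ s ≥ S + 1`, so `D v 0 > S - g`. Copy the proof of `ex_ext_sum` (and `ex_sum_W`)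
with `ExW L g` replaced by the words of `ExW L g` with this property. -/
theorem ext_tall {x : ℝ} (hx : 0 ≤ x) (hB : ∀ L s, Bs x L s ≤ 1) (hPh : ∀ L, Ph x L ≤ 1)
    {L M S g k : ℕ} (hS : 2 * g ≤ S) (hk : g ≤ k) :
    ∑ i ∈ range S, ∑ t ∈ TN L (S + i + 1) g, w3 x t *
      em x M k (fun e => saw ((t.1 ++ (fl t.2.1 ++ t.2.2)) ++ e)) ≤
      (g : ℝ) ^ 2 * tall x (3 * L + (k + 1) * M) ((S : ℤ) - g) := by
  -- first passage
  have h1 : ∀ i ∈ range S, ∀ t ∈ TN L (S + i + 1) g, w3 x t *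
      em x M k (fun e => saw ((t.1 ++ (fl t.2.1 ++ t.2.2)) ++ e)) ≤
      ∑ j ∈ range k, ∑ E ∈ (Sd M (j + 1)).filter
        (ExC (t.1 ++ (fl t.2.1 ++ t.2.2)) ((S + i + 1 : ℕ) : ℤ) j),
          w3 x t * wt x (j + 1) E := by
    intro i _ t ht
    obtain ⟨-, -, -, ha, hb, hc, h7, h8, h9, h10⟩ := ex_mem_TN ht
    have h2 := ex_em_le hx hPh M k (t.1 ++ (fl t.2.1 ++ t.2.2)) ((S + i + 1 : ℕ) : ℤ)
      (by rw [ex_D_p]; omega) (by rw [ex_D_p]; omega)
    have h3 : 0 ≤ w3 x t := pow_nonneg hx _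
    refine (mul_le_mul_of_nonneg_left h2 h3).trans (le_of_eq ?_)
    rw [mul_sum]
    refine sum_congr rfl fun j _ => ?_
    rw [mul_sum]
  refine (sum_le_sum fun i hi => sum_le_sum fun t ht => h1 i hi t ht).trans ?_
  -- one sum
  have h2 : ∑ i ∈ range S, ∑ t ∈ TN L (S + i + 1) g, ∑ j ∈ range k,
      ∑ E ∈ (Sd M (j + 1)).filter (ExC (t.1 ++ (fl t.2.1 ++ t.2.2)) ((S + i + 1 : ℕ) : ℤ) j),
          w3 x t * wt x (j + 1) E =
      ∑ y ∈ (range S).sigma (fun i => (TN L (S + i + 1) g).sigma (fun t => (range k).sigma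
        (fun j => (Sd M (j + 1)).filter (ExC (t.1 ++ (fl t.2.1 ++ t.2.2))
          ((S + i + 1 : ℕ) : ℤ) j)))), w3 x y.2.1 * wt x (y.2.2.1 + 1) y.2.2.2 := by
    rw [sum_sigma]
    refine sum_congr rfl fun i _ => ?_
    rw [sum_sigma]
    refine sum_congr rfl fun t _ => ?_
    rw [sum_sigma]
  rw [h2]
  set L' : ℕ := 3 * L + (k + 1) * M with hL'
  have h3 : ∑ y ∈ (range S).sigma (fun i => (TN L (S + i + 1) g).sigma (fun t => (range k).sigma
        (fun j => (Sd M (j + 1)).filter (ExC (t.1 ++ (fl t.2.1 ++ t.2.2))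
          ((S + i + 1 : ℕ) : ℤ) j)))), w3 x y.2.1 * wt x (y.2.2.1 + 1) y.2.2.2 ≤
      ∑ z ∈ ea_ExW L' g S ×ˢ range g, x ^ z.1.length := by
    refine Pool.Agent.SwP.sum_le_of_inj (fun y => ((y.2.1.1 ++ (fl y.2.1.2.1 ++ y.2.1.2.2)) ++
      pre y.2.2.2 (y.2.2.1 + 1), (D y.2.1.2.1 0 - D y.2.1.2.2 0).toNat)) ?_ ?_ ?_ ?_
    · rintro ⟨i, t, j, E⟩ hy
      simp only [mem_sigma, mem_range, mem_filter] at hy
      obtain ⟨hi, ht, hj, hE, hC⟩ := hy
      obtain ⟨l1, l2, l3, ha, hb, hc, h7, h8, h9, h10⟩ := ex_mem_TN ht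
      obtain ⟨c1, c2, c3⟩ := hC
      rw [ex_mem_Sd] at hE
      have hI : ∀ i < j + 1, Ir (E i) := fun i hi => (ex_mem_irs.1 (hE.1 i hi)).2
      have hM : ∀ i < j + 1, (E i).length ≤ M := fun i hi => (ex_mem_irs.1 (hE.1 i hi)).1
      simp only [mem_product, mem_range]
      constructor
      · unfold ea_ExW
        rw [mem_filter, mem_wle]
        constructor
        · have h11 := ex_pre_length_le hM
          have h12 : (fl t.2.1).length = t.2.1.length := by unfold fl; simp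
          have h13 : (j + 1) * M ≤ (k + 1) * M := Nat.mul_le_mul_right _ (by omega)
          simp only [List.length_append, h12]
          omega
        · have h14 : pre E (j + 1) = pre E j ++ E j := ex_pre_succ E j
          have h15 : D (pre E j ++ E j) 0 = D (pre E j) 0 + D (E j) 0 := by
            rw [D_append, Pi.add_apply]
          rw [h14] at c1 c3 ⊢
          obtain ⟨u, v, g1, g2, g3, g4⟩ := ex_geom ha hb hc h7 h8 h9 h10
            (ex_pre_br fun i hi => (hI i (by omega)).1)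
            (hI j (by omega)) c2 (by omega) c1
          refine ⟨u, v, g1, g2, g3, g4, ?_⟩
          have h16 : D (u ++ v) 0 = D (t.1 ++ (fl t.2.1 ++ t.2.2)) 0 + D (pre E j ++ E j) 0 := by
            rw [← g1, D_append, Pi.add_apply]
          rw [D_append, Pi.add_apply] at h16
          push_cast at c3
          omega
      · omega
    · rintro ⟨i, t, j, E⟩ hy ⟨i', t', j', E'⟩ hy' heq
      simp only [coe_sigma, Set.mem_sigma_iff, mem_coe, mem_range, mem_filter] at hy hy'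
      obtain ⟨hi, ht, hj, hE, hC⟩ := hy
      obtain ⟨hi', ht', hj', hE', hC'⟩ := hy'
      obtain ⟨-, -, -, ha, hb, hc, h7, h8, h9, h10⟩ := ex_mem_TN ht
      obtain ⟨-, -, -, ha', hb', hc', h7', h8', h9', h10'⟩ := ex_mem_TN ht'
      obtain ⟨c1, c2, c3⟩ := hC
      obtain ⟨c1', c2', c3'⟩ := hC'
      rw [ex_mem_Sd] at hE hE'
      have hI : ∀ i < j + 1, Ir (E i) := fun i hi => (ex_mem_irs.1 (hE.1 i hi)).2
      have hI' : ∀ i < j' + 1, Ir (E' i) := fun i hi => (ex_mem_irs.1 (hE'.1 i hi)).2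
      have hBe : Br (pre E (j + 1)) := ex_pre_br fun i hi => (hI i hi).1
      have hBe' : Br (pre E' (j' + 1)) := ex_pre_br fun i hi => (hI' i hi).1
      obtain ⟨a, b, c⟩ := t
      obtain ⟨a', b', c'⟩ := t'
      simp only [Prod.mk.injEq] at heq ha hb hc h7 h8 h9 h10 ha' hb' hc' h7' h8' h9' h10'
      obtain ⟨q1, q2⟩ := heq
      have hs1 : ((S + i' + 1 : ℕ) : ℤ) ≤ ((S + i + 1 : ℕ) : ℤ) :=
        ex_top_le ha hb hc hBe.hi h7 h9 h7' h9' h10' (by rw [ex_D_p]; omega) q1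
      have hs2 : ((S + i + 1 : ℕ) : ℤ) ≤ ((S + i' + 1 : ℕ) : ℤ) :=
        ex_top_le ha' hb' hc' hBe'.hi h7' h9' h7 h9 h10 (by rw [ex_D_p]; omega) q1.symm
      have hii : i = i' := by omega
      subst hii
      have hp : a ++ (fl b ++ c) = a' ++ (fl b' ++ c') := by
        refine ex_cut_unique q1 ?_ hBe.hi hBe'.hi
        rw [ex_D_p, ex_D_p]
        omega
      have haa : a = a' := by
        refine ex_max_unique hp ha.lo ha'.lo ?_ ?_
        · intro u e hue hu
          rcases List.append_eq_append_iff.1 hue with ⟨z, h3, h4⟩ | ⟨z, h3, h4⟩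
          · have h5 := ex_pre_le hc.lo h4
            rw [h3, D_append, Pi.add_apply, ex_D_fl]
            omega
          · exact ex_fl_neg hb u z h3 hu
        · intro u e hue hu
          rcases List.append_eq_append_iff.1 hue with ⟨z, h3, h4⟩ | ⟨z, h3, h4⟩
          · have h5 := ex_pre_le hc'.lo h4
            rw [h3, D_append, Pi.add_apply, ex_D_fl]
            omega
          · exact ex_fl_neg hb' u z h3 hu
      subst haa
      have hbc : fl b ++ c = fl b' ++ c' := List.append_cancel_left hp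
      have hbb : fl b = fl b' :=
        ex_min_unique hbc (ex_fl_end hb) (ex_fl_end hb') hc.hi hc'.hi
      rw [hbb] at hbc
      have hcc : c = c' := List.append_cancel_left hbc
      have hbb' : b = b' := ex_fl_injective hbb
      subst hcc
      subst hbb'
      have hee : pre E (j + 1) = pre E' (j' + 1) := List.append_cancel_left q1
      obtain ⟨r1, r2⟩ := ex_pre_unique hI hI' hee
      have hjj : j = j' := by omega
      subst hjj
      have hEE : E = E' := by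
        funext i
        by_cases h : i < j + 1
        · exact r2 i h
        · rw [hE.2 i (by omega), hE'.2 i (by omega)]
      subst hEE
      rfl
    · rintro ⟨i, t, j, E⟩ hy
      simp only
      rw [ex_wt_pre]
      unfold w3
      rw [← pow_add]
      have h12 : (fl t.2.1).length = t.2.1.length := by unfold fl; simp
      refine le_of_eq ?_
      congr 1
      simp only [List.length_append, h12]
    · intro z _
      exact pow_nonneg hx _
  refine h3.trans ?_
  rw [sum_product]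
  simp only [sum_const, card_range, nsmul_eq_mul]
  rw [← mul_sum, pow_two, mul_assoc]
  exact mul_le_mul_of_nonneg_left (ea_sum_W hx hB L' g S) (Nat.cast_nonneg g)
-- END ea

-- BEGIN eb
private theorem eb_nonneg {x : ℝ} (hx : 0 ≤ x) (L k : ℕ) (P : Word → Prop) : 0 ≤ em x L k P := by
  unfold Pool.Agent.SwR.em
  refine sum_nonneg fun E _ => ?_
  unfold Pool.Agent.SwR.wt
  exact prod_nonneg fun i _ => pow_nonneg hx _

private theorem eb_tre {x : ℝ} {L M a l : ℕ} {t : Word × Word × Word} (ht : t ∈ tre x L M a l) :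
    (a : ℤ) < D t.1 0 ∧ D t.1 0 ≤ (a : ℤ) + l ∧ (a : ℤ) < D t.2.2 0 ∧ D t.2.1 0 < D t.1 0 ∧
      D t.2.2 0 < D t.2.1 0 ∧
      t ∈ (wle L ×ˢ (wle L ×ˢ wle L)) ∧ Br t.1 ∧ Br t.2.1 ∧ Br t.2.2 ∧
      saw (t.1 ++ (fl t.2.1 ++ t.2.2)) ∧ Le x M l t.1 t.2.1 t.2.2 := by
  unfold tre at ht
  rw [mem_filter] at ht
  obtain ⟨h1, h2, h3, h4, h5, h6, h7, h8, h9, h10⟩ := ht
  exact ⟨by omega, h5, h8, h6, h7, h1, h2, h3, h4, h9, h10⟩

/-- MODULE eb. The windows are disjoint: the first span of a triple of `tre x L M (a + i l) l` is in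
`(a + i l, a + (i + 1) l]`, and the triple is in `TN L s l` (`s` = first span) with
`1 ≤ 4 * em x M (l + 1) ..`; `ext_tall` with `g = l`, `k = l + 1`. -/
theorem sum_Xm {x : ℝ} (hx : 0 ≤ x) (hB : ∀ L s, Bs x L s ≤ 1) (hPh : ∀ L, Ph x L ≤ 1)
    {L M S a l m : ℕ} (hS : 2 * l ≤ S) (ha : S ≤ a) (hb : a + m * l ≤ 2 * S) :
    ∑ i ∈ range m, Xm x L M (a + i * l) l ≤
      4 * (l : ℝ) ^ 2 * tall x (3 * L + (l + 1 + 1) * M) ((S : ℤ) - l) := by
  have hd1 : Set.PairwiseDisjoint (↑(range m) : Set ℕ) (fun i => tre x L M (a + i * l) l) := by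
    intro i _ j _ hij
    show Disjoint (tre x L M (a + i * l) l) (tre x L M (a + j * l) l)
    rw [Finset.disjoint_left]
    intro t hi hj
    obtain ⟨i1, i2, _⟩ := eb_tre hi
    obtain ⟨j1, j2, _⟩ := eb_tre hj
    push_cast at i1 i2 j1 j2
    rcases lt_or_gt_of_ne hij with h | h
    · have : (i + 1) * l ≤ j * l := Nat.mul_le_mul_right l h
      have h' : ((i : ℤ) + 1) * l ≤ (j : ℤ) * l := by exact_mod_cast this
      nlinarith
    · have : (j + 1) * l ≤ i * l := Nat.mul_le_mul_right l h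
      have h' : ((j : ℤ) + 1) * l ≤ (i : ℤ) * l := by exact_mod_cast this
      nlinarith
  have hd2 : Set.PairwiseDisjoint (↑(range S) : Set ℕ) (fun j => TN L (S + j + 1) l) := by
    intro i _ j _ hij
    show Disjoint (TN L (S + i + 1) l) (TN L (S + j + 1) l)
    rw [Finset.disjoint_left]
    intro t hi hj
    unfold TN TA at hi hj
    rw [mem_filter, mem_filter] at hi hj
    have h1 := hi.1.2.2.2.2.1
    have h2 := hj.1.2.2.2.2.1
    rw [h1] at h2
    have h3 : S + i + 1 = S + j + 1 := by exact_mod_cast h2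
    omega
  have hsub : (range m).biUnion (fun i => tre x L M (a + i * l) l) ⊆
      (range S).biUnion (fun j => TN L (S + j + 1) l) := by
    intro t ht
    rw [mem_biUnion] at ht ⊢
    obtain ⟨i, hi, ht⟩ := ht
    rw [mem_range] at hi
    obtain ⟨i1, i2, i3, i4, i5, i6, i7, i8, i9, i10, _⟩ := eb_tre ht
    have hil : (i + 1) * l ≤ m * l := Nat.mul_le_mul_right l hi
    have hil' : ((i : ℤ) + 1) * l ≤ (m : ℤ) * l := by exact_mod_cast hil
    have hb' : (a : ℤ) + m * l ≤ 2 * S := by exact_mod_cast hb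
    have ha' : (S : ℤ) ≤ a := by exact_mod_cast ha
    push_cast at i1 i2 i3
    have hnn : (0 : ℤ) ≤ (i : ℤ) * l := by positivity
    have hs1 : (S : ℤ) + 1 ≤ D t.1 0 := by linarith
    have hs2 : D t.1 0 ≤ 2 * (S : ℤ) := by nlinarith
    have hs3 : (((S + (D t.1 0 - S - 1).toNat + 1 : ℕ)) : ℤ) = D t.1 0 := by
      push_cast
      rw [Int.toNat_of_nonneg (by linarith)]
      ring
    refine ⟨(D t.1 0 - S - 1).toNat, ?_, ?_⟩
    · rw [mem_range]
      omega
    · unfold TN TA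
      rw [mem_filter, mem_filter, hs3]
      refine ⟨⟨i6, i7, i8, i9, rfl, i4, i5, ?_, i10⟩, ?_⟩
      · linarith
      · linarith
  have hF0 : ∀ t : Word × Word × Word, 0 ≤ 4 * (w3 x t *
      em x M (l + 1) (fun e => saw ((t.1 ++ (fl t.2.1 ++ t.2.2)) ++ e))) := fun t =>
    mul_nonneg (by norm_num) (mul_nonneg (pow_nonneg hx _) (eb_nonneg hx _ _ _))
  have h0 : ∀ t : Word × Word × Word, (fun e => saw (t.1 ++ (fl t.2.1 ++ (t.2.2 ++ e)))) =
      (fun e => saw ((t.1 ++ (fl t.2.1 ++ t.2.2)) ++ e)) := by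
    intro t
    funext e
    simp only [List.append_assoc]
  have e1 : ∑ i ∈ range m, Xm x L M (a + i * l) l =
      ∑ t ∈ (range m).biUnion (fun i => tre x L M (a + i * l) l), w3 x t := by
    rw [sum_biUnion hd1]
    rfl
  have e2 : ∑ t ∈ (range m).biUnion (fun i => tre x L M (a + i * l) l), w3 x t ≤
      ∑ t ∈ (range m).biUnion (fun i => tre x L M (a + i * l) l), 4 * (w3 x t *
        em x M (l + 1) (fun e => saw ((t.1 ++ (fl t.2.1 ++ t.2.2)) ++ e))) := by
    refine sum_le_sum fun t ht => ?_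
    rw [mem_biUnion] at ht
    obtain ⟨i, _, ht⟩ := ht
    obtain ⟨_, _, _, _, _, _, _, _, _, _, hle⟩ := eb_tre ht
    unfold Le at hle
    rw [h0 t] at hle
    have h3 : 0 ≤ w3 x t := pow_nonneg hx _
    nlinarith [mul_le_mul_of_nonneg_left hle h3]
  have e3 := sum_le_sum_of_subset_of_nonneg hsub (fun t _ _ => hF0 t)
  have e4 := sum_biUnion hd2 (f := fun t => 4 * (w3 x t *
        em x M (l + 1) (fun e => saw ((t.1 ++ (fl t.2.1 ++ t.2.2)) ++ e))))
  have e5 := ext_tall (L := L) (M := M) (S := S) (g := l) (k := l + 1) hx hB hPh hS (Nat.le_succ l)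
  have e6 : ∑ j ∈ range S, ∑ t ∈ TN L (S + j + 1) l, 4 * (w3 x t *
        em x M (l + 1) (fun e => saw ((t.1 ++ (fl t.2.1 ++ t.2.2)) ++ e))) =
      4 * ∑ j ∈ range S, ∑ t ∈ TN L (S + j + 1) l, w3 x t *
        em x M (l + 1) (fun e => saw ((t.1 ++ (fl t.2.1 ++ t.2.2)) ++ e)) := by
    simp only [← mul_sum]
  rw [e1]
  refine e2.trans (e3.trans ?_)
  rw [e4, e6]
  linarith
-- END eb

-- BEGIN ec
/-- MODULE ec. `tall = Qf (irs L') ..`, `Qf_Uf` for the law `irs L'`, `M ≤ L'`: `Uf_sub` (`irs_mono`);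
`Uf S ≤ 2 Uf (S - l)` by `Uf_add`, `Uf_mono` (`l ≤ S - l`). -/
theorem tall_le {x : ℝ} (hx : 0 ≤ x) (hPh : ∀ L, Ph x L ≤ 1) {L' M S l : ℕ} (hM : M ≤ L') (hl : 2 * l ≤ S) :
    tall x L' ((S : ℤ) - l) ≤ 2 / UM x M S := by
  have hw : ∀ L : ℕ, ∀ p ∈ irs L, 0 ≤ (fun p : Word => x ^ p.length) p := fun _ _ _ => pow_nonneg hx _
  have hD : ∀ L : ℕ, ∀ p ∈ irs L, 1 ≤ ev 0 (D p) := fun _ _ hp => (mem_irs.1 hp).2.one_le
  have h1 : tall x L' ((S : ℤ) - l) = Qf (irs L') (fun p => x ^ p.length) D (ev 0) (S - l) := by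
    unfold tall Qf
    rw [sum_filter]
    refine sum_congr rfl fun p _ => ?_
    have : (((S - l : ℕ)) : ℤ) = (S : ℤ) - l := by
      rw [Nat.cast_sub (by omega)]
    rw [this]
    rfl
  have h2 := Qf_Uf (hw L') (hPh L') (hD L') (S - l)
  have h3 : UM x M (S - l) ≤ Uf (irs L') (fun p => x ^ p.length) D (ev 0) (S - l) :=
    Uf_sub (irs_mono hM) (hw L') (S - l)
  have h4 : UM x M (S - l + l) ≤ UM x M (S - l) + UM x M l := Uf_add (hw M) (hPh M) (hD M) (S - l) l
  have h5 : UM x M l ≤ UM x M (S - l) := Uf_mono (hw M) (by omega)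
  have h6 : 1 ≤ UM x M S := Uf_one_le (hw M) S
  have e : S - l + l = S := by omega
  rw [e] at h4
  have h0 : 0 ≤ tall x L' ((S : ℤ) - l) := sum_nonneg fun _ _ => pow_nonneg hx _
  rw [← h1] at h2
  rw [le_div_iff₀ (by linarith)]
  nlinarith

theorem sum_Xm_le {x : ℝ} (hx : 0 ≤ x) (hB : ∀ L s, Bs x L s ≤ 1) (hPh : ∀ L, Ph x L ≤ 1)
    {L M S a l m : ℕ} (hS : 2 * l ≤ S) (ha : S ≤ a) (hb : a + m * l ≤ 2 * S) :
    ∑ i ∈ range m, Xm x L M (a + i * l) l ≤ 8 * (l : ℝ) ^ 2 / UM x M S := by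
  have h1 := sum_Xm (L := L) (M := M) (m := m) hx hB hPh hS ha hb
  have hM : M ≤ 3 * L + (l + 1 + 1) * M := by nlinarith
  have h2 := tall_le (M := M) (S := S) (l := l) hx hPh hM hS
  have h3 : (0 : ℝ) ≤ 4 * (l : ℝ) ^ 2 := by positivity
  refine h1.trans ((mul_le_mul_of_nonneg_left h2 h3).trans (le_of_eq ?_))
  ring
-- END ec

end Pool.Agent.SwT
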