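import Mathlib

/-!
# STAR with exponent 2/3: halving of bad windows, counting, numbers (rows wa - wc)
-/

set_option autoImplicit false

namespace Pool.Agent.SwT

open Finset
open scoped Classical

-- BEGIN wa
private theorem wa_add (Bad : ℕ → ℕ → Prop) (j a n m : ℕ) :
    ((range (n + m)).filter (fun i => Bad (a + i * 2 ^ j) j)).card =
      ((range n).filter (fun i => Bad (a + i * 2 ^ j) j)).card +
        ((range m).filter (fun i => Bad (a + n * 2 ^ j + i * 2 ^ j) j)).card := by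
  rw [Finset.card_filter, Finset.card_filter, Finset.card_filter, Finset.sum_range_add]
  congr 1
  apply Finset.sum_congr rfl
  intro i _
  have : a + (n + i) * 2 ^ j = a + n * 2 ^ j + i * 2 ^ j := by ring
  rw [this]

/-- MODULE wa. Induction on `k`: a good window costs `R`; a bad one is cut in two halves. -/
theorem halve1 {f : ℕ → ℝ} (hf : ∀ n, 0 < f n) {R : ℝ} (hR : 1 ≤ R) (Bad : ℕ → ℕ → Prop) {a0 b : ℕ}
    (h1 : ∀ a, a0 ≤ a → a + 1 ≤ b → f (a + 1) ≤ R * f a)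
    (h2 : ∀ a k, 1 ≤ k → a0 ≤ a → a + 2 ^ k ≤ b → ¬ Bad a k → f (a + 2 ^ k) ≤ R * f a)
    (k a : ℕ) (ha : a0 ≤ a) (hb : a + 2 ^ k ≤ b) :
    f (a + 2 ^ k) ≤ R ^ (1 + 2 * ∑ j ∈ Icc 1 k,
      ((range (2 ^ (k - j))).filter (fun i => Bad (a + i * 2 ^ j) j)).card) * f a := by
  induction k generalizing a with
  | zero =>
    have := h1 a ha (by simpa using hb)
    simpa using this
  | succ k ih =>
    have hp : 0 < 2 ^ k := by positivity
    by_cases hgd : Bad a (k + 1)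
    · have e : a + 2 ^ (k + 1) = (a + 2 ^ k) + 2 ^ k := by ring
      have i1 := ih a ha (by omega)
      have i2 := ih (a + 2 ^ k) (by omega) (by omega)
      rw [e]
      have hs : ∑ j ∈ Icc 1 (k + 1),
          ((range (2 ^ (k + 1 - j))).filter (fun i => Bad (a + i * 2 ^ j) j)).card =
          (∑ j ∈ Icc 1 k, ((range (2 ^ (k - j))).filter (fun i => Bad (a + i * 2 ^ j) j)).card +
          ∑ j ∈ Icc 1 k,
            ((range (2 ^ (k - j))).filter (fun i => Bad (a + 2 ^ k + i * 2 ^ j) j)).card) + 1 := by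
        rw [Finset.sum_Icc_succ_top (by omega), ← Finset.sum_add_distrib]
        congr 1
        · apply Finset.sum_congr rfl
          intro j hj
          have hj' := Finset.mem_Icc.1 hj
          have e1 : 2 ^ (k + 1 - j) = 2 ^ (k - j) + 2 ^ (k - j) := by
            rw [← two_mul, ← pow_succ']
            congr 1
            omega
          have e2 : 2 ^ (k - j) * 2 ^ j = 2 ^ k := by
            rw [← pow_add]
            congr 1
            omega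
          rw [e1, wa_add, e2]
        · rw [Nat.sub_self, pow_zero, Finset.card_filter, Finset.sum_range_one, zero_mul, add_zero,
            if_pos hgd]
      rw [hs]
      have hA := (pow_pos (by linarith : (0 : ℝ) < R) (1 + 2 * ∑ j ∈ Icc 1 k,
            ((range (2 ^ (k - j))).filter (fun i => Bad (a + 2 ^ k + i * 2 ^ j) j)).card)).le
      refine le_trans i2 (le_trans (mul_le_mul_of_nonneg_left i1 hA) ?_)
      rw [← mul_assoc, ← pow_add]
      refine mul_le_mul_of_nonneg_right (pow_le_pow_right₀ hR (by omega)) (hf a).le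
    · refine le_trans (h2 a (k + 1) (by omega) ha hb hgd) ?_
      refine mul_le_mul_of_nonneg_right ?_ (hf a).le
      calc R = R ^ 1 := (pow_one R).symm
        _ ≤ _ := pow_le_pow_right₀ hR (by omega)

/-- `m` windows of length `2 ^ k` one after the other -/
theorem halve {f : ℕ → ℝ} (hf : ∀ n, 0 < f n) {R : ℝ} (hR : 1 ≤ R) (Bad : ℕ → ℕ → Prop) {a0 b : ℕ}
    (h1 : ∀ a, a0 ≤ a → a + 1 ≤ b → f (a + 1) ≤ R * f a)
    (h2 : ∀ a k, 1 ≤ k → a0 ≤ a → a + 2 ^ k ≤ b → ¬ Bad a k → f (a + 2 ^ k) ≤ R * f a)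
    (k m a : ℕ) (ha : a0 ≤ a) (hb : a + m * 2 ^ k ≤ b) :
    f (a + m * 2 ^ k) ≤ R ^ (m + 2 * ∑ j ∈ Icc 1 k,
      ((range (m * 2 ^ (k - j))).filter (fun i => Bad (a + i * 2 ^ j) j)).card) * f a := by
  induction m with
  | zero => simp
  | succ m ih =>
    have e : a + (m + 1) * 2 ^ k = (a + m * 2 ^ k) + 2 ^ k := by ring
    rw [e] at hb ⊢
    have hp : 0 < 2 ^ k := by positivity
    have i1 := ih (le_trans (Nat.le_add_right _ _) hb)
    have i2 := halve1 hf hR Bad h1 h2 k (a + m * 2 ^ k) (by omega) hb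
    have hs : ∑ j ∈ Icc 1 k,
        ((range ((m + 1) * 2 ^ (k - j))).filter (fun i => Bad (a + i * 2 ^ j) j)).card =
        ∑ j ∈ Icc 1 k, ((range (m * 2 ^ (k - j))).filter (fun i => Bad (a + i * 2 ^ j) j)).card +
        ∑ j ∈ Icc 1 k,
          ((range (2 ^ (k - j))).filter (fun i => Bad (a + m * 2 ^ k + i * 2 ^ j) j)).card := by
      rw [← Finset.sum_add_distrib]
      apply Finset.sum_congr rfl
      intro j hj
      have hj' := Finset.mem_Icc.1 hj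
      have e1 : (m + 1) * 2 ^ (k - j) = m * 2 ^ (k - j) + 2 ^ (k - j) := by ring
      have e2 : m * 2 ^ (k - j) * 2 ^ j = m * 2 ^ k := by
        rw [mul_assoc, ← pow_add]
        congr 2
        omega
      rw [e1, wa_add, e2]
    rw [hs]
    have hA := (pow_pos (by linarith : (0 : ℝ) < R) (1 + 2 * ∑ j ∈ Icc 1 k,
          ((range (2 ^ (k - j))).filter (fun i => Bad (a + m * 2 ^ k + i * 2 ^ j) j)).card)).le
    refine le_trans i2 (le_trans (mul_le_mul_of_nonneg_left i1 hA) ?_)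
    rw [← mul_assoc, ← pow_add]
    refine mul_le_mul_of_nonneg_right (pow_le_pow_right₀ hR (by omega)) (hf a).le

/-- from `S` to `2 S`: `S / 2 ^ k` windows of length `2 ^ k` and less than `2 ^ k` single levels -/
theorem halve_all {f : ℕ → ℝ} (hf : ∀ n, 0 < f n) {R : ℝ} (hR : 1 ≤ R) (Bad : ℕ → ℕ → Prop) {S : ℕ}
    (h1 : ∀ a, S ≤ a → a + 1 ≤ 2 * S → f (a + 1) ≤ R * f a)
    (h2 : ∀ a k, 1 ≤ k → S ≤ a → a + 2 ^ k ≤ 2 * S → ¬ Bad a k → f (a + 2 ^ k) ≤ R * f a) (k : ℕ) :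
    f (2 * S) ≤ R ^ (S / 2 ^ k + 2 ^ k + 2 * ∑ j ∈ Icc 1 k,
      ((range (S / 2 ^ k * 2 ^ (k - j))).filter (fun i => Bad (S + i * 2 ^ j) j)).card) * f S := by
  have hpos : 0 < 2 ^ k := by positivity
  have hdm : S / 2 ^ k * 2 ^ k + S % 2 ^ k = S := Nat.div_add_mod' S (2 ^ k)
  have hrl : S % 2 ^ k < 2 ^ k := Nat.mod_lt _ hpos
  have i1 := halve hf hR Bad h1 h2 k (S / 2 ^ k) S le_rfl (by omega)
  have i2 := halve hf hR Bad h1 h2 0 (S % 2 ^ k) (S + S / 2 ^ k * 2 ^ k) (by omega) (by omega)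
  have e1 : S + S / 2 ^ k * 2 ^ k + S % 2 ^ k * 2 ^ 0 = 2 * S := by rw [pow_zero]; omega
  rw [e1] at i2
  have hA := (pow_pos (by linarith : (0 : ℝ) < R) (S % 2 ^ k + 2 * ∑ j ∈ Icc 1 0,
    ((range (S % 2 ^ k * 2 ^ (0 - j))).filter
      (fun i => Bad (S + S / 2 ^ k * 2 ^ k + i * 2 ^ j) j)).card)).le
  refine le_trans i2 (le_trans (mul_le_mul_of_nonneg_left i1 hA) ?_)
  rw [← mul_assoc, ← pow_add]
  refine mul_le_mul_of_nonneg_right (pow_le_pow_right₀ hR ?_) (hf S).le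
  have e2 : ∑ j ∈ Icc 1 0, ((range (S % 2 ^ k * 2 ^ (0 - j))).filter
      (fun i => Bad (S + S / 2 ^ k * 2 ^ k + i * 2 ^ j) j)).card = 0 := by simp
  rw [e2]
  omega
-- END wa

-- BEGIN wb
/-- MODULE wb. `1 ≤ sqrt (c u_i v_i) = sqrt c sqrt u_i sqrt v_i` on the set, Cauchy - Schwarz
(`Real.sum_sqrt_mul_sqrt_le`). -/
theorem count_prod {n : ℕ} {u v : ℕ → ℝ} (hu : ∀ i, 0 ≤ u i) (hv : ∀ i, 0 ≤ v i) {c : ℝ} (hc : 0 ≤ c) :
    (((range n).filter (fun i => 1 < c * (u i * v i))).card : ℝ) ≤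
      Real.sqrt c * (Real.sqrt (∑ i ∈ range n, u i) * Real.sqrt (∑ i ∈ range n, v i)) := by
  calc (((range n).filter (fun i => 1 < c * (u i * v i))).card : ℝ)
      = ∑ i ∈ (range n).filter (fun i => 1 < c * (u i * v i)), (1 : ℝ) := by
        rw [Finset.sum_const, nsmul_eq_mul, mul_one]
    _ ≤ ∑ i ∈ (range n).filter (fun i => 1 < c * (u i * v i)), Real.sqrt c * (Real.sqrt (u i) * Real.sqrt (v i)) := by
        refine Finset.sum_le_sum fun i hi => ?_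
        rw [Finset.mem_filter] at hi
        rw [← Real.sqrt_mul (hu i), ← Real.sqrt_mul hc]
        exact Real.one_le_sqrt.2 hi.2.le
    _ ≤ ∑ i ∈ range n, Real.sqrt c * (Real.sqrt (u i) * Real.sqrt (v i)) :=
        Finset.sum_le_sum_of_subset_of_nonneg (Finset.filter_subset _ _) fun i _ _ =>
          mul_nonneg (Real.sqrt_nonneg _) (mul_nonneg (Real.sqrt_nonneg _) (Real.sqrt_nonneg _))
    _ = Real.sqrt c * ∑ i ∈ range n, Real.sqrt (u i) * Real.sqrt (v i) := by rw [Finset.mul_sum]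
    _ ≤ Real.sqrt c * (Real.sqrt (∑ i ∈ range n, u i) * Real.sqrt (∑ i ∈ range n, v i)) :=
        mul_le_mul_of_nonneg_left (Real.sum_sqrt_mul_sqrt_le _ hu hv) (Real.sqrt_nonneg _)

theorem count_one {n : ℕ} {X : ℕ → ℝ} (hX : ∀ i, 0 ≤ X i) {c : ℝ} (hc : 0 ≤ c) :
    (((range n).filter (fun i => 1 < c * X i)).card : ℝ) ≤ c * ∑ i ∈ range n, X i := by
  calc (((range n).filter (fun i => 1 < c * X i)).card : ℝ)
      = ∑ i ∈ (range n).filter (fun i => 1 < c * X i), (1 : ℝ) := by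
        rw [Finset.sum_const, nsmul_eq_mul, mul_one]
    _ ≤ ∑ i ∈ (range n).filter (fun i => 1 < c * X i), c * X i := by
        refine Finset.sum_le_sum fun i hi => ?_
        rw [Finset.mem_filter] at hi
        exact hi.2.le
    _ ≤ ∑ i ∈ range n, c * X i :=
        Finset.sum_le_sum_of_subset_of_nonneg (Finset.filter_subset _ _) fun i _ _ => mul_nonneg hc (hX i)
    _ = c * ∑ i ∈ range n, X i := by rw [Finset.mul_sum]
-- END wb

-- BEGIN wc
private theorem wc_log {ε s : ℝ} (hε : 0 < ε) (hs : 1 ≤ s) : Real.log s + 1 ≤ (1 / ε + 1) * s ^ ε := by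
  have h1 := Real.log_le_rpow_div (by linarith : (0 : ℝ) ≤ s) hε
  have h2 : 1 ≤ s ^ ε := Real.one_le_rpow hs hε.le
  have h3 : s ^ ε / ε = (1 / ε) * s ^ ε := by ring
  rw [h3] at h1
  calc Real.log s + 1 ≤ (1 / ε) * s ^ ε + s ^ ε := add_le_add h1 h2
    _ = _ := by ring

private theorem wc_sum4 (n : ℕ) : ∑ j ∈ Icc 1 n, ((2 : ℝ) ^ j) ^ 2 ≤ 2 * (2 ^ n) ^ 2 := by
  induction n with
  | zero => simp
  | succ n ih =>
    rw [sum_Icc_succ_top (by omega)]
    have h : ((2 : ℝ) ^ (n + 1)) ^ 2 = 4 * (2 ^ n) ^ 2 := by rw [pow_succ]; ring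
    rw [h]
    have : (0 : ℝ) ≤ (2 ^ n) ^ 2 := by positivity
    linarith

private theorem wc_sum16 (n : ℕ) : ∑ j ∈ Icc 1 n, ((2 : ℝ) ^ j) ^ 4 ≤ 2 * (2 ^ n) ^ 4 := by
  induction n with
  | zero => simp
  | succ n ih =>
    rw [sum_Icc_succ_top (by omega)]
    have h : ((2 : ℝ) ^ (n + 1)) ^ 4 = 16 * (2 ^ n) ^ 4 := by rw [pow_succ]; ring
    rw [h]
    have : (0 : ℝ) ≤ (2 ^ n) ^ 4 := by positivity
    linarith

private theorem wc_sqrt {x : ℝ} (hx : 1 ≤ x) : Real.sqrt x ≤ x := by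
  rw [Real.sqrt_le_left (by linarith)]
  nlinarith

/-- MODULE wc. **Numbers.** Take `k0` with `2 ^ k0 ≤ S ^ (1/3) < 2 ^ (k0 + 1)`; `k0 ≤ 2 log S`; every power of
`log (S + 1)` is at most a constant times `S ^ δ`, `δ = (a - 2 / 3) / 4`; `∑_(j ≤ k0) 4 ^ j ≤ 2 * 4 ^ k0 ≤ 2 S ^ (2/3)`,
`∑ 16 ^ j / U ≤ 2 * S ^ (4/3) / S ^ (2/3)`. -/
theorem num23 {C : ℝ} (hC : 1 ≤ C) (k : ℕ) {a : ℝ} (ha : 2 / 3 < a) : ∃ C' : ℝ, 0 < C' ∧ ∀ S : ℕ, 64 ≤ S →
    ∃ k0 : ℕ, 4 * 2 ^ k0 ≤ S ∧ ∀ U : ℝ, (S : ℝ) ^ (2 / 3 : ℝ) ≤ U →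
      Real.log (12 * (S : ℝ) ^ 2) * (S / 2 ^ k0 + 2 ^ k0 + 2 * ∑ j ∈ Icc 1 k0,
        (Real.sqrt (C * (Real.log S + 1) ^ k * (2 ^ j) ^ 4) * Real.sqrt (24 + 6 * Real.log (S + 1)) +
          96 * (2 ^ j) ^ 4 / U)) ≤ C' * (S : ℝ) ^ a := by
  set δ : ℝ := (a - 2 / 3) / 4 with hδ
  have hδ0 : 0 < δ := by rw [hδ]; linarith
  set δ' : ℝ := δ / (k + 1) with hδ'
  have hk1 : (0 : ℝ) < (k : ℝ) + 1 := by positivity
  have hδ'0 : 0 < δ' := by rw [hδ']; positivity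
  set c1 : ℝ := C * (1 / δ' + 1) ^ k with hc1
  set c2 : ℝ := 30 * (1 / δ + 1) with hc2
  set c3 : ℝ := 3 * (1 / δ + 1) with hc3
  have hc10 : 0 ≤ c1 := by rw [hc1]; positivity
  have hc20 : 0 ≤ c2 := by rw [hc2]; positivity
  have hc30 : 0 < c3 := by rw [hc3]; positivity
  refine ⟨c3 * (393 + 4 * (c1 * c2)), by positivity, fun S hS => ?_⟩
  have hS1 : (64 : ℝ) ≤ S := by exact_mod_cast hS
  have hs1 : (1 : ℝ) ≤ S := by linarith
  set s : ℝ := (S : ℝ) with hs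
  have hs0 : 0 < s := by linarith
  -- the scale
  set k0 := Nat.log 8 S with hk0
  have h8 : 8 ^ k0 ≤ S := Nat.pow_log_le_self 8 (by omega)
  have h8' : S < 8 ^ (k0 + 1) := Nat.lt_pow_succ_log_self (by norm_num) S
  have hk2 : 2 ≤ k0 := (Nat.le_log_iff_pow_le (by norm_num) (by omega)).2 (by omega)
  set T : ℝ := (2 : ℝ) ^ k0 with hT
  have hT4 : 4 ≤ T := by
    calc (4 : ℝ) = 2 ^ 2 := by norm_num
      _ ≤ 2 ^ k0 := pow_le_pow_right₀ (by norm_num) hk2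
  have hT3 : T ^ 3 ≤ s := by
    have h : T ^ 3 = ((8 ^ k0 : ℕ) : ℝ) := by
      rw [hT, ← pow_mul, mul_comm, pow_mul]
      push_cast
      norm_num
    rw [h, hs]
    exact_mod_cast h8
  have hT3' : s ≤ 8 * T ^ 3 := by
    have h : 8 * T ^ 3 = ((8 ^ (k0 + 1) : ℕ) : ℝ) := by
      rw [hT, ← pow_mul, mul_comm k0 3, pow_mul]
      push_cast
      rw [pow_succ]
      norm_num
      ring
    rw [h, hs]
    exact_mod_cast h8'.le
  have h4 : 4 * 2 ^ k0 ≤ S := by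
    have h : 4 * T ≤ s := by nlinarith [sq_nonneg T, mul_le_mul hT4 hT4 (by norm_num) (by linarith)]
    rw [hT, hs] at h
    exact_mod_cast h
  set q : ℝ := s ^ (2 / 3 : ℝ) with hq
  have hq0 : 0 < q := Real.rpow_pos_of_pos hs0 _
  have hTq : T ^ 2 ≤ q := by
    have h1 : T ≤ s ^ (1 / 3 : ℝ) := by
      have h2 : T = (T ^ 3) ^ (1 / 3 : ℝ) := by
        rw [← Real.rpow_natCast, ← Real.rpow_mul (by linarith)]
        norm_num
      rw [h2]
      exact Real.rpow_le_rpow (by positivity) hT3 (by norm_num)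
    have h3 : q = (s ^ (1 / 3 : ℝ)) ^ 2 := by
      rw [hq, ← Real.rpow_natCast, ← Real.rpow_mul hs0.le]
      norm_num
    rw [h3]
    exact pow_le_pow_left₀ (by linarith) h1 2
  refine ⟨k0, h4, fun U hU => ?_⟩
  have hU0 : 0 < U := lt_of_lt_of_le hq0 hU
  -- logarithms
  have hlog0 : 0 ≤ Real.log s := Real.log_nonneg hs1
  have hL : Real.log s + 1 ≤ (1 / δ + 1) * s ^ δ := wc_log hδ0 hs1
  have hL' : Real.log s + 1 ≤ (1 / δ' + 1) * s ^ δ' := wc_log hδ'0 hs1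
  have hsd : 1 ≤ s ^ δ := Real.one_le_rpow hs1 hδ0.le
  have hlog12 : Real.log (12 * s ^ 2) ≤ c3 * s ^ δ := by
    rw [Real.log_mul (by norm_num) (by positivity), Real.log_pow]
    have h1 : Real.log 12 ≤ 3 := by
      rw [Real.log_le_iff_le_exp (by norm_num)]
      have h2 : (2.7182818283 : ℝ) ^ 3 ≤ Real.exp 1 ^ 3 := pow_le_pow_left₀ (by norm_num) Real.exp_one_gt_d9.le 3
      have h3 : Real.exp 1 ^ 3 = Real.exp 3 := by rw [← Real.exp_nat_mul]; norm_num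
      rw [h3] at h2
      refine le_trans ?_ h2
      norm_num
    push_cast
    rw [hc3]
    nlinarith
  have hlog12' : 0 ≤ Real.log (12 * s ^ 2) := Real.log_nonneg (by nlinarith)
  have hroot2 : Real.sqrt (24 + 6 * Real.log (s + 1)) ≤ c2 * s ^ δ := by
    have h1 : Real.log (s + 1) ≤ Real.log s + 1 := by
      have h2 : Real.log (s + 1) ≤ Real.log (2 * s) := Real.log_le_log (by linarith) (by linarith)
      rw [Real.log_mul (by norm_num) (by positivity)] at h2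
      have h3 : Real.log 2 ≤ 1 := by linarith [Real.log_two_lt_d9]
      linarith
    have h0 : 0 ≤ Real.log (s + 1) := Real.log_nonneg (by linarith)
    refine (wc_sqrt (by linarith)).trans ?_
    rw [hc2]
    nlinarith
  have hy1 : 1 ≤ C * (Real.log s + 1) ^ k := by
    have h1 : 1 ≤ (Real.log s + 1) ^ k := one_le_pow₀ (by linarith)
    nlinarith
  have hroot1 : ∀ j : ℕ, Real.sqrt (C * (Real.log s + 1) ^ k * (2 ^ j) ^ 4) ≤ c1 * s ^ δ * (2 ^ j) ^ 2 := by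
    intro j
    have h1 : ((2 : ℝ) ^ j) ^ 4 = ((2 ^ j) ^ 2) ^ 2 := by ring
    rw [h1, Real.sqrt_mul (by linarith), Real.sqrt_sq (by positivity)]
    apply mul_le_mul_of_nonneg_right _ (by positivity)
    refine (wc_sqrt hy1).trans ?_
    rw [hc1, mul_assoc]
    apply mul_le_mul_of_nonneg_left _ (by linarith)
    have h2 : (Real.log s + 1) ^ k ≤ ((1 / δ' + 1) * s ^ δ') ^ k := pow_le_pow_left₀ (by linarith) hL' k
    refine h2.trans ?_
    rw [mul_pow]
    apply mul_le_mul_of_nonneg_left _ (by positivity)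
    rw [← Real.rpow_natCast, ← Real.rpow_mul hs0.le]
    apply Real.rpow_le_rpow_of_exponent_le hs1
    rw [hδ', div_mul_eq_mul_div, div_le_iff₀ hk1]
    nlinarith
  -- the sum
  have hsum : ∑ j ∈ Icc 1 k0, (Real.sqrt (C * (Real.log s + 1) ^ k * (2 ^ j) ^ 4) * Real.sqrt (24 + 6 * Real.log (s + 1)) +
      96 * (2 ^ j) ^ 4 / U) ≤ 2 * (c1 * c2) * (s ^ δ * s ^ δ) * q + 192 * q := by
    have h1 : ∀ j ∈ Icc 1 k0, Real.sqrt (C * (Real.log s + 1) ^ k * (2 ^ j) ^ 4) * Real.sqrt (24 + 6 * Real.log (s + 1)) +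
        96 * (2 ^ j) ^ 4 / U ≤ (c1 * c2) * (s ^ δ * s ^ δ) * (2 ^ j) ^ 2 + (96 / U) * (2 ^ j) ^ 4 := by
      intro j _
      apply add_le_add
      · calc Real.sqrt (C * (Real.log s + 1) ^ k * (2 ^ j) ^ 4) * Real.sqrt (24 + 6 * Real.log (s + 1))
            ≤ (c1 * s ^ δ * (2 ^ j) ^ 2) * (c2 * s ^ δ) :=
              mul_le_mul (hroot1 j) hroot2 (Real.sqrt_nonneg _) (by positivity)
          _ = _ := by ring
      · apply le_of_eq
        ring
    refine (sum_le_sum h1).trans ?_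
    rw [sum_add_distrib, ← mul_sum, ← mul_sum]
    apply add_le_add
    · have h2 := wc_sum4 k0
      have h3 : ∑ j ∈ Icc 1 k0, ((2 : ℝ) ^ j) ^ 2 ≤ 2 * q := by
        refine h2.trans ?_
        linarith
      calc (c1 * c2) * (s ^ δ * s ^ δ) * ∑ j ∈ Icc 1 k0, ((2 : ℝ) ^ j) ^ 2
          ≤ (c1 * c2) * (s ^ δ * s ^ δ) * (2 * q) := mul_le_mul_of_nonneg_left h3 (by positivity)
        _ = _ := by ring
    · have h2 := wc_sum16 k0
      have h3 : ∑ j ∈ Icc 1 k0, ((2 : ℝ) ^ j) ^ 4 ≤ 2 * (q * q) := by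
        refine h2.trans ?_
        have h4 : T ^ 4 = T ^ 2 * T ^ 2 := by ring
        have h5 : T ^ 2 * T ^ 2 ≤ q * q := mul_le_mul hTq hTq (by positivity) hq0.le
        rw [← hT, h4]
        linarith
      calc (96 / U) * ∑ j ∈ Icc 1 k0, ((2 : ℝ) ^ j) ^ 4 ≤ (96 / U) * (2 * (q * q)) :=
            mul_le_mul_of_nonneg_left h3 (by positivity)
        _ = 192 * q * (q / U) := by ring
        _ ≤ 192 * q * 1 := by
            apply mul_le_mul_of_nonneg_left _ (by positivity)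
            rw [div_le_one hU0]
            exact hU
        _ = 192 * q := mul_one _
  have hfirst : s / 2 ^ k0 + 2 ^ k0 ≤ 9 * q := by
    have h1 : s / T ≤ 8 * T ^ 2 := by
      rw [div_le_iff₀ (by linarith)]
      calc s ≤ 8 * T ^ 3 := hT3'
        _ = _ := by ring
    have h2 : T ≤ T ^ 2 := by nlinarith
    rw [← hT]
    linarith
  have hin : s / 2 ^ k0 + 2 ^ k0 + 2 * ∑ j ∈ Icc 1 k0,
        (Real.sqrt (C * (Real.log s + 1) ^ k * (2 ^ j) ^ 4) * Real.sqrt (24 + 6 * Real.log (s + 1)) +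
          96 * (2 ^ j) ^ 4 / U) ≤ (393 + 4 * (c1 * c2)) * ((s ^ δ * s ^ δ) * q) := by
    have h1 : 1 ≤ s ^ δ * s ^ δ := by nlinarith
    have h2 : q ≤ (s ^ δ * s ^ δ) * q := le_mul_of_one_le_left hq0.le h1
    calc _ ≤ 9 * q + 2 * (2 * (c1 * c2) * (s ^ δ * s ^ δ) * q + 192 * q) := by linarith
      _ = 393 * q + 4 * (c1 * c2) * ((s ^ δ * s ^ δ) * q) := by ring
      _ ≤ 393 * ((s ^ δ * s ^ δ) * q) + 4 * (c1 * c2) * ((s ^ δ * s ^ δ) * q) := by linarith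
      _ = _ := by ring
  have hpos : 0 ≤ (393 + 4 * (c1 * c2)) * ((s ^ δ * s ^ δ) * q) := by positivity
  calc _ ≤ Real.log (12 * s ^ 2) * ((393 + 4 * (c1 * c2)) * ((s ^ δ * s ^ δ) * q)) :=
        mul_le_mul_of_nonneg_left hin hlog12'
    _ ≤ (c3 * s ^ δ) * ((393 + 4 * (c1 * c2)) * ((s ^ δ * s ^ δ) * q)) :=
        mul_le_mul_of_nonneg_right hlog12 hpos
    _ = c3 * (393 + 4 * (c1 * c2)) * (s ^ δ * (s ^ δ * s ^ δ) * q) := by ring
    _ ≤ c3 * (393 + 4 * (c1 * c2)) * s ^ a := by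
        apply mul_le_mul_of_nonneg_left _ (by positivity)
        rw [hq, ← Real.rpow_add hs0, ← Real.rpow_add hs0, ← Real.rpow_add hs0]
        apply Real.rpow_le_rpow_of_exponent_le hs1
        rw [hδ]
        linarith
-- END wc

end Pool.Agent.SwT
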