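import Pool.Agent.SwT.Run
import Pool.Agent.SwT.Ext2
import Pool.Agent.SwT.Win
import Pool.Agent.SwR.Star

/-!
# STAR with exponent 2/3: assembly (rows fa - fe)
-/

set_option autoImplicit false

namespace Pool.Agent.SwT

open Finset
open scoped Classical
open Pool.Agent.R19 Pool.Agent.SwR Pool.Agent.SwP

variable [Pool.Agent.SwP.Dim]

/-- bad windows `(a, a + 2 ^ j]` -/
def Bd (x : ℝ) (L M S : ℕ) (K : ℝ) (a j : ℕ) : Prop :=
  ¬ Good x M S a (2 ^ j) K ∨ 1 < 12 * ((2 ^ j : ℕ) : ℝ) ^ 2 * Xm x L M a (2 ^ j)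

/-- the law of the pieces: weights -/
theorem law_nonneg {x : ℝ} (hx : 0 ≤ x) (M : ℕ) : ∀ p ∈ irs M, 0 ≤ (fun p : Word => x ^ p.length) p :=
  fun _ _ => pow_nonneg hx _

/-- the law of the pieces: heights -/
theorem law_ht (M : ℕ) : ∀ p ∈ irs M, 1 ≤ ev 0 (D p) := fun _ hp => (mem_irs.1 hp).2.one_le

-- BEGIN fa
/-- MODULE fa. `count_prod` for `u i = uI + S^-9`, `v i = rI + S^-9`, `c = K (2 ^ j) ^ 4`: the sums are at most
`Uf (2 S) + 1 ≤ 3 U` and `(4 + 2 log U) / U + S^-8 ≤ (5 + 2 log U) / U` (`sum_Pk0`, `sum_rho`, `Uf_add`, `Uf_le`), the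
product at most `24 + 6 log (S + 1)`; `count_one` for `c = 12 (2 ^ j) ^ 2` and `sum_Xm_le`. -/
theorem bad_card {x : ℝ} (hx : 0 ≤ x) (hB : ∀ L s, Bs x L s ≤ 1) (hPh : ∀ L, Ph x L ≤ 1)
    {L M S a m j : ℕ} {K : ℝ} (hK : 0 ≤ K) (hS2 : 2 ≤ S) (hS : 4 * 2 ^ j ≤ S) (ha : S ≤ a)
    (hb : a + m * 2 ^ j ≤ 2 * S) :
    (((range m).filter (fun i => Bd x L M S K (a + i * 2 ^ j) j)).card : ℝ) ≤
      Real.sqrt (K * (2 ^ j) ^ 4) * Real.sqrt (24 + 6 * Real.log (S + 1)) +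
        96 * (2 ^ j) ^ 4 / UM x M S := by
  have hw := law_nonneg hx M
  have hD := law_ht M
  have hw1 : ∑ p ∈ irs M, (fun p : Word => x ^ p.length) p ≤ 1 := hPh M
  have hl1 : 1 ≤ 2 ^ j := Nat.one_le_two_pow
  have hmS : m ≤ S := by nlinarith
  have hU1 : 1 ≤ UM x M S := Uf_one_le hw S
  have hU0 : 0 < UM x M S := lt_of_lt_of_le one_pos hU1
  have hUle : UM x M S ≤ (S : ℝ) + 1 := Uf_le hw hw1 S
  have hS2' : (2 : ℝ) ≤ S := by exact_mod_cast hS2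
  have hmS' : (m : ℝ) ≤ S := by exact_mod_cast hmS
  have hS0 : (0 : ℝ) < S := by linarith
  have he0 : (0 : ℝ) ≤ 1 / (S : ℝ) ^ 9 := by positivity
  have hS8 : (S : ℝ) + 1 ≤ (S : ℝ) ^ 8 := by
    have h2 : (2 : ℝ) ^ 7 ≤ (S : ℝ) ^ 7 := pow_le_pow_left₀ (by norm_num) hS2' 7
    have h3 : (S : ℝ) ^ 8 = (S : ℝ) ^ 7 * S := by ring
    nlinarith
  have hme : (m : ℝ) * (1 / (S : ℝ) ^ 9) ≤ 1 / (S : ℝ) ^ 8 := by
    rw [mul_one_div, div_le_div_iff₀ (by positivity) (by positivity)]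
    have h3 : (S : ℝ) ^ 9 = S * (S : ℝ) ^ 8 := by ring
    rw [one_mul, h3]
    exact mul_le_mul_of_nonneg_right hmS' (by positivity)
  have hme1 : (m : ℝ) * (1 / (S : ℝ) ^ 9) * UM x M S ≤ 1 := by
    have h4 : (m : ℝ) * (1 / (S : ℝ) ^ 9) * UM x M S ≤ 1 / (S : ℝ) ^ 8 * (S : ℝ) ^ 8 :=
      mul_le_mul hme (hUle.trans hS8) hU0.le (by positivity)
    rwa [one_div_mul_cancel (by positivity)] at h4
  have hme2 : (m : ℝ) * (1 / (S : ℝ) ^ 9) ≤ 1 := by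
    have h0 : 0 ≤ (m : ℝ) * (1 / (S : ℝ) ^ 9) := by positivity
    nlinarith
  -- the two sums
  have hsu : ∑ i ∈ range m, (uI x M S (a + i * 2 ^ j) (2 ^ j) + 1 / (S : ℝ) ^ 9) ≤ 3 * UM x M S := by
    rw [sum_add_distrib, sum_const, card_range, nsmul_eq_mul]
    have h1 : ∑ i ∈ range m, uI x M S (a + i * 2 ^ j) (2 ^ j) ≤
        Uf (irs M) (fun p => x ^ p.length) D (ev 0) (a + m * 2 ^ j) :=
      sum_Pk0 hw hD (UM x M S) (2 * S) a (2 ^ j) m
    have h2 : Uf (irs M) (fun p => x ^ p.length) D (ev 0) (a + m * 2 ^ j) ≤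
        Uf (irs M) (fun p => x ^ p.length) D (ev 0) (S + S) := Uf_mono hw (by omega)
    have h3 : Uf (irs M) (fun p => x ^ p.length) D (ev 0) (S + S) ≤ UM x M S + UM x M S :=
      Uf_add hw hw1 hD S S
    linarith
  have hsv : (∑ i ∈ range m, (rI x M S (a + i * 2 ^ j) (2 ^ j) + 1 / (S : ℝ) ^ 9)) * UM x M S ≤
      5 + 2 * Real.log (S + 1) := by
    rw [sum_add_distrib, sum_const, card_range, nsmul_eq_mul, add_mul]
    have h1 : ∑ i ∈ range m, rI x M S (a + i * 2 ^ j) (2 ^ j) ≤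
        (4 + 2 * Real.log (UM x M S)) / UM x M S :=
      sum_rho hw hw1 hD ha hb
    have h2 : (∑ i ∈ range m, rI x M S (a + i * 2 ^ j) (2 ^ j)) * UM x M S ≤
        4 + 2 * Real.log (UM x M S) := by
      rwa [le_div_iff₀ hU0] at h1
    have h3 : Real.log (UM x M S) ≤ Real.log (S + 1) := Real.log_le_log hU0 hUle
    linarith
  have hu0 : ∀ i, 0 ≤ uI x M S (a + i * 2 ^ j) (2 ^ j) + 1 / (S : ℝ) ^ 9 := fun i =>
    add_nonneg (Pk_nonneg hw (UM x M S) hU1 _ _ _ _) he0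
  have hv0 : ∀ i, 0 ≤ rI x M S (a + i * 2 ^ j) (2 ^ j) + 1 / (S : ℝ) ^ 9 := fun i =>
    add_nonneg (rho_nonneg hw (UM x M S) hU1 _ _ _) he0
  have hc0 : 0 ≤ K * (((2 ^ j : ℕ)) : ℝ) ^ 4 := mul_nonneg hK (by positivity)
  have hsu0 : 0 ≤ ∑ i ∈ range m, (uI x M S (a + i * 2 ^ j) (2 ^ j) + 1 / (S : ℝ) ^ 9) :=
    sum_nonneg fun i _ => hu0 i
  have hsv0 : 0 ≤ ∑ i ∈ range m, (rI x M S (a + i * 2 ^ j) (2 ^ j) + 1 / (S : ℝ) ^ 9) :=
    sum_nonneg fun i _ => hv0 i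
  have hlog0 : 0 ≤ Real.log ((S : ℝ) + 1) := Real.log_nonneg (by linarith)
  have hprod : (∑ i ∈ range m, (uI x M S (a + i * 2 ^ j) (2 ^ j) + 1 / (S : ℝ) ^ 9)) *
      (∑ i ∈ range m, (rI x M S (a + i * 2 ^ j) (2 ^ j) + 1 / (S : ℝ) ^ 9)) ≤
      24 + 6 * Real.log (S + 1) := by
    have h1 := mul_le_mul_of_nonneg_right hsu hsv0
    nlinarith
  have hA := count_prod (n := m) hu0 hv0 hc0
  have hB' := count_one (n := m) (X := fun i => Xm x L M (a + i * 2 ^ j) (2 ^ j))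
    (fun i => Xm_nonneg hx L M _ _) (c := 12 * (((2 ^ j : ℕ)) : ℝ) ^ 2) (by positivity)
  have hX := sum_Xm_le (L := L) (M := M) (m := m) (l := 2 ^ j) hx hB hPh (by omega) ha hb
  have hsub : (range m).filter (fun i => Bd x L M S K (a + i * 2 ^ j) j) ⊆
      (range m).filter (fun i => 1 < K * (((2 ^ j : ℕ)) : ℝ) ^ 4 *
        ((uI x M S (a + i * 2 ^ j) (2 ^ j) + 1 / (S : ℝ) ^ 9) *
          (rI x M S (a + i * 2 ^ j) (2 ^ j) + 1 / (S : ℝ) ^ 9))) ∪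
      (range m).filter (fun i => 1 < 12 * (((2 ^ j : ℕ)) : ℝ) ^ 2 * Xm x L M (a + i * 2 ^ j) (2 ^ j)) := by
    intro i hi
    rw [mem_filter] at hi
    rw [mem_union, mem_filter, mem_filter]
    unfold Bd Good at hi
    rcases hi with ⟨hi, h | h⟩
    · exact Or.inl ⟨hi, not_le.1 h⟩
    · exact Or.inr ⟨hi, h⟩
  have hcard := (card_le_card hsub).trans (card_union_le _ _)
  have hcard' : (((range m).filter (fun i => Bd x L M S K (a + i * 2 ^ j) j)).card : ℝ) ≤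
      (((range m).filter (fun i => 1 < K * (((2 ^ j : ℕ)) : ℝ) ^ 4 *
        ((uI x M S (a + i * 2 ^ j) (2 ^ j) + 1 / (S : ℝ) ^ 9) *
          (rI x M S (a + i * 2 ^ j) (2 ^ j) + 1 / (S : ℝ) ^ 9)))).card : ℝ) +
      (((range m).filter (fun i => 1 < 12 * (((2 ^ j : ℕ)) : ℝ) ^ 2 *
        Xm x L M (a + i * 2 ^ j) (2 ^ j))).card : ℝ) := by exact_mod_cast hcard
  refine hcard'.trans (add_le_add (hA.trans ?_) (hB'.trans ?_))
  · rw [← Real.sqrt_mul hsu0]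
    push_cast
    exact mul_le_mul_of_nonneg_left (Real.sqrt_le_sqrt hprod) (Real.sqrt_nonneg _)
  · refine (mul_le_mul_of_nonneg_left hX (by positivity)).trans (le_of_eq ?_)
    push_cast
    ring
-- END fa

-- BEGIN fb
/-- MODULE fb. A window which is not bad: `WBound` gives `Wm ≤ 6 l ^ 2`, `Rm_le_two` gives `Rm ≤ 12 l ^ 2 ≤ 12 S ^ 2`,
`Hs_run`; a window of one point: `Rm_one`. Then `halve_all` with `f = Hs μ⁻¹ L`, `R = 12 S ^ 2`. -/
theorem Hs_halve {μ : ℝ} (hμ : 1 ≤ μ) (hb : ∀ n, ((brs n).card : ℝ) ≤ μ ^ n) {L M S k0 : ℕ} {K : ℝ}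
    (hS2 : 2 ≤ S) (hS : 4 * 2 ^ k0 ≤ S)
    (hW : ∀ a l, S ≤ a → a + l ≤ 2 * S → 1 ≤ l → 4 * l ≤ S → Good μ⁻¹ M S a l K →
      Wm μ⁻¹ L M a l ≤ 6 * (l : ℝ) ^ 2) :
    Hs μ⁻¹ L (2 * S) ≤ (12 * (S : ℝ) ^ 2) ^ (S / 2 ^ k0 + 2 ^ k0 + 2 * ∑ j ∈ Icc 1 k0,
      ((range (S / 2 ^ k0 * 2 ^ (k0 - j))).filter
        (fun i => Bd μ⁻¹ L M S K (S + i * 2 ^ j) j)).card) * Hs μ⁻¹ L S := by
  have hx : (0 : ℝ) ≤ μ⁻¹ := by positivity
  have hB : ∀ s, Bs μ⁻¹ L s ≤ 1 := fun s => Bs_le_one hμ hb L s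
  have hS1 : (2 : ℝ) ≤ S := by exact_mod_cast hS2
  have hR : (1 : ℝ) ≤ 12 * (S : ℝ) ^ 2 := by nlinarith
  have hf : ∀ n, 0 < Hs μ⁻¹ L n := fun n => by
    have h := Hs_mono hx (L := L) (Nat.zero_le n)
    rw [Hs_zero] at h
    linarith
  have hmain := halve_all (f := fun n => Hs μ⁻¹ L n) hf hR (fun a j => Bd μ⁻¹ L M S K a j ∨ k0 < j) (S := S)
    (fun a _ _ => by
      have h1 := Hs_run hx L a 1
      have h2 := Rm_one hx hB a
      refine h1.trans (mul_le_mul_of_nonneg_right ?_ (hf a).le)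
      nlinarith)
    (fun a k hk1 ha hak hbad => by
      rw [not_or, not_lt] at hbad
      obtain ⟨hbd, hk⟩ := hbad
      unfold Bd at hbd
      rw [not_or, not_not, not_lt] at hbd
      obtain ⟨hg, hX⟩ := hbd
      have hl1 : 1 ≤ 2 ^ k := Nat.one_le_two_pow
      have hl4 : 4 * 2 ^ k ≤ S := le_trans (Nat.mul_le_mul_left 4 (Nat.pow_le_pow_right (by norm_num) hk)) hS
      have hWm := hW a (2 ^ k) ha hak hl1 hl4 hg
      have hX0 : 0 ≤ Xm μ⁻¹ L M a (2 ^ k) := Xm_nonneg hx L M a (2 ^ k)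
      have h2 : 2 * (Xm μ⁻¹ L M a (2 ^ k) * Wm μ⁻¹ L M a (2 ^ k)) ≤ 1 := by
        calc 2 * (Xm μ⁻¹ L M a (2 ^ k) * Wm μ⁻¹ L M a (2 ^ k))
            ≤ 2 * (Xm μ⁻¹ L M a (2 ^ k) * (6 * ((2 ^ k : ℕ) : ℝ) ^ 2)) := by
              apply mul_le_mul_of_nonneg_left _ (by norm_num)
              exact mul_le_mul_of_nonneg_left hWm hX0
          _ = 12 * ((2 ^ k : ℕ) : ℝ) ^ 2 * Xm μ⁻¹ L M a (2 ^ k) := by ring
          _ ≤ 1 := hX
      have h3 := Rm_le_two hx h2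
      have h4 : Rm μ⁻¹ L a (2 ^ k) ≤ 12 * (S : ℝ) ^ 2 := by
        have h5 : ((2 ^ k : ℕ) : ℝ) ≤ S := by
          have : 2 ^ k ≤ S := by omega
          exact_mod_cast this
        have h6 : ((2 ^ k : ℕ) : ℝ) ^ 2 ≤ (S : ℝ) ^ 2 := pow_le_pow_left₀ (by positivity) h5 2
        linarith
      exact (Hs_run hx L a (2 ^ k)).trans (mul_le_mul_of_nonneg_right h4 (hf a).le))
    k0
  have hsum : ∑ j ∈ Icc 1 k0, ((range (S / 2 ^ k0 * 2 ^ (k0 - j))).filter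
        (fun i => Bd μ⁻¹ L M S K (S + i * 2 ^ j) j ∨ k0 < j)).card =
      ∑ j ∈ Icc 1 k0, ((range (S / 2 ^ k0 * 2 ^ (k0 - j))).filter
        (fun i => Bd μ⁻¹ L M S K (S + i * 2 ^ j) j)).card := by
    refine sum_congr rfl fun j hj => ?_
    have hj2 : ¬ k0 < j := not_lt.2 (mem_Icc.1 hj).2
    congr 1
    refine filter_congr fun i _ => ?_
    rw [or_iff_left hj2]
  rw [← hsum]
  convert hmain
-- END fb

-- BEGIN fc
/-- MODULE fc. `S < 64`: `Hs_rel` with `Bs ≤ 1`. `S ≥ 64`: choose `M ≥ L` with `Ph M ^ (16 S) ≥ 3/4` (`Ph_pow_large`, as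
in `trip_bound`). If `UM M S < S ^ (2/3)`: `Hs_rel`, `sum_Bs_le`, `Uf_add`. Otherwise `Hs_halve`, `bad_card`, `num23`
(`(12 S ^ 2) ^ N = exp (N log (12 S ^ 2))`). -/
theorem dbl23 {μ : ℝ} (hμ : 1 ≤ μ) (hb : ∀ n, ((brs n).card : ℝ) ≤ μ ^ n)
    (hc : ∀ n, μ ^ n ≤ (walks n).card) (hW : WBound μ) (A : ℕ) {a : ℝ} (ha : 2 / 3 < a) :
    ∃ C : ℝ, 0 < C ∧ ∀ S L : ℕ, 1 ≤ S → L ≤ S ^ A →
      Hs μ⁻¹ L (S + S) ≤ Hs μ⁻¹ L S * Real.exp (C * (S : ℝ) ^ a) := by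
  obtain ⟨C, k, hC, hWB⟩ := hW A
  obtain ⟨C', hC', hnum⟩ := num23 hC k ha
  have hμ0 : 0 < μ := by linarith
  have hx : 0 < μ⁻¹ := inv_pos.2 hμ0
  have hx1 : μ⁻¹ ≤ 1 := inv_le_one_of_one_le₀ hμ
  have hB : ∀ L s, Bs μ⁻¹ L s ≤ 1 := fun L s => Bs_le_one hμ hb L s
  have hPh : ∀ L, Ph μ⁻¹ L ≤ 1 := fun L => Ph_le_one hμ hb L
  refine ⟨64 + C', by linarith, fun S L hS hL => ?_⟩
  have hS1 : (1 : ℝ) ≤ S := by exact_mod_cast hS
  have hSa : (1 : ℝ) ≤ (S : ℝ) ^ a := Real.one_le_rpow hS1 (by linarith)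
  have hH := Hs_nonneg hx.le L S
  have hrel := Hs_rel hx.le L S S
  by_cases hS64 : 64 ≤ S
  · obtain ⟨L₀, hL₀⟩ := Ph_pow_large hμ hc (16 * S) (θ := 3 / 4) (by norm_num)
    set M := max L L₀ with hM
    have hLM : L ≤ M := le_max_left _ _
    have hP0 : 3 / 4 ≤ Ph μ⁻¹ M ^ (16 * S) := hL₀ M (le_max_right _ _)
    by_cases hU : UM μ⁻¹ M S < (S : ℝ) ^ (2 / 3 : ℝ)
    · refine hrel.trans ?_
      apply mul_le_mul_of_nonneg_left _ hH
      apply Real.exp_le_exp.2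
      have h1 := sum_Bs_le hx.le hLM S S
      have h2 : UM μ⁻¹ M (S + S) ≤ UM μ⁻¹ M S + UM μ⁻¹ M S :=
        Uf_add (law_nonneg hx.le M) (hPh M) (law_ht M) S S
      have h3 : (S : ℝ) ^ (2 / 3 : ℝ) ≤ (S : ℝ) ^ a :=
        Real.rpow_le_rpow_of_exponent_le hS1 ha.le
      have h4 : 0 ≤ C' * (S : ℝ) ^ a := by positivity
      nlinarith
    · rw [not_lt] at hU
      obtain ⟨k0, hk0, hn⟩ := hnum S hS64
      have hn1 := hn (UM μ⁻¹ M S) hU
      set K : ℝ := C * (Real.log S + 1) ^ k with hK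
      have hlogS : 0 ≤ Real.log S := Real.log_nonneg hS1
      have hK0 : 0 ≤ K := by rw [hK]; positivity
      have hhal := Hs_halve hμ hb (L := L) (M := M) (S := S) (k0 := k0) (K := K) (by omega) hk0
        (fun a l h1 h2 h3 h4 h5 => hWB S L M a l (by omega) hL hLM hP0 h1 h2 h3 h4 h5)
      set N : ℕ := S / 2 ^ k0 + 2 ^ k0 + 2 * ∑ j ∈ Icc 1 k0,
        ((range (S / 2 ^ k0 * 2 ^ (k0 - j))).filter
          (fun i => Bd μ⁻¹ L M S K (S + i * 2 ^ j) j)).card with hN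
      have hNle : (N : ℝ) ≤ (S : ℝ) / 2 ^ k0 + 2 ^ k0 + 2 * ∑ j ∈ Icc 1 k0,
          (Real.sqrt (K * (2 ^ j) ^ 4) * Real.sqrt (24 + 6 * Real.log (S + 1)) +
            96 * (2 ^ j) ^ 4 / UM μ⁻¹ M S) := by
        rw [hN]
        push_cast
        have q1 : ((S / 2 ^ k0 : ℕ) : ℝ) ≤ (S : ℝ) / 2 ^ k0 := by
          have := @Nat.cast_div_le ℝ _ _ _ S (2 ^ k0)
          push_cast at this
          exact this
        have q2 : ∑ j ∈ Icc 1 k0, (((range (S / 2 ^ k0 * 2 ^ (k0 - j))).filter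
            (fun i => Bd μ⁻¹ L M S K (S + i * 2 ^ j) j)).card : ℝ) ≤
            ∑ j ∈ Icc 1 k0, (Real.sqrt (K * (2 ^ j) ^ 4) * Real.sqrt (24 + 6 * Real.log (S + 1)) +
              96 * (2 ^ j) ^ 4 / UM μ⁻¹ M S) := by
          refine Finset.sum_le_sum ?_
          intro j hj
          rw [mem_Icc] at hj
          have p1 : 2 ^ j ≤ 2 ^ k0 := Nat.pow_le_pow_right (by norm_num) hj.2
          refine bad_card hx.le hB hPh hK0 (by omega) (by omega) le_rfl ?_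
          have p2 : S / 2 ^ k0 * 2 ^ (k0 - j) * 2 ^ j = S / 2 ^ k0 * 2 ^ k0 := by
            rw [mul_assoc, ← pow_add, Nat.sub_add_cancel hj.2]
          rw [p2]
          have p3 := Nat.div_mul_le_self S (2 ^ k0)
          omega
        linarith
      have hbase : (0 : ℝ) < 12 * (S : ℝ) ^ 2 := by positivity
      have hlog0 : 0 ≤ Real.log (12 * (S : ℝ) ^ 2) := by
        apply Real.log_nonneg
        nlinarith
      have hpow : (12 * (S : ℝ) ^ 2) ^ N = Real.exp (Real.log (12 * (S : ℝ) ^ 2) * N) := by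
        rw [Real.exp_mul, Real.exp_log hbase, Real.rpow_natCast]
      rw [show S + S = 2 * S by ring]
      refine hhal.trans ?_
      rw [mul_comm]
      apply mul_le_mul_of_nonneg_left _ hH
      rw [hpow]
      apply Real.exp_le_exp.2
      have r1 := mul_le_mul_of_nonneg_left hNle hlog0
      have r2 : 0 ≤ 64 * (S : ℝ) ^ a := by positivity
      nlinarith
  · refine hrel.trans ?_
    apply mul_le_mul_of_nonneg_left _ hH
    apply Real.exp_le_exp.2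
    have h1 : ∑ s ∈ range S, Bs μ⁻¹ L (S + s + 1) ≤ S := by
      calc ∑ s ∈ range S, Bs μ⁻¹ L (S + s + 1) ≤ ∑ s ∈ range S, (1 : ℝ) :=
            Finset.sum_le_sum fun s _ => hB L _
        _ = S := by simp
    have h2 : (S : ℝ) ≤ 64 := by
      have : S ≤ 64 := by omega
      exact_mod_cast this
    have h3 : 0 ≤ C' * (S : ℝ) ^ a := by positivity
    nlinarith
-- END fc

-- BEGIN fd
/-- MODULE fd. Copy of `Tr.hstar` (only `dbl` is replaced by the hypothesis `hd`, and `3 / 2 ≤ 2 ^ a` from `2 / 3 < a`: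
`(3/2) ^ 3 ≤ 2 ^ 2`). -/
theorem hstar23 {μ : ℝ} (hμ : 1 ≤ μ) (hb : ∀ n, ((brs n).card : ℝ) ≤ μ ^ n) {a : ℝ} (ha : 2 / 3 < a)
    (hd : ∀ A : ℕ, ∃ C : ℝ, 0 < C ∧ ∀ S L : ℕ, 1 ≤ S → L ≤ S ^ A →
      Hs μ⁻¹ L (S + S) ≤ Hs μ⁻¹ L S * Real.exp (C * (S : ℝ) ^ a)) (A : ℕ) :
    ∃ C : ℝ, 0 < C ∧ ∀ R L : ℕ, 1 ≤ R → L ≤ R ^ A → Hs μ⁻¹ L R ≤ Real.exp (C * (R : ℝ) ^ a) := by
  obtain ⟨C, hC, hd⟩ := hd (2 * A)
  have hx : (0 : ℝ) ≤ μ⁻¹ := by positivity
  have hB : ∀ L s, Bs μ⁻¹ L s ≤ 1 := fun L s => Bs_le_one hμ hb L s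
  set q : ℝ := (2 : ℝ) ^ a with hq
  have hq32 : 3 / 2 ≤ q := by
    have h1 : (2 : ℝ) ^ (2 / 3 : ℝ) ≤ q :=
      Real.rpow_le_rpow_of_exponent_le (by norm_num) ha.le
    have h2 : (3 / 2 : ℝ) ≤ (2 : ℝ) ^ (2 / 3 : ℝ) := by
      have h3 : ((3 / 2 : ℝ)) ^ (3 : ℝ) ≤ ((2 : ℝ) ^ (2 / 3 : ℝ)) ^ (3 : ℝ) := by
        rw [← Real.rpow_mul (by norm_num)]
        norm_num
      exact (Real.rpow_le_rpow_iff (by norm_num) (by positivity) (by norm_num)).1 h3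
    linarith
  refine ⟨2 + C * (2 * q), by positivity, fun R L hR hL => ?_⟩
  have hR1 : (1 : ℝ) ≤ R := by exact_mod_cast hR
  set K := Nat.clog 2 R with hK
  have hRK : R ≤ 2 ^ K := Nat.le_pow_clog (by norm_num) R
  have hKR : 2 ^ K ≤ 2 * R := by
    rcases Nat.eq_zero_or_pos K with h0 | h0
    · rw [h0]; omega
    · have h1 : 2 ^ (K - 1) < R := by
        by_contra h
        push Not at h
        have := Nat.clog_le_of_le_pow h
        omega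
      have h2 : 2 ^ K = 2 * 2 ^ (K - 1) := by
        rw [← pow_succ']; congr 1; omega
      omega
  set i0 := (K + 1) / 2 with hi0
  have hi0K : i0 ≤ K ∨ K = 0 := by omega
  have hbase : Hs μ⁻¹ L (2 ^ i0) ≤ Real.exp (2 * (R : ℝ) ^ a) := by
    refine (Hs_le_exp hx L (2 ^ i0)).trans (Real.exp_le_exp.2 ?_)
    have h1 : ∑ s ∈ range (2 ^ i0), Bs μ⁻¹ L (s + 1) ≤ ((2 ^ i0 : ℕ) : ℝ) := by
      calc ∑ s ∈ range (2 ^ i0), Bs μ⁻¹ L (s + 1) ≤ ∑ s ∈ range (2 ^ i0), (1 : ℝ) :=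
            sum_le_sum fun s _ => hB L (s + 1)
        _ = _ := by simp
    refine h1.trans ?_
    have h2 : (2 ^ i0) ^ 2 ≤ 4 * R := by
      have h3 : (2 ^ i0) ^ 2 ≤ 2 ^ (K + 1) := by
        rw [← pow_mul]
        exact Nat.pow_le_pow_right (by norm_num) (by omega)
      calc (2 ^ i0) ^ 2 ≤ 2 ^ (K + 1) := h3
        _ = 2 * 2 ^ K := by ring
        _ ≤ 4 * R := by omega
    have h4 : ((2 ^ i0 : ℕ) : ℝ) ^ 2 ≤ (2 * (R : ℝ) ^ a) ^ 2 := by
      have h5 : ((2 ^ i0 : ℕ) : ℝ) ^ 2 ≤ 4 * R := by exact_mod_cast h2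
      refine h5.trans ?_
      rw [mul_pow]
      have h6 : (R : ℝ) ≤ ((R : ℝ) ^ a) ^ 2 := by
        rw [← Real.rpow_natCast, ← Real.rpow_mul (by linarith)]
        calc (R : ℝ) = (R : ℝ) ^ (1 : ℝ) := (Real.rpow_one _).symm
          _ ≤ (R : ℝ) ^ (a * (2 : ℕ)) :=
            Real.rpow_le_rpow_of_exponent_le hR1 (by push_cast; linarith)
      nlinarith
    exact le_of_pow_le_pow_left₀ (by norm_num) (by positivity) h4
  -- the dyadic induction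
  have hind : ∀ j : ℕ, i0 + j ≤ K → Hs μ⁻¹ L (2 ^ (i0 + j)) ≤
      Real.exp (2 * (R : ℝ) ^ a) * Real.exp (C * (2 * q ^ (i0 + j))) := by
    intro j
    induction j with
    | zero =>
      intro _
      rw [Nat.add_zero]
      refine hbase.trans (le_mul_of_one_le_right (Real.exp_pos _).le ?_)
      rw [Real.one_le_exp_iff]
      positivity
    | succ j ih =>
      intro hj
      have ih1 := ih (by omega)
      have hS : 1 ≤ 2 ^ (i0 + j) := Nat.one_le_two_pow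
      have hLS : L ≤ (2 ^ (i0 + j)) ^ (2 * A) := by
        refine hL.trans ?_
        rw [pow_mul]
        apply Nat.pow_le_pow_left
        refine hRK.trans ?_
        rw [← pow_mul]
        exact Nat.pow_le_pow_right (by norm_num) (by omega)
      have h1 := hd (2 ^ (i0 + j)) L hS hLS
      have h2 : 2 ^ (i0 + j) + 2 ^ (i0 + j) = 2 ^ (i0 + (j + 1)) := by
        rw [← add_assoc, pow_succ]; ring
      rw [h2] at h1
      have h3 : (((2 ^ (i0 + j) : ℕ) : ℝ)) ^ a = q ^ (i0 + j) := by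
        push_cast
        rw [hq, ← Real.rpow_natCast, ← Real.rpow_mul (by norm_num), ← Real.rpow_natCast,
          ← Real.rpow_mul (by norm_num), mul_comm]
      rw [h3] at h1
      refine h1.trans ?_
      calc Hs μ⁻¹ L (2 ^ (i0 + j)) * Real.exp (C * q ^ (i0 + j))
          ≤ (Real.exp (2 * (R : ℝ) ^ a) * Real.exp (C * (2 * q ^ (i0 + j)))) *
              Real.exp (C * q ^ (i0 + j)) :=
            mul_le_mul_of_nonneg_right ih1 (Real.exp_pos _).le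
        _ = Real.exp (2 * (R : ℝ) ^ a) * Real.exp (C * (2 * q ^ (i0 + j)) + C * q ^ (i0 + j)) := by
            rw [Real.exp_add]; ring
        _ ≤ Real.exp (2 * (R : ℝ) ^ a) * Real.exp (C * (2 * q ^ (i0 + (j + 1)))) := by
            apply mul_le_mul_of_nonneg_left _ (Real.exp_pos _).le
            apply Real.exp_le_exp.2
            rw [← mul_add]
            apply mul_le_mul_of_nonneg_left _ hC.le
            rw [← add_assoc, pow_succ]
            have : 0 < q ^ (i0 + j) := by positivity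
            nlinarith
  have hfin : Hs μ⁻¹ L (2 ^ K) ≤ Real.exp (2 * (R : ℝ) ^ a) * Real.exp (C * (2 * q ^ K)) := by
    rcases hi0K with h | h
    · have h1 := hind (K - i0) (by omega)
      have h2 : i0 + (K - i0) = K := by omega
      rw [h2] at h1
      exact h1
    · have h1 := hind 0 (by omega)
      have h2 : i0 + 0 = K := by omega
      rw [h2] at h1
      exact h1
  have hmono := Hs_mono hx (L := L) hRK
  refine hmono.trans (hfin.trans ?_)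
  rw [← Real.exp_add]
  apply Real.exp_le_exp.2
  have h1 : q ^ K ≤ q * (R : ℝ) ^ a := by
    have h2 : q ^ K = ((2 ^ K : ℕ) : ℝ) ^ a := by
      push_cast
      rw [hq, ← Real.rpow_natCast, ← Real.rpow_mul (by norm_num), ← Real.rpow_natCast,
        ← Real.rpow_mul (by norm_num), mul_comm]
    rw [h2, hq, ← Real.mul_rpow (by norm_num) (by linarith)]
    apply Real.rpow_le_rpow (by positivity) _ (by linarith)
    exact_mod_cast hKR
  have h3 : C * (2 * q ^ K) ≤ C * (2 * (q * (R : ℝ) ^ a)) := by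
    apply mul_le_mul_of_nonneg_left _ hC.le
    linarith
  calc 2 * (R : ℝ) ^ a + C * (2 * q ^ K) ≤ 2 * (R : ℝ) ^ a + C * (2 * (q * (R : ℝ) ^ a)) := by
        linarith
    _ = (2 + C * (2 * q)) * (R : ℝ) ^ a := by ring
-- END fd

-- BEGIN fe
/-- MODULE fe. Copy of `Tr.star_of_trip` with `hstar` replaced by the hypothesis `hh`. -/
theorem star_of_hs {μ : ℝ} (hμ : 1 ≤ μ) {a : ℝ} (ha : 0 < a)
    (hh : ∀ A : ℕ, ∃ C : ℝ, 0 < C ∧ ∀ R L : ℕ, 1 ≤ R → L ≤ R ^ A → Hs μ⁻¹ L R ≤ Real.exp (C * (R : ℝ) ^ a)) (A : ℕ) :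
    ∃ C : ℝ, 0 < C ∧ ∀ R L : ℕ, 1 ≤ R → L ≤ R ^ A →
      ∑ w ∈ (wle L).filter (fun w => saw w ∧ ∀ p ∈ pts w, ∀ q ∈ pts w, p 0 - q 0 ≤ (R : ℤ)),
        μ⁻¹ ^ w.length ≤ Real.exp (C * (R : ℝ) ^ a) := by
  obtain ⟨C, hC, hh⟩ := hh (A + 1)
  have hx : (0 : ℝ) ≤ μ⁻¹ := by positivity
  have ha0 : 0 < a := ha
  refine ⟨2 * (C * 2 ^ a) + (μ + (1 + A / a)), by positivity, fun R L hR hL => ?_⟩
  have hR1 : (1 : ℝ) ≤ R := by exact_mod_cast hR
  have hRa : (1 : ℝ) ≤ (R : ℝ) ^ a := Real.one_le_rpow hR1 ha0.le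
  have hsum : ∑ w ∈ Tr.slab L R, μ⁻¹ ^ w.length =
      ∑ n ∈ range (L + 1), ∑ w ∈ (Tr.slab L R).filter (fun w => w.length = n), μ⁻¹ ^ n := by
    rw [← sum_fiberwise_of_maps_to (s := Tr.slab L R) (t := range (L + 1)) (g := fun w => w.length)]
    · refine sum_congr rfl fun n _ => sum_congr rfl fun w hw => ?_
      rw [(mem_filter.1 hw).2]
    · intro w hw
      unfold Tr.slab at hw
      rw [mem_filter, mem_wle] at hw
      rw [mem_range]; omega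
  change ∑ w ∈ Tr.slab L R, μ⁻¹ ^ w.length ≤ _
  rw [hsum]
  set H := Hs μ⁻¹ (L + 1) (R + 1) with hH
  have hH0 : 0 ≤ H := Hs_nonneg hx _ _
  have hHle : H ≤ Real.exp (C * 2 ^ a * (R : ℝ) ^ a) := by
    have h1 := hh (R + 1) (L + 1) (by omega) ?_
    · refine h1.trans (Real.exp_le_exp.2 ?_)
      rw [mul_assoc, ← Real.mul_rpow (by norm_num) (by linarith)]
      apply mul_le_mul_of_nonneg_left _ hC.le
      apply Real.rpow_le_rpow (by positivity) _ ha0.le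
      push_cast
      linarith
    · calc L + 1 ≤ R ^ A + 1 := by omega
        _ ≤ (R + 1) ^ A + (R + 1) ^ A := by
            have h2 : R ^ A ≤ (R + 1) ^ A := Nat.pow_le_pow_left (by omega) A
            have h3 : 1 ≤ (R + 1) ^ A := Nat.one_le_pow _ _ (by omega)
            omega
        _ = (R + 1) ^ A * 2 := by ring
        _ ≤ (R + 1) ^ A * (R + 1) := Nat.mul_le_mul_left _ (by omega)
        _ = (R + 1) ^ (A + 1) := by ring
  calc ∑ n ∈ range (L + 1), ∑ w ∈ (Tr.slab L R).filter (fun w => w.length = n), μ⁻¹ ^ n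
      ≤ ∑ n ∈ range (L + 1), μ * (H * H) := by
        refine sum_le_sum fun n hn => ?_
        rw [mem_range] at hn
        exact Tr.slab_len hμ R L n (by omega)
    _ = ((L + 1 : ℕ) : ℝ) * (μ * (H * H)) := by
        rw [sum_const, card_range, nsmul_eq_mul]
    _ ≤ Real.exp ((1 + A / a) * (R : ℝ) ^ a) * (Real.exp (μ * (R : ℝ) ^ a) *
          (Real.exp (C * 2 ^ a * (R : ℝ) ^ a) * Real.exp (C * 2 ^ a * (R : ℝ) ^ a))) := by
        apply mul_le_mul _ _ (by positivity) (Real.exp_pos _).le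
        · -- L + 1 ≤ 2 R^A
          have h1 : ((L + 1 : ℕ) : ℝ) ≤ 2 * (R : ℝ) ^ A := by
            have h2 : L + 1 ≤ 2 * R ^ A := by
              have h3 : 1 ≤ R ^ A := Nat.one_le_pow _ _ hR
              omega
            exact_mod_cast h2
          refine h1.trans ?_
          have h4 : (2 : ℝ) ≤ Real.exp ((R : ℝ) ^ a) := by
            have := Real.add_one_le_exp ((R : ℝ) ^ a)
            linarith
          have h5 : (R : ℝ) ^ A ≤ Real.exp (A / a * (R : ℝ) ^ a) := by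
            have h6 := Tr.log_le_pow ha0 hR1
            have h7 : (R : ℝ) ^ A = Real.exp (A * Real.log R) := by
              rw [mul_comm, Real.exp_mul, Real.exp_log (by linarith), Real.rpow_natCast]
            rw [h7]
            apply Real.exp_le_exp.2
            calc (A : ℝ) * Real.log R ≤ A * (1 / a * (R : ℝ) ^ a) :=
                  mul_le_mul_of_nonneg_left h6 (Nat.cast_nonneg _)
              _ = _ := by ring
          calc 2 * (R : ℝ) ^ A ≤ Real.exp ((R : ℝ) ^ a) * Real.exp (A / a * (R : ℝ) ^ a) :=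
                mul_le_mul h4 h5 (by positivity) (Real.exp_pos _).le
            _ = _ := by rw [← Real.exp_add]; congr 1; ring
        · apply mul_le_mul _ _ (mul_nonneg hH0 hH0) (Real.exp_pos _).le
          · have h1 := Real.add_one_le_exp (μ * (R : ℝ) ^ a)
            nlinarith
          · exact mul_le_mul hHle hHle hH0 (Real.exp_pos _).le
    _ = Real.exp ((2 * (C * 2 ^ a) + (μ + (1 + A / a))) * (R : ℝ) ^ a) := by
        rw [← Real.exp_add, ← Real.exp_add, ← Real.exp_add]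
        congr 1
        ring
-- END fe

/-- **STAR with exponent 2/3**, from `WBound` -/
theorem star23_of {μ : ℝ} (hμ : 1 ≤ μ) (hb : ∀ n, ((brs n).card : ℝ) ≤ μ ^ n)
    (hc : ∀ n, μ ^ n ≤ (walks n).card) (hW : WBound μ) (A : ℕ) {a : ℝ} (ha : 2 / 3 < a) :
    ∃ C : ℝ, 0 < C ∧ ∀ R L : ℕ, 1 ≤ R → L ≤ R ^ A →
      ∑ w ∈ (wle L).filter (fun w => saw w ∧ ∀ p ∈ pts w, ∀ q ∈ pts w, p 0 - q 0 ≤ (R : ℤ)),
        μ⁻¹ ^ w.length ≤ Real.exp (C * (R : ℝ) ^ a) :=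
  star_of_hs hμ (by linarith) (fun A => hstar23 hμ hb ha (fun A => dbl23 hμ hb hc hW A ha) A) A

end Pool.Agent.SwT
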