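import Pool.Agent.SwT.Shoot

/-! The sums over the targets: (J0), (J1), (J2). -/

set_option autoImplicit false
set_option linter.unusedSectionVars false
set_option linter.style.longLine false
set_option linter.unusedVariables false

namespace Pool.Agent.SwT

variable [Pool.Agent.SwP.Dim]

open Finset
open scoped Classical
open Pool.Agent.R19
open Pool.Agent.SwR
open Pool.Agent.SwP (Word Pt Step D pts tr saw Br Lo Hi wle mem_wle rv D_rv rv_append rv_rv D_append D_nil pts_append mem_pts mem_tr zero_mem_pts refl refl_refl D_refl rtr rtr_rtr rtr_A D_rtr dd Ix Br_nil sum_le_of_inj length_rv abs_D_le)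

-- BEGIN c1
/-- LEMMA J summed over the displacements of the half leg. `C` = condition on the displacement,
`v` = place of the upper corner as a function of the displacement. -/
theorem core {x : ℝ} (hx : 0 ≤ x) {L M N s l : ℕ} (hPh : Ph x M ≤ 1) {κ : ℕ → ℝ} {ε : ℝ}
    (hκ : ∀ n, 0 ≤ κ n) (hκ1 : ∀ n ≤ l, κ n = 1) (hε : 0 ≤ ε)
    {D' : Word → Pt} {Q' : Word → Set Pt} (hJ : HJ x M N s l κ ε D' Q') {n : ℕ} (hn : n ≤ s + l)
    (C : Pt → Prop) (v : Pt → Pt)
    (hC : ∀ y, C y → (∀ j, |y j| ≤ (L : ℤ)) ∧ (s : ℤ) < v y 0 ∧ v y 0 ≤ s + l) :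
    EM x M n (fun A => if C (SS D' A n) then cap x M D' Q' l n N (v (SS D' A n)) A else 0) ≤
      κ n * EM x M n (fun A => if C (SS D' A n) then 1 else 0) + (2 * L + 1) ^ dd * ε := by
  have hw : ∀ p ∈ irs M, (0 : ℝ) ≤ x ^ p.length := fun p _ => pow_nonneg hx _
  have hE0 : 0 ≤ EM x M n (fun A => if C (SS D' A n) then (1 : ℝ) else 0) :=
    EE_nonneg hw (fun A _ => by split <;> norm_num)
  have herr : (0 : ℝ) ≤ (2 * L + 1) ^ dd * ε := by positivity
  by_cases hnl : n ≤ l
  · rw [hκ1 n hnl, one_mul]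
    have e : ∀ A : ℕ → Word, (if C (SS D' A n) then cap x M D' Q' l n N (v (SS D' A n)) A else 0) =
        if C (SS D' A n) then (1 : ℝ) else 0 := by
      intro A
      unfold cap
      rw [if_pos hnl]
    simp only [e]
    linarith
  · have hln : l < n := by omega
    set box : Finset Pt := Fintype.piFinset (fun _ : Ix => Finset.Icc (-(L : ℤ)) (L : ℤ)) with hbox
    have hcard : ((box.filter C).card : ℝ) ≤ (2 * (L : ℝ) + 1) ^ dd := by
      have h1 : (box.filter C).card ≤ (2 * L + 1) ^ dd := by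
        refine (Finset.card_filter_le _ _).trans ?_
        rw [hbox, Fintype.card_piFinset]
        simp only [Int.card_Icc, Finset.prod_const, Finset.card_univ, Fintype.card_fin]
        apply Nat.pow_le_pow_left
        omega
      exact_mod_cast h1
    have hhit : ∀ (u : Pt) (A : ℕ → Word), 0 ≤ hit x M D' Q' l n N u A := fun u A =>
      hit_nonneg hx M D' Q' l n N u A
    have hmemb : ∀ A : ℕ → Word, C (SS D' A n) → SS D' A n ∈ box.filter C := by
      intro A hA
      rw [mem_filter, hbox, Fintype.mem_piFinset]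
      refine ⟨fun j => ?_, hA⟩
      rw [Finset.mem_Icc]
      exact abs_le.1 ((hC _ hA).1 j)
    have h1 : EM x M n (fun A => if C (SS D' A n) then
        cap x M D' Q' l n N (v (SS D' A n)) A else 0) ≤
        EM x M n (fun A => ∑ y ∈ box.filter C,
          (if SS D' A n = y then 1 else 0) * hit x M D' Q' l n N (v y) A) := by
      refine EE_mono hw (fun A _ => ?_)
      by_cases hA : C (SS D' A n)
      · rw [if_pos hA]
        unfold cap
        rw [if_neg hnl]
        have h2 := Finset.single_le_sum (f := fun y => (if SS D' A n = y then (1 : ℝ) else 0) *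
          hit x M D' Q' l n N (v y) A) (s := box.filter C)
          (fun y _ => mul_nonneg (by split <;> norm_num) (hhit _ _)) (hmemb A hA)
        simp only [if_true, one_mul] at h2
        exact h2
      · rw [if_neg hA]
        exact Finset.sum_nonneg (fun y _ => mul_nonneg (by split <;> norm_num) (hhit _ _))
    refine h1.trans ?_
    have h2 : EM x M n (fun A => ∑ y ∈ box.filter C,
          (if SS D' A n = y then 1 else 0) * hit x M D' Q' l n N (v y) A) =
        ∑ y ∈ box.filter C, EM x M n (fun A =>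
          (if SS D' A n = y then 1 else 0) * hit x M D' Q' l n N (v y) A) := EE_sum _ _ _
    rw [h2]
    have h3 : ∑ y ∈ box.filter C, EM x M n (fun A =>
          (if SS D' A n = y then 1 else 0) * hit x M D' Q' l n N (v y) A) ≤
        ∑ y ∈ box.filter C, (κ n * wnM x M D' n y + ε) := by
      refine Finset.sum_le_sum (fun y hy => ?_)
      rw [mem_filter] at hy
      have h4 := hC y hy.2
      exact hJ n hln hn (v y) h4.2.1 h4.2.2 y
    refine h3.trans ?_
    rw [Finset.sum_add_distrib, Finset.sum_const, nsmul_eq_mul, ← Finset.mul_sum]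
    have h5 : ∑ y ∈ box.filter C, wnM x M D' n y ≤
        EM x M n (fun A => if C (SS D' A n) then 1 else 0) := by
      unfold wnM
      rw [← EE_sum]
      refine EE_mono hw (fun A _ => ?_)
      by_cases hA : C (SS D' A n)
      · rw [if_pos hA, Finset.sum_ite_eq, if_pos (hmemb A hA)]
      · rw [if_neg hA, Finset.sum_ite_eq, if_neg]
        intro h
        exact hA (mem_filter.1 h).2
    have h6 := mul_le_mul_of_nonneg_left h5 (hκ n)
    have h7 := mul_le_mul_of_nonneg_right hcard hε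
    linarith
-- END c1

-- BEGIN j1
/-- one number of pieces -/
private theorem j1_one {x : ℝ} (hx : 0 ≤ x) {L M N s l : ℕ} (hPh : Ph x M ≤ 1) {κ : ℕ → ℝ} {ε : ℝ}
    (hκ : ∀ n, 0 ≤ κ n) (hκ1 : ∀ n ≤ l, κ n = 1) (hε : 0 ≤ ε) (hJ : HJ x M N s l κ ε D Qp)
    {v : Pt} (hv : (s : ℤ) < v 0 ∧ v 0 ≤ s + l) {n : ℕ} (hn : n ≤ s + l) :
    EM x M (n / 2) (fun A => EM x M (n - n / 2) (fun B =>
      if Win s l L n A B then cap x M D Qp l (n - n / 2) N v B else 0)) ≤
      κ (n - n / 2) * pI x M s l n + (2 * L + 1) ^ dd * ε := by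
  have hw : ∀ p ∈ irs M, (0 : ℝ) ≤ (fun p : Word => x ^ p.length) p := fun p _ => pow_nonneg hx _
  have hc0 : (0 : ℝ) ≤ (2 * L + 1) ^ dd * ε := by positivity
  have h1 : ∀ A : ℕ → Word, EM x M (n - n / 2) (fun B =>
      if Win s l L n A B then cap x M D Qp l (n - n / 2) N v B else 0) ≤
      κ (n - n / 2) * EM x M (n - n / 2) (fun B => if Win s l L n A B then (1 : ℝ) else 0) +
        (2 * L + 1) ^ dd * ε := by
    intro A
    exact core (L := L) hx hPh hκ hκ1 hε hJ (n := n - n / 2) (by omega)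
      (fun y => ((s : ℤ) < (SS D A (n / 2)) 0 + y 0 ∧ (SS D A (n / 2)) 0 + y 0 ≤ s + l) ∧
        (∀ j, |SS D A (n / 2) j| ≤ (L : ℤ)) ∧ ∀ j, |y j| ≤ (L : ℤ)) (fun _ => v)
      (fun y hy => ⟨hy.2.2, hv⟩)
  have h2 : EM x M (n / 2) (fun A => EM x M (n - n / 2) (fun B =>
      if Win s l L n A B then cap x M D Qp l (n - n / 2) N v B else 0)) ≤
      EM x M (n / 2) (fun A => κ (n - n / 2) * EM x M (n - n / 2) (fun B =>
        if Win s l L n A B then (1 : ℝ) else 0) + (2 * L + 1) ^ dd * ε) :=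
    EE_mono hw fun A _ => h1 A
  have h3 : EM x M (n / 2) (fun A => EM x M (n - n / 2) (fun B =>
        if Win s l L n A B then (1 : ℝ) else 0)) ≤ pI x M s l n := by
    rw [← pI_halves]
    refine EE_mono hw fun A _ => EE_mono hw fun B _ => ?_
    by_cases h : Win s l L n A B
    · rw [if_pos h, if_pos h.1]
    · rw [if_neg h]
      split_ifs
      · exact zero_le_one
      · exact le_rfl
  have h4 : EM x M (n / 2) (fun _ => (2 * L + 1) ^ dd * ε) ≤ (2 * L + 1) ^ dd * ε := by
    rw [EM, EE_const]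
    refine mul_le_of_le_one_left hc0 (pow_le_one₀ (Finset.sum_nonneg hw) hPh)
  have h5 : EM x M (n / 2) (fun A => κ (n - n / 2) * EM x M (n - n / 2) (fun B =>
        if Win s l L n A B then (1 : ℝ) else 0) + (2 * L + 1) ^ dd * ε) =
      κ (n - n / 2) * EM x M (n / 2) (fun A => EM x M (n - n / 2) (fun B =>
        if Win s l L n A B then (1 : ℝ) else 0)) +
      EM x M (n / 2) (fun _ => (2 * L + 1) ^ dd * ε) := by
    unfold EM
    rw [EE_add_fun, EE_mul_left]
  rw [h5] at h2
  exact h2.trans (add_le_add (mul_le_mul_of_nonneg_left h3 (hκ _)) h4)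

/-- (J1), type a -/
theorem J1a {x : ℝ} (hx : 0 ≤ x) {L M N s l : ℕ} (hLM : L ≤ M) (hPh : Ph x M ≤ 1)
    (hB : ∀ s, Pool.Agent.SwP.Bs x L s ≤ 1)
    (hN : s + 2 * l + 2 ≤ N) (hhalf : (1 : ℝ) / 2 ≤ Ph x M ^ N) {κ : ℕ → ℝ} {ε : ℝ}
    (hκ : ∀ n, 0 ≤ κ n) (hκ1 : ∀ n ≤ l, κ n = 1) (hε : 0 ≤ ε)
    (hJ : HJ x M N s l κ ε D Qp) {b : Word} (hb : b ∈ XW L s l) :
    ∑ a ∈ XW L s l, zw x a * al x L M s l a b ≤
      8 * (l + 1) * (∑ n ∈ range (s + l + 1), κ (n - n / 2) * pI x M s l n +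
        (s + l + 1) * ((2 * L + 1) ^ dd * ε)) := by
  have hv : (s : ℤ) < Dv b 0 ∧ Dv b 0 ≤ s + l := by
    rw [Dv_zero]
    have h := (Finset.mem_filter.1 hb).2
    exact ⟨h.2.1, by have := h.2.2; push_cast at this; exact this⟩
  have h1 : ∑ a ∈ XW L s l, zw x a * al x L M s l a b ≤
      8 * (l + 1) * ∑ a ∈ XW L s l, zw x a *
        (fun n (_ : ℕ → Word) B => cap x M D Qp l (n - n / 2) N (Dv b) B) (nn a) (hs1 a) (hs2 a) := by
    rw [Finset.mul_sum]
    refine Finset.sum_le_sum fun a ha => ?_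
    have h2 := al_le hx hLM hPh hB hN hhalf ha hb
    have h3 : 0 ≤ zw x a := pow_nonneg hx _
    calc zw x a * al x L M s l a b
        ≤ zw x a * (8 * (l + 1) * cap x M D Qp l (n2 a) N (Dv b) (hs2 a)) :=
          mul_le_mul_of_nonneg_left h2 h3
      _ = _ := by
          show _ = 8 * ((l : ℝ) + 1) * (zw x a * cap x M D Qp l (n2 a) N (Dv b) (hs2 a))
          ring
  have h4 := sum_hv hx hLM s l (fun n (_ : ℕ → Word) B => cap x M D Qp l (n - n / 2) N (Dv b) B)
    (fun n A B => by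
      show 0 ≤ cap x M D Qp l (n - n / 2) N (Dv b) B
      unfold cap
      split_ifs
      · exact zero_le_one
      · exact hit_nonneg hx _ _ _ _ _ _ _ _)
  have h5 : ∑ n ∈ range (s + l + 1), EM x M (n / 2) (fun A => EM x M (n - n / 2) (fun B =>
        if Win s l L n A B then cap x M D Qp l (n - n / 2) N (Dv b) B else 0)) ≤
      ∑ n ∈ range (s + l + 1), κ (n - n / 2) * pI x M s l n +
        (s + l + 1) * ((2 * L + 1) ^ dd * ε) := by
    refine (Finset.sum_le_sum fun n hn => j1_one hx hPh hκ hκ1 hε hJ hv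
      (by have := Finset.mem_range.1 hn; omega)).trans (le_of_eq ?_)
    rw [Finset.sum_add_distrib, Finset.sum_const, Finset.card_range, nsmul_eq_mul]
    push_cast
    ring
  exact h1.trans (mul_le_mul_of_nonneg_left (h4.trans h5) (by positivity))
-- END j1

-- BEGIN j2
/-- one number of pieces, type b -/
private theorem j2_one {x : ℝ} (hx : 0 ≤ x) {L M N s l : ℕ} (hPh : Ph x M ≤ 1) {κ : ℕ → ℝ} {ε : ℝ}
    (hκ : ∀ n, 0 ≤ κ n) (hκ1 : ∀ n ≤ l, κ n = 1) (hε : 0 ≤ ε) (hJ : HJ x M N s l κ ε Dv Qv)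
    {n : ℕ} (hn : n ≤ s + l) :
    EM x M (n / 2) (fun A => EM x M (n - n / 2) (fun B =>
      if Win s l L n A B then
        cap x M Dv Qv l (n / 2) N (SS Dv A (n / 2) + SS Dv B (n - n / 2)) A else 0)) ≤
      κ (n / 2) * pI x M s l n + (2 * L + 1) ^ dd * ε := by
  have hw : ∀ p ∈ irs M, (0 : ℝ) ≤ (fun p : Word => x ^ p.length) p := fun p _ => pow_nonneg hx _
  have hc0 : (0 : ℝ) ≤ (2 * L + 1) ^ dd * ε := by positivity
  have hsw : ∀ Φ : (ℕ → Word) → (ℕ → Word) → ℝ,
      EM x M (n / 2) (fun A => EM x M (n - n / 2) (fun B => Φ A B)) =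
      EM x M (n - n / 2) (fun B => EM x M (n / 2) (fun A => Φ A B)) := fun Φ => EE_swap _ _ _
  have h1 : ∀ B : ℕ → Word, EM x M (n / 2) (fun A =>
      if Win s l L n A B then
        cap x M Dv Qv l (n / 2) N (SS Dv A (n / 2) + SS Dv B (n - n / 2)) A else 0) ≤
      κ (n / 2) * EM x M (n / 2) (fun A => if Win s l L n A B then (1 : ℝ) else 0) +
        (2 * L + 1) ^ dd * ε := by
    intro B
    obtain ⟨C, hC⟩ : ∃ C : Pt → Prop, ∀ y : Pt, C y ↔ (((s : ℤ) < y 0 + SS D B (n - n / 2) 0 ∧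
        y 0 + SS D B (n - n / 2) 0 ≤ s + l) ∧ (∀ j, |y j| ≤ (L : ℤ)) ∧
          ∀ j, |SS D B (n - n / 2) j| ≤ (L : ℤ)) :=
      ⟨fun y => _, fun y => Iff.rfl⟩
    have hWC : ∀ A : ℕ → Word, Win s l L n A B ↔ C (SS Dv A (n / 2)) := by
      intro A
      rw [hC]
      simp only [Win, SS_Dv_zero, SS_Dv_abs]
    have h2 := core hx hPh hκ hκ1 hε hJ (n := n / 2) (L := L) (by omega) C
      (fun y : Pt => y + SS Dv B (n - n / 2)) (by
        intro y hy
        obtain ⟨⟨h2, h3⟩, h4, -⟩ := (hC y).1 hy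
        refine ⟨h4, ?_, ?_⟩
        · rw [Pi.add_apply, SS_Dv_zero]
          exact h2
        · rw [Pi.add_apply, SS_Dv_zero]
          exact h3)
    have h3 : ∀ f : (ℕ → Word) → ℝ, EM x M (n / 2) (fun A => if Win s l L n A B then f A else 0) =
        EM x M (n / 2) (fun A => if C (SS Dv A (n / 2)) then f A else 0) := by
      intro f
      refine EE_congr fun A _ => ?_
      by_cases h : Win s l L n A B
      · rw [if_pos h, if_pos ((hWC A).1 h)]
      · rw [if_neg h, if_neg (fun h' => h ((hWC A).2 h'))]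
    rw [h3 (fun A => cap x M Dv Qv l (n / 2) N (SS Dv A (n / 2) + SS Dv B (n - n / 2)) A),
      h3 (fun _ => 1)]
    exact h2
  rw [hsw (fun A B => if Win s l L n A B then
        cap x M Dv Qv l (n / 2) N (SS Dv A (n / 2) + SS Dv B (n - n / 2)) A else 0)]
  have h2 : EM x M (n - n / 2) (fun B => EM x M (n / 2) (fun A =>
      if Win s l L n A B then
        cap x M Dv Qv l (n / 2) N (SS Dv A (n / 2) + SS Dv B (n - n / 2)) A else 0)) ≤
      EM x M (n - n / 2) (fun B => κ (n / 2) * EM x M (n / 2) (fun A =>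
        if Win s l L n A B then (1 : ℝ) else 0) + (2 * L + 1) ^ dd * ε) :=
    EE_mono hw fun B _ => h1 B
  have h3 : EM x M (n - n / 2) (fun B => EM x M (n / 2) (fun A =>
        if Win s l L n A B then (1 : ℝ) else 0)) ≤ pI x M s l n := by
    rw [← hsw (fun A B => if Win s l L n A B then (1 : ℝ) else 0), ← pI_halves]
    refine EE_mono hw fun A _ => EE_mono hw fun B _ => ?_
    by_cases h : Win s l L n A B
    · rw [if_pos h, if_pos h.1]
    · rw [if_neg h]
      split_ifs
      · exact zero_le_one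
      · exact le_rfl
  have h4 : EM x M (n - n / 2) (fun _ => (2 * L + 1) ^ dd * ε) ≤ (2 * L + 1) ^ dd * ε := by
    rw [EM, EE_const]
    refine mul_le_of_le_one_left hc0 (pow_le_one₀ (Finset.sum_nonneg hw) hPh)
  have h5 : EM x M (n - n / 2) (fun B => κ (n / 2) * EM x M (n / 2) (fun A =>
        if Win s l L n A B then (1 : ℝ) else 0) + (2 * L + 1) ^ dd * ε) =
      κ (n / 2) * EM x M (n - n / 2) (fun B => EM x M (n / 2) (fun A =>
        if Win s l L n A B then (1 : ℝ) else 0)) +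
      EM x M (n - n / 2) (fun _ => (2 * L + 1) ^ dd * ε) := by
    unfold EM
    rw [EE_add_fun, EE_mul_left]
  rw [h5] at h2
  exact h2.trans (add_le_add (mul_le_mul_of_nonneg_left h3 (hκ _)) h4)

/-- (J1), type b -/
theorem J1b {x : ℝ} (hx : 0 ≤ x) {L M N s l : ℕ} (hLM : L ≤ M) (hPh : Ph x M ≤ 1)
    (hB : ∀ s, Pool.Agent.SwP.Bs x L s ≤ 1)
    (hN : s + 2 * l + 2 ≤ N) (hhalf : (1 : ℝ) / 2 ≤ Ph x M ^ N) {κ : ℕ → ℝ} {ε : ℝ}
    (hκ : ∀ n, 0 ≤ κ n) (hκ1 : ∀ n ≤ l, κ n = 1) (hε : 0 ≤ ε)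
    (hJ : HJ x M N s l κ ε Dv Qv) :
    ∑ b ∈ XW L s l, zw x b * be x L M s l b ≤
      8 * (l + 1) * (∑ n ∈ range (s + l + 1), κ (n / 2) * pI x M s l n +
        (s + l + 1) * ((2 * L + 1) ^ dd * ε)) := by
  have h1 : ∑ b ∈ XW L s l, zw x b * be x L M s l b ≤
      8 * (l + 1) * ∑ b ∈ XW L s l, zw x b *
        (fun n (A B : ℕ → Word) => cap x M Dv Qv l (n / 2) N
          (SS Dv A (n / 2) + SS Dv B (n - n / 2)) A) (nn b) (hs1 b) (hs2 b) := by
    rw [Finset.mul_sum]
    refine Finset.sum_le_sum fun b hb => ?_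
    have hbr : Br b := (Finset.mem_filter.1 hb).2.1
    have h2 := be_le hx hLM hPh hB hN hhalf hb
    have h3 : 0 ≤ zw x b := pow_nonneg hx _
    rw [Dv_halves hbr] at h2
    calc zw x b * be x L M s l b
        ≤ zw x b * (8 * (l + 1) * cap x M Dv Qv l (n1 b) N
            (SS Dv (hs1 b) (n1 b) + SS Dv (hs2 b) (n2 b)) (hs1 b)) :=
          mul_le_mul_of_nonneg_left h2 h3
      _ = _ := by
          show _ = 8 * ((l : ℝ) + 1) * (zw x b * cap x M Dv Qv l (n1 b) N
            (SS Dv (hs1 b) (n1 b) + SS Dv (hs2 b) (n2 b)) (hs1 b))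
          ring
  have h4 := sum_hv hx hLM s l (fun n (A B : ℕ → Word) => cap x M Dv Qv l (n / 2) N
          (SS Dv A (n / 2) + SS Dv B (n - n / 2)) A)
    (fun n A B => by
      show 0 ≤ cap x M Dv Qv l (n / 2) N (SS Dv A (n / 2) + SS Dv B (n - n / 2)) A
      unfold cap
      split_ifs
      · exact zero_le_one
      · exact hit_nonneg hx _ _ _ _ _ _ _ _)
  have h5 : ∑ n ∈ range (s + l + 1), EM x M (n / 2) (fun A => EM x M (n - n / 2) (fun B =>
        if Win s l L n A B then cap x M Dv Qv l (n / 2) N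
          (SS Dv A (n / 2) + SS Dv B (n - n / 2)) A else 0)) ≤
      ∑ n ∈ range (s + l + 1), κ (n / 2) * pI x M s l n +
        (s + l + 1) * ((2 * L + 1) ^ dd * ε) := by
    refine (Finset.sum_le_sum fun n hn => j2_one hx hPh hκ hκ1 hε hJ
      (by have := Finset.mem_range.1 hn; omega)).trans (le_of_eq ?_)
    rw [Finset.sum_add_distrib, Finset.sum_const, Finset.card_range, nsmul_eq_mul]
    push_cast
    ring
  exact h1.trans (mul_le_mul_of_nonneg_left (h4.trans h5) (by positivity))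
-- END j2

-- BEGIN j3
private theorem j3_cap_nonneg {x : ℝ} (hx : 0 ≤ x) (M : ℕ) (D' : Word → Pt) (Q' : Word → Set Pt)
    (l n N : ℕ) (v : Pt) (A : ℕ → Word) : 0 ≤ cap x M D' Q' l n N v A := by
  unfold cap
  split
  · exact zero_le_one
  · exact hit_nonneg hx M D' Q' l n N v A

private theorem j3_cap_le_one {x : ℝ} (hx : 0 ≤ x) {M : ℕ} (hPh : Ph x M ≤ 1) (D' : Word → Pt)
    (Q' : Word → Set Pt) (l n N : ℕ) (v : Pt) (A : ℕ → Word) :
    cap x M D' Q' l n N v A ≤ 1 := by
  unfold cap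
  split
  · exact le_rfl
  · exact hit_le_one hx hPh D' Q' l n N v A

private theorem j3_one {x : ℝ} (hx : 0 ≤ x) {M : ℕ} (hPh : Ph x M ≤ 1) (n : ℕ)
    {Φ : (ℕ → Word) → ℝ} (h : ∀ A, Φ A ≤ 1) : EM x M n Φ ≤ 1 := by
  have hw : ∀ p ∈ irs M, 0 ≤ (fun p : Word => x ^ p.length) p := fun p _ => pow_nonneg hx _
  have h0 : 0 ≤ Ph x M := Finset.sum_nonneg fun w _ => pow_nonneg hx _
  have h1 : EM x M n Φ ≤ EM x M n (fun _ => 1) := EE_mono hw (fun A _ => h A)
  have h2 : EM x M n (fun _ => (1 : ℝ)) = Ph x M ^ n * 1 := EE_const n 1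
  rw [h2, mul_one] at h1
  exact h1.trans (pow_le_one₀ h0 hPh)

private theorem j3_split {x : ℝ} (hx : 0 ≤ x) {L M N s l : ℕ} (hPh : Ph x M ≤ 1)
    {κ : ℕ → ℝ} {ε : ℝ}
    (hκ : ∀ n, 0 ≤ κ n) (hκ' : ∀ n, κ n ≤ 1) (hκ1 : ∀ n ≤ l, κ n = 1) (hε : 0 ≤ ε)
    (hJa : HJ x M N s l κ ε D Qp) (hJb : HJ x M N s l κ ε Dv Qv) {b : Word}
    (hb : b ∈ XW L s l) {n : ℕ} (hn : n ≤ s + l) :
    EM x M (n / 2) (fun A => EM x M (n - n / 2) (fun B =>
        if Win s l L n A B then
          cap x M Dv Qv l (n / 2) N (SS Dv A (n / 2) + SS Dv B (n - n / 2)) A *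
            cap x M D Qp l (n - n / 2) N (Dv b) B else 0)) ≤
      κ (n / 2) * κ (n - n / 2) * pI x M s l n + 2 * ((2 * L + 1) ^ dd * ε) := by
  have hw : ∀ p ∈ irs M, 0 ≤ (fun p : Word => x ^ p.length) p := fun p _ => pow_nonneg hx _
  have hE0 : (0 : ℝ) ≤ (2 * (L : ℝ) + 1) ^ dd * ε := by positivity
  set E0 : ℝ := (2 * (L : ℝ) + 1) ^ dd * ε with hE0d
  set k := n / 2 with hk
  set m := n - n / 2 with hm
  set cA : (ℕ → Word) → ℝ := fun B => cap x M D Qp l m N (Dv b) B with hcA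
  have hcA0 : ∀ B, 0 ≤ cA B := fun B => j3_cap_nonneg hx _ _ _ _ _ _ _ _
  have hcA1 : ∀ B, cA B ≤ 1 := fun B => j3_cap_le_one hx hPh _ _ _ _ _ _ _
  -- step 1: the first half, the second half fixed
  have step1 : ∀ B : ℕ → Word, EM x M k (fun A => if Win s l L n A B then
      cap x M Dv Qv l k N (SS Dv A k + SS Dv B m) A * cA B else 0) ≤
      cA B * (κ k * EM x M k (fun A => if Win s l L n A B then 1 else 0) + E0) := by
    intro B
    obtain ⟨C, hC⟩ : ∃ C : Pt → Prop, ∀ y : Pt, C y ↔ (((s : ℤ) < y 0 + SS D B m 0 ∧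
        y 0 + SS D B m 0 ≤ s + l) ∧ (∀ j, |y j| ≤ (L : ℤ)) ∧ ∀ j, |SS D B m j| ≤ (L : ℤ)) :=
      ⟨fun y => _, fun y => Iff.rfl⟩
    have hWC : ∀ A : ℕ → Word, Win s l L n A B ↔ C (SS Dv A k) := by
      intro A
      rw [hC]
      simp only [Win, SS_Dv_zero, SS_Dv_abs]
      exact Iff.rfl
    have h1 := core hx hPh hκ hκ1 hε hJb (n := k) (L := L) (by omega) C
      (fun y : Pt => y + SS Dv B m) (by
        intro y hy
        obtain ⟨⟨h2, h3⟩, h4, -⟩ := (hC y).1 hy
        refine ⟨h4, ?_, ?_⟩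
        · rw [Pi.add_apply, SS_Dv_zero]
          exact h2
        · rw [Pi.add_apply, SS_Dv_zero]
          exact h3)
    have h2 : EM x M k (fun A => if Win s l L n A B then
        cap x M Dv Qv l k N (SS Dv A k + SS Dv B m) A * cA B else 0) =
        cA B * EM x M k (fun A => if C (SS Dv A k) then
          cap x M Dv Qv l k N (SS Dv A k + SS Dv B m) A else 0) := by
      rw [← EE_mul_left]
      refine EE_congr fun A _ => ?_
      by_cases h : Win s l L n A B
      · rw [if_pos h, if_pos ((hWC A).1 h), mul_comm]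
      · rw [if_neg h, if_neg (fun h' => h ((hWC A).2 h')), mul_zero]
    rw [h2]
    refine mul_le_mul_of_nonneg_left (h1.trans ?_) (hcA0 B)
    refine add_le_add (mul_le_mul_of_nonneg_left ?_ (hκ k)) le_rfl
    refine le_of_eq (EE_congr fun A _ => ?_)
    by_cases h : Win s l L n A B
    · rw [if_pos h, if_pos ((hWC A).1 h)]
    · rw [if_neg h, if_neg (fun h' => h ((hWC A).2 h'))]
  -- step 2: the second half, the first half fixed
  have step2 : ∀ A : ℕ → Word, EM x M m (fun B => if Win s l L n A B then cA B else 0) ≤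
      κ m * EM x M m (fun B => if Win s l L n A B then 1 else 0) + E0 := by
    intro A
    have hbb : (s : ℤ) < D b 0 ∧ D b 0 ≤ s + l := by
      have h5 := hb
      simp only [XW, Tr.BW, Finset.mem_filter] at h5
      exact ⟨h5.2.2.1, by have := h5.2.2.2; push_cast at this; exact this⟩
    obtain ⟨C, hC⟩ : ∃ C : Pt → Prop, ∀ y : Pt, C y ↔ (((s : ℤ) < SS D A k 0 + y 0 ∧
        SS D A k 0 + y 0 ≤ s + l) ∧ (∀ j, |SS D A k j| ≤ (L : ℤ)) ∧ ∀ j, |y j| ≤ (L : ℤ)) :=
      ⟨fun y => _, fun y => Iff.rfl⟩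
    have hWC : ∀ B : ℕ → Word, Win s l L n A B ↔ C (SS D B m) := by
      intro B
      rw [hC]
      exact Iff.rfl
    have h1 := core hx hPh hκ hκ1 hε hJa (n := m) (L := L) (by omega) C
      (fun _ : Pt => Dv b) (by
        intro y hy
        refine ⟨((hC y).1 hy).2.2, ?_, ?_⟩
        · rw [Dv_zero]
          exact hbb.1
        · rw [Dv_zero]
          exact hbb.2)
    have h2 : ∀ (f : (ℕ → Word) → ℝ), EM x M m (fun B => if Win s l L n A B then f B else 0) =
        EM x M m (fun B => if C (SS D B m) then f B else 0) := by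
      intro f
      refine EE_congr fun B _ => ?_
      by_cases h : Win s l L n A B
      · rw [if_pos h, if_pos ((hWC B).1 h)]
      · rw [if_neg h, if_neg (fun h' => h ((hWC B).2 h'))]
    rw [h2 cA, h2 fun _ => 1]
    exact h1
  calc EM x M k (fun A => EM x M m (fun B => if Win s l L n A B then
          cap x M Dv Qv l k N (SS Dv A k + SS Dv B m) A * cap x M D Qp l m N (Dv b) B else 0))
      = EM x M m (fun B => EM x M k (fun A => if Win s l L n A B then
          cap x M Dv Qv l k N (SS Dv A k + SS Dv B m) A * cA B else 0)) := EE_swap k m _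
    _ ≤ EM x M m (fun B => cA B * (κ k * EM x M k (fun A => if Win s l L n A B then 1 else 0) +
          E0)) := EE_mono hw (fun B _ => step1 B)
    _ ≤ EM x M m (fun B => κ k * EM x M k (fun A => if Win s l L n A B then cA B else 0) +
          E0 * cA B) := by
        refine EE_mono hw (fun B _ => le_of_eq ?_)
        have h3 : EM x M k (fun A => if Win s l L n A B then cA B else 0) =
            cA B * EM x M k (fun A => if Win s l L n A B then 1 else 0) := by
          rw [← EE_mul_left]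
          refine EE_congr fun A _ => ?_
          by_cases h : Win s l L n A B
          · rw [if_pos h, if_pos h, mul_one]
          · rw [if_neg h, if_neg h, mul_zero]
        rw [h3]
        ring
    _ = κ k * EM x M m (fun B => EM x M k (fun A => if Win s l L n A B then cA B else 0)) +
          E0 * EM x M m cA := by
        unfold EM
        rw [EE_add_fun, EE_mul_left, EE_mul_left]
    _ = κ k * EM x M k (fun A => EM x M m (fun B => if Win s l L n A B then cA B else 0)) +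
          E0 * EM x M m cA := by
        have h8 : EM x M m (fun B => EM x M k (fun A => if Win s l L n A B then cA B else 0)) =
            EM x M k (fun A => EM x M m (fun B => if Win s l L n A B then cA B else 0)) :=
          EE_swap m k _
        rw [h8]
    _ ≤ κ k * (κ m * pI x M s l n + E0) + E0 * 1 := by
        refine add_le_add (mul_le_mul_of_nonneg_left ?_ (hκ k))
          (mul_le_mul_of_nonneg_left (j3_one hx hPh m hcA1) hE0)
        have h4 : EM x M k (fun A => EM x M m (fun B => if Win s l L n A B then cA B else 0)) ≤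
            EM x M k (fun A => κ m * EM x M m (fun B => if Win s l L n A B then 1 else 0) + E0) :=
          EE_mono hw (fun A _ => step2 A)
        refine h4.trans ?_
        have h9 : EM x M k (fun A => κ m * EM x M m (fun B => if Win s l L n A B then 1 else 0) +
            E0) = κ m * EM x M k (fun A => EM x M m (fun B => if Win s l L n A B then 1 else 0)) +
            EM x M k (fun _ => E0) := by
          unfold EM
          rw [EE_add_fun, EE_mul_left]
        rw [h9]
        refine add_le_add (mul_le_mul_of_nonneg_left ?_ (hκ m)) ?_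
        · rw [← pI_halves]
          refine EE_mono hw (fun A _ => EE_mono hw (fun B _ => ?_))
          by_cases h : Win s l L n A B
          · rw [if_pos h, if_pos h.1]
          · rw [if_neg h]
            split
            · exact zero_le_one
            · exact le_rfl
        · have h5 : EM x M k (fun _ => E0) = Ph x M ^ k * E0 := EE_const k E0
          have h0 : 0 ≤ Ph x M := Finset.sum_nonneg fun w _ => pow_nonneg hx _
          calc EM x M k (fun _ => E0) = Ph x M ^ k * E0 := h5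
            _ ≤ 1 * E0 := mul_le_mul_of_nonneg_right (pow_le_one₀ h0 hPh) hE0
            _ = E0 := one_mul _
    _ ≤ κ k * κ m * pI x M s l n + 2 * E0 := by
        have h6 : κ k * E0 ≤ 1 * E0 := mul_le_mul_of_nonneg_right (hκ' k) hE0
        nlinarith

/-- (J2): both caps of the leg `a` are targets -/
theorem J2 {x : ℝ} (hx : 0 ≤ x) {L M N s l : ℕ} (hLM : L ≤ M) (hPh : Ph x M ≤ 1)
    (hB : ∀ s, Pool.Agent.SwP.Bs x L s ≤ 1)
    (hN : s + 2 * l + 2 ≤ N) (hhalf : (1 : ℝ) / 2 ≤ Ph x M ^ N) {κ : ℕ → ℝ} {ε : ℝ}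
    (hκ : ∀ n, 0 ≤ κ n) (hκ' : ∀ n, κ n ≤ 1) (hκ1 : ∀ n ≤ l, κ n = 1) (hε : 0 ≤ ε)
    (hJa : HJ x M N s l κ ε D Qp) (hJb : HJ x M N s l κ ε Dv Qv) {b : Word}
    (hb : b ∈ XW L s l) :
    ∑ a ∈ XW L s l, zw x a * (be x L M s l a * al x L M s l a b) ≤
      (8 * (l + 1)) ^ 2 *
        (∑ n ∈ range (s + l + 1), κ (n / 2) * κ (n - n / 2) * pI x M s l n +
        2 * ((s + l + 1) * ((2 * L + 1) ^ dd * ε))) := by
  set Φ : ℕ → (ℕ → Word) → (ℕ → Word) → ℝ := fun n A B =>
    cap x M Dv Qv l (n / 2) N (SS Dv A (n / 2) + SS Dv B (n - n / 2)) A *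
      cap x M D Qp l (n - n / 2) N (Dv b) B with hΦ
  have hΦ0 : ∀ n A B, 0 ≤ Φ n A B := fun n A B =>
    mul_nonneg (j3_cap_nonneg hx _ _ _ _ _ _ _ _) (j3_cap_nonneg hx _ _ _ _ _ _ _ _)
  have h1 : ∀ a ∈ XW L s l, zw x a * (be x L M s l a * al x L M s l a b) ≤
      (8 * ((l : ℝ) + 1)) ^ 2 * (zw x a * Φ (nn a) (hs1 a) (hs2 a)) := by
    intro a ha
    have hba : Br a := by
      have h5 := ha
      simp only [XW, Tr.BW, Finset.mem_filter] at h5
      exact h5.2.1
    have h2 := be_le hx hLM hPh hB hN hhalf ha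
    have h3 := al_le hx hLM hPh hB hN hhalf ha hb
    have h4 := mul_le_mul h2 h3 (al_nonneg hx L M s l a b)
      (mul_nonneg (by positivity) (j3_cap_nonneg hx _ _ _ _ _ _ _ _))
    rw [Dv_halves hba] at h4
    refine (mul_le_mul_of_nonneg_left h4 (pow_nonneg hx _)).trans (le_of_eq ?_)
    simp only [hΦ, n1, n2, zw]
    ring
  calc ∑ a ∈ XW L s l, zw x a * (be x L M s l a * al x L M s l a b)
      ≤ ∑ a ∈ XW L s l, (8 * ((l : ℝ) + 1)) ^ 2 * (zw x a * Φ (nn a) (hs1 a) (hs2 a)) :=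
        Finset.sum_le_sum h1
    _ = (8 * ((l : ℝ) + 1)) ^ 2 * ∑ a ∈ XW L s l, zw x a * Φ (nn a) (hs1 a) (hs2 a) := by
        rw [Finset.mul_sum]
    _ ≤ (8 * ((l : ℝ) + 1)) ^ 2 * ∑ n ∈ range (s + l + 1),
          (κ (n / 2) * κ (n - n / 2) * pI x M s l n + 2 * ((2 * L + 1) ^ dd * ε)) := by
        refine mul_le_mul_of_nonneg_left ?_ (by positivity)
        refine (sum_hv hx hLM s l Φ hΦ0).trans (Finset.sum_le_sum fun n hn => ?_)
        have hn' : n ≤ s + l := by
          have := Finset.mem_range.1 hn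
          omega
        exact j3_split hx hPh hκ hκ' hκ1 hε hJa hJb hb hn'
    _ = _ := by
        rw [Finset.sum_add_distrib, Finset.sum_const, Finset.card_range, nsmul_eq_mul]
        push_cast
        ring
-- END j3

-- BEGIN j0
/-- (J0) -/
theorem J0 {x : ℝ} (hx : 0 ≤ x) {L M : ℕ} (hLM : L ≤ M) (s l : ℕ) :
    ∑ w ∈ XW L s l, zw x w ≤ ∑ n ∈ range (s + l + 1), pI x M s l n := by
  have h := sum_hv hx hLM s l (fun _ _ _ => 1) (fun _ _ _ => zero_le_one)
  simp only [mul_one] at h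
  refine h.trans (Finset.sum_le_sum (fun n _ => ?_))
  rw [← pI_halves]
  refine EE_mono (fun p _ => pow_nonneg hx _) (fun A _ => ?_)
  refine EE_mono (fun p _ => pow_nonneg hx _) (fun B _ => ?_)
  by_cases hW : Win s l L n A B
  · rw [if_pos hW, if_pos hW.1]
  · rw [if_neg hW]
    split <;> norm_num
-- END j0

end Pool.Agent.SwT
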