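import Pool.Agent.SwT.Defs
import Pool.Agent.R19b.LemmaJ

/-! Closed form of LEMMA J (R19, STAR(2/3)): choice of the level `T` and of `m`. -/

set_option autoImplicit false
set_option linter.unusedSectionVars false
set_option linter.style.longLine false
set_option linter.unusedVariables false

namespace Pool.Agent.SwT

open Finset
open Classical
open Pool.Agent.R19

section U

variable {P : Type*} [Inhabited P] {V : Type*} [AddCommGroup V]
variable {F : Finset P} {w : P → ℝ} {D D' : P → V} {ht : V →+ ℤ} {pts pts' : P → Set V} {Γ : Set V}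

/-- probability that `n` pieces have height at most `T` (integer `T`) -/
noncomputable def jL (F : Finset P) (w : P → ℝ) (D : P → V) (ht : V →+ ℤ) (n : ℕ) (T : ℤ) : ℝ :=
  EE F w n (fun s => if ht (SS D s n) ≤ T then 1 else 0)

/-- mass of the lists of at most `N` pieces of height at most `T` -/
noncomputable def jU (F : Finset P) (w : P → ℝ) (D : P → V) (ht : V →+ ℤ) (N : ℕ) (T : ℤ) : ℝ :=
  ∑ n ∈ range (N + 1), jL F w D ht n T

theorem prL_eq (n T : ℕ) : prL F w D ht n T = jL F w D ht n (T : ℤ) := rfl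

theorem Uf_eq (T : ℕ) : Uf F w D ht T = jU F w D ht T (T : ℤ) := rfl

theorem jL_nonneg (hw : ∀ p ∈ F, 0 ≤ w p) (n : ℕ) (T : ℤ) : 0 ≤ jL F w D ht n T :=
  EE_nonneg hw (fun _ _ => by split <;> norm_num)

theorem jL_le_one (hw : ∀ p ∈ F, 0 ≤ w p) (hw1 : ∑ p ∈ F, w p ≤ 1) (n : ℕ) (T : ℤ) :
    jL F w D ht n T ≤ 1 :=
  EE_le_one hw hw1 zero_le_one (fun _ _ => by split <;> norm_num)

theorem jL_zero_eq (T : ℤ) (hT : 0 ≤ T) : jL F w D ht 0 T = 1 := by
  unfold jL EE
  beta_reduce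
  rw [if_pos]
  rw [SS_zero, map_zero]
  exact hT

theorem jL_succ (n : ℕ) (T : ℤ) : jL F w D ht (n + 1) T =
    ∑ p ∈ F, w p * jL F w D ht n (T - ht (D p)) := by
  unfold jL
  change ∑ p ∈ F, w p * EE F w n (fun s => if ht (SS D (cns p s) (n + 1)) ≤ T then (1 : ℝ) else 0)
    = _
  refine Finset.sum_congr rfl ?_
  intro p _
  congr 1
  refine EE_congr ?_
  intro s _
  rw [SS_cns, map_add]
  have : ht (D p) + ht (SS D s n) ≤ T ↔ ht (SS D s n) ≤ T - ht (D p) := by omega
  simp only [this]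

theorem jL_neg (hD : ∀ p ∈ F, 1 ≤ ht (D p)) (n : ℕ) {T : ℤ} (hT : T < n) : jL F w D ht n T = 0 := by
  unfold jL
  have h : ∀ s, InF F n s → (if ht (SS D s n) ≤ T then (1 : ℝ) else 0) = (fun _ => (0 : ℝ)) s := by
    intro s hs
    rw [if_neg]
    have := ht_SS_mono hD hs (Nat.zero_le n) le_rfl
    rw [SS_zero, map_zero] at this
    push_cast at this
    omega
  rw [EE_congr h, EE_zero_fun]

theorem jL_mono (hw : ∀ p ∈ F, 0 ≤ w p) (n : ℕ) {T T' : ℤ} (h : T ≤ T') :
    jL F w D ht n T ≤ jL F w D ht n T' := by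
  refine EE_mono hw ?_
  intro s _
  by_cases h1 : ht (SS D s n) ≤ T
  · rw [if_pos h1, if_pos (le_trans h1 h)]
  · rw [if_neg h1]
    split <;> norm_num

theorem jL_anti (hw : ∀ p ∈ F, 0 ≤ w p) (hw1 : ∑ p ∈ F, w p ≤ 1) (hD : ∀ p ∈ F, 1 ≤ ht (D p))
    {n m : ℕ} (h : n ≤ m) (T : ℤ) : jL F w D ht m T ≤ jL F w D ht n T := by
  obtain ⟨r, rfl⟩ : ∃ r, m = n + r := ⟨m - n, by omega⟩
  unfold jL
  rw [EE_add]
  refine EE_mono hw ?_
  intro s hs
  by_cases h1 : ht (SS D s n) ≤ T
  · rw [if_pos h1]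
    exact EE_le_one hw hw1 zero_le_one (fun _ _ => by split <;> norm_num)
  · rw [if_neg h1]
    have h2 : EE F w r (fun h => if ht (SS D (glue n s h) (n + r)) ≤ T then (1 : ℝ) else 0) ≤
        EE F w r (fun _ => (0 : ℝ)) := by
      refine EE_mono hw ?_
      intro h hh
      rw [if_neg]
      have h3 := ht_SS_mono hD (hs.glue hh) (Nat.le_add_right n r) le_rfl
      rw [SS_glue_le D s h le_rfl] at h3
      push_cast at h3
      omega
    rw [EE_zero_fun] at h2
    exact h2

theorem jU_nonneg (hw : ∀ p ∈ F, 0 ≤ w p) (N : ℕ) (T : ℤ) : 0 ≤ jU F w D ht N T :=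
  Finset.sum_nonneg (fun n _ => jL_nonneg hw n T)

theorem jU_neg (hD : ∀ p ∈ F, 1 ≤ ht (D p)) (N : ℕ) {T : ℤ} (hT : T < 0) : jU F w D ht N T = 0 :=
  Finset.sum_eq_zero (fun n _ => jL_neg hD n (by
    have : (0 : ℤ) ≤ (n : ℤ) := by positivity
    omega))

theorem jU_mono (hw : ∀ p ∈ F, 0 ≤ w p) (N : ℕ) {T T' : ℤ} (h : T ≤ T') :
    jU F w D ht N T ≤ jU F w D ht N T' :=
  Finset.sum_le_sum (fun n _ => jL_mono hw n h)

theorem jU_succ (N : ℕ) {T : ℤ} (hT : 0 ≤ T) : jU F w D ht (N + 1) T =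
    1 + ∑ p ∈ F, w p * jU F w D ht N (T - ht (D p)) := by
  unfold jU
  rw [Finset.sum_range_succ', jL_zero_eq T hT, add_comm]
  congr 1
  simp only [jL_succ]
  rw [Finset.sum_comm]
  refine Finset.sum_congr rfl ?_
  intro p _
  rw [Finset.mul_sum]

/-- more pieces than the height do not count -/
theorem jU_stab (hD : ∀ p ∈ F, 1 ≤ ht (D p)) {N N' : ℕ} (h : N ≤ N') {T : ℤ} (hT : T ≤ N) :
    jU F w D ht N' T = jU F w D ht N T := by
  unfold jU
  symm
  refine Finset.sum_subset (Finset.range_mono (by omega)) ?_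
  intro n _ hn
  rw [Finset.mem_range, not_lt] at hn
  refine jL_neg hD n ?_
  have : (N : ℤ) + 1 ≤ n := by exact_mod_cast hn
  omega

/-- subadditivity -/
theorem jU_add (hw : ∀ p ∈ F, 0 ≤ w p) (hw1 : ∑ p ∈ F, w p ≤ 1) (hD : ∀ p ∈ F, 1 ≤ ht (D p))
    (N : ℕ) : ∀ {s t : ℤ}, 0 ≤ s → 0 ≤ t →
    jU F w D ht N (s + t) ≤ jU F w D ht N s + jU F w D ht N t := by
  induction N with
  | zero =>
    intro s t hs ht0
    unfold jU
    rw [Finset.sum_range_one, Finset.sum_range_one, Finset.sum_range_one, jL_zero_eq _ hs,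
      jL_zero_eq _ ht0, jL_zero_eq _ (add_nonneg hs ht0)]
    norm_num
  | succ N ih =>
    intro s t hs ht0
    rw [jU_succ N (add_nonneg hs ht0), jU_succ N hs]
    have h1 : ∀ p ∈ F, w p * jU F w D ht N (s + t - ht (D p)) ≤
        w p * jU F w D ht N (s - ht (D p)) + w p * jU F w D ht N t := by
      intro p hp
      rw [← mul_add]
      refine mul_le_mul_of_nonneg_left ?_ (hw p hp)
      by_cases h : ht (D p) ≤ s
      · have h2 := ih (s := s - ht (D p)) (t := t) (by omega) ht0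
        have e : s + t - ht (D p) = s - ht (D p) + t := by ring
        rw [e]
        exact h2
      · have h2 : jU F w D ht N (s + t - ht (D p)) ≤ jU F w D ht N t := jU_mono hw N (by omega)
        have h3 := jU_nonneg (F := F) (w := w) (D := D) (ht := ht) hw N (s - ht (D p))
        linarith
    have h2 := Finset.sum_le_sum h1
    rw [Finset.sum_add_distrib, ← Finset.sum_mul] at h2
    have h3 : (∑ p ∈ F, w p) * jU F w D ht N t ≤ jU F w D ht (N + 1) t := by
      have h4 : (∑ p ∈ F, w p) * jU F w D ht N t ≤ 1 * jU F w D ht N t :=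
        mul_le_mul_of_nonneg_right hw1 (jU_nonneg hw N t)
      have h5 : jU F w D ht N t ≤ jU F w D ht (N + 1) t :=
        Finset.sum_le_sum_of_subset_of_nonneg (Finset.range_mono (by omega))
          (fun n _ _ => jL_nonneg hw n t)
      linarith
    linarith

/-- `U(T) E min(h, T') ≤ T + T'` -/
theorem jU_Emin (hw : ∀ p ∈ F, 0 ≤ w p) (hw1 : ∑ p ∈ F, w p ≤ 1) (hD : ∀ p ∈ F, 1 ≤ ht (D p))
    (T' : ℕ) (N : ℕ) : ∀ {T : ℤ}, 0 ≤ T →
    jU F w D ht N T * (∑ p ∈ F, w p * min (T' : ℝ) (ht (D p))) ≤ T + T' := by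
  have hE0 : 0 ≤ ∑ p ∈ F, w p * min (T' : ℝ) (ht (D p)) := by
    refine Finset.sum_nonneg (fun p hp => mul_nonneg (hw p hp) (le_min (by positivity) ?_))
    have h1 := hD p hp
    have : (0 : ℤ) ≤ ht (D p) := by omega
    exact_mod_cast this
  have hE1 : ∑ p ∈ F, w p * min (T' : ℝ) (ht (D p)) ≤ T' := by
    calc ∑ p ∈ F, w p * min (T' : ℝ) (ht (D p)) ≤ ∑ p ∈ F, w p * (T' : ℝ) :=
          Finset.sum_le_sum (fun p hp => mul_le_mul_of_nonneg_left (min_le_left _ _) (hw p hp))
      _ = (∑ p ∈ F, w p) * (T' : ℝ) := (Finset.sum_mul _ _ _).symm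
      _ ≤ 1 * (T' : ℝ) := mul_le_mul_of_nonneg_right hw1 (by positivity)
      _ = T' := one_mul _
  induction N with
  | zero =>
    intro T hT
    unfold jU
    rw [Finset.sum_range_one, jL_zero_eq _ hT, one_mul]
    have : (0 : ℝ) ≤ (T : ℝ) := by exact_mod_cast hT
    linarith
  | succ N ih =>
    intro T hT
    have hTr : (0 : ℝ) ≤ (T : ℝ) := by exact_mod_cast hT
    rw [jU_succ N hT, add_mul, one_mul, Finset.sum_mul]
    set e : ℝ := ∑ p ∈ F, w p * min (T' : ℝ) (ht (D p)) with he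
    have h1 : ∀ p ∈ F, w p * min (T' : ℝ) (ht (D p)) +
        w p * jU F w D ht N (T - ht (D p)) * e ≤ w p * (T + T') := by
      intro p hp
      rw [mul_assoc, ← mul_add]
      refine mul_le_mul_of_nonneg_left ?_ (hw p hp)
      by_cases h : ht (D p) ≤ T
      · have h2 := ih (T := T - ht (D p)) (by omega)
        push_cast at h2
        have h3 : min (T' : ℝ) (ht (D p)) ≤ ht (D p) := min_le_right _ _
        linarith
      · rw [jU_neg hD N (by omega), zero_mul, add_zero]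
        have h3 : min (T' : ℝ) (ht (D p)) ≤ T' := min_le_left _ _
        linarith
    have h2 := Finset.sum_le_sum h1
    rw [Finset.sum_add_distrib, ← he, ← Finset.sum_mul (s := F) (f := fun p => w p)] at h2
    have h3 : (∑ p ∈ F, w p) * ((T : ℝ) + T') ≤ 1 * ((T : ℝ) + T') :=
      mul_le_mul_of_nonneg_right hw1 (by positivity)
    linarith

/-- `K` pieces are rarely lower than `T` if `2 U(T) ≤ K` -/
theorem jL_half (hw : ∀ p ∈ F, 0 ≤ w p) (hw1 : ∑ p ∈ F, w p ≤ 1) (hD : ∀ p ∈ F, 1 ≤ ht (D p))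
    {K : ℕ} (hK1 : 1 ≤ K) {T : ℕ} (hK : 2 * Uf F w D ht T ≤ K) : jL F w D ht K (T : ℤ) ≤ 1 / 2 := by
  have h1 : (K : ℝ) * jL F w D ht K (T : ℤ) ≤ Uf F w D ht T := by
    rw [Uf_eq]
    rcases le_total K T with h | h
    · calc (K : ℝ) * jL F w D ht K (T : ℤ) = ∑ n ∈ range K, jL F w D ht K (T : ℤ) := by
            rw [Finset.sum_const, card_range, nsmul_eq_mul]
        _ ≤ ∑ n ∈ range K, jL F w D ht n (T : ℤ) :=
            Finset.sum_le_sum (fun n hn => jL_anti hw hw1 hD (by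
              rw [Finset.mem_range] at hn; omega) _)
        _ ≤ jU F w D ht T (T : ℤ) :=
            Finset.sum_le_sum_of_subset_of_nonneg (Finset.range_mono (by omega))
              (fun n _ _ => jL_nonneg hw n _)
    · rw [← jU_stab hD h le_rfl]
      calc (K : ℝ) * jL F w D ht K (T : ℤ) = ∑ n ∈ range K, jL F w D ht K (T : ℤ) := by
            rw [Finset.sum_const, card_range, nsmul_eq_mul]
        _ ≤ ∑ n ∈ range K, jL F w D ht n (T : ℤ) :=
            Finset.sum_le_sum (fun n hn => jL_anti hw hw1 hD (by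
              rw [Finset.mem_range] at hn; omega) _)
        _ ≤ jU F w D ht K (T : ℤ) :=
            Finset.sum_le_sum_of_subset_of_nonneg (Finset.range_mono (by omega))
              (fun n _ _ => jL_nonneg hw n _)
  have hKr : (1 : ℝ) ≤ K := by exact_mod_cast hK1
  have h2 : (K : ℝ) * jL F w D ht K (T : ℤ) ≤ K * (1 / 2) := by linarith
  exact le_of_mul_le_mul_left h2 (by linarith)

theorem jL_blocks (hw : ∀ p ∈ F, 0 ≤ w p) (hw1 : ∑ p ∈ F, w p ≤ 1) (hD : ∀ p ∈ F, 1 ≤ ht (D p))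
    {K : ℕ} (hK1 : 1 ≤ K) {T : ℕ} (hK : 2 * Uf F w D ht T ≤ K) (r : ℕ) :
    ∀ T' : ℤ, T' ≤ T → jL F w D ht (r * K) T' ≤ (1 / 2) ^ r := by
  induction r with
  | zero =>
    intro T' _
    rw [Nat.zero_mul, pow_zero]
    exact jL_le_one hw hw1 0 T'
  | succ r ih =>
    intro T' hT'
    have e : (r + 1) * K = K + r * K := by ring
    rw [e]
    unfold jL
    rw [EE_add]
    have h1 : EE F w K (fun f => EE F w (r * K) (fun h =>
        if ht (SS D (glue K f h) (K + r * K)) ≤ T' then (1 : ℝ) else 0)) ≤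
        EE F w K (fun f => (1 / 2) ^ r * (if ht (SS D f K) ≤ (T : ℤ) then 1 else 0)) := by
      refine EE_mono hw ?_
      intro f hf
      by_cases h : ht (SS D f K) ≤ (T : ℤ)
      · rw [if_pos h, mul_one]
        have h0 : 0 ≤ ht (SS D f K) := by
          have := ht_SS_mono hD hf (Nat.zero_le K) le_rfl
          rw [SS_zero, map_zero] at this
          push_cast at this
          have h3 : (0 : ℤ) ≤ K := by positivity
          linarith
        refine le_trans (EE_mono hw ?_) (ih (T' - ht (SS D f K)) (by omega))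
        intro h' _
        rw [SS_add, SS_glue_le D f h' le_rfl, shl_glue, map_add]
        by_cases h2 : ht (SS D f K) + ht (SS D h' (r * K)) ≤ T'
        · rw [if_pos h2, if_pos (by omega)]
        · rw [if_neg h2]
          split <;> norm_num
      · rw [if_neg h, mul_zero]
        have h2 : EE F w (r * K) (fun h' => if ht (SS D (glue K f h') (K + r * K)) ≤ T'
            then (1 : ℝ) else 0) ≤ EE F w (r * K) (fun _ => (0 : ℝ)) := by
          refine EE_mono hw ?_
          intro h' hh'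
          rw [if_neg]
          have h3 := ht_SS_mono hD (hf.glue hh') (Nat.le_add_right K (r * K)) le_rfl
          rw [SS_glue_le D f h' le_rfl] at h3
          push_cast at h3
          have h4 : (0 : ℤ) ≤ (r : ℤ) * K := by positivity
          omega
        rw [EE_zero_fun] at h2
        exact h2
    refine le_trans h1 ?_
    rw [EE_mul_left, pow_succ]
    refine mul_le_mul_of_nonneg_left ?_ (by positivity)
    exact jL_half hw hw1 hD hK1 hK

theorem one_le_Uf (hw : ∀ p ∈ F, 0 ≤ w p) (T : ℕ) : 1 ≤ Uf F w D ht T := by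
  rw [Uf_eq]
  unfold jU
  have h := Finset.single_le_sum (f := fun n => jL F w D ht n (T : ℤ))
    (fun n _ => jL_nonneg hw n _) (show 0 ∈ range (T + 1) by simp)
  rw [jL_zero_eq _ (by positivity)] at h
  exact h

theorem Uf_succ_le (hw : ∀ p ∈ F, 0 ≤ w p) (hw1 : ∑ p ∈ F, w p ≤ 1) (hD : ∀ p ∈ F, 1 ≤ ht (D p))
    (T : ℕ) : Uf F w D ht (T + 1) ≤ Uf F w D ht T + 2 := by
  rw [Uf_eq, Uf_eq]
  have h1 := jU_add (F := F) (w := w) (D := D) (ht := ht) hw hw1 hD (T + 1)
    (s := (T : ℤ)) (t := 1) (by positivity) (by norm_num)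
  push_cast
  refine le_trans h1 ?_
  rw [jU_stab hD (show T ≤ T + 1 by omega) le_rfl]
  have h2 : jU F w D ht (T + 1) 1 ≤ 2 := by
    rw [jU_stab hD (show 1 ≤ T + 1 by omega) (by norm_num)]
    unfold jU
    rw [Finset.sum_range_succ, Finset.sum_range_one]
    have h3 := jL_le_one (F := F) (w := w) (D := D) (ht := ht) hw hw1 0 1
    have h4 := jL_le_one (F := F) (w := w) (D := D) (ht := ht) hw hw1 1 1
    linarith
  linarith

theorem Uf_half (hw : ∀ p ∈ F, 0 ≤ w p) (hw1 : ∑ p ∈ F, w p ≤ 1) (hD : ∀ p ∈ F, 1 ≤ ht (D p))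
    (S : ℕ) : Uf F w D ht S ≤ 4 * Uf F w D ht (S / 2) := by
  have h1 := jU_add (F := F) (w := w) (D := D) (ht := ht) hw hw1 hD S
    (s := ((S / 2 : ℕ) : ℤ)) (t := ((S - S / 2 : ℕ) : ℤ)) (by positivity) (by positivity)
  have e : ((S / 2 : ℕ) : ℤ) + ((S - S / 2 : ℕ) : ℤ) = (S : ℤ) := by
    have : S / 2 + (S - S / 2) = S := by omega
    exact_mod_cast this
  rw [e] at h1
  have h2 : jU F w D ht S ((S / 2 : ℕ) : ℤ) = Uf F w D ht (S / 2) :=
    jU_stab hD (show S / 2 ≤ S by omega) le_rfl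
  have h3 : jU F w D ht S ((S - S / 2 : ℕ) : ℤ) ≤ Uf F w D ht (S / 2) + 2 := by
    rcases Nat.eq_zero_or_pos S with h | h
    · subst h
      have h4 : jU F w D ht 0 ((0 - 0 / 2 : ℕ) : ℤ) = Uf F w D ht 0 := by simp [Uf_eq]
      rw [h4]
      linarith
    · have h4 : jU F w D ht S ((S - S / 2 : ℕ) : ℤ) ≤ jU F w D ht S (((S / 2 + 1 : ℕ)) : ℤ) :=
        jU_mono hw S (by
          have : S - S / 2 ≤ S / 2 + 1 := by omega
          exact_mod_cast this)
      have h5 : jU F w D ht S (((S / 2 + 1 : ℕ)) : ℤ) = Uf F w D ht (S / 2 + 1) :=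
        jU_stab hD (show S / 2 + 1 ≤ S by omega) le_rfl
      have h6 := Uf_succ_le (F := F) (w := w) (D := D) (ht := ht) hw hw1 hD (S / 2)
      linarith
  have h7 := one_le_Uf (F := F) (D := D) (ht := ht) hw (S / 2)
  rw [Uf_eq S]
  linarith

/-- **LEMMA J, closed form** -/
theorem J_closed (hw : ∀ p ∈ F, 0 ≤ w p) (hw1 : ∑ p ∈ F, w p ≤ 1)
    (hD : ∀ p ∈ F, 1 ≤ ht (D p)) (hD' : ∀ p ∈ F, 1 ≤ ht (D' p))
    (hlaw : law F w D' = law F w D)
    (hp : ∀ p ∈ F, ∀ x ∈ pts p, 0 ≤ ht x ∧ ht x ≤ ht (D p))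
    (hp' : ∀ p ∈ F, ∀ x ∈ pts' p, 0 ≤ ht x ∧ ht x ≤ ht (D' p))
    {g n N S K : ℕ} {x : V} (hS : 2 ≤ S) (hx : ((S / 2 : ℕ) : ℤ) + g ≤ ht x)
    (hN : ht x + n + 1 ≤ N) (hhalf : (1 : ℝ) / 2 ≤ (∑ p ∈ F, w p) ^ n) (hK : 1 ≤ K)
    (hn1 : 1 ≤ n) (hnK : (n : ℝ) ≤ 2 ^ K) (y : V) :
    EE F w N (fun G => EE F w n (fun A => if SS D' A n = y ∧
        Low ht D' pts' {z | Up D pts G N z} g n x A then (1 : ℝ) else 0)) ≤
      120 * (K : ℝ) ^ 2 * ((g + 1) / min (n : ℝ) (Uf F w D ht S)) *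
        (wn F w D' n y + (1 / 2) ^ K) := by
  set W : ℝ := wn F w D' n y with hW
  have hW0 : 0 ≤ W := wn_nonneg hw n y
  set U : ℝ := Uf F w D ht S with hU
  have hU1 : 1 ≤ U := one_le_Uf hw S
  have hnr : (1 : ℝ) ≤ n := by exact_mod_cast hn1
  have hKr : (1 : ℝ) ≤ K := by exact_mod_cast hK
  have hg0 : (0 : ℝ) ≤ g := by positivity
  have hmin1 : 1 ≤ min (n : ℝ) U := le_min hnr hU1
  have hmin0 : 0 < min (n : ℝ) U := by linarith
  have hq0 : 0 ≤ ((g : ℝ) + 1) / min (n : ℝ) U := by positivity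
  have hK2 : (1 : ℝ) ≤ (K : ℝ) ^ 2 := one_le_pow₀ hKr
  have hh0 : (0 : ℝ) ≤ (1 / 2) ^ K := by positivity
  -- the trivial bound
  have hL : EE F w N (fun G => EE F w n (fun A => if SS D' A n = y ∧
        Low ht D' pts' {z | Up D pts G N z} g n x A then (1 : ℝ) else 0)) ≤ W := by
    refine EE_le_one hw hw1 hW0 ?_
    intro G _
    refine EE_mono hw ?_
    intro A _
    by_cases h1 : SS D' A n = y
    · rw [if_pos h1]
      split <;> norm_num
    · rw [if_neg h1, if_neg (fun h2 => h1 h2.1)]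
  -- small `n`
  have hsmall : (n : ℝ) ≤ 14 * K * (g + 1) → EE F w N (fun G => EE F w n (fun A => if SS D' A n = y ∧
        Low ht D' pts' {z | Up D pts G N z} g n x A then (1 : ℝ) else 0)) ≤
      120 * (K : ℝ) ^ 2 * ((g + 1) / min (n : ℝ) U) * (W + (1 / 2) ^ K) := by
    intro hn
    refine le_trans hL ?_
    have h1 : 1 ≤ 14 * (K : ℝ) * (((g : ℝ) + 1) / min (n : ℝ) U) := by
      rw [← mul_div_assoc, le_div_iff₀ hmin0, one_mul]
      exact le_trans (min_le_left _ _) hn
    have h2 : 14 * (K : ℝ) * (((g : ℝ) + 1) / min (n : ℝ) U) ≤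
        120 * (K : ℝ) ^ 2 * ((g + 1) / min (n : ℝ) U) := by
      refine mul_le_mul_of_nonneg_right ?_ hq0
      nlinarith
    calc W ≤ 1 * (W + (1 / 2) ^ K) := by linarith
      _ ≤ 120 * (K : ℝ) ^ 2 * ((g + 1) / min (n : ℝ) U) * (W + (1 / 2) ^ K) :=
          mul_le_mul_of_nonneg_right (by linarith) (by linarith)
  by_cases hn2 : n < 2 * (g + 1)
  · apply hsmall
    have h1 : (n : ℝ) ≤ 2 * (g + 1) := by
      have : n ≤ 2 * (g + 1) := hn2.le
      exact_mod_cast this
    nlinarith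
  · rw [not_lt] at hn2
    set m := n / 2 with hm
    have hUf0 : Uf F w D ht 0 = 1 := by
      rw [Uf_eq]
      unfold jU
      rw [Finset.sum_range_one]
      exact jL_zero_eq _ (by norm_num)
    have hU3 : Uf F w D ht 1 ≤ 3 := by
      have := Uf_succ_le (F := F) (w := w) (D := D) (ht := ht) hw hw1 hD 0
      rw [hUf0] at this
      linarith
    by_cases hP1 : (K : ℝ) * (2 * Uf F w D ht 1 + 1) ≤ m + 1
    · -- the level
      have hex : ∀ R : ℕ, 1 ≤ R → ∃ T : ℕ, 1 ≤ T ∧ T ≤ R ∧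
          (K : ℝ) * (2 * Uf F w D ht T + 1) ≤ m + 1 ∧
          (T = R ∨ ¬ (K : ℝ) * (2 * Uf F w D ht (T + 1) + 1) ≤ m + 1) := by
        intro R hR
        induction R, hR using Nat.le_induction with
        | base => exact ⟨1, le_rfl, le_rfl, hP1, Or.inl rfl⟩
        | succ R hR ih =>
          obtain ⟨T, h1, h2, h3, h4⟩ := ih
          rcases h4 with h4 | h4
          · by_cases h5 : (K : ℝ) * (2 * Uf F w D ht (R + 1) + 1) ≤ m + 1
            · exact ⟨R + 1, by omega, le_rfl, h5, Or.inl rfl⟩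
            · subst h4
              exact ⟨T, h1, by omega, h3, Or.inr h5⟩
          · exact ⟨T, h1, by omega, h3, Or.inr h4⟩
      obtain ⟨T, hT1, hT2, hT3, hT4⟩ := hex (S / 2) (by omega)
      have hUT1 : 1 ≤ Uf F w D ht T := one_le_Uf hw T
      have hUT : min (n : ℝ) U ≤ 14 * K * Uf F w D ht T := by
        rcases hT4 with h | h
        · have h1 := Uf_half (F := F) (w := w) (D := D) (ht := ht) hw hw1 hD S
          rw [← h] at h1
          refine le_trans (min_le_right _ _) (le_trans h1 ?_)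
          nlinarith
        · have h1 := Uf_succ_le (F := F) (w := w) (D := D) (ht := ht) hw hw1 hD T
          rw [not_le] at h
          have h2 : (n : ℝ) ≤ 2 * (m + 1) := by
            have : n ≤ 2 * (m + 1) := by omega
            exact_mod_cast this
          refine le_trans (min_le_left _ _) (le_trans h2 ?_)
          have h3 : (K : ℝ) * (2 * Uf F w D ht (T + 1) + 1) ≤ K * (7 * Uf F w D ht T) :=
            mul_le_mul_of_nonneg_left (by linarith) (by linarith)
          linarith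
      have hJ := lemma_J (F := F) (w := w) (D := D) (D' := D') (ht := ht) (pts := pts)
        (pts' := pts') hw hw1 hD hD' hlaw hp hp' (g := g) (n := n) (m := m) (N := N) (T := T)
        (K := K) (x := x) hT1 (by
          have : (T : ℤ) ≤ ((S / 2 : ℕ) : ℤ) := by exact_mod_cast hT2
          linarith) (by omega) (by
          have : (m : ℤ) ≤ (n : ℤ) := by exact_mod_cast (show m ≤ n by omega)
          linarith) (half_mono hw hw1 (show m ≤ n by omega) hhalf) y
      rw [← hW] at hJ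
      refine le_trans hJ ?_
      have hTr : (0 : ℝ) < T := by exact_mod_cast hT1
      -- the mean
      have hE : (∑ p ∈ F, w p * min (T : ℝ) (ht (D p))) / T ≤ 2 / Uf F w D ht T := by
        have h1 := jU_Emin (F := F) (w := w) (D := D) (ht := ht) hw hw1 hD T T
          (T := (T : ℤ)) (by positivity)
        rw [← Uf_eq] at h1
        push_cast at h1
        rw [div_le_div_iff₀ hTr (by linarith)]
        linarith
      -- the bottom
      have hbot : EE F w (m + 1) (fun f => if ht (SS D f (m + 1)) < T then (1 : ℝ) else 0) ≤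
          (1 / 2) ^ K := by
        have h1 : EE F w (m + 1) (fun f => if ht (SS D f (m + 1)) < T then (1 : ℝ) else 0) ≤
            jL F w D ht (m + 1) (T : ℤ) := by
          refine EE_mono hw ?_
          intro f _
          by_cases h : ht (SS D f (m + 1)) < T
          · rw [if_pos h, if_pos h.le]
          · rw [if_neg h]
            split <;> norm_num
        refine le_trans h1 ?_
        set K' := ⌈2 * Uf F w D ht T⌉₊ with hK'
        have h2 : 2 * Uf F w D ht T ≤ K' := Nat.le_ceil _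
        have h3 : (K' : ℝ) < 2 * Uf F w D ht T + 1 := Nat.ceil_lt_add_one (by linarith)
        have h4 : 1 ≤ K' := by
          rw [Nat.one_le_iff_ne_zero]
          intro h5
          rw [h5] at h2
          norm_num at h2
          linarith
        have h5 : K * K' ≤ m + 1 := by
          have h6 : (K : ℝ) * K' ≤ m + 1 :=
            le_trans (mul_le_mul_of_nonneg_left h3.le (by linarith)) hT3
          exact_mod_cast h6
        exact le_trans (jL_anti hw hw1 hD h5 _) (jL_blocks hw hw1 hD h4 h2 K _ le_rfl)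
      have h1 : 2 * ((g : ℝ) + 1) * ((∑ p ∈ F, w p * min (T : ℝ) (ht (D p))) / T) ≤
          56 * K * (((g : ℝ) + 1) / min (n : ℝ) U) := by
        have h2 : 2 / Uf F w D ht T ≤ 28 * K / min (n : ℝ) U := by
          rw [div_le_div_iff₀ (by linarith) hmin0]
          linarith
        calc 2 * ((g : ℝ) + 1) * ((∑ p ∈ F, w p * min (T : ℝ) (ht (D p))) / T) ≤
            2 * ((g : ℝ) + 1) * (28 * K / min (n : ℝ) U) :=
              mul_le_mul_of_nonneg_left (le_trans hE h2) (by positivity)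
          _ = 56 * K * (((g : ℝ) + 1) / min (n : ℝ) U) := by ring
      have h2 : (1 / 2 : ℝ) ^ K ≤ ((g : ℝ) + 1) / min (n : ℝ) U := by
        rw [le_div_iff₀ hmin0]
        have h3 : (1 / 2 : ℝ) ^ K * min (n : ℝ) U ≤ (1 / 2 : ℝ) ^ K * 2 ^ K :=
          mul_le_mul_of_nonneg_left (le_trans (min_le_left _ _) hnK) hh0
        have h4 : (1 / 2 : ℝ) ^ K * 2 ^ K = 1 := by
          rw [← mul_pow]; norm_num
        linarith
      set q : ℝ := ((g : ℝ) + 1) / min (n : ℝ) U with hq
      have h3 : W * EE F w (m + 1) (fun f => if ht (SS D f (m + 1)) < T then (1 : ℝ) else 0) ≤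
          W * q := mul_le_mul_of_nonneg_left (le_trans hbot h2) hW0
      have h4 : 2 * ((g : ℝ) + 1) * ((∑ p ∈ F, w p * min (T : ℝ) (ht (D p))) / T) *
          ((1 / 2) ^ K + 2 * K * W) ≤ 56 * K * q * ((1 / 2) ^ K + 2 * K * W) :=
        mul_le_mul_of_nonneg_right h1 (by positivity)
      have h5 : 56 * (K : ℝ) * q * ((1 / 2) ^ K + 2 * K * W) + W * q ≤
          120 * (K : ℝ) ^ 2 * q * (W + (1 / 2) ^ K) := by
        have h6 : 0 ≤ q * W := mul_nonneg hq0 hW0
        have h7 : 0 ≤ q * (1 / 2) ^ K := mul_nonneg hq0 hh0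
        have h8 : (K : ℝ) ≤ (K : ℝ) ^ 2 := by nlinarith
        have e1 : 56 * (K : ℝ) * q * ((1 / 2) ^ K + 2 * K * W) + W * q =
            56 * K * (q * (1 / 2) ^ K) + (112 * (K : ℝ) ^ 2 + 1) * (q * W) := by ring
        have e2 : 120 * (K : ℝ) ^ 2 * q * (W + (1 / 2) ^ K) =
            120 * (K : ℝ) ^ 2 * (q * (1 / 2) ^ K) + 120 * (K : ℝ) ^ 2 * (q * W) := by ring
        rw [e1, e2]
        exact add_le_add (mul_le_mul_of_nonneg_right (by linarith) h7)
          (mul_le_mul_of_nonneg_right (by linarith) h6)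
      exact le_trans (add_le_add h4 h3) h5
    · -- small `n` again
      apply hsmall
      rw [not_le] at hP1
      have h1 : (K : ℝ) * (2 * Uf F w D ht 1 + 1) ≤ K * 7 :=
        mul_le_mul_of_nonneg_left (by linarith) (by linarith)
      have h2 : (n : ℝ) ≤ 2 * (m + 1) := by
        have : n ≤ 2 * (m + 1) := by omega
        exact_mod_cast this
      have h3 : 14 * (K : ℝ) ≤ 14 * K * (g + 1) := by nlinarith
      linarith

end U

end Pool.Agent.SwT
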