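import Pool.Agent.SwT.Defs
import Pool.Agent.R19.NumA

/-!
# STAR with exponent 2/3: renewal facts, abstract (rows ua - ug)

Lists of pieces `s` with weights `w` (total at most 1) and heights `ht (D p) ≥ 1`.
`prL n T = P(S_n ≤ T)`, `prI n a b = P(a < S_n ≤ b)`, `Uf T = ∑_n P(S_n ≤ T)`, `Qf T = P(h > T)`.
-/

set_option autoImplicit false

namespace Pool.Agent.SwT

open Finset
open scoped Classical
open Pool.Agent.R19

variable {P : Type*} [Inhabited P] {V : Type*} [AddCommGroup V]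
variable {F F' : Finset P} {w : P → ℝ} {D : P → V} {ht : V →+ ℤ}

-- BEGIN ua
theorem ua_EE_sub (hF : F ⊆ F') (hw : ∀ p ∈ F', 0 ≤ w p) {n : ℕ} {Φ : (ℕ → P) → ℝ}
    (h : ∀ s, InF F' n s → 0 ≤ Φ s) : EE F w n Φ ≤ EE F' w n Φ := by
  induction n generalizing Φ with
  | zero => exact le_rfl
  | succ n ih =>
    unfold EE
    calc ∑ p ∈ F, w p * EE F w n (fun s => Φ (cns p s))
        ≤ ∑ p ∈ F, w p * EE F' w n (fun s => Φ (cns p s)) :=
          Finset.sum_le_sum (fun p hp => mul_le_mul_of_nonneg_left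
            (ih (fun s hs => h _ (hs.cns (hF hp)))) (hw p (hF hp)))
      _ ≤ ∑ p ∈ F', w p * EE F' w n (fun s => Φ (cns p s)) :=
          Finset.sum_le_sum_of_subset_of_nonneg hF (fun p hp _ => mul_nonneg (hw p hp)
            (EE_nonneg hw (fun s hs => h _ (hs.cns hp))))

/-- MODULE ua. (`EE_nonneg`, `EE_mono`, `EE_const`; `EE (n + 1)` by `EE_add n 1`; `ht_SS_mono`.) -/
theorem prL_nonneg (hw : ∀ p ∈ F, 0 ≤ w p) (n T : ℕ) : 0 ≤ prL F w D ht n T :=
  EE_nonneg hw (fun _ _ => by split <;> norm_num)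

theorem prI_nonneg (hw : ∀ p ∈ F, 0 ≤ w p) (n : ℕ) (a b : ℤ) : 0 ≤ prI F w D ht n a b :=
  EE_nonneg hw (fun _ _ => by split <;> norm_num)

theorem prL_le_one (hw : ∀ p ∈ F, 0 ≤ w p) (hw1 : ∑ p ∈ F, w p ≤ 1) (n T : ℕ) :
    prL F w D ht n T ≤ 1 :=
  EE_le_one hw hw1 zero_le_one (fun _ _ => by split <;> norm_num)

theorem prL_anti (hw : ∀ p ∈ F, 0 ≤ w p) (hw1 : ∑ p ∈ F, w p ≤ 1) (hD : ∀ p ∈ F, 1 ≤ ht (D p))
    {n m : ℕ} (h : n ≤ m) (T : ℕ) : prL F w D ht m T ≤ prL F w D ht n T := by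
  obtain ⟨r, rfl⟩ : ∃ r, m = n + r := ⟨m - n, by omega⟩
  unfold prL
  rw [EE_add]
  refine EE_mono hw ?_
  intro s hs
  by_cases h1 : ht (SS D s n) ≤ (T : ℤ)
  · rw [if_pos h1]
    exact EE_le_one hw hw1 zero_le_one (fun _ _ => by split <;> norm_num)
  · rw [if_neg h1]
    have h2 : EE F w r (fun h => if ht (SS D (glue n s h) (n + r)) ≤ (T : ℤ) then (1 : ℝ) else 0) ≤
        EE F w r (fun _ => (0 : ℝ)) := by
      refine EE_mono hw ?_
      intro h hh
      rw [if_neg]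
      have h3 := ht_SS_mono hD (hs.glue hh) (Nat.le_add_right n r) le_rfl
      rw [SS_glue_le D s h le_rfl] at h3
      push_cast at h3
      omega
    rw [EE_zero_fun] at h2
    exact h2

theorem prL_mono (hw : ∀ p ∈ F, 0 ≤ w p) (n : ℕ) {T T' : ℕ} (h : T ≤ T') :
    prL F w D ht n T ≤ prL F w D ht n T' := by
  refine EE_mono hw ?_
  intro s _
  by_cases h1 : ht (SS D s n) ≤ (T : ℤ)
  · have h2 : ht (SS D s n) ≤ (T' : ℤ) := by omega
    rw [if_pos h1, if_pos h2]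
  · rw [if_neg h1]
    split <;> norm_num

theorem prL_zero (hD : ∀ p ∈ F, 1 ≤ ht (D p)) {n T : ℕ} (h : T < n) : prL F w D ht n T = 0 := by
  unfold prL
  have h1 : ∀ s, InF F n s →
      (if ht (SS D s n) ≤ (T : ℤ) then (1 : ℝ) else 0) = (fun _ => (0 : ℝ)) s := by
    intro s hs
    rw [if_neg]
    have := ht_SS_mono hD hs (Nat.zero_le n) le_rfl
    rw [SS_zero, map_zero] at this
    push_cast at this
    omega
  rw [EE_congr h1, EE_zero_fun]

theorem prL_sub (hF : F ⊆ F') (hw : ∀ p ∈ F', 0 ≤ w p) (n T : ℕ) :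
    prL F w D ht n T ≤ prL F' w D ht n T :=
  ua_EE_sub hF hw (fun _ _ => by split <;> norm_num)
-- END ua

-- BEGIN ub
/-- MODULE ub. Uses `ua`. -/
theorem Uf_one_le (hw : ∀ p ∈ F, 0 ≤ w p) (T : ℕ) : 1 ≤ Uf F w D ht T := by
  have h1 : prL F w D ht 0 T = 1 := by
    show (if ht (SS D (fun _ => default) 0) ≤ (T : ℤ) then (1 : ℝ) else 0) = 1
    rw [SS_zero, map_zero, if_pos (by omega)]
  rw [← h1]
  unfold Uf
  exact Finset.single_le_sum (f := fun n => prL F w D ht n T) (fun n _ => prL_nonneg hw n T) (Finset.mem_range.2 (Nat.succ_pos T))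

theorem Uf_mono (hw : ∀ p ∈ F, 0 ≤ w p) {T T' : ℕ} (h : T ≤ T') : Uf F w D ht T ≤ Uf F w D ht T' := by
  unfold Uf
  calc ∑ n ∈ range (T + 1), prL F w D ht n T ≤ ∑ n ∈ range (T + 1), prL F w D ht n T' := Finset.sum_le_sum fun n _ => prL_mono hw n h
    _ ≤ ∑ n ∈ range (T' + 1), prL F w D ht n T' :=
        Finset.sum_le_sum_of_subset_of_nonneg (Finset.range_mono (by omega)) fun n _ _ => prL_nonneg hw n T'

theorem Uf_sub (hF : F ⊆ F') (hw : ∀ p ∈ F', 0 ≤ w p) (T : ℕ) : Uf F w D ht T ≤ Uf F' w D ht T := by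
  unfold Uf
  exact Finset.sum_le_sum fun n _ => prL_sub hF hw n T

theorem Uf_le (hw : ∀ p ∈ F, 0 ≤ w p) (hw1 : ∑ p ∈ F, w p ≤ 1) (T : ℕ) : Uf F w D ht T ≤ T + 1 := by
  unfold Uf
  calc ∑ n ∈ range (T + 1), prL F w D ht n T ≤ ∑ n ∈ range (T + 1), (1 : ℝ) := Finset.sum_le_sum fun n _ => prL_le_one hw hw1 n T
    _ = T + 1 := by rw [Finset.sum_const, Finset.card_range, nsmul_eq_mul, mul_one]; push_cast; ring

/-- any number of terms (terms with `n > T` are `0`) -/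
theorem sum_prL_le (hw : ∀ p ∈ F, 0 ≤ w p) (hD : ∀ p ∈ F, 1 ≤ ht (D p)) (N T : ℕ) :
    ∑ n ∈ range N, prL F w D ht n T ≤ Uf F w D ht T := by
  unfold Uf
  calc ∑ n ∈ range N, prL F w D ht n T = ∑ n ∈ (range N).filter (fun n => n ≤ T), prL F w D ht n T := by
        rw [Finset.sum_filter]
        refine Finset.sum_congr rfl fun n _ => ?_
        split_ifs with h
        · rfl
        · exact prL_zero hD (by omega)
    _ ≤ ∑ n ∈ range (T + 1), prL F w D ht n T := by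
        refine Finset.sum_le_sum_of_subset_of_nonneg ?_ fun n _ _ => prL_nonneg hw n T
        intro n hn
        rw [Finset.mem_filter] at hn
        exact Finset.mem_range.2 (by omega)
-- END ub

-- BEGIN uc
/-- a function of the first `n` pieces -/
private theorem uc_drop (hw : ∀ p ∈ F, 0 ≤ w p) (hw1 : ∑ p ∈ F, w p ≤ 1) {n k : ℕ} {Φ Ψ : (ℕ → P) → ℝ}
    (h : ∀ f g, Φ (glue n f g) = Ψ f) (h0 : ∀ s, InF F n s → 0 ≤ Ψ s) : EE F w (n + k) Φ ≤ EE F w n Ψ := by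
  rw [EE_add]
  refine EE_mono hw fun f hf => ?_
  have h1 : (fun g => Φ (glue n f g)) = fun _ => Ψ f := funext fun g => h f g
  rw [h1, EE_const]
  exact mul_le_of_le_one_left (h0 f hf) (pow_le_one₀ (Finset.sum_nonneg hw) hw1)

private theorem uc_pos (hD : ∀ p ∈ F, 1 ≤ ht (D p)) {n : ℕ} {f : ℕ → P} (hf : InF F n f) : 0 ≤ ht (SS D f n) := by
  have h1 := ht_SS_mono hD hf (Nat.zero_le n) le_rfl
  rw [SS_zero, map_zero] at h1
  push_cast at h1
  have h2 : (0 : ℤ) ≤ n := Int.natCast_nonneg n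
  linarith

private theorem uc_step (hw : ∀ p ∈ F, 0 ≤ w p) (hw1 : ∑ p ∈ F, w p ≤ 1) (hD : ∀ p ∈ F, 1 ≤ ht (D p)) (T N : ℕ) :
    EE F w (N + 1) (fun s => if ht (SS D s N) ≤ (T : ℤ) ∧ (T : ℤ) < ht (SS D s (N + 1)) then 1 else 0) + prL F w D ht (N + 1) T ≤
      prL F w D ht N T := by
  unfold prL
  rw [← EE_add_fun]
  refine le_trans (EE_mono hw (Ψ := fun s => if ht (SS D s N) ≤ (T : ℤ) then 1 else 0) fun s hs => ?_) ?_
  · have h1 := ht_SS_mono hD hs (Nat.le_succ N) le_rfl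
    push_cast at h1
    by_cases h2 : ht (SS D s (N + 1)) ≤ (T : ℤ)
    · have h3 : ht (SS D s N) ≤ (T : ℤ) := by linarith
      rw [if_neg (fun h4 => absurd h4.2 (not_lt.2 h2)), if_pos h2, if_pos h3, zero_add]
    · rw [if_neg h2, add_zero]
      by_cases h3 : ht (SS D s N) ≤ (T : ℤ)
      · rw [if_pos ⟨h3, not_le.1 h2⟩, if_pos h3]
      · rw [if_neg (fun h4 => h3 h4.1), if_neg h3]
  · refine uc_drop hw hw1 (fun f g => ?_) (fun s _ => ?_)
    · rw [SS_glue_le D f g le_rfl]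
    · split_ifs
      · exact zero_le_one
      · exact le_rfl

/-- MODULE uc. FIRST PASSAGE over the level `T`. Induction on `N`: `EE (N + 1)` of the indicator of
`S_N ≤ T` is at most `prL N T`; it splits into `S_N ≤ T < S_(N+1)` and `S_(N+1) ≤ T`. -/
theorem pass (hw : ∀ p ∈ F, 0 ≤ w p) (hw1 : ∑ p ∈ F, w p ≤ 1) (hD : ∀ p ∈ F, 1 ≤ ht (D p)) (T N : ℕ) :
    ∑ n ∈ range N, EE F w (n + 1) (fun s => if ht (SS D s n) ≤ (T : ℤ) ∧
      (T : ℤ) < ht (SS D s (n + 1)) then 1 else 0) + prL F w D ht N T ≤ 1 := by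
  induction N with
  | zero =>
    rw [Finset.sum_range_zero, zero_add]
    unfold prL EE
    beta_reduce
    split_ifs
    · exact le_rfl
    · exact zero_le_one
  | succ N ih =>
    rw [Finset.sum_range_succ]
    have h1 := uc_step hw hw1 hD T N
    linarith

/-- **(U2)** a list with `S_n ≤ T` and one more piece of height more than `T` (`S_n ≥ 0`) -/
theorem Qf_Uf (hw : ∀ p ∈ F, 0 ≤ w p) (hw1 : ∑ p ∈ F, w p ≤ 1) (hD : ∀ p ∈ F, 1 ≤ ht (D p)) (T : ℕ) :
    Qf F w D ht T * Uf F w D ht T ≤ 1 := by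
  have key : ∀ n, Qf F w D ht T * prL F w D ht n T ≤ EE F w (n + 1) (fun s => if ht (SS D s n) ≤ (T : ℤ) ∧
      (T : ℤ) < ht (SS D s (n + 1)) then 1 else 0) := by
    intro n
    rw [EE_add, prL, ← EE_mul_left]
    refine EE_mono hw fun f hf => ?_
    have h1 : EE F w 1 (fun g => if ht (SS D (glue n f g) n) ≤ (T : ℤ) ∧ (T : ℤ) < ht (SS D (glue n f g) (n + 1)) then (1 : ℝ) else 0) =
        ∑ p ∈ F, w p * (if ht (SS D f n) ≤ (T : ℤ) ∧ (T : ℤ) < ht (SS D f n) + ht (D p) then 1 else 0) := by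
      show ∑ p ∈ F, w p * (if ht (SS D (glue n f (cns p fun _ => default)) n) ≤ (T : ℤ) ∧
        (T : ℤ) < ht (SS D (glue n f (cns p fun _ => default)) (n + 1)) then (1 : ℝ) else 0) = _
      refine Finset.sum_congr rfl fun p _ => ?_
      have h2 : glue n f (cns p fun _ => default) n = p := by simp [glue, cns]
      rw [SS_succ, SS_glue_le D f _ le_rfl, h2, map_add]
    rw [h1]
    have h3 := uc_pos hD hf
    by_cases h4 : ht (SS D f n) ≤ (T : ℤ)
    · rw [if_pos h4, mul_one, Qf]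
      refine Finset.sum_le_sum fun p hp => ?_
      by_cases h5 : (T : ℤ) < ht (D p)
      · rw [if_pos h5, if_pos ⟨h4, by linarith⟩, mul_one]
      · rw [if_neg h5]
        split_ifs
        · rw [mul_one]
          exact hw p hp
        · rw [mul_zero]
    · rw [if_neg h4, mul_zero]
      refine Finset.sum_nonneg fun p hp => mul_nonneg (hw p hp) ?_
      split_ifs
      · exact zero_le_one
      · exact le_rfl
  have h1 := pass hw hw1 hD T (T + 1)
  have h2 := prL_nonneg (D := D) (ht := ht) hw (T + 1) T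
  rw [Uf, Finset.mul_sum]
  have h3 := Finset.sum_le_sum (s := range (T + 1)) fun n _ => key n
  linarith
-- END uc

/-- mean of `min(h, T + 1)` -/
noncomputable def mT (F : Finset P) (w : P → ℝ) (D : P → V) (ht : V →+ ℤ) (T : ℕ) : ℝ :=
  ∑ p ∈ F, w p * min ((T : ℝ) + 1) (ht (D p))

-- BEGIN ud
/-- the number of the levels -/
private theorem ud_count {S h : ℤ} {T : ℕ} (h0 : 0 ≤ S) (h1 : S ≤ T) (h2 : 1 ≤ h) :
    min ((T : ℝ) + 1) (h : ℝ) ≤ ∑ t ∈ range (2 * T + 1), (if S ≤ (t : ℤ) ∧ (t : ℤ) < S + h then (1 : ℝ) else 0) := by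
  rw [Finset.sum_boole]
  set m : ℕ := (min ((T : ℤ) + 1) h).toNat with hm
  have h3 : (0 : ℤ) ≤ min ((T : ℤ) + 1) h := le_min (by positivity) (by linarith)
  have h4 : (m : ℤ) = min ((T : ℤ) + 1) h := Int.toNat_of_nonneg h3
  have h5 : min ((T : ℝ) + 1) (h : ℝ) = (m : ℝ) := by
    have h6 : ((m : ℤ) : ℝ) = ((min ((T : ℤ) + 1) h : ℤ) : ℝ) := by rw [h4]
    rw [Int.cast_min] at h6
    push_cast at h6
    exact h6.symm
  rw [h5]
  have h6 : m ≤ (Finset.filter (fun t : ℕ => S ≤ (t : ℤ) ∧ (t : ℤ) < S + h) (range (2 * T + 1))).card := by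
    have h7 : Finset.Ico S.toNat (S.toNat + m) ⊆ Finset.filter (fun t : ℕ => S ≤ (t : ℤ) ∧ (t : ℤ) < S + h) (range (2 * T + 1)) := by
      intro t ht'
      rw [Finset.mem_Ico] at ht'
      rw [Finset.mem_filter, Finset.mem_range]
      have h8 : (S.toNat : ℤ) = S := Int.toNat_of_nonneg h0
      have h9 : (m : ℤ) ≤ T + 1 := by rw [h4]; exact min_le_left _ _
      have h10 : (m : ℤ) ≤ h := by rw [h4]; exact min_le_right _ _
      refine ⟨?_, ?_, ?_⟩
      · omega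
      · omega
      · omega
    have h8 := Finset.card_le_card h7
    rwa [Nat.card_Ico, Nat.add_sub_cancel_left] at h8
  exact_mod_cast h6

/-- MODULE ud. Sum `pass` (with `N = T + 1` terms, levels `T' ∈ range (2 T + 1)`) over `T'`: for a
list with `S_n ≤ T` and one more piece of height `h` the number of the `T' ≤ 2 T` with
`S_n ≤ T' < S_n + h` is at least `min(h, T + 1)`. -/
theorem mT_Uf (hw : ∀ p ∈ F, 0 ≤ w p) (hw1 : ∑ p ∈ F, w p ≤ 1) (hD : ∀ p ∈ F, 1 ≤ ht (D p)) (T : ℕ) :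
    mT F w D ht T * Uf F w D ht T ≤ 2 * T + 1 := by
  have key : ∀ n, mT F w D ht T * prL F w D ht n T ≤ ∑ t ∈ range (2 * T + 1), EE F w (n + 1) (fun s => if ht (SS D s n) ≤ (t : ℤ) ∧
      (t : ℤ) < ht (SS D s (n + 1)) then 1 else 0) := by
    intro n
    rw [← EE_sum, EE_add, prL, ← EE_mul_left]
    refine EE_mono hw fun f hf => ?_
    have h1 : EE F w 1 (fun g => ∑ t ∈ range (2 * T + 1), if ht (SS D (glue n f g) n) ≤ (t : ℤ) ∧ (t : ℤ) < ht (SS D (glue n f g) (n + 1)) then (1 : ℝ) else 0) =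
        ∑ p ∈ F, w p * ∑ t ∈ range (2 * T + 1), (if ht (SS D f n) ≤ (t : ℤ) ∧ (t : ℤ) < ht (SS D f n) + ht (D p) then 1 else 0) := by
      show ∑ p ∈ F, w p * (∑ t ∈ range (2 * T + 1), if ht (SS D (glue n f (cns p fun _ => default)) n) ≤ (t : ℤ) ∧
        (t : ℤ) < ht (SS D (glue n f (cns p fun _ => default)) (n + 1)) then (1 : ℝ) else 0) = _
      refine Finset.sum_congr rfl fun p _ => ?_
      have h2 : glue n f (cns p fun _ => default) n = p := by simp [glue, cns]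
      rw [SS_succ, SS_glue_le D f _ le_rfl, h2, map_add]
    rw [h1]
    have h3 : 0 ≤ ht (SS D f n) := by
      have h4 := ht_SS_mono hD hf (Nat.zero_le n) le_rfl
      rw [SS_zero, map_zero] at h4
      push_cast at h4
      have h5 : (0 : ℤ) ≤ n := Int.natCast_nonneg n
      linarith
    by_cases h4 : ht (SS D f n) ≤ (T : ℤ)
    · rw [if_pos h4, mul_one, mT]
      exact Finset.sum_le_sum fun p hp => mul_le_mul_of_nonneg_left (ud_count h3 h4 (hD p hp)) (hw p hp)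
    · rw [if_neg h4, mul_zero]
      refine Finset.sum_nonneg fun p hp => mul_nonneg (hw p hp) (Finset.sum_nonneg fun t _ => ?_)
      split_ifs
      · exact zero_le_one
      · exact le_rfl
  have h1 : ∀ t ∈ range (2 * T + 1), ∑ n ∈ range (T + 1), EE F w (n + 1) (fun s => if ht (SS D s n) ≤ ((t : ℕ) : ℤ) ∧
      ((t : ℕ) : ℤ) < ht (SS D s (n + 1)) then 1 else 0) ≤ 1 := by
    intro t _
    have h2 := pass hw hw1 hD t (T + 1)
    have h3 := prL_nonneg (D := D) (ht := ht) hw (T + 1) t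
    linarith
  have h2 := Finset.sum_le_sum h1
  rw [Finset.sum_comm, Finset.sum_const, Finset.card_range, nsmul_eq_mul, mul_one] at h2
  rw [Uf, Finset.mul_sum]
  have h3 := Finset.sum_le_sum (s := range (T + 1)) fun n _ => key n
  push_cast at h2
  linarith
-- END ud

-- BEGIN ue
/-- MODULE ue. Mean of a function of one piece (split the list at `i`). -/
theorem EE_one (hw : ∀ p ∈ F, 0 ≤ w p) (hw1 : ∑ p ∈ F, w p ≤ 1) {φ : P → ℝ} (hφ : ∀ p ∈ F, 0 ≤ φ p)
    {n i : ℕ} (hi : i < n) : EE F w n (fun s => φ (s i)) ≤ ∑ p ∈ F, w p * φ p := by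
  obtain ⟨k, rfl⟩ : ∃ k, n = i + (k + 1) := ⟨n - i - 1, by omega⟩
  have h0 : 0 ≤ ∑ p ∈ F, w p := Finset.sum_nonneg hw
  have h1 : EE F w (i + (k + 1)) (fun s => φ (s i)) = EE F w i (fun _ => ∑ p ∈ F, w p * ((∑ p ∈ F, w p) ^ k * φ p)) := by
    rw [EE_add]
    refine EE_congr fun f _ => ?_
    have h2 : (fun g : ℕ → P => φ (glue i f g i)) = fun g => φ (g 0) := by
      funext g
      simp [glue]
    rw [h2]
    show ∑ p ∈ F, w p * EE F w k (fun s => φ (cns p s 0)) = _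
    refine Finset.sum_congr rfl fun p _ => ?_
    rw [← EE_const]
    rfl
  rw [h1, EE_const]
  have h3 : ∑ p ∈ F, w p * ((∑ p ∈ F, w p) ^ k * φ p) ≤ ∑ p ∈ F, w p * φ p :=
    Finset.sum_le_sum fun p hp => mul_le_mul_of_nonneg_left (mul_le_of_le_one_left (hφ p hp) (pow_le_one₀ h0 hw1)) (hw p hp)
  have h4 : 0 ≤ ∑ p ∈ F, w p * ((∑ p ∈ F, w p) ^ k * φ p) :=
    Finset.sum_nonneg fun p hp => mul_nonneg (hw p hp) (mul_nonneg (pow_nonneg h0 k) (hφ p hp))
  exact (mul_le_of_le_one_left h4 (pow_le_one₀ h0 hw1)).trans h3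

omit [Inhabited P] in
private theorem ue_min (hD : ∀ p ∈ F, 1 ≤ ht (D p)) {n T : ℕ} {s : ℕ → P} (hs : InF F n s) (h : (T : ℤ) < ht (SS D s n)) :
    (T : ℝ) + 1 ≤ ∑ i ∈ range n, min ((T : ℝ) + 1) (ht (D (s i))) := by
  have hT : (0 : ℝ) ≤ (T : ℝ) + 1 := by positivity
  have h0 : ∀ i ∈ range n, (0 : ℝ) ≤ min ((T : ℝ) + 1) (ht (D (s i))) := by
    intro i hi
    refine le_min hT ?_
    have h1 := hD _ (hs i (Finset.mem_range.1 hi))
    have h2 : (0 : ℤ) ≤ ht (D (s i)) := by linarith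
    exact_mod_cast h2
  by_cases h1 : ∃ i ∈ range n, (T : ℤ) + 1 ≤ ht (D (s i))
  · obtain ⟨i, hi, h2⟩ := h1
    have h3 : (T : ℝ) + 1 ≤ ((ht (D (s i)) : ℤ) : ℝ) := by exact_mod_cast h2
    refine le_trans ?_ (Finset.single_le_sum h0 hi)
    rw [min_eq_left h3]
  · push Not at h1
    have h2 : ∑ i ∈ range n, min ((T : ℝ) + 1) (ht (D (s i))) = ((ht (SS D s n) : ℤ) : ℝ) := by
      unfold SS
      rw [map_sum, Int.cast_sum]
      refine Finset.sum_congr rfl fun i hi => min_eq_right ?_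
      exact_mod_cast (h1 i hi).le
    rw [h2]
    have h3 : (T : ℤ) + 1 ≤ ht (SS D s n) := h
    exact_mod_cast h3

/-- Markov: if `S_n ≥ T + 1` then `∑_(i < n) min(h_i, T + 1) ≥ T + 1` -/
theorem prG_le (hw : ∀ p ∈ F, 0 ≤ w p) (hw1 : ∑ p ∈ F, w p ≤ 1) (hD : ∀ p ∈ F, 1 ≤ ht (D p)) (n T : ℕ) :
    EE F w n (fun s => if (T : ℤ) < ht (SS D s n) then 1 else 0) ≤ n * mT F w D ht T / (T + 1) := by
  have hT : (0 : ℝ) < (T : ℝ) + 1 := by positivity
  have hp : ∀ p ∈ F, (0 : ℝ) ≤ min ((T : ℝ) + 1) (ht (D p)) := by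
    intro p hp
    refine le_min hT.le ?_
    have h1 := hD p hp
    have h2 : (0 : ℤ) ≤ ht (D p) := by linarith
    exact_mod_cast h2
  have h1 : EE F w n (fun s => if (T : ℤ) < ht (SS D s n) then 1 else 0) ≤
      EE F w n (fun s => ((T : ℝ) + 1)⁻¹ * ∑ i ∈ range n, min ((T : ℝ) + 1) (ht (D (s i)))) := by
    refine EE_mono hw fun s hs => ?_
    split_ifs with h2
    · have h3 := ue_min hD hs h2
      rw [inv_mul_eq_div, one_le_div hT]
      exact h3
    · exact mul_nonneg (inv_nonneg.2 hT.le) (Finset.sum_nonneg fun i hi => hp _ (hs i (Finset.mem_range.1 hi)))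
  refine h1.trans ?_
  rw [EE_mul_left, EE_sum, inv_mul_eq_div]
  refine div_le_div_of_nonneg_right ?_ hT.le
  have h2 : ∀ i ∈ range n, EE F w n (fun s => min ((T : ℝ) + 1) (ht (D (s i)))) ≤ mT F w D ht T := fun i hi =>
    EE_one hw hw1 (φ := fun p => min ((T : ℝ) + 1) (ht (D p))) hp (Finset.mem_range.1 hi)
  refine (Finset.sum_le_sum h2).trans ?_
  rw [Finset.sum_const, Finset.card_range, nsmul_eq_mul]

/-- **(U1)** -/
theorem prG_Uf (hw : ∀ p ∈ F, 0 ≤ w p) (hw1 : ∑ p ∈ F, w p ≤ 1) (hD : ∀ p ∈ F, 1 ≤ ht (D p)) (n T : ℕ) :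
    EE F w n (fun s => if (T : ℤ) < ht (SS D s n) then 1 else 0) ≤ 2 * n / Uf F w D ht T := by
  have hT : (0 : ℝ) < (T : ℝ) + 1 := by positivity
  have h1 := prG_le hw hw1 hD n T
  have h2 := mT_Uf hw hw1 hD T
  have h3 : 0 < Uf F w D ht T := zero_lt_one.trans_le (Uf_one_le hw T)
  refine h1.trans ?_
  rw [div_le_div_iff₀ hT h3]
  have h4 : (0 : ℝ) ≤ n := Nat.cast_nonneg n
  have h5 : (n : ℝ) * (mT F w D ht T * Uf F w D ht T) ≤ n * (2 * T + 1) := mul_le_mul_of_nonneg_left h2 h4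
  nlinarith [h5, h4]
-- END ue

-- BEGIN uf
private theorem uf_mul_right (n : ℕ) (Φ : (ℕ → P) → ℝ) (c : ℝ) : EE F w n (fun s => Φ s * c) = EE F w n Φ * c := by
  rw [mul_comm, ← EE_mul_left]
  exact EE_congr fun s _ => mul_comm _ _

private theorem uf_cross {f : ℕ → ℤ} {s : ℤ} {n : ℕ} (h0 : f 0 ≤ s) (hn : s < f n) : ∃ j < n, f j ≤ s ∧ s < f (j + 1) := by
  induction n with
  | zero => omega
  | succ n ih =>
    by_cases h : s < f n
    · obtain ⟨j, hj, h1⟩ := ih h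
      exact ⟨j, by omega, h1⟩
    · exact ⟨n, by omega, by omega, hn⟩

/-- the mass of the first passage over `s` at the piece `j` -/
private noncomputable def uf_p (F : Finset P) (w : P → ℝ) (D : P → V) (ht : V →+ ℤ) (s j : ℕ) : ℝ :=
  EE F w (j + 1) (fun x => if ht (SS D x j) ≤ (s : ℤ) ∧ (s : ℤ) < ht (SS D x (j + 1)) then 1 else 0)

private theorem uf_p_nonneg (hw : ∀ p ∈ F, 0 ≤ w p) (s j : ℕ) : 0 ≤ uf_p F w D ht s j := by
  refine EE_nonneg hw fun x _ => ?_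
  split_ifs <;> norm_num

private theorem uf_key (hw : ∀ p ∈ F, 0 ≤ w p) (s t n : ℕ) :
    EE F w n (fun x => if (s : ℤ) < ht (SS D x n) ∧ ht (SS D x n) ≤ (s : ℤ) + t then 1 else 0) ≤ ∑ j ∈ range n, uf_p F w D ht s j * prL F w D ht (n - 1 - j) t := by
  have h1 : EE F w n (fun x => if (s : ℤ) < ht (SS D x n) ∧ ht (SS D x n) ≤ (s : ℤ) + t then 1 else 0) ≤
      EE F w n (fun x => ∑ j ∈ range n, (if ht (SS D x j) ≤ (s : ℤ) ∧ (s : ℤ) < ht (SS D x (j + 1)) then (1 : ℝ) else 0) *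
        (if ht (SS D x n) - ht (SS D x (j + 1)) ≤ (t : ℤ) then 1 else 0)) := by
    refine EE_mono hw fun x _ => ?_
    have hnn : ∀ j ∈ range n, 0 ≤ (if ht (SS D x j) ≤ (s : ℤ) ∧ (s : ℤ) < ht (SS D x (j + 1)) then (1 : ℝ) else 0) *
        (if ht (SS D x n) - ht (SS D x (j + 1)) ≤ (t : ℤ) then 1 else 0) := by
      intro j _
      refine mul_nonneg ?_ ?_ <;> split_ifs <;> norm_num
    split_ifs with h
    · have h0 : ht (SS D x 0) ≤ (s : ℤ) := by
        rw [SS_zero, map_zero]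
        omega
      obtain ⟨j, hj, h2, h3⟩ := uf_cross (f := fun i => ht (SS D x i)) h0 h.1
      have h4 := Finset.single_le_sum hnn (Finset.mem_range.2 hj)
      have h2' : ht (SS D x j) ≤ (s : ℤ) := h2
      have h3' : (s : ℤ) < ht (SS D x (j + 1)) := h3
      rw [if_pos ⟨h2', h3'⟩, if_pos (by omega), mul_one] at h4
      exact h4
    · exact Finset.sum_nonneg hnn
  refine h1.trans ?_
  rw [EE_sum]
  refine Finset.sum_le_sum fun j hj => ?_
  have hj' : j < n := Finset.mem_range.1 hj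
  obtain ⟨m, hm⟩ : ∃ m, n = j + 1 + m := ⟨n - 1 - j, by omega⟩
  have hm' : n - 1 - j = m := by omega
  rw [hm', hm, EE_add]
  refine le_of_eq ?_
  unfold uf_p
  rw [← uf_mul_right]
  refine EE_congr fun f _ => ?_
  have h2 : ∀ h : ℕ → P, SS D (glue (j + 1) f h) j = SS D f j := fun h => SS_glue_le D f h (by omega)
  have h3 : ∀ h : ℕ → P, SS D (glue (j + 1) f h) (j + 1) = SS D f (j + 1) := fun h => SS_glue_le D f h le_rfl
  have h4 : ∀ h : ℕ → P, SS D (glue (j + 1) f h) (j + 1 + m) = SS D f (j + 1) + SS D h m := fun h => by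
    rw [SS_add, h3, shl_glue]
  unfold prL
  rw [← EE_mul_left]
  refine EE_congr fun h _ => ?_
  rw [h2, h3, h4, map_add, add_sub_cancel_left]

/-- MODULE uf. **(U3)** `P(s < S_n ≤ s + t) ≤ ∑_(j < n) P(S_j ≤ s < S_(j+1)) P(S_(n-j-1) ≤ t)`
(`EE_add (j + 1) (n - j - 1)`), sum over `n`, `pass`. -/
theorem Uf_add (hw : ∀ p ∈ F, 0 ≤ w p) (hw1 : ∑ p ∈ F, w p ≤ 1) (hD : ∀ p ∈ F, 1 ≤ ht (D p)) (s t : ℕ) :
    Uf F w D ht (s + t) ≤ Uf F w D ht s + Uf F w D ht t := by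
  have h1 : ∀ n, prL F w D ht n (s + t) ≤ prL F w D ht n s + ∑ j ∈ range n, uf_p F w D ht s j * prL F w D ht (n - 1 - j) t := by
    intro n
    refine le_trans ?_ (add_le_add le_rfl (uf_key hw s t n))
    unfold prL
    rw [← EE_add_fun]
    refine EE_mono hw fun x _ => ?_
    push_cast
    split_ifs <;> first | (exfalso; omega) | norm_num
  have h2 : Uf F w D ht (s + t) ≤ ∑ n ∈ range (s + t + 1), prL F w D ht n s +
      ∑ n ∈ range (s + t + 1), ∑ j ∈ range n, uf_p F w D ht s j * prL F w D ht (n - 1 - j) t := by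
    rw [← Finset.sum_add_distrib]
    exact Finset.sum_le_sum fun n _ => h1 n
  refine h2.trans (add_le_add (sum_prL_le hw hD _ _) ?_)
  have h3 : ∀ N : ℕ, ∑ n ∈ range N, ∑ j ∈ range n, uf_p F w D ht s j * prL F w D ht (n - 1 - j) t ≤ ∑ j ∈ range N, uf_p F w D ht s j * Uf F w D ht t := by
    intro N
    have h4 : ∑ n ∈ range N, ∑ j ∈ range n, uf_p F w D ht s j * prL F w D ht (n - 1 - j) t =
        ∑ j ∈ range N, ∑ n ∈ (range N).filter (fun n => j < n), uf_p F w D ht s j * prL F w D ht (n - 1 - j) t := by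
      refine Finset.sum_comm' ?_
      intro n j
      simp only [Finset.mem_range, Finset.mem_filter]
      constructor
      · rintro ⟨a, b⟩
        exact ⟨⟨a, b⟩, by omega⟩
      · rintro ⟨⟨a, b⟩, c⟩
        exact ⟨a, b⟩
    rw [h4]
    refine Finset.sum_le_sum fun j _ => ?_
    rw [← Finset.mul_sum]
    refine mul_le_mul_of_nonneg_left ?_ (uf_p_nonneg hw s j)
    calc ∑ n ∈ (range N).filter (fun n => j < n), prL F w D ht (n - 1 - j) t
        = ∑ m ∈ ((range N).filter (fun n => j < n)).image (fun n => n - 1 - j), prL F w D ht m t := by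
          rw [Finset.sum_image]
          intro a ha b hb hab
          simp only [Finset.coe_filter, Finset.mem_range, Set.mem_ofPred_eq] at ha hb
          have hab' : a - 1 - j = b - 1 - j := hab
          omega
      _ ≤ ∑ m ∈ range N, prL F w D ht m t := by
          refine Finset.sum_le_sum_of_subset_of_nonneg ?_ fun m _ _ => prL_nonneg hw m t
          intro m hm
          simp only [Finset.mem_image, Finset.mem_filter, Finset.mem_range] at hm ⊢
          obtain ⟨n, ⟨h5, h6⟩, h7⟩ := hm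
          omega
      _ ≤ Uf F w D ht t := sum_prL_le hw hD N t
  refine (h3 (s + t + 1)).trans ?_
  rw [← Finset.sum_mul]
  have h5 : ∑ j ∈ range (s + t + 1), uf_p F w D ht s j ≤ 1 := by
    have h6 := pass hw hw1 hD s (s + t + 1)
    have h7 := prL_nonneg hw (D := D) (ht := ht) (s + t + 1) s
    unfold uf_p
    linarith
  have h8 : 0 ≤ Uf F w D ht t := Finset.sum_nonneg fun n _ => prL_nonneg hw n t
  calc (∑ j ∈ range (s + t + 1), uf_p F w D ht s j) * Uf F w D ht t ≤ 1 * Uf F w D ht t := mul_le_mul_of_nonneg_right h5 h8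
    _ = Uf F w D ht t := one_mul _

private theorem uf_sub (hw : ∀ p ∈ F, 0 ≤ w p) (hD : ∀ p ∈ F, 1 ≤ ht (D p)) (a b T : ℕ) :
    prL F w D ht (a + b) T ≤ prL F w D ht a T * prL F w D ht b T := by
  unfold prL
  rw [EE_add, ← uf_mul_right]
  refine EE_mono hw fun f hf => ?_
  rw [← EE_mul_left]
  refine EE_mono hw fun h hh => ?_
  have h1 : SS D (glue a f h) (a + b) = SS D f a + SS D h b := by
    rw [SS_add, SS_glue_le D f h le_rfl, shl_glue]
  have h2 := ht_SS_mono hD hf (Nat.zero_le a) le_rfl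
  have h3 := ht_SS_mono hD hh (Nat.zero_le b) le_rfl
  rw [SS_zero, map_zero] at h2 h3
  rw [h1, map_add]
  split_ifs <;> first | (exfalso; omega) | norm_num

/-- **(U5)** `prL (a + b) T ≤ prL a T * prL b T`; `K * prL K T ≤ Uf T` (`prL_anti`) -/
theorem prL_pow (hw : ∀ p ∈ F, 0 ≤ w p) (hw1 : ∑ p ∈ F, w p ≤ 1) (hD : ∀ p ∈ F, 1 ≤ ht (D p))
    {K T : ℕ} (hK : 2 * Uf F w D ht T ≤ K) (r : ℕ) : prL F w D ht (r * K) T ≤ (1 / 2) ^ r := by
  have hU := Uf_one_le (D := D) (ht := ht) hw T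
  have hK0 : (0 : ℝ) < K := by linarith
  have h1 : (K : ℝ) * prL F w D ht K T ≤ Uf F w D ht T := by
    calc (K : ℝ) * prL F w D ht K T = ∑ n ∈ range K, prL F w D ht K T := by rw [Finset.sum_const, Finset.card_range, nsmul_eq_mul]
      _ ≤ ∑ n ∈ range K, prL F w D ht n T := Finset.sum_le_sum fun n hn => prL_anti hw hw1 hD (Finset.mem_range.1 hn).le T
      _ ≤ Uf F w D ht T := sum_prL_le hw hD K T
  have h2 : prL F w D ht K T ≤ 1 / 2 := by
    by_contra hcon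
    have hcon' : 1 / 2 < prL F w D ht K T := lt_of_not_ge hcon
    nlinarith
  induction r with
  | zero =>
    rw [Nat.zero_mul, pow_zero]
    exact prL_le_one hw hw1 0 T
  | succ r ih =>
    have e : (r + 1) * K = r * K + K := by ring
    rw [e, pow_succ]
    refine (uf_sub hw hD (r * K) K T).trans ?_
    exact mul_le_mul ih h2 (prL_nonneg hw K T) (by positivity)
-- END uf

-- BEGIN ug
private theorem ug_p_nonneg {U : ℝ} (hU : 1 ≤ U) (n l : ℕ) :
    0 ≤ min 1 ((l : ℝ) / min (n : ℝ) U) :=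
  le_min zero_le_one (div_nonneg (Nat.cast_nonneg l)
    (le_min (Nat.cast_nonneg n) (zero_le_one.trans hU)))

/-- MODULE ug. Cauchy - Schwarz (`Finset.sum_mul_sq_le_sq_mul_sq`) -/
theorem Pk_sq (hw : ∀ p ∈ F, 0 ≤ w p) (U : ℝ) (hU : 1 ≤ U) (N a l : ℕ) :
    Pk F w D ht U N 1 a l ^ 2 ≤ Pk F w D ht U N 0 a l * Pk F w D ht U N 2 a l := by
  have _ := hU
  have h1 := Finset.sum_mul_sq_le_sq_mul_sq (range (N + 1))
    (fun n => √(prI F w D ht n a (a + l)))
    (fun n => min 1 ((l : ℝ) / min (n : ℝ) U) * √(prI F w D ht n a (a + l)))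
  have e0 : Pk F w D ht U N 0 a l = ∑ n ∈ range (N + 1), √(prI F w D ht n a (a + l)) ^ 2 := by
    unfold Pk
    refine Finset.sum_congr rfl fun n _ => ?_
    rw [Real.sq_sqrt (prI_nonneg hw n _ _), pow_zero, one_mul]
  have e1 : Pk F w D ht U N 1 a l = ∑ n ∈ range (N + 1), √(prI F w D ht n a (a + l)) *
      (min 1 ((l : ℝ) / min (n : ℝ) U) * √(prI F w D ht n a (a + l))) := by
    unfold Pk
    refine Finset.sum_congr rfl fun n _ => ?_
    have h2 := Real.mul_self_sqrt (prI_nonneg hw n (a : ℤ) (a + l) (D := D) (ht := ht))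
    rw [pow_one]
    calc min 1 ((l : ℝ) / min (n : ℝ) U) * prI F w D ht n a (a + l)
        = min 1 ((l : ℝ) / min (n : ℝ) U) *
          (√(prI F w D ht n a (a + l)) * √(prI F w D ht n a (a + l))) := by rw [h2]
      _ = _ := by ring
  have e2 : Pk F w D ht U N 2 a l = ∑ n ∈ range (N + 1),
      (min 1 ((l : ℝ) / min (n : ℝ) U) * √(prI F w D ht n a (a + l))) ^ 2 := by
    unfold Pk
    refine Finset.sum_congr rfl fun n _ => ?_
    rw [mul_pow, Real.sq_sqrt (prI_nonneg hw n _ _)]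
  rw [e0, e1, e2]
  exact h1

/-- the term `n = 0` is `0` because `ht 0 = 0` is not above `a` -/
theorem Pk_two (hw : ∀ p ∈ F, 0 ≤ w p) (U : ℝ) (hU : 1 ≤ U) (N a l : ℕ) :
    Pk F w D ht U N 2 a l ≤ (l : ℝ) ^ 2 * rho F w D ht U N a l := by
  unfold Pk rho
  rw [Finset.mul_sum, Finset.range_eq_Ico, Finset.sum_eq_sum_Ico_succ_bot (Nat.succ_pos N)]
  have h0 : prI F w D ht 0 a (a + l) = 0 := by
    show (if (a : ℤ) < ht (SS D (fun _ => default) 0) ∧
      ht (SS D (fun _ => default) 0) ≤ (a : ℤ) + l then (1 : ℝ) else 0) = 0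
    rw [SS_zero, map_zero]
    refine if_neg fun h => absurd h.1 (not_lt.2 (Int.natCast_nonneg a))
  rw [h0, mul_zero, zero_add]
  have hI : Finset.Ico (0 + 1) (N + 1) = Icc 1 N := by
    ext n
    simp only [Finset.mem_Ico, Finset.mem_Icc]
    omega
  rw [hI]
  refine Finset.sum_le_sum fun n _ => ?_
  have h1 := ug_p_nonneg hU n l
  have h2 : min 1 ((l : ℝ) / min (n : ℝ) U) ≤ (l : ℝ) / min (n : ℝ) U := min_le_right _ _
  calc (min 1 ((l : ℝ) / min (n : ℝ) U)) ^ 2 * prI F w D ht n a (a + l)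
      ≤ ((l : ℝ) / min (n : ℝ) U) ^ 2 * prI F w D ht n a (a + l) :=
        mul_le_mul_of_nonneg_right (pow_le_pow_left₀ h1 h2 2) (prI_nonneg hw n _ _)
    _ = _ := by rw [div_pow]; ring

theorem Pk_nonneg (hw : ∀ p ∈ F, 0 ≤ w p) (U : ℝ) (hU : 1 ≤ U) (N k a l : ℕ) :
    0 ≤ Pk F w D ht U N k a l :=
  Finset.sum_nonneg fun n _ => mul_nonneg (pow_nonneg (ug_p_nonneg hU n l) k) (prI_nonneg hw n _ _)

theorem rho_nonneg (hw : ∀ p ∈ F, 0 ≤ w p) (U : ℝ) (hU : 1 ≤ U) (N a l : ℕ) :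
    0 ≤ rho F w D ht U N a l := by
  have _ := hU
  exact Finset.sum_nonneg fun n _ => div_nonneg (prI_nonneg hw n _ _) (sq_nonneg _)
-- END ug

-- BEGIN uh
private theorem uh_pt (h : ℤ) (a l m : ℕ) :
    ∑ i ∈ range m, (if ((a + i * l : ℕ) : ℤ) < h ∧ h ≤ ((a + i * l : ℕ) : ℤ) + l then (1 : ℝ) else 0)
      ≤ if (a : ℤ) < h ∧ h ≤ ((a + m * l : ℕ) : ℤ) then (1 : ℝ) else 0 := by
  induction m with
  | zero =>
    simp only [range_zero, sum_empty]
    split_ifs <;> norm_num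
  | succ m ih =>
    rw [sum_range_succ]
    have e1 : ((a + (m + 1) * l : ℕ) : ℤ) = ((a + m * l : ℕ) : ℤ) + l := by push_cast; ring
    have e2 : (a : ℤ) ≤ ((a + m * l : ℕ) : ℤ) := by exact_mod_cast Nat.le_add_right a (m * l)
    have e3 : (0 : ℤ) ≤ l := Int.natCast_nonneg l
    rw [e1]
    generalize ((a + m * l : ℕ) : ℤ) = c at *
    by_cases h1 : c < h
    · rw [if_neg (by omega : ¬ ((a : ℤ) < h ∧ h ≤ c))] at ih
      by_cases h2 : h ≤ c + l
      · rw [if_pos ⟨h1, h2⟩, if_pos (by omega : (a : ℤ) < h ∧ h ≤ c + l)]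
        linarith
      · rw [if_neg (by omega : ¬ (c < h ∧ h ≤ c + l)),
          if_neg (by omega : ¬ ((a : ℤ) < h ∧ h ≤ c + l))]
        linarith
    · rw [if_neg (by omega : ¬ (c < h ∧ h ≤ c + l)), add_zero]
      refine ih.trans ?_
      by_cases h2 : (a : ℤ) < h ∧ h ≤ c
      · rw [if_pos h2, if_pos (by omega : (a : ℤ) < h ∧ h ≤ c + l)]
      · rw [if_neg h2]
        split_ifs <;> norm_num

/-- MODULE uh. The windows `(a + i l, a + (i + 1) l]`, `i < m`, are disjoint and lie in `(a, a + m l]`. -/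
theorem sum_prI (hw : ∀ p ∈ F, 0 ≤ w p) (n a l m : ℕ) :
    ∑ i ∈ range m, prI F w D ht n ((a + i * l : ℕ) : ℤ) (((a + i * l : ℕ) : ℤ) + l) ≤
      prI F w D ht n a ((a + m * l : ℕ) : ℤ) := by
  unfold prI
  rw [← EE_sum (F := F) (w := w) n (range m) (fun i s =>
    if ((a + i * l : ℕ) : ℤ) < ht (SS D s n) ∧ ht (SS D s n) ≤ ((a + i * l : ℕ) : ℤ) + l
      then (1 : ℝ) else 0)]
  exact EE_mono hw fun s _ => uh_pt (ht (SS D s n)) a l m

theorem sum_Pk0 (hw : ∀ p ∈ F, 0 ≤ w p) (hD : ∀ p ∈ F, 1 ≤ ht (D p)) (U : ℝ) (N a l m : ℕ) :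
    ∑ i ∈ range m, Pk F w D ht U N 0 (a + i * l) l ≤ Uf F w D ht (a + m * l) := by
  unfold Pk
  rw [sum_comm]
  refine (sum_le_sum fun n _ => ?_).trans (sum_prL_le hw hD (N + 1) (a + m * l))
  simp only [pow_zero, one_mul]
  refine (sum_prI hw n a l m).trans ?_
  unfold prI prL
  refine EE_mono hw fun s _ => ?_
  by_cases h : ht (SS D s n) ≤ ((a + m * l : ℕ) : ℤ)
  · rw [if_pos h]
    split_ifs <;> norm_num
  · rw [if_neg h, if_neg fun h' => h h'.2]
-- END uh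

-- BEGIN ui
/-- MODULE ui. **The measure `ρ`.** `n ≤ U`: `∑_i P(S_n ∈ I_i) ≤ P(S_n > S) ≤ 2 n / U` (`prG_Uf`),
`∑_(n ≤ U) (2 n / U) / n ^ 2 = (2 / U) ∑ 1 / n ≤ (2 / U) (1 + log U)` (`Pool.Agent.R19.nu_harm`);
`n > U`: `∑_n prL n (2 S) / U ^ 2 ≤ Uf (2 S) / U ^ 2 ≤ 2 / U` (`Uf_add`). -/
theorem sum_rho (hw : ∀ p ∈ F, 0 ≤ w p) (hw1 : ∑ p ∈ F, w p ≤ 1) (hD : ∀ p ∈ F, 1 ≤ ht (D p))
    {S a l m N : ℕ} (ha : S ≤ a) (hb : a + m * l ≤ 2 * S) :
    ∑ i ∈ range m, rho F w D ht (Uf F w D ht S) N (a + i * l) l ≤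
      (4 + 2 * Real.log (Uf F w D ht S)) / Uf F w D ht S := by
  have hU1 : 1 ≤ Uf F w D ht S := Uf_one_le hw S
  have hU2 : Uf F w D ht (2 * S) ≤ 2 * Uf F w D ht S := by
    have h := Uf_add hw hw1 hD S S
    rw [← two_mul] at h
    linarith
  have hUG : ∀ n, EE F w n (fun s => if (S : ℤ) < ht (SS D s n) then 1 else 0) ≤ 2 * n / Uf F w D ht S :=
    fun n => prG_Uf hw hw1 hD n S
  generalize hUd : Uf F w D ht S = U at *
  have hU0 : 0 < U := lt_of_lt_of_le one_pos hU1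
  unfold rho
  rw [sum_comm]
  have hterm : ∀ n ∈ Icc 1 N, ∑ i ∈ range m, prI F w D ht n ((a + i * l : ℕ) : ℤ)
      (((a + i * l : ℕ) : ℤ) + l) / (min (n : ℝ) U) ^ 2 ≤
      (2 / U) * (if n ≤ ⌊U⌋₊ then (1 : ℝ) / n else 0) + prL F w D ht n (2 * S) / U ^ 2 := by
    intro n hn
    rw [mem_Icc] at hn
    have hn0 : (0 : ℝ) < n := by exact_mod_cast hn.1
    rw [← sum_div]
    have h1 := sum_prI hw (D := D) (ht := ht) n a l m
    have hA : prI F w D ht n a ((a + m * l : ℕ) : ℤ) ≤ 2 * n / U := by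
      refine le_trans ?_ (hUG n)
      unfold prI
      refine EE_mono hw fun s _ => ?_
      have ha' : (S : ℤ) ≤ a := by exact_mod_cast ha
      split_ifs <;> first | (exfalso; omega) | norm_num
    have hB : prI F w D ht n a ((a + m * l : ℕ) : ℤ) ≤ prL F w D ht n (2 * S) := by
      unfold prI prL
      refine EE_mono hw fun s _ => ?_
      have hb' : ((a + m * l : ℕ) : ℤ) ≤ ((2 * S : ℕ) : ℤ) := by exact_mod_cast hb
      split_ifs <;> first | (exfalso; omega) | norm_num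
    have hL0 := prL_nonneg hw (D := D) (ht := ht) n (2 * S)
    by_cases hc : n ≤ ⌊U⌋₊
    · rw [if_pos hc]
      have hc' : (n : ℝ) ≤ U := (Nat.le_floor_iff hU0.le).1 hc
      rw [min_eq_left hc']
      have h2 : (∑ i ∈ range m, prI F w D ht n ((a + i * l : ℕ) : ℤ) (((a + i * l : ℕ) : ℤ) + l)) / (n : ℝ) ^ 2 ≤
          2 / U * (1 / n) := by
        refine (div_le_div_of_nonneg_right (h1.trans hA) (by positivity)).trans (le_of_eq ?_)
        field_simp
      have h3 : 0 ≤ prL F w D ht n (2 * S) / U ^ 2 := div_nonneg hL0 (by positivity)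
      linarith
    · rw [if_neg hc, mul_zero, zero_add]
      have hc' : U ≤ (n : ℝ) := (not_le.1 fun h => hc (Nat.le_floor h)).le
      rw [min_eq_right hc']
      exact div_le_div_of_nonneg_right (h1.trans hB) (by positivity)
  refine (sum_le_sum hterm).trans ?_
  rw [sum_add_distrib, ← mul_sum, ← sum_div]
  have hH : ∑ n ∈ Icc 1 N, (if n ≤ ⌊U⌋₊ then (1 : ℝ) / n else 0) ≤ 1 + Real.log U := by
    rw [← sum_filter]
    have h4 : (Icc 1 N).filter (fun n => n ≤ ⌊U⌋₊) ⊆ Icc 1 ⌊U⌋₊ := by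
      intro n hn
      rw [mem_filter, mem_Icc] at hn
      rw [mem_Icc]
      exact ⟨hn.1.1, hn.2⟩
    refine (sum_le_sum_of_subset_of_nonneg h4 fun n _ _ => by positivity).trans ?_
    refine (nu_harm _).trans ?_
    have h5 : (1 : ℕ) ≤ ⌊U⌋₊ := Nat.le_floor (by exact_mod_cast hU1)
    have h6 : Real.log (⌊U⌋₊ : ℝ) ≤ Real.log U :=
      Real.log_le_log (by exact_mod_cast h5) (Nat.floor_le hU0.le)
    linarith
  have hL : ∑ n ∈ Icc 1 N, prL F w D ht n (2 * S) ≤ 2 * U := by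
    have h6 : Icc 1 N ⊆ range (N + 1) := by
      intro n hn
      rw [mem_Icc] at hn
      rw [mem_range]
      omega
    refine (sum_le_sum_of_subset_of_nonneg h6 fun n _ _ => prL_nonneg hw n _).trans ?_
    exact (sum_prL_le hw hD (N + 1) (2 * S)).trans hU2
  have h7 : (∑ n ∈ Icc 1 N, prL F w D ht n (2 * S)) / U ^ 2 ≤ 2 / U := by
    refine (div_le_div_of_nonneg_right hL (by positivity)).trans (le_of_eq ?_)
    field_simp
  have h8 : 2 / U * ∑ n ∈ Icc 1 N, (if n ≤ ⌊U⌋₊ then (1 : ℝ) / n else 0) ≤ 2 / U * (1 + Real.log U) :=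
    mul_le_mul_of_nonneg_left hH (by positivity)
  refine (add_le_add h8 h7).trans (le_of_eq ?_)
  field_simp
  ring
-- END ui

end Pool.Agent.SwT
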