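import Pool.Agent.SwT.LDefs
import Pool.Agent.SwT.Uf
import Pool.Agent.SwT.JClosed

/-! LEMMA J for words, closed form: the hypothesis `HJ` holds for the kappa of `kap`. -/

set_option autoImplicit false
set_option linter.unusedSectionVars false
set_option linter.style.longLine false
set_option linter.unusedVariables false

namespace Pool.Agent.SwT

variable [Pool.Agent.SwP.Dim]

open Finset
open scoped Classical
open Pool.Agent.R19
open Pool.Agent.SwR
open Pool.Agent.SwP (Word Pt Step D pts tr saw Br Lo Hi wle mem_wle rv D_rv rv_append rv_rv D_append D_nil pts_append mem_pts mem_tr zero_mem_pts refl refl_refl D_refl rtr rtr_rtr rtr_A D_rtr dd Ix Br_nil sum_le_of_inj length_rv abs_D_le brs)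

-- BEGIN kj
theorem kj_exp {t : ℝ} (ht0 : 0 ≤ t) : t ^ 2 / 2 ≤ Real.exp t := by
  have := Real.quadratic_le_exp_of_nonneg ht0
  linarith

/-- the number of halvings -/
theorem kj_num (B : ℕ) {S : ℝ} (hS : 1 ≤ S) {K : ℕ}
    (hK : 4 * ((B : ℝ) + 11) * (Real.log S + 1) ≤ K) :
    240 * (K : ℝ) ^ 2 * S * S ^ B ≤ 2 ^ K ∧ 4 * S ≤ 2 ^ K := by
  have hS0 : 0 < S := by linarith
  have hlog : 0 ≤ Real.log S := Real.log_nonneg hS
  have hB : (0 : ℝ) ≤ B := by positivity
  have h1 : Real.exp ((K : ℝ) / 2) ≤ 2 ^ K := by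
    have h2 : Real.exp (1 / 2) ≤ 2 := by
      have h3 : Real.exp (1 / 2) ^ 2 = Real.exp 1 := by
        rw [← Real.exp_nat_mul]
        norm_num
      have h4 := Real.exp_one_lt_d9
      have h5 := Real.exp_pos (1 / 2)
      nlinarith
    calc Real.exp ((K : ℝ) / 2) = Real.exp (1 / 2) ^ K := by
          rw [← Real.exp_nat_mul]
          congr 1
          ring
      _ ≤ 2 ^ K := pow_le_pow_left₀ (Real.exp_pos _).le h2 K
  have h6 : (K : ℝ) ^ 2 / 32 ≤ Real.exp ((K : ℝ) / 4) := by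
    have := kj_exp (t := (K : ℝ) / 4) (by positivity)
    linarith [this, show ((K : ℝ) / 4) ^ 2 / 2 = (K : ℝ) ^ 2 / 32 by ring]
  have h7 : S ^ B * S * 55000 ≤ Real.exp ((K : ℝ) / 4) := by
    have h8 : ((B : ℝ) + 11) * (Real.log S + 1) ≤ (K : ℝ) / 4 := by linarith
    refine le_trans ?_ (Real.exp_le_exp.2 h8)
    have e1 : ((B : ℝ) + 11) * (Real.log S + 1) =
        (B : ℝ) * Real.log S + Real.log S + (10 * Real.log S + (B : ℝ) + 11) := by ring
    rw [e1, Real.exp_add, Real.exp_add, Real.exp_log hS0]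
    have e2 : Real.exp ((B : ℝ) * Real.log S) = S ^ B := by
      rw [Real.exp_nat_mul, Real.exp_log hS0]
    rw [e2]
    refine mul_le_mul_of_nonneg_left ?_ (by positivity)
    have h9 : (11 : ℝ) ≤ 10 * Real.log S + (B : ℝ) + 11 := by linarith
    refine le_trans ?_ (Real.exp_le_exp.2 h9)
    have h10 : Real.exp 11 = Real.exp 1 ^ 11 := by
      rw [← Real.exp_nat_mul]
      norm_num
    rw [h10]
    have h11 : (2.7 : ℝ) ≤ Real.exp 1 := by
      have := Real.exp_one_gt_d9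
      linarith
    calc (55000 : ℝ) ≤ 2.7 ^ 11 := by norm_num
      _ ≤ Real.exp 1 ^ 11 := pow_le_pow_left₀ (by norm_num) h11 11
  have h12 : Real.exp ((K : ℝ) / 2) = Real.exp ((K : ℝ) / 4) * Real.exp ((K : ℝ) / 4) := by
    rw [← Real.exp_add]
    congr 1
    ring
  have hSB : 1 ≤ S ^ B := one_le_pow₀ hS
  have hK2 : 0 ≤ (K : ℝ) ^ 2 := by positivity
  constructor
  · refine le_trans ?_ h1
    rw [h12]
    calc 240 * (K : ℝ) ^ 2 * S * S ^ B = ((K : ℝ) ^ 2 / 32) * (S ^ B * S * 7680) := by ring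
      _ ≤ Real.exp ((K : ℝ) / 4) * Real.exp ((K : ℝ) / 4) := by
          refine mul_le_mul h6 (le_trans ?_ h7) (by positivity) (Real.exp_pos _).le
          exact mul_le_mul_of_nonneg_left (by norm_num) (by positivity)
  · refine le_trans ?_ h1
    rw [h12]
    have h13 : 1 ≤ Real.exp ((K : ℝ) / 4) := Real.one_le_exp (by positivity)
    have h14 : 4 * S ≤ Real.exp ((K : ℝ) / 4) := by
      refine le_trans ?_ h7
      have h15 : S ≤ S ^ B * S := le_mul_of_one_le_left hS0.le hSB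
      nlinarith
    nlinarith

theorem kj_core {x : ℝ} (hx : 0 ≤ x) {S M s l K B : ℕ} (hS : 2 ≤ S) (hSs : S ≤ s)
    (hs : s + l ≤ 2 * S) (hl : 1 ≤ l) (h4 : 4 * l ≤ S) (hPh : Ph x M ≤ 1)
    (hhalf : (1 : ℝ) / 2 ≤ Ph x M ^ (16 * S)) {C : ℝ} (hK1 : 1 ≤ K)
    (hK : 240 * (K : ℝ) ^ 2 * S * (S : ℝ) ^ B ≤ 2 ^ K) (hK' : 4 * (S : ℝ) ≤ 2 ^ K)
    (hC : 240 * (K : ℝ) ^ 2 ≤ C) (D' : Word → Pt) (Q' : Word → Set Pt)
    (hD' : ∀ p ∈ irs M, 1 ≤ (Pool.Agent.SwP.ev 0) (D' p))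
    (hlaw : law (irs M) (fun p => x ^ p.length) D' = law (irs M) (fun p => x ^ p.length) D)
    (hp' : ∀ p ∈ irs M, ∀ z ∈ Q' p, 0 ≤ (Pool.Agent.SwP.ev 0) z ∧
      (Pool.Agent.SwP.ev 0) z ≤ (Pool.Agent.SwP.ev 0) (D' p)) :
    HJ x M (8 * S) s l (kap x M S l C) (1 / (S : ℝ) ^ B) D' Q' := by
  intro n hn hn' v hv hv' y
  have hw : ∀ p ∈ irs M, 0 ≤ (fun p : Word => x ^ p.length) p := fun p _ => by
    change 0 ≤ x ^ p.length
    positivity
  have hw1 : ∑ p ∈ irs M, (fun p : Word => x ^ p.length) p ≤ 1 := hPh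
  have hSr : (2 : ℝ) ≤ S := by exact_mod_cast hS
  have hlr : (1 : ℝ) ≤ l := by exact_mod_cast hl
  have hKr : (1 : ℝ) ≤ K := by exact_mod_cast hK1
  have hnr : (1 : ℝ) ≤ n := by
    have : 1 ≤ n := by omega
    exact_mod_cast this
  set W : ℝ := wnM x M D' n y with hW
  have hWe : W = wn (irs M) (fun p => x ^ p.length) D' n y := by
    rw [hW]
    unfold wnM wn EM
    refine EE_congr ?_
    intro A _
    by_cases h1 : SS D' A n = y
    · rw [if_pos h1, if_pos h1]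
    · rw [if_neg h1, if_neg h1]
  have hW0 : 0 ≤ W := by
    rw [hWe]
    exact wn_nonneg hw n y
  have hε0 : 0 ≤ 1 / (S : ℝ) ^ B := by positivity
  -- the joint event
  have e1 : EM x M n (fun A => (if SS D' A n = y then 1 else 0) * hit x M D' Q' l n (8 * S) v A) =
      EE (irs M) (fun p => x ^ p.length) (8 * S) (fun G =>
        EE (irs M) (fun p => x ^ p.length) n (fun A => @ite ℝ (SS D' A n = y ∧
        Low (Pool.Agent.SwP.ev 0) D' Q' {z | Up D Qp G (8 * S) z} l n v A)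
        (@instDecidableAnd _ _ (Classical.propDecidable _) (Classical.propDecidable _)) 1 0)) := by
    rw [← EE_swap]
    unfold EM
    refine EE_congr ?_
    intro A _
    unfold hit
    rw [← EE_mul_left]
    refine EE_congr ?_
    intro G _
    unfold LU
    by_cases h1 : SS D' A n = y
    · rw [if_pos h1, one_mul]
      by_cases h2 : Low (Pool.Agent.SwP.ev 0) D' Q' {z | Up D Qp G (8 * S) z} l n v A
      · rw [if_pos h2, if_pos ⟨h1, h2⟩]
      · rw [if_neg h2, if_neg (fun h3 => h2 h3.2)]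
    · rw [if_neg h1, zero_mul, if_neg (fun h3 => h1 h3.1)]
  rw [e1]
  have hU1 : 1 ≤ UM x M S := one_le_Uf hw S
  have hmin1 : 1 ≤ min (n : ℝ) (UM x M S) := le_min hnr hU1
  have htriv : EE (irs M) (fun p => x ^ p.length) (8 * S) (fun G =>
        EE (irs M) (fun p => x ^ p.length) n (fun A => @ite ℝ (SS D' A n = y ∧
        Low (Pool.Agent.SwP.ev 0) D' Q' {z | Up D Qp G (8 * S) z} l n v A)
        (@instDecidableAnd _ _ (Classical.propDecidable _) (Classical.propDecidable _)) 1 0)) ≤ W := by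
    refine EE_le_one hw hw1 hW0 ?_
    intro G _
    rw [hWe]
    refine EE_mono hw ?_
    intro A _
    by_cases h1 : SS D' A n = y
    · rw [if_pos h1]
      split <;> norm_num
    · rw [if_neg h1, if_neg (fun h2 => h1 h2.1)]
  unfold kap
  rw [if_neg (by omega)]
  rcases le_total 1 (C * ((l : ℝ) / min (n : ℝ) (UM x M S))) with h | h
  · rw [min_eq_left h, one_mul]
    linarith
  · rw [min_eq_right h]
    have hJ := J_closed (F := irs M) (w := fun p => x ^ p.length) (D := D) (D' := D')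
      (ht := Pool.Agent.SwP.ev 0) (pts := Qp) (pts' := Q') hw hw1
      (fun p hp => (mem_irs.1 hp).2.one_le) hD' hlaw
      (fun p hp z hz => (mem_irs.1 hp).2.br.pts_range hz) hp' (g := l) (n := n) (N := 8 * S)
      (S := S) (K := K) (x := v) hS (by
        change ((S / 2 : ℕ) : ℤ) + l ≤ v 0
        have : S / 2 + l ≤ S := by omega
        have h1 : ((S / 2 + l : ℕ) : ℤ) ≤ (S : ℤ) := by exact_mod_cast this
        have h2 : (S : ℤ) ≤ s := by exact_mod_cast hSs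
        push_cast at h1 ⊢
        linarith) (by
        change v 0 + n + 1 ≤ ((8 * S : ℕ) : ℤ)
        have h1 : ((s + l : ℕ) : ℤ) ≤ ((2 * S : ℕ) : ℤ) := by exact_mod_cast hs
        have h2 : (n : ℤ) ≤ ((s + l : ℕ) : ℤ) := by exact_mod_cast hn'
        have h3 : (2 : ℤ) ≤ S := by exact_mod_cast hS
        push_cast at h1 h2 ⊢
        linarith) (half_mono hw hw1 (show n ≤ 16 * S by omega) hhalf) hK1 (by omega) (by
        refine le_trans ?_ hK'
        have : n ≤ 4 * S := by omega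
        exact_mod_cast this) y
    refine le_trans hJ ?_
    rw [← hWe]
    change 120 * (K : ℝ) ^ 2 * (((l : ℝ) + 1) / min (n : ℝ) (UM x M S)) * (W + (1 / 2) ^ K) ≤
      C * ((l : ℝ) / min (n : ℝ) (UM x M S)) * W + 1 / (S : ℝ) ^ B
    have hmin0 : 0 < min (n : ℝ) (UM x M S) := by linarith
    have h2 : 120 * (K : ℝ) ^ 2 * (((l : ℝ) + 1) / min (n : ℝ) (UM x M S)) ≤
        240 * (K : ℝ) ^ 2 * ((l : ℝ) / min (n : ℝ) (UM x M S)) := by
      have h3 : ((l : ℝ) + 1) / min (n : ℝ) (UM x M S) ≤ (2 * l) / min (n : ℝ) (UM x M S) :=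
        div_le_div_of_nonneg_right (by linarith) hmin0.le
      calc 120 * (K : ℝ) ^ 2 * (((l : ℝ) + 1) / min (n : ℝ) (UM x M S)) ≤
          120 * (K : ℝ) ^ 2 * ((2 * l) / min (n : ℝ) (UM x M S)) :=
            mul_le_mul_of_nonneg_left h3 (by positivity)
        _ = 240 * (K : ℝ) ^ 2 * ((l : ℝ) / min (n : ℝ) (UM x M S)) := by ring
    have h3 : 0 ≤ (l : ℝ) / min (n : ℝ) (UM x M S) := by positivity
    have h5 : (l : ℝ) / min (n : ℝ) (UM x M S) ≤ S := by
      rw [div_le_iff₀ hmin0]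
      have h6 : (l : ℝ) ≤ S := by
        have : l ≤ S := by omega
        exact_mod_cast this
      nlinarith
    have hh : (0 : ℝ) < 2 ^ K := by positivity
    have h6 : 240 * (K : ℝ) ^ 2 * ((l : ℝ) / min (n : ℝ) (UM x M S)) * (1 / 2) ^ K ≤
        1 / (S : ℝ) ^ B := by
      have hSB : (0 : ℝ) < (S : ℝ) ^ B := by positivity
      rw [one_div_pow, le_div_iff₀ hSB, mul_one_div, div_mul_eq_mul_div, div_le_one hh]
      refine le_trans ?_ hK
      exact mul_le_mul_of_nonneg_right (mul_le_mul_of_nonneg_left h5 (by positivity)) hSB.le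
    calc 120 * (K : ℝ) ^ 2 * (((l : ℝ) + 1) / min (n : ℝ) (UM x M S)) * (W + (1 / 2) ^ K) ≤
        240 * (K : ℝ) ^ 2 * ((l : ℝ) / min (n : ℝ) (UM x M S)) * (W + (1 / 2) ^ K) :=
          mul_le_mul_of_nonneg_right h2 (by positivity)
      _ = 240 * (K : ℝ) ^ 2 * ((l : ℝ) / min (n : ℝ) (UM x M S)) * W +
          240 * (K : ℝ) ^ 2 * ((l : ℝ) / min (n : ℝ) (UM x M S)) * (1 / 2) ^ K := by ring
      _ ≤ C * ((l : ℝ) / min (n : ℝ) (UM x M S)) * W + 1 / (S : ℝ) ^ B :=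
          add_le_add (mul_le_mul_of_nonneg_right (mul_le_mul_of_nonneg_right hC h3) hW0) h6

/-- **LEMMA J, closed form.** `lemma_J` with `g = l`, number of averaged pieces about `n / 2`,
level `T` maximal with `2 Uf T + 1 ≤ n / (C log S)`, `T ≤ S / 2 - 1`; `mT_Uf`, `prL_pow`,
`Uf_add`, `Uf_le`. Type a: `D' = D`, type b: `D' = Dv` (`sp_law`). -/
theorem hj (B : ℕ) : ∃ C : ℝ, 1 ≤ C ∧ ∀ (x : ℝ) (S M s l : ℕ), 0 ≤ x → 2 ≤ S → S ≤ s →
    s + l ≤ 2 * S → 1 ≤ l → 4 * l ≤ S → Ph x M ≤ 1 → (1 : ℝ) / 2 ≤ Ph x M ^ (16 * S) →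
    HJ x M (8 * S) s l (kap x M S l (C * (Real.log S + 1) ^ 2)) (1 / (S : ℝ) ^ B) D Qp ∧
    HJ x M (8 * S) s l (kap x M S l (C * (Real.log S + 1) ^ 2)) (1 / (S : ℝ) ^ B) Dv Qv := by
  have hB : (0 : ℝ) ≤ B := by positivity
  refine ⟨240 * (4 * ((B : ℝ) + 11) + 1) ^ 2, ?_, ?_⟩
  · nlinarith
  · intro x S M s l hx hS hSs hs hl h4 hPh hhalf
    have hSr : (2 : ℝ) ≤ S := by exact_mod_cast hS
    have hlog : 0 ≤ Real.log (S : ℝ) := Real.log_nonneg (by linarith)
    set K := ⌈4 * ((B : ℝ) + 11) * (Real.log S + 1)⌉₊ with hK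
    have hK1 : 4 * ((B : ℝ) + 11) * (Real.log S + 1) ≤ K := Nat.le_ceil _
    have hK2 : (K : ℝ) < 4 * ((B : ℝ) + 11) * (Real.log S + 1) + 1 :=
      Nat.ceil_lt_add_one (by positivity)
    have hK3 : 1 ≤ K := by
      rw [Nat.one_le_iff_ne_zero]
      intro h0
      rw [h0] at hK1
      have : 0 < 4 * ((B : ℝ) + 11) * (Real.log S + 1) := by positivity
      norm_num at hK1
      linarith
    obtain ⟨hn1, hn2⟩ := kj_num B (S := (S : ℝ)) (by linarith) hK1
    have hC : 240 * (K : ℝ) ^ 2 ≤ 240 * (4 * ((B : ℝ) + 11) + 1) ^ 2 * (Real.log S + 1) ^ 2 := by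
      have h1 : (K : ℝ) ≤ (4 * ((B : ℝ) + 11) + 1) * (Real.log S + 1) := by nlinarith
      have h2 : (K : ℝ) ^ 2 ≤ ((4 * ((B : ℝ) + 11) + 1) * (Real.log S + 1)) ^ 2 :=
        pow_le_pow_left₀ (by positivity) h1 2
      rw [mul_pow] at h2
      linarith
    refine ⟨?_, ?_⟩
    · exact kj_core hx hS hSs hs hl h4 hPh hhalf hK3 hn1 hn2 hC D Qp
        (fun p hp => (mem_irs.1 hp).2.one_le) rfl
        (fun p hp z hz => (mem_irs.1 hp).2.br.pts_range hz)
    · exact kj_core hx hS hSs hs hl h4 hPh hhalf hK3 hn1 hn2 hC Dv Qv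
        (fun p hp => by
          change 1 ≤ D (rv (fl p)) 0
          rw [sp_D_rv_fl]
          exact (mem_irs.1 hp).2.one_le) (sp_law x M)
        (fun p hp z hz => by
          have h1 := sp_pts_range (mem_irs.1 hp).2.br hz
          change 0 ≤ z 0 ∧ z 0 ≤ D (rv (fl p)) 0
          rw [sp_D_rv_fl]
          exact h1)
-- END kj

end Pool.Agent.SwT
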