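import Pool.Agent.SwT.Defs

/-!
# STAR with exponent 2/3: runs (rows ra - re)
-/

set_option autoImplicit false

namespace Pool.Agent.SwT

open Finset
open scoped Classical
open Pool.Agent.R19 Pool.Agent.SwR Pool.Agent.SwR.Tr Pool.Agent.SwP

variable [Pool.Agent.SwP.Dim] {x : ℝ} {L M a l : ℕ}

/-- a chain of legs followed by a word -/
def cat : List Word → Word → Word
  | [], v => v
  | u :: t, v => u ++ fl (cat t v)

-- BEGIN ra
/-- MODULE ra. -/
theorem cw_eq_cat (r : List Word) : cw r = cat r [] := by
  induction r with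
  | nil => rfl
  | cons a t ih =>
    change a ++ fl (cw t) = a ++ fl (cat t [])
    rw [ih]

theorem cat_length (r : List Word) (v : Word) : (cat r v).length = (r.map List.length).sum + v.length := by
  induction r with
  | nil => simp [cat]
  | cons a t ih =>
    have h : (cat (a :: t) v).length = a.length + (cat t v).length := by
      change (a ++ fl (cat t v)).length = _
      rw [List.length_append]
      unfold fl
      rw [List.length_map]
    rw [h, ih, List.map_cons, List.sum_cons, add_assoc]

theorem pow_cat (x : ℝ) (r : List Word) (v : Word) : x ^ (cat r v).length = ms x r * x ^ v.length := by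
  induction r with
  | nil => simp [cat, ms]
  | cons a t ih =>
    have h : (cat (a :: t) v).length = a.length + (cat t v).length := by
      change (a ++ fl (cat t v)).length = _
      rw [List.length_append]
      unfold fl
      rw [List.length_map]
    have h2 : ms x (a :: t) = x ^ a.length * ms x t := by
      simp [ms]
    rw [h, pow_add, ih, h2, mul_assoc]

/-- `cat r v` is `cw r` followed by `v` or `fl v` -/
theorem cat_append (r : List Word) (v : Word) : cat r v = cw r ++ v ∨ cat r v = cw r ++ fl v := by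
  induction r with
  | nil => exact Or.inl rfl
  | cons a t ih =>
    rcases ih with h | h
    · right
      change a ++ fl (cat t v) = (a ++ fl (cw t)) ++ fl v
      rw [h, sp_fl_append, List.append_assoc]
    · left
      change a ++ fl (cat t v) = (a ++ fl (cw t)) ++ v
      rw [h, sp_fl_append, sp_fl_fl, List.append_assoc]

theorem cw_append (r t : List Word) : cw (r ++ t) = cw r ++ cw t ∨ cw (r ++ t) = cw r ++ fl (cw t) := by
  have h : ∀ r : List Word, cw (r ++ t) = cat r (cw t) := by
    intro r
    induction r with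
    | nil => rfl
    | cons a s ih =>
      change a ++ fl (cw (s ++ t)) = a ++ fl (cat s (cw t))
      rw [ih]
  rw [h r]
  exact cat_append r (cw t)

theorem saw_fl {v : Word} : saw (fl v) ↔ saw v := by
  constructor
  · intro h
    have h2 : saw (fl (fl v)) := h.map (refl 0)
    rwa [sp_fl_fl] at h2
  · intro h
    exact h.map (refl 0)

theorem ms_append (x : ℝ) (r t : List Word) : ms x (r ++ t) = ms x r * ms x t := by
  unfold ms
  rw [List.map_append, List.prod_append]

theorem ms_nonneg (hx : 0 ≤ x) (r : List Word) : 0 ≤ ms x r := by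
  unfold ms
  apply List.prod_nonneg
  intro a ha
  obtain ⟨u, _, rfl⟩ := List.mem_map.1 ha
  exact pow_nonneg hx _

/-- `mem_lst`: at most `n` words of length at most `L` -/
theorem mem_lst {n : ℕ} {r : List Word} : r ∈ lst L n ↔ r.length ≤ n ∧ ∀ u ∈ r, u.length ≤ L := by
  induction n generalizing r with
  | zero =>
    change r ∈ ({[]} : Finset (List Word)) ↔ _
    rw [mem_singleton]
    constructor
    · rintro rfl
      exact ⟨le_refl _, fun u hu => by simp at hu⟩
    · rintro ⟨h, _⟩
      exact List.length_eq_zero_iff.1 (Nat.le_zero.1 h)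
  | succ n ih =>
    change r ∈ insert [] ((wle L ×ˢ lst L n).image fun p => p.1 :: p.2) ↔ _
    rw [mem_insert, mem_image]
    constructor
    · rintro (rfl | ⟨⟨u, t⟩, hp, rfl⟩)
      · exact ⟨Nat.zero_le _, fun u hu => by simp at hu⟩
      · rw [mem_product] at hp
        obtain ⟨h1, h2⟩ := hp
        have h1' : u.length ≤ L := mem_wle.1 h1
        obtain ⟨h3, h4⟩ := ih.1 h2
        refine ⟨?_, ?_⟩
        · change t.length + 1 ≤ n + 1
          exact Nat.succ_le_succ h3
        · intro v hv
          rcases List.mem_cons.1 hv with rfl | hv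
          · exact h1'
          · exact h4 v hv
    · rintro ⟨h1, h2⟩
      cases r with
      | nil => exact Or.inl rfl
      | cons u t =>
        right
        refine ⟨(u, t), ?_, rfl⟩
        rw [mem_product]
        refine ⟨mem_wle.2 (h2 u List.mem_cons_self), ih.2 ⟨?_, fun v hv => h2 v (List.mem_cons_of_mem _ hv)⟩⟩
        exact Nat.le_of_succ_le_succ h1
-- END ra

-- BEGIN rb
private theorem rb_aux (a : ℤ) : ∀ (r : List Word) (b : ℤ), a ≤ b → (∀ u ∈ r, a < D u 0 ∧ D u 0 ≤ b) →
    r.Pairwise (fun u v => D v 0 < D u 0) → (r.length : ℤ) ≤ b - a := by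
  intro r
  induction r with
  | nil =>
    intro b hab _ _
    rw [List.length_nil]
    push_cast
    omega
  | cons u t ih =>
    intro b hab h1 h2
    rw [List.pairwise_cons] at h2
    have h3 := h1 u List.mem_cons_self
    have h4 := ih (D u 0 - 1) (by omega) (fun v hv => ⟨(h1 v (List.mem_cons_of_mem _ hv)).1, by have := h2.1 v hv; omega⟩) h2.2
    rw [List.length_cons]
    push_cast
    omega

/-- MODULE rb. Strictly decreasing spans in `(a, a + l]`: at most `l` legs. -/
theorem Run.length_le {r : List Word} (h : Run a l r) : r.length ≤ l := by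
  have h1 := rb_aux (a : ℤ) r ((a : ℤ) + l) (by omega) (fun u hu => ⟨(h.1 u hu).2.1, (h.1 u hu).2.2⟩) h.2.1
  omega

theorem mem_runs {r : List Word} : r ∈ runs L a l ↔ (∀ u ∈ r, u.length ≤ L) ∧ Run a l r := by
  unfold runs
  rw [Finset.mem_filter, mem_lst]
  exact ⟨fun h => ⟨h.1.2, h.2⟩, fun h => ⟨⟨h.2.length_le, h.1⟩, h.2⟩⟩

theorem Run.left {r t : List Word} (h : Run a l (r ++ t)) : Run a l r := by
  refine ⟨fun u hu => h.1 u (List.mem_append_left _ hu), (List.pairwise_append.1 h.2.1).1, ?_⟩
  have h1 := h.2.2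
  rcases cw_append r t with h2 | h2
  · rw [h2] at h1
    exact h1.left
  · rw [h2] at h1
    exact h1.left

theorem Run.right {r t : List Word} (h : Run a l (r ++ t)) : Run a l t := by
  refine ⟨fun u hu => h.1 u (List.mem_append_right _ hu), (List.pairwise_append.1 h.2.1).2.1, ?_⟩
  have h1 := h.2.2
  rcases cw_append r t with h2 | h2
  · rw [h2] at h1
    exact h1.right
  · rw [h2] at h1
    exact saw_fl.1 h1.right

theorem Run.triple {u v w : Word} {t : List Word} (h : Run a l (u :: v :: w :: t)) : saw (u ++ (fl v ++ w)) := by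
  have h1 : saw (u ++ fl (v ++ fl (w ++ fl (cw t)))) := h.2.2
  rw [sp_fl_append, sp_fl_fl, ← List.append_assoc, ← List.append_assoc] at h1
  have h2 := h1.left
  rw [List.append_assoc] at h2
  exact h2
-- END rb

-- BEGIN rc
private theorem rc_aux (n : ℕ) : ∀ w : Word, w.length ≤ n → w ∈ hs L (a + l) →
    ∃ r ∈ runs L a l, ∃ v ∈ hs L a, w = cat r v ∧ ∀ u t, r = u :: t → u = leg w := by
  induction n with
  | zero =>
    intro w hn hw
    have h0 : w = [] := List.length_eq_zero_iff.1 (Nat.le_zero.1 hn)
    subst h0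
    refine ⟨[], ?_, [], ?_, rfl, ?_⟩
    · rw [mem_runs]
      refine ⟨by simp, by simp, List.Pairwise.nil, ?_⟩
      exact (mem_hs.1 hw).2.1
    · rw [mem_hs] at hw ⊢
      refine ⟨hw.1, hw.2.1, hw.2.2.1, ?_⟩
      intro c b hcb
      have h1 : c = [] := by
        have := List.append_eq_nil_iff.1 hcb.symm
        exact this.1
      rw [h1, D_nil]
      simp
    · intro u t h
      exact absurd h (by simp)
  | succ n ih =>
    intro w hn hw
    by_cases hwa : w ∈ hs L a
    · refine ⟨[], ?_, w, hwa, rfl, ?_⟩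
      · rw [mem_runs]
        refine ⟨by simp, by simp, List.Pairwise.nil, ?_⟩
        have h2 := (mem_hs.1 hw).2.1
        have h3 : saw (([] : Word) ++ w) := by simpa using h2
        exact h3.left
      · intro u t h
        exact absurd h (by simp)
    · have hD : (a : ℤ) < D (leg w) 0 := by
        by_contra h
        push Not at h
        exact hwa ((mem_hs_iff hw).2 h)
      have hne : 0 < (leg w).length := by
        rcases Nat.eq_zero_or_pos (leg w).length with h | h
        · exfalso
          rw [List.length_eq_zero_iff.1 h, D_nil] at hD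
          simp only [Pi.zero_apply] at hD
          omega
        · exact h
      have hlen := length_leg_rst w
      obtain ⟨r, hr, v, hv, h1, h2⟩ := ih (rst w) (by omega) (rst_mem_hs' hw)
      rw [mem_runs] at hr
      have hcat : w = cat (leg w :: r) v := by
        have h3 := leg_rst w
        rw [h1] at h3
        exact h3
      refine ⟨leg w :: r, ?_, v, hv, hcat, ?_⟩
      · rw [mem_runs]
        refine ⟨?_, ?_, ?_, ?_⟩
        · intro u hu
          rcases List.mem_cons.1 hu with h | h
          · rw [h]; exact leg_length hw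
          · exact hr.1 u h
        · intro u hu
          rcases List.mem_cons.1 hu with h | h
          · rw [h]
            refine ⟨leg_br hw, hD, ?_⟩
            have := leg_le hw
            push_cast at this
            exact this
          · exact hr.2.1 u h
        · rw [List.pairwise_cons]
          refine ⟨?_, hr.2.2.1⟩
          have hlt := leg_rst_lt hw hwa
          cases hrc : r with
          | nil => intro u hu; exact absurd hu (by simp)
          | cons u' t' =>
            have h4 := h2 u' t' hrc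
            have h5 := hr.2.2.1
            rw [hrc, List.pairwise_cons] at h5
            intro u hu
            rcases List.mem_cons.1 hu with h | h
            · rw [h, h4]; exact hlt
            · have h6 := h5.1 u h
              rw [h4] at h6
              exact h6.trans hlt
        · have h3 := (mem_hs.1 hw).2.1
          rw [hcat] at h3
          rcases cat_append (leg w :: r) v with h | h
          · rw [h] at h3; exact h3.left
          · rw [h] at h3; exact h3.left
      · intro u t h
        rw [List.cons.injEq] at h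
        exact h.1.symm

/-- MODULE rc. Strong induction on the length of `w`: if `w ∈ hs L a` take `r = []`, otherwise
`leg w` (a bridge of height in `(a, a + l]`, `mem_hs_iff`, `leg_le`, `leg_br`, `leg_length`) and
`rst w` (`rst_mem_hs'`, `leg_rst_lt`, `leg_rst`); the spans of `rst w` are less than that of `leg w`
(prove at the same time: the first element of `r`, if any, is `leg w`). -/
theorem run_of_hs {w : Word} (hw : w ∈ hs L (a + l)) : ∃ r ∈ runs L a l, ∃ v ∈ hs L a, w = cat r v := by
  obtain ⟨r, hr, v, hv, h, _⟩ := rc_aux (L := L) (a := a) (l := l) w.length w (le_refl _) hw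
  exact ⟨r, hr, v, hv, h⟩

/-- `sum_le_of_inj` with the choice from `run_of_hs`, `pow_cat` -/
theorem Hs_run (hx : 0 ≤ x) (L a l : ℕ) : Hs x L (a + l) ≤ Rm x L a l * Hs x L a := by
  unfold Hs Rm
  rw [sum_mul_sum, ← sum_product']
  have key : ∀ w : Word, ∃ p : List Word × Word, w ∈ hs L (a + l) →
      p.1 ∈ runs L a l ∧ p.2 ∈ hs L a ∧ w = cat p.1 p.2 := by
    intro w
    by_cases hw : w ∈ hs L (a + l)
    · obtain ⟨r, hr, v, hv, h⟩ := run_of_hs hw
      exact ⟨(r, v), fun _ => ⟨hr, hv, h⟩⟩
    · exact ⟨([], []), fun h => absurd h hw⟩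
  choose i hi using key
  refine sum_le_of_inj i ?_ ?_ ?_ ?_
  · intro w hw
    obtain ⟨h1, h2, _⟩ := hi w hw
    exact mem_product.2 ⟨h1, h2⟩
  · intro w hw w' hw' h
    rw [mem_coe] at hw hw'
    rw [(hi w hw).2.2, (hi w' hw').2.2, h]
  · intro w hw
    obtain ⟨_, _, h3⟩ := hi w hw
    have h4 := pow_cat x (i w).1 (i w).2
    rw [← h3] at h4
    exact le_of_eq h4
  · intro p _
    exact mul_nonneg (ms_nonneg hx _) (pow_nonneg hx _)
-- END rc

-- BEGIN rd
/-- MODULE rd. -/
theorem Fre.tail {u : Word} {t : List Word} (h : Fre x M l (u :: t)) : Fre x M l t := by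
  match t, h with
  | [], _ => exact trivial
  | [_], _ => exact trivial
  | _ :: _ :: _, h => exact h.2

/-- the last label `e`; induction on `r` -/
theorem fre_or (r : List Word) : Fre x M l r ∨ ∃ r1 u v w r2, r = r1 ++ u :: v :: w :: r2 ∧
    Le x M l u v w ∧ Fre x M l r2 := by
  induction r with
  | nil => exact Or.inl trivial
  | cons u t ih =>
    rcases ih with ih | ⟨r1, u', v, w, r2, e, h1, h2⟩
    · match t, ih with
      | [], _ => exact Or.inl trivial
      | [_], _ => exact Or.inl trivial
      | b :: c :: t', ih =>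
        by_cases hL : Le x M l u b c
        · exact Or.inr ⟨[], u, b, c, t', rfl, hL, ih.tail.tail⟩
        · exact Or.inl ⟨hL, ih⟩
    · exact Or.inr ⟨u :: r1, u', v, w, r2, by rw [e]; rfl, h1, h2⟩

private theorem rd_nil (L a l : ℕ) : ([] : List Word) ∈ runs L a l := by
  rw [mem_runs]
  refine ⟨fun u hu => absurd hu List.not_mem_nil, fun u hu => absurd hu List.not_mem_nil, List.Pairwise.nil, ?_⟩
  exact saw_nil

private theorem rd_w3 (hx : 0 ≤ x) (t : Word × Word × Word) : 0 ≤ w3 x t := by
  unfold w3
  exact pow_nonneg hx _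

theorem one_le_Wm (hx : 0 ≤ x) (L M a l : ℕ) : 1 ≤ Wm x L M a l := by
  have h0 : ([] : List Word) ∈ (runs L a l).filter (Fre x M l) := by
    rw [mem_filter]
    exact ⟨rd_nil L a l, trivial⟩
  have h1 := Finset.single_le_sum (f := fun r => ms x r) (fun r _ => ms_nonneg hx r) h0
  have h2 : ms x [] = 1 := by simp [ms]
  unfold Wm
  rw [← h2]
  exact h1

theorem Xm_nonneg (hx : 0 ≤ x) (L M a l : ℕ) : 0 ≤ Xm x L M a l := by
  unfold Xm
  exact Finset.sum_nonneg fun t _ => rd_w3 hx t

private theorem rd_Rm (hx : 0 ≤ x) (L a l : ℕ) : 0 ≤ Rm x L a l := by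
  unfold Rm
  exact Finset.sum_nonneg fun r _ => ms_nonneg hx r

/-- sum over `r` without label `e` plus sum over `(r1, (u, v, w), r2)` -/
theorem Rm_le (hx : 0 ≤ x) (L M a l : ℕ) :
    Rm x L a l ≤ Wm x L M a l + Rm x L a l * Xm x L M a l * Wm x L M a l := by
  have hs : Rm x L a l = Wm x L M a l + ∑ r ∈ (runs L a l).filter (fun r => ¬ Fre x M l r), ms x r := by
    unfold Rm Wm
    rw [Finset.sum_filter_add_sum_filter_not]
  rw [hs]
  conv_lhs => rw [← hs]
  rw [hs]
  have hch : ∀ r : List Word, ∃ q : List Word × (Word × Word × Word) × List Word, ¬ Fre x M l r →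
      r = q.1 ++ q.2.1.1 :: q.2.1.2.1 :: q.2.1.2.2 :: q.2.2 ∧ Le x M l q.2.1.1 q.2.1.2.1 q.2.1.2.2 ∧ Fre x M l q.2.2 := by
    intro r
    rcases fre_or (x := x) (M := M) (l := l) r with h | ⟨r1, u, v, w, r2, e, h1, h2⟩
    · exact ⟨([], ([], [], []), []), fun h0 => absurd h h0⟩
    · exact ⟨(r1, (u, v, w), r2), fun _ => ⟨e, h1, h2⟩⟩
  choose φ hφ using hch
  have key : ∑ r ∈ (runs L a l).filter (fun r => ¬ Fre x M l r), ms x r ≤
      ∑ q ∈ runs L a l ×ˢ (tre x L M a l ×ˢ (runs L a l).filter (Fre x M l)), ms x q.1 * (w3 x q.2.1 * ms x q.2.2) := by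
    refine sum_le_of_inj φ ?_ ?_ ?_ ?_
    · intro r hr
      rw [mem_filter] at hr
      obtain ⟨e, h1, h2⟩ := hφ r hr.2
      have hm := hr.1
      rw [mem_runs, e] at hm
      obtain ⟨hlen, hrun⟩ := hm
      have hR := hrun.right
      have hR2 : Run a l (φ r).2.2 := by
        have hR' : Run a l ([(φ r).2.1.1, (φ r).2.1.2.1, (φ r).2.1.2.2] ++ (φ r).2.2) := hR
        exact hR'.right
      rw [mem_product, mem_product, mem_filter, mem_runs, mem_runs]
      refine ⟨⟨fun u hu => hlen u (List.mem_append.2 (Or.inl hu)), hrun.left⟩, ?_, ⟨fun u hu => hlen u ?_, hR2⟩, h2⟩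
      · unfold tre
        have b1 := hR.1 (φ r).2.1.1 (by simp)
        have b2 := hR.1 (φ r).2.1.2.1 (by simp)
        have b3 := hR.1 (φ r).2.1.2.2 (by simp)
        have p := hR.2.1
        rw [List.pairwise_cons, List.pairwise_cons] at p
        have p1 := p.1 (φ r).2.1.2.1 (by simp)
        have p2 := p.2.1 (φ r).2.1.2.2 (by simp)
        rw [mem_filter, mem_product, mem_product, mem_wle, mem_wle, mem_wle]
        refine ⟨⟨hlen _ (by simp), hlen _ (by simp), hlen _ (by simp)⟩, b1.1, b2.1, b3.1, b1.2.2, p1, p2, b3.2.1, hR.triple, h1⟩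
      · rw [List.mem_append]
        right
        simp only [List.mem_cons]
        exact Or.inr (Or.inr (Or.inr hu))
    · intro r hr r' hr' he
      rw [mem_coe, mem_filter] at hr hr'
      rw [(hφ r hr.2).1, (hφ r' hr'.2).1, he]
    · intro r hr
      rw [mem_filter] at hr
      have e := (hφ r hr.2).1
      have h4 : ms x ((φ r).2.1.1 :: (φ r).2.1.2.1 :: (φ r).2.1.2.2 :: (φ r).2.2) = w3 x (φ r).2.1 * ms x (φ r).2.2 := by
        simp only [ms, w3, List.map_cons, List.prod_cons, pow_add]
        ring
      rw [← h4, ← ms_append, ← e]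
    · intro q _
      exact mul_nonneg (ms_nonneg hx _) (mul_nonneg (rd_w3 hx _) (ms_nonneg hx _))
  have hprod : ∑ q ∈ runs L a l ×ˢ (tre x L M a l ×ˢ (runs L a l).filter (Fre x M l)), ms x q.1 * (w3 x q.2.1 * ms x q.2.2) =
      Rm x L a l * Xm x L M a l * Wm x L M a l := by
    unfold Rm Xm Wm
    rw [Finset.sum_product, mul_assoc, Finset.sum_mul]
    refine Finset.sum_congr rfl fun r _ => ?_
    rw [Finset.sum_product, Finset.sum_mul, Finset.mul_sum]
    refine Finset.sum_congr rfl fun t _ => ?_
    rw [Finset.mul_sum, Finset.mul_sum]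
  rw [← hs, ← hprod]
  linarith

theorem Rm_le_two (hx : 0 ≤ x) (h : 2 * (Xm x L M a l * Wm x L M a l) ≤ 1) :
    Rm x L a l ≤ 2 * Wm x L M a l := by
  have h1 := Rm_le hx L M a l
  have h2 := mul_le_mul_of_nonneg_left h (rd_Rm hx L a l)
  nlinarith
-- END rd

-- BEGIN re
/-- MODULE re. A window of one point: at most one leg. -/
theorem Rm_one (hx : 0 ≤ x) (hB : ∀ s, Bs x L s ≤ 1) (a : ℕ) : Rm x L a 1 ≤ 2 := by
  have hms : ∀ r : List Word, 0 ≤ ms x r := by
    intro r
    unfold ms
    apply List.prod_nonneg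
    intro y hy
    obtain ⟨u, _, rfl⟩ := List.mem_map.1 hy
    exact pow_nonneg hx _
  set G : Finset Word := (wle L).filter (fun w => Br w ∧ D w 0 = ((a + 1 : ℕ) : ℤ)) with hG
  have hsub : runs L a 1 ⊆ insert [] (G.image fun u => [u]) := by
    intro r hr
    unfold runs at hr
    rw [mem_filter] at hr
    obtain ⟨h1, h2, _, _⟩ := hr
    simp only [lst, mem_insert, mem_image, mem_product, mem_singleton, Prod.exists] at h1
    rw [mem_insert]
    rcases h1 with h1 | ⟨u, t, ⟨hu, ht⟩, h3⟩
    · left; exact h1
    · right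
      subst ht
      subst h3
      rw [mem_image]
      refine ⟨u, ?_, rfl⟩
      obtain ⟨h4, h5, h6⟩ := h2 u (by simp)
      rw [hG, mem_filter]
      refine ⟨hu, h4, ?_⟩
      push_cast at h6 ⊢
      omega
  have h1 : Rm x L a 1 ≤ ∑ r ∈ insert [] (G.image fun u => [u]), ms x r :=
    sum_le_sum_of_subset_of_nonneg hsub fun r _ _ => hms r
  have h2 : ∑ r ∈ insert ([] : List Word) (G.image fun u => [u]), ms x r = 1 + Bs x L (a + 1) := by
    rw [sum_insert (by simp)]
    rw [sum_image (by intro u _ v _ huv; simpa using huv)]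
    congr 1
    unfold Bs
    refine sum_congr rfl fun u _ => ?_
    simp [ms]
  have h3 := hB (a + 1)
  linarith

/-- `Hs_succ` -/
theorem Hs_rel (hx : 0 ≤ x) (L a l : ℕ) :
    Hs x L (a + l) ≤ Hs x L a * Real.exp (∑ s ∈ range l, Bs x L (a + s + 1)) := by
  induction l with
  | zero => simp
  | succ l ih =>
    rw [sum_range_succ, Real.exp_add]
    have h1 := Hs_succ hx L (a + l)
    have h2 := Hs_nonneg hx L (a + l)
    have h3 : Bs x L (a + l + 1) + 1 ≤ Real.exp (Bs x L (a + l + 1)) := Real.add_one_le_exp _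
    have h4 : (0 : ℝ) < Real.exp (Bs x L (a + l + 1)) := Real.exp_pos _
    rw [← add_assoc a l 1]
    calc Hs x L (a + l + 1) ≤ Hs x L (a + l) * (Bs x L (a + l + 1) + 1) := by linarith
      _ ≤ Hs x L (a + l) * Real.exp (Bs x L (a + l + 1)) := mul_le_mul_of_nonneg_left h3 h2
      _ ≤ (Hs x L a * Real.exp (∑ s ∈ range l, Bs x L (a + s + 1))) *
          Real.exp (Bs x L (a + l + 1)) := mul_le_mul_of_nonneg_right ih h4.le
      _ = _ := by ring

/-- bridges of length at most `L` and height at most `H`, as lists of pieces: `sum_br_le` with `F = 1`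
restricted to the heights in `(a, a + l]`; `irs_mono`, `prL_sub` is in `Uf.lean` (or directly) -/
theorem sum_Bs_le (hx : 0 ≤ x) (hLM : L ≤ M) (a l : ℕ) :
    ∑ s ∈ range l, Bs x L (a + s + 1) ≤ UM x M (a + l) := by
  have h1 : ∑ s ∈ range l, Bs x L (a + s + 1) ≤
      ∑ w ∈ (wle M).filter (fun w => Br w ∧ D w 0 ≤ ((a + l : ℕ) : ℤ)),
        x ^ w.length * (if D w 0 ≤ ((a + l : ℕ) : ℤ) then (1 : ℝ) else 0) := by
    unfold Bs
    rw [← sum_biUnion]
    · have h2 : ∀ w ∈ (wle M).filter (fun w => Br w ∧ D w 0 ≤ ((a + l : ℕ) : ℤ)),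
          x ^ w.length * (if D w 0 ≤ ((a + l : ℕ) : ℤ) then (1 : ℝ) else 0) = x ^ w.length := by
        intro w hw
        rw [mem_filter] at hw
        rw [if_pos hw.2.2, mul_one]
      rw [sum_congr rfl h2]
      refine sum_le_sum_of_subset_of_nonneg ?_ fun _ _ _ => pow_nonneg hx _
      intro w hw
      simp only [mem_biUnion, mem_range, mem_filter, mem_wle] at hw ⊢
      obtain ⟨s, hs, h1, h2, h3⟩ := hw
      refine ⟨h1.trans hLM, h2, ?_⟩
      rw [h3]
      push_cast
      omega
    · intro i _ j _ hij
      rw [Function.onFun, disjoint_left]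
      intro w h1 h2
      rw [mem_filter] at h1 h2
      apply hij
      have h3 := h1.2.2
      have h4 := h2.2.2
      rw [h3] at h4
      push_cast at h4
      omega
  refine h1.trans ?_
  refine (sum_br_le hx M (a + l) (fun w => if D w 0 ≤ ((a + l : ℕ) : ℤ) then (1 : ℝ) else 0)
    (fun w => by positivity)).trans (le_of_eq ?_)
  unfold UM Uf
  refine sum_congr rfl fun n _ => ?_
  unfold prL
  refine EE_congr fun s _ => ?_
  rw [sp_D_pre]
  rfl
-- END re

end Pool.Agent.SwT
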