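import Pool.Agent.SwT.Labels
import Pool.Agent.SwT.Joint
import Pool.Agent.SwT.Kap
import Pool.Agent.SwT.Run

/-! Runs without label e in a good window. -/

set_option autoImplicit false
set_option linter.unusedSectionVars false
set_option linter.style.longLine false
set_option linter.unusedVariables false

namespace Pool.Agent.SwT

variable [Pool.Agent.SwP.Dim]

open Finset
open scoped Classical
open Pool.Agent.R19
open Pool.Agent.SwR
open Pool.Agent.SwP (Word Pt Step D pts tr saw Br Lo Hi wle mem_wle rv D_rv rv_append rv_rv D_append D_nil pts_append mem_pts mem_tr zero_mem_pts refl refl_refl D_refl rtr rtr_rtr rtr_A D_rtr dd Ix Br_nil sum_le_of_inj length_rv abs_D_le brs)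

-- BEGIN w1
/-- a run without label `e` -/
private def w1P (x : ℝ) (M a l : ℕ) (r : List Word) : Prop := Run a l r ∧ Fre x M l r

private theorem w1_ms_cons (x : ℝ) (w : Word) (t : List Word) : ms x (w :: t) = zw x w * ms x t := by
  unfold ms zw
  rw [List.map_cons, List.prod_cons]

private theorem w1_cons {x : ℝ} (hx : 0 ≤ x) (L n : ℕ) (P : List Word → Prop) (X : Finset Word)
    (hX : ∀ w ∈ wle L, ∀ t, P (w :: t) → w ∈ X) :
    ∑ t ∈ (lst L (n + 1)).filter P, ms x t ≤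
      1 + ∑ w ∈ X, zw x w * ∑ t ∈ (lst L n).filter (fun t => P (w :: t)), ms x t := by
  have hms : ∀ t : List Word, 0 ≤ ms x t := fun t => ms_nonneg hx t
  have hsub : (lst L (n + 1)).filter P ⊆
      insert [] (((X ×ˢ lst L n).filter (fun p => P (p.1 :: p.2))).image (fun p => p.1 :: p.2)) := by
    intro t ht
    rw [mem_filter] at ht
    obtain ⟨h1, h2⟩ := ht
    unfold lst at h1
    rw [mem_insert, mem_image] at h1
    rw [mem_insert, mem_image]
    rcases h1 with h1 | ⟨p, hp, rfl⟩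
    · exact Or.inl h1
    · right
      rw [mem_product] at hp
      exact ⟨p, mem_filter.2 ⟨mem_product.2 ⟨hX p.1 hp.1 p.2 h2, hp.2⟩, h2⟩, rfl⟩
  refine (sum_le_sum_of_subset_of_nonneg hsub fun t _ _ => hms t).trans ?_
  rw [sum_insert (by
    rw [mem_image]
    rintro ⟨p, _, h⟩
    exact List.cons_ne_nil _ _ h)]
  have e0 : ms x ([] : List Word) = 1 := rfl
  rw [e0, sum_image (by
    rintro ⟨a, b⟩ _ ⟨c, d⟩ _ h
    have h' : a :: b = c :: d := h
    rw [List.cons.injEq] at h'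
    rw [h'.1, h'.2])]
  refine add_le_add le_rfl (le_of_eq ?_)
  rw [sum_filter, sum_product]
  refine sum_congr rfl fun w _ => ?_
  rw [← sum_filter, mul_sum]
  exact sum_congr rfl fun t _ => w1_ms_cons x w t

private theorem w1_XW {L a l : ℕ} {r : List Word} (h : Run a l r) {w : Word} (hw : w ∈ wle L) (hr : w ∈ r) :
    w ∈ XW L a l := by
  have h1 := h.1 w hr
  refine mem_filter.2 ⟨hw, h1.1, h1.2.1, ?_⟩
  push_cast
  exact h1.2.2

private theorem w1_Fab_nonneg (x : ℝ) (M l : ℕ) (u v w : Word) : 0 ≤ Fab x M l u v w := by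
  unfold Fab
  split_ifs <;> norm_num

private theorem w1_key {x : ℝ} (hx : 0 ≤ x) {L M a l : ℕ}
    (hM : 3 / 4 ≤ ∑ E ∈ Sd M (l + 1), wt x (l + 1) E) :
    ∀ n : ℕ, ∀ u ∈ XW L a l, ∀ v ∈ XW L a l,
      ∑ t ∈ (lst L n).filter (fun t => w1P x M a l (u :: v :: t)), ms x t ≤
        ∑ m ∈ range (n + 1), Psi (XW L a l) (zw x) (Fab x M l) m u v := by
  have hz : ∀ w ∈ XW L a l, 0 ≤ zw x w := fun w _ => pow_nonneg hx _
  have hF : ∀ u v w, Fab x M l u v w = 0 ∨ Fab x M l u v w = 1 := by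
    intro u v w
    unfold Fab
    split_ifs
    · exact Or.inr rfl
    · exact Or.inl rfl
  intro n
  induction n with
  | zero =>
    intro u hu v hv
    rw [range_one, sum_singleton]
    have h1 : (lst L 0).filter (fun t => w1P x M a l (u :: v :: t)) ⊆ {[]} :=
      filter_subset _ _
    refine (sum_le_sum_of_subset_of_nonneg h1 fun t _ _ => ms_nonneg hx t).trans ?_
    rw [sum_singleton]
    exact le_of_eq rfl
  | succ n ih =>
    intro u hu v hv
    refine (w1_cons hx L n (fun t => w1P x M a l (u :: v :: t)) (XW L a l)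
      (fun w hw t ht => w1_XW ht.1 hw (by simp))).trans ?_
    rw [sum_range_succ' _ (n + 1)]
    have e1 : ∀ m, Psi (XW L a l) (zw x) (Fab x M l) (m + 1) u v =
        ∑ w ∈ XW L a l, zw x w * (Fab x M l u v w * Psi (XW L a l) (zw x) (Fab x M l) m v w) :=
      fun m => rfl
    have e2 : Psi (XW L a l) (zw x) (Fab x M l) 0 u v = 1 := rfl
    simp only [e1]
    rw [e2, sum_comm, add_comm]
    refine add_le_add (sum_le_sum fun w hw => ?_) le_rfl
    rw [← mul_sum, ← mul_sum]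
    refine mul_le_mul_of_nonneg_left ?_ (hz w hw)
    have hP0 : 0 ≤ ∑ m ∈ range (n + 1), Psi (XW L a l) (zw x) (Fab x M l) m v w :=
      sum_nonneg fun m _ => Psi_nonneg hz hF m v hv w hw
    by_cases hne : ((lst L n).filter (fun t => w1P x M a l (u :: v :: w :: t))).Nonempty
    · obtain ⟨t0, ht0⟩ := hne
      obtain ⟨_, hR, hFr⟩ := mem_filter.1 ht0
      have hlt : D w 0 < D v 0 := by
        have h2 := hR.2.1
        rw [List.pairwise_cons, List.pairwise_cons] at h2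
        exact h2.2.1 w (by simp)
      have hF1 : Fab x M l u v w = 1 := Fab_of hx hM hu hv hw hlt hR.triple hFr.1
      rw [hF1, one_mul]
      refine le_trans ?_ (ih v hv w hw)
      refine sum_le_sum_of_subset_of_nonneg ?_ fun t _ _ => ms_nonneg hx t
      intro t ht
      obtain ⟨ht1, ht2, ht3⟩ := mem_filter.1 ht
      exact mem_filter.2 ⟨ht1, Run.right (r := [u]) ht2, ht3.2⟩
    · rw [not_nonempty_iff_eq_empty] at hne
      rw [hne, sum_empty]
      exact mul_nonneg (w1_Fab_nonneg x M l u v w) hP0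

private theorem w1_one {x : ℝ} (hx : 0 ≤ x) {L M a l : ℕ}
    (hM : 3 / 4 ≤ ∑ E ∈ Sd M (l + 1), wt x (l + 1) E) (n : ℕ) {u : Word} (hu : u ∈ XW L a l) :
    ∑ t ∈ (lst L n).filter (fun t => w1P x M a l (u :: t)), ms x t ≤
        1 + ∑ v ∈ XW L a l, zw x v * ∑ m ∈ range n, Psi (XW L a l) (zw x) (Fab x M l) m u v := by
  cases n with
  | zero =>
    have h1 : (lst L 0).filter (fun t => w1P x M a l (u :: t)) ⊆ {[]} :=
      filter_subset _ _
    refine (sum_le_sum_of_subset_of_nonneg h1 fun t _ _ => ms_nonneg hx t).trans ?_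
    rw [sum_singleton]
    have e0 : ms x ([] : List Word) = 1 := rfl
    rw [e0]
    simp
  | succ n =>
    refine (w1_cons hx L n (fun t => w1P x M a l (u :: t)) (XW L a l)
      (fun w hw t ht => w1_XW ht.1 hw (by simp))).trans ?_
    refine add_le_add le_rfl (sum_le_sum fun v hv => ?_)
    exact mul_le_mul_of_nonneg_left (w1_key hx hM n u hu v hv) (pow_nonneg hx _)

/-- the runs without label e, leg by leg: `Fab = 1` on every triple of consecutive legs
(`Fab_of`; a triple of consecutive legs of a run is self-avoiding, up to a reflection). The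
length of a run is at most `l` because the spans are strictly decreasing in `(a, a + l]`. -/
theorem Wm_le {x : ℝ} (hx : 0 ≤ x) {L M a l : ℕ}
    (hM : 3 / 4 ≤ ∑ E ∈ Sd M (l + 1), wt x (l + 1) E) :
    Wm x L M a l ≤ 1 + ∑ w ∈ XW L a l, zw x w +
      ∑ m ∈ range l, AA (XW L a l) (zw x) (Fab x M l) m := by
  have hz : ∀ w ∈ XW L a l, 0 ≤ zw x w := fun w _ => pow_nonneg hx _
  have hF : ∀ u v w, Fab x M l u v w = 0 ∨ Fab x M l u v w = 1 := by
    intro u v w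
    unfold Fab
    split_ifs
    · exact Or.inr rfl
    · exact Or.inl rfl
  have hz0 : 0 ≤ ∑ w ∈ XW L a l, zw x w := sum_nonneg hz
  have e0 : Wm x L M a l = ∑ t ∈ (lst L l).filter (fun t => w1P x M a l t), ms x t := by
    unfold Wm runs
    refine sum_congr ?_ fun _ _ => rfl
    ext t
    simp only [mem_filter, w1P]
    tauto
  rw [e0]
  cases l with
  | zero =>
    have h1 : (lst L 0).filter (fun t => w1P x M a 0 t) ⊆ {[]} := filter_subset _ _
    refine (sum_le_sum_of_subset_of_nonneg h1 fun t _ _ => ms_nonneg hx t).trans ?_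
    rw [sum_singleton, range_zero, sum_empty]
    have e1 : ms x ([] : List Word) = 1 := rfl
    rw [e1]
    linarith
  | succ n =>
    refine (w1_cons hx L n (fun t => w1P x M a (n + 1) t) (XW L a (n + 1))
      (fun w hw t ht => w1_XW ht.1 hw (by simp))).trans ?_
    have h1 : ∑ w ∈ XW L a (n + 1), zw x w * ∑ t ∈ (lst L n).filter (fun t => w1P x M a (n + 1) (w :: t)), ms x t ≤
        ∑ w ∈ XW L a (n + 1), zw x w * (1 + ∑ v ∈ XW L a (n + 1), zw x v *
          ∑ m ∈ range n, Psi (XW L a (n + 1)) (zw x) (Fab x M (n + 1)) m w v) :=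
      sum_le_sum fun w hw => mul_le_mul_of_nonneg_left (w1_one hx hM n hw) (hz w hw)
    have h2 : ∑ w ∈ XW L a (n + 1), zw x w * (1 + ∑ v ∈ XW L a (n + 1), zw x v *
          ∑ m ∈ range n, Psi (XW L a (n + 1)) (zw x) (Fab x M (n + 1)) m w v) =
        ∑ w ∈ XW L a (n + 1), zw x w +
          ∑ m ∈ range n, AA (XW L a (n + 1)) (zw x) (Fab x M (n + 1)) m := by
      unfold AA
      rw [sum_comm (s := range n), ← sum_add_distrib]
      refine sum_congr rfl fun w _ => ?_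
      rw [sum_comm (s := range n), mul_add, mul_one, mul_sum]
      congr 1
      refine sum_congr rfl fun v _ => ?_
      rw [mul_sum, mul_sum]
    have h3 : 0 ≤ AA (XW L a (n + 1)) (zw x) (Fab x M (n + 1)) n := AA_nonneg hz hF n
    rw [sum_range_succ]
    linarith
-- END w1

-- BEGIN w2
private theorem w2_cs {R : Finset ℕ} {p k : ℕ → ℝ} (hp : ∀ n ∈ R, 0 ≤ p n) (hk : ∀ n, 0 ≤ k n)
    {Q0 Q2 c : ℝ} (h0 : ∑ n ∈ R, p n ≤ Q0) (h2 : ∑ n ∈ R, k n ^ 2 * p n ≤ Q2) (hc : 0 ≤ c)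
    (hg : c ^ 2 * (Q0 * Q2) ≤ (1 / 64) ^ 2) : c * ∑ n ∈ R, k n * p n ≤ 1 / 64 := by
  have h1 : (∑ n ∈ R, k n * p n) ^ 2 ≤ (∑ n ∈ R, p n) * ∑ n ∈ R, k n ^ 2 * p n := by
    refine Finset.sum_sq_le_sum_mul_sum_of_sq_le_mul R (r := fun n => k n * p n)
      (f := p) (g := fun n => k n ^ 2 * p n) hp
      (fun n hn => mul_nonneg (sq_nonneg _) (hp n hn)) (fun n _ => le_of_eq (by ring))
  have h3 : 0 ≤ ∑ n ∈ R, p n := Finset.sum_nonneg hp
  have h4 : 0 ≤ ∑ n ∈ R, k n ^ 2 * p n :=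
    Finset.sum_nonneg fun n hn => mul_nonneg (sq_nonneg _) (hp n hn)
  have h5 : 0 ≤ ∑ n ∈ R, k n * p n :=
    Finset.sum_nonneg fun n hn => mul_nonneg (hk n) (hp n hn)
  have h6 : (∑ n ∈ R, k n * p n) ^ 2 ≤ Q0 * Q2 :=
    h1.trans (mul_le_mul h0 h2 h4 (h3.trans h0))
  have h7 : (c * ∑ n ∈ R, k n * p n) ^ 2 ≤ (1 / 64) ^ 2 := by
    rw [mul_pow]
    exact (mul_le_mul_of_nonneg_left h6 (sq_nonneg c)).trans hg
  exact abs_le_of_sq_le_sq' h7 (by norm_num) |>.2

/-- the chain lemma for the labels, in a good window -/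
theorem W_good {x : ℝ} (hx : 0 ≤ x) {L M N s l : ℕ} (hLM : L ≤ M) (hPh : Ph x M ≤ 1)
    (hl : 1 ≤ l) (hB : ∀ s, Pool.Agent.SwP.Bs x L s ≤ 1)
    (hN : s + 2 * l + 2 ≤ N) (hhalf : (1 : ℝ) / 2 ≤ Ph x M ^ N) {κ : ℕ → ℝ} {ε : ℝ}
    (hκ : ∀ n, 0 ≤ κ n) (hκ' : ∀ n, κ n ≤ 1) (hκ1 : ∀ n ≤ l, κ n = 1) (hε : 0 ≤ ε)
    (hJa : HJ x M N s l κ ε D Qp) (hJb : HJ x M N s l κ ε Dv Qv) {Q0 Q2 e : ℝ}
    (h0 : ∑ n ∈ range (s + l + 1), pI x M s l n ≤ Q0)
    (h2 : ∑ n ∈ range (s + l + 1), κ (n / 2) ^ 2 * pI x M s l n ≤ Q2)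
    (h2' : ∑ n ∈ range (s + l + 1), κ (n - n / 2) ^ 2 * pI x M s l n ≤ Q2)
    (he : (s + l + 1) * ((2 * L + 1) ^ dd * ε) ≤ e)
    (hg : (8 * ((l : ℝ) + 1)) ^ 2 * (Q0 * (Q2 + 2 * e)) ≤ (1 / 64) ^ 2)
    (hg' : 8 * ((l : ℝ) + 1) * e ≤ 1 / 64) (K : ℕ) :
    1 + ∑ w ∈ XW L s l, zw x w + ∑ m ∈ range K, AA (XW L s l) (zw x) (Fab x M l) m ≤
      4 * (l : ℝ) ^ 2 := by
  have hpI : ∀ n ∈ range (s + l + 1), 0 ≤ pI x M s l n := fun n _ => pI_nonneg hx M s l n
  have hQ0 : 0 ≤ Q0 := (Finset.sum_nonneg hpI).trans h0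
  have hQ2 : 0 ≤ Q2 :=
    (Finset.sum_nonneg fun n hn => mul_nonneg (sq_nonneg _) (hpI n hn)).trans h2
  have he0 : 0 ≤ e := by
    refine le_trans ?_ he
    positivity
  have hc : (0 : ℝ) ≤ 8 * ((l : ℝ) + 1) := by positivity
  have hgg : (8 * ((l : ℝ) + 1)) ^ 2 * (Q0 * Q2) ≤ (1 / 64) ^ 2 := by
    refine le_trans ?_ hg
    refine mul_le_mul_of_nonneg_left ?_ (sq_nonneg _)
    exact mul_le_mul_of_nonneg_left (by linarith) hQ0
  have k1 := w2_cs (k := fun n => κ (n / 2)) hpI (fun n => hκ _) h0 h2 hc hgg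
  have k2 := w2_cs (k := fun n => κ (n - n / 2)) hpI (fun n => hκ _) h0 h2' hc hgg
  have k3 : ∑ n ∈ range (s + l + 1), κ (n / 2) * κ (n - n / 2) * pI x M s l n ≤ Q2 := by
    have e1 : ∑ n ∈ range (s + l + 1), κ (n / 2) * κ (n - n / 2) * pI x M s l n ≤
        ∑ n ∈ range (s + l + 1), ((1 / 2) * (κ (n / 2) ^ 2 * pI x M s l n) +
          (1 / 2) * (κ (n - n / 2) ^ 2 * pI x M s l n)) := by
      refine Finset.sum_le_sum fun n hn => ?_
      have e2 := mul_nonneg (sq_nonneg (κ (n / 2) - κ (n - n / 2))) (hpI n hn)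
      nlinarith
    rw [Finset.sum_add_distrib, ← Finset.mul_sum, ← Finset.mul_sum] at e1
    linarith
  set P0 : ℝ := ∑ w ∈ XW L s l, zw x w with hP0
  have hP00 : 0 ≤ P0 := Finset.sum_nonneg fun w _ => pow_nonneg hx _
  have hPl : P0 ≤ l := by
    have := Tr.sum_BW (x := x) L s hB l
    exact this
  have hPQ : P0 ≤ Q0 := (J0 hx hLM s l).trans h0
  have hl1 : (1 : ℝ) ≤ l := by exact_mod_cast hl
  have hD2 : 0 ≤ (8 * ((l : ℝ) + 1)) ^ 2 * (Q2 + 2 * e) := by positivity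
  have key := chain_W (X := XW L s l) (z := zw x) (F := Fab x M l) (P0 := P0) (D1 := 1 / 32)
    (D2 := (8 * ((l : ℝ) + 1)) ^ 2 * (Q2 + 2 * e))
    (fun w _ => pow_nonneg hx _)
    (by
      intro a b c
      unfold Fab
      split_ifs
      · exact Or.inr rfl
      · exact Or.inl rfl)
    (fun a b => al x L M s l a b) (fun b => be x L M s l b)
    (fun a _ b _ => al_nonneg hx L M s l a b) (fun b _ => be_nonneg hx L M s l b)
    (fun a _ b _ => Fab_sum_le hx L M s l a b) le_rfl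
    (by
      refine (J1b hx hLM hPh hB hN hhalf hκ hκ1 hε hJb).trans ?_
      rw [mul_add]
      have a1 := mul_le_mul_of_nonneg_left he hc
      linarith)
    (by
      intro b hb
      refine (J1a hx hLM hPh hB hN hhalf hκ hκ1 hε hJa hb).trans ?_
      rw [mul_add]
      have a1 := mul_le_mul_of_nonneg_left he hc
      linarith)
    (by
      intro b hb
      refine (J2 hx hLM hPh hB hN hhalf hκ hκ' hκ1 hε hJa hJb hb).trans ?_
      refine mul_le_mul_of_nonneg_left ?_ (sq_nonneg _)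
      linarith)
    le_rfl
    (by
      calc P0 * ((8 * ((l : ℝ) + 1)) ^ 2 * (Q2 + 2 * e))
          ≤ Q0 * ((8 * ((l : ℝ) + 1)) ^ 2 * (Q2 + 2 * e)) :=
            mul_le_mul_of_nonneg_right hPQ hD2
        _ = (8 * ((l : ℝ) + 1)) ^ 2 * (Q0 * (Q2 + 2 * e)) := by ring
        _ ≤ (1 / 64) ^ 2 := hg
        _ ≤ (1 / 32) ^ 2 := by norm_num) K
  refine key.trans ?_
  have h5 : P0 ^ 2 ≤ (l : ℝ) ^ 2 := pow_le_pow_left₀ hP00 hPl 2
  nlinarith
-- END w2

-- BEGIN w3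
private theorem w3_pI (x : ℝ) (M a l n : ℕ) :
    pI x M a l n = prI (irs M) (fun p => x ^ p.length) D (Pool.Agent.SwP.ev 0) n a (a + l) := by
  unfold pI prI
  rfl

private theorem w3_zero (x : ℝ) (M a l : ℕ) (ha : 1 ≤ a) : pI x M a l 0 = 0 := by
  unfold pI EM EE
  refine if_neg ?_
  rintro ⟨h1, -⟩
  rw [SS_zero, Pi.zero_apply] at h1
  omega

private theorem w3_main {x : ℝ} (hx : 0 ≤ x) {M S a l : ℕ} {C : ℝ} (hC : 1 ≤ C) (hl : 1 ≤ l)
    (haS : S ≤ a) (hS : 1 ≤ S) (h2S : a + l ≤ 2 * S) (m : ℕ → ℕ) (hm : ∀ n, n / 2 ≤ m n)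
    (hm' : ∀ n, 2 * m n ≤ n + 1) :
    ∑ n ∈ range (a + l + 1), kap x M S l C (m n) ^ 2 * pI x M a l n ≤
      (3 * C * l) ^ 2 * rI x M S a l := by
  have hw : ∀ p ∈ irs M, 0 ≤ (fun p : Word => x ^ p.length) p := fun p _ => pow_nonneg hx _
  have hU : 1 ≤ UM x M S := Uf_one_le hw S
  have hnn : ∀ n, 0 ≤ prI (irs M) (fun p => x ^ p.length) D (Pool.Agent.SwP.ev 0) n a (a + l) :=
    fun n => prI_nonneg hw n _ _
  have hl' : (1 : ℝ) ≤ (l : ℝ) := by exact_mod_cast hl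
  have key : ∀ n ∈ range (a + l + 1), kap x M S l C (m n) ^ 2 * pI x M a l n ≤
      if 1 ≤ n then (3 * C * l) ^ 2 *
        (prI (irs M) (fun p => x ^ p.length) D (Pool.Agent.SwP.ev 0) n a (a + l) /
          (min (n : ℝ) (UM x M S)) ^ 2) else 0 := by
    intro n hn
    rcases Nat.eq_zero_or_pos n with h0 | h0
    · subst h0
      rw [w3_zero x M a l (le_trans hS haS), mul_zero]
      simp
    · have h0' : 1 ≤ n := h0
      rw [if_pos h0', w3_pI]
      have hn1 : (1 : ℝ) ≤ (n : ℝ) := by exact_mod_cast h0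
      have hmin : 0 < min (n : ℝ) (UM x M S) := lt_min (by linarith) (by linarith)
      have hk0 : 0 ≤ kap x M S l C (m n) := by
        unfold kap
        split_ifs with h
        · norm_num
        · refine le_min zero_le_one (mul_nonneg (by linarith) (div_nonneg (by linarith) ?_))
          exact le_min (Nat.cast_nonneg _) (by linarith)
      have hk : kap x M S l C (m n) ≤ 3 * C * l / min (n : ℝ) (UM x M S) := by
        rw [le_div_iff₀ hmin]
        unfold kap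
        split_ifs with h
        · have h3 : n ≤ 3 * l := by
            have := hm n
            omega
          have h4 : (n : ℝ) ≤ 3 * l := by exact_mod_cast h3
          have h5 : min (n : ℝ) (UM x M S) ≤ 3 * l := le_trans (min_le_left _ _) h4
          nlinarith [mul_le_mul_of_nonneg_right hC (by linarith : (0 : ℝ) ≤ 3 * (l : ℝ))]
        · have hml : l < m n := not_le.mp h
          have h3 : n ≤ 3 * m n := by
            have := hm n
            omega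
          have h4 : (n : ℝ) ≤ 3 * (m n : ℝ) := by exact_mod_cast h3
          have hm0 : (1 : ℝ) ≤ (m n : ℝ) := by
            have : 1 ≤ m n := by omega
            exact_mod_cast this
          have hmin' : 0 < min (m n : ℝ) (UM x M S) := lt_min (by linarith) (by linarith)
          have h5 : min (n : ℝ) (UM x M S) ≤ 3 * min (m n : ℝ) (UM x M S) := by
            rcases le_total (m n : ℝ) (UM x M S) with h6 | h6
            · rw [min_eq_left h6]
              exact le_trans (min_le_left _ _) h4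
            · rw [min_eq_right h6]
              exact le_trans (min_le_right _ _) (by linarith)
          have h6 : min 1 (C * ((l : ℝ) / min (m n : ℝ) (UM x M S))) ≤
              C * ((l : ℝ) / min (m n : ℝ) (UM x M S)) := min_le_right _ _
          have h7 : C * ((l : ℝ) / min (m n : ℝ) (UM x M S)) * min (n : ℝ) (UM x M S) ≤
              C * ((l : ℝ) / min (m n : ℝ) (UM x M S)) * (3 * min (m n : ℝ) (UM x M S)) := by
            refine mul_le_mul_of_nonneg_left h5 (mul_nonneg (by linarith) (div_nonneg (by linarith) hmin'.le))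
          have h8 : C * ((l : ℝ) / min (m n : ℝ) (UM x M S)) * (3 * min (m n : ℝ) (UM x M S)) =
              3 * C * l := by
            field_simp
          calc min 1 (C * ((l : ℝ) / min (m n : ℝ) (UM x M S))) * min (n : ℝ) (UM x M S)
              ≤ C * ((l : ℝ) / min (m n : ℝ) (UM x M S)) * min (n : ℝ) (UM x M S) :=
                mul_le_mul_of_nonneg_right h6 hmin.le
            _ ≤ _ := h7
            _ = 3 * C * l := h8
      have hk2 : kap x M S l C (m n) ^ 2 ≤ (3 * C * l / min (n : ℝ) (UM x M S)) ^ 2 :=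
        pow_le_pow_left₀ hk0 hk 2
      refine le_trans (mul_le_mul_of_nonneg_right hk2 (hnn n)) (le_of_eq ?_)
      rw [div_pow]
      ring
  refine le_trans (Finset.sum_le_sum key) ?_
  rw [← Finset.sum_filter]
  unfold rI rho
  rw [Finset.mul_sum]
  refine Finset.sum_le_sum_of_subset_of_nonneg ?_ ?_
  · intro n hn
    rw [Finset.mem_filter, Finset.mem_range] at hn
    rw [Finset.mem_Icc]
    omega
  · intro n _ _
    exact mul_nonneg (sq_nonneg _) (div_nonneg (hnn n) (sq_nonneg _))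

/-- the sum of the squares of the kappas against `rI` -/
theorem kap_sum {x : ℝ} (hx : 0 ≤ x) {M S a l : ℕ} {C : ℝ} (hC : 1 ≤ C) (hl : 1 ≤ l)
    (hPh : Ph x M ≤ 1) (haS : S ≤ a) (hS : 1 ≤ S) (h2S : a + l ≤ 2 * S) :
    (∑ n ∈ range (a + l + 1), pI x M a l n ≤ uI x M S a l) ∧
    (∑ n ∈ range (a + l + 1), kap x M S l C (n / 2) ^ 2 * pI x M a l n ≤
      (3 * C * l) ^ 2 * rI x M S a l) ∧
    (∑ n ∈ range (a + l + 1), kap x M S l C (n - n / 2) ^ 2 * pI x M a l n ≤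
      (3 * C * l) ^ 2 * rI x M S a l) := by
  refine ⟨?_, ?_, ?_⟩
  · have hw : ∀ p ∈ irs M, 0 ≤ (fun p : Word => x ^ p.length) p := fun p _ => pow_nonneg hx _
    unfold uI Pk
    simp only [pow_zero, one_mul]
    simp only [w3_pI]
    refine Finset.sum_le_sum_of_subset_of_nonneg ?_ ?_
    · intro n hn
      rw [Finset.mem_range] at hn ⊢
      omega
    · intro n _ _
      exact prI_nonneg hw n _ _
  · exact w3_main hx hC hl haS hS h2S (fun n => n / 2) (fun n => le_rfl) (fun n => by omega)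
  · exact w3_main hx hC hl haS hS h2S (fun n => n - n / 2) (fun n => by omega) (fun n => by omega)
-- END w3

-- BEGIN w4
/-- the additive error -/
theorem w4_err {A S L a l : ℕ} (hS : 2 ≤ S) (hL : L ≤ S ^ A) (h2 : a + l ≤ 2 * S) :
    ((a : ℝ) + l + 1) * ((2 * L + 1) ^ dd * (1 / (S : ℝ) ^ ((A + 2) * dd + 30))) ≤
      1 / (S : ℝ) ^ 27 := by
  have hSr : (2 : ℝ) ≤ S := by exact_mod_cast hS
  have hS0 : (0 : ℝ) < S := by linarith
  have e1 : (a : ℝ) + l + 1 ≤ (S : ℝ) ^ 3 := by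
    have h3 : (a : ℝ) + l ≤ 2 * S := by exact_mod_cast h2
    have h4 : (4 : ℝ) ≤ (S : ℝ) ^ 2 := by nlinarith
    have h5 : (S : ℝ) ^ 3 = S * (S : ℝ) ^ 2 := by ring
    nlinarith
  have e2 : 2 * (L : ℝ) + 1 ≤ (S : ℝ) ^ (A + 2) := by
    have h3 : (L : ℝ) ≤ (S : ℝ) ^ A := by exact_mod_cast hL
    have h4 : (1 : ℝ) ≤ (S : ℝ) ^ A := one_le_pow₀ (by linarith)
    have h5 : (S : ℝ) ^ (A + 2) = (S : ℝ) ^ A * (S : ℝ) ^ 2 := pow_add _ _ _
    have h6 : (4 : ℝ) ≤ (S : ℝ) ^ 2 := by nlinarith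
    rw [h5]
    nlinarith
  have e3 : (2 * (L : ℝ) + 1) ^ dd ≤ (S : ℝ) ^ ((A + 2) * dd) := by
    rw [pow_mul]
    exact pow_le_pow_left₀ (by positivity) e2 dd
  have e4 : (S : ℝ) ^ ((A + 2) * dd + 30) = (S : ℝ) ^ 3 * (S : ℝ) ^ ((A + 2) * dd) * (S : ℝ) ^ 27 := by
    rw [← pow_add, ← pow_add]
    congr 1
    omega
  have p1 : (0 : ℝ) < (S : ℝ) ^ 3 := by positivity
  have p2 : (0 : ℝ) < (S : ℝ) ^ ((A + 2) * dd) := by positivity
  have p3 : (0 : ℝ) < (S : ℝ) ^ 27 := by positivity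
  calc ((a : ℝ) + l + 1) * ((2 * L + 1) ^ dd * (1 / (S : ℝ) ^ ((A + 2) * dd + 30))) ≤
        (S : ℝ) ^ 3 * ((S : ℝ) ^ ((A + 2) * dd) * (1 / (S : ℝ) ^ ((A + 2) * dd + 30))) := by
        apply mul_le_mul e1 _ (by positivity) p1.le
        exact mul_le_mul_of_nonneg_right e3 (by positivity)
    _ = 1 / (S : ℝ) ^ 27 := by
        rw [e4]
        field_simp

/-- **sections 1 - 3** -/
theorem wbound {μ : ℝ} (hμ : 1 ≤ μ) (hb : ∀ n, ((brs n).card : ℝ) ≤ μ ^ n) : WBound μ := by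
  intro A
  obtain ⟨C0, hC0, hJ⟩ := hj ((A + 2) * dd + 30)
  refine ⟨9437184 * C0 ^ 2, 4, ?_, ?_⟩
  · nlinarith
  intro S L M a l hS hL hLM hM hSa h2S hl h4l hgood
  have hμ0 : 0 < μ := by linarith
  have hx : 0 ≤ μ⁻¹ := (inv_pos.2 hμ0).le
  have hPh : Ph μ⁻¹ M ≤ 1 := Ph_le_one hμ hb M
  have hPn : 0 ≤ Ph μ⁻¹ M := Ph_nonneg hx M
  have hB : ∀ s, Pool.Agent.SwP.Bs μ⁻¹ L s ≤ 1 := fun s => Pool.Agent.SwP.Bs_le_one hμ hb L s
  have hpow : ∀ k ≤ 16 * S, (3 : ℝ) / 4 ≤ Ph μ⁻¹ M ^ k := fun k hk =>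
    hM.trans (pow_le_pow_of_le_one hPn hPh hk)
  have hSr : (2 : ℝ) ≤ S := by exact_mod_cast hS
  have hS0 : (0 : ℝ) < S := by linarith
  have hlr : (1 : ℝ) ≤ l := by exact_mod_cast hl
  have h4r : 4 * (l : ℝ) ≤ S := by exact_mod_cast h4l
  have hlog : 0 ≤ Real.log S := Real.log_nonneg (by linarith)
  obtain ⟨c, hc⟩ : ∃ c : ℝ, c = C0 * (Real.log S + 1) ^ 2 := ⟨_, rfl⟩
  have hc1 : 1 ≤ c := by
    rw [hc]
    have h1 : (1 : ℝ) ≤ (Real.log S + 1) ^ 2 := one_le_pow₀ (by linarith)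
    nlinarith
  obtain ⟨hJa, hJb⟩ := hJ μ⁻¹ S M a l hx hS hSa h2S hl h4l hPh
    (le_trans (by norm_num) (hpow (16 * S) le_rfl))
  rw [← hc] at hJa hJb
  obtain ⟨hs0, hs1, hs2⟩ := kap_sum hx (C := c) hc1 hl hPh hSa (by omega) h2S
  have hU : 1 ≤ UM μ⁻¹ M S := Uf_one_le (fun p _ => pow_nonneg hx _) S
  have hκ0 : ∀ n, 0 ≤ kap μ⁻¹ M S l c n := by
    intro n
    unfold kap
    split
    · norm_num
    · refine le_min (by norm_num) ?_
      have : 0 ≤ min (n : ℝ) (UM μ⁻¹ M S) := le_min (Nat.cast_nonneg _) (by linarith)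
      positivity
  have hκ1 : ∀ n, kap μ⁻¹ M S l c n ≤ 1 := by
    intro n
    unfold kap
    split
    · exact le_rfl
    · exact min_le_left _ _
  have hκ2 : ∀ n ≤ l, kap μ⁻¹ M S l c n = 1 := by
    intro n hn
    unfold kap
    rw [if_pos hn]
  have hu : 0 ≤ uI μ⁻¹ M S a l := le_trans (Finset.sum_nonneg (fun n _ => pI_nonneg hx M a l n)) hs0
  have hr : 0 ≤ rI μ⁻¹ M S a l := rho_nonneg (fun p _ => pow_nonneg hx _) _ hU _ _ _
  have hS9 : (0 : ℝ) < 1 / (S : ℝ) ^ 9 := by positivity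
  have h27 : 2 * (1 / (S : ℝ) ^ 27) ≤ 1 / (S : ℝ) ^ 9 := by
    have e1 : (S : ℝ) ^ 27 = (S : ℝ) ^ 9 * (S : ℝ) ^ 18 := by rw [← pow_add]
    have e2 : (2 : ℝ) ≤ (S : ℝ) ^ 18 := by
      calc (2 : ℝ) ≤ S := hSr
        _ = (S : ℝ) ^ 1 := (pow_one _).symm
        _ ≤ (S : ℝ) ^ 18 := pow_le_pow_right₀ (by linarith) (by norm_num)
    rw [e1, mul_one_div, div_le_div_iff₀ (by positivity) (by positivity)]
    have : (0 : ℝ) < (S : ℝ) ^ 9 := by positivity
    nlinarith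
  have key : (8 * ((l : ℝ) + 1)) ^ 2 * (uI μ⁻¹ M S a l *
      ((3 * c * l) ^ 2 * rI μ⁻¹ M S a l + 2 * (1 / (S : ℝ) ^ 27))) ≤ (1 / 64) ^ 2 := by
    unfold Good at hgood
    obtain ⟨u, hu'⟩ : ∃ u : ℝ, u = uI μ⁻¹ M S a l := ⟨_, rfl⟩
    obtain ⟨r, hr'⟩ : ∃ r : ℝ, r = rI μ⁻¹ M S a l := ⟨_, rfl⟩
    obtain ⟨t, ht⟩ : ∃ t : ℝ, t = 1 / (S : ℝ) ^ 9 := ⟨_, rfl⟩
    rw [← hu', ← hr', ← ht] at hgood
    rw [← hu'] at hu
    rw [← hr'] at hr
    rw [← ht] at hS9 h27
    rw [← hu', ← hr']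
    have f1 : (8 * ((l : ℝ) + 1)) ^ 2 ≤ 256 * (l : ℝ) ^ 2 := by nlinarith
    have f2 : (3 * c * l) ^ 2 * r + 2 * (1 / (S : ℝ) ^ 27) ≤ (3 * c * l) ^ 2 * (r + t) := by
      have f3 : 1 ≤ (3 * c * l) ^ 2 := by
        apply one_le_pow₀
        nlinarith
      nlinarith
    have f4 : u * ((3 * c * l) ^ 2 * r + 2 * (1 / (S : ℝ) ^ 27)) ≤
        (u + t) * ((3 * c * l) ^ 2 * (r + t)) :=
      mul_le_mul (by linarith) f2 (by positivity) (by linarith)
    have f5 : (8 * ((l : ℝ) + 1)) ^ 2 * (u * ((3 * c * l) ^ 2 * r + 2 * (1 / (S : ℝ) ^ 27))) ≤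
        256 * (l : ℝ) ^ 2 * ((u + t) * ((3 * c * l) ^ 2 * (r + t))) :=
      mul_le_mul f1 f4 (by positivity) (by positivity)
    have f6 : 256 * (l : ℝ) ^ 2 * ((u + t) * ((3 * c * l) ^ 2 * (r + t))) =
        (1 / 64) ^ 2 * (9437184 * C0 ^ 2 * (Real.log S + 1) ^ 4 * (l : ℝ) ^ 4 * ((u + t) * (r + t))) := by
      rw [hc]
      ring
    rw [f6] at f5
    refine f5.trans ?_
    calc (1 / 64 : ℝ) ^ 2 * (9437184 * C0 ^ 2 * (Real.log S + 1) ^ 4 * (l : ℝ) ^ 4 *
          ((u + t) * (r + t))) ≤ (1 / 64) ^ 2 * 1 :=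
          mul_le_mul_of_nonneg_left hgood (by positivity)
      _ = (1 / 64) ^ 2 := mul_one _
  have key' : 8 * ((l : ℝ) + 1) * (1 / (S : ℝ) ^ 27) ≤ 1 / 64 := by
    have e1 : (S : ℝ) ^ 27 = S * (S : ℝ) ^ 26 := by ring
    have e2 : (2 : ℝ) ^ 26 ≤ (S : ℝ) ^ 26 := pow_le_pow_left₀ (by norm_num) hSr 26
    have e3 : 8 * ((l : ℝ) + 1) ≤ 4 * S := by linarith
    have e4 : (S : ℝ) * 2 ^ 26 ≤ S * (S : ℝ) ^ 26 := mul_le_mul_of_nonneg_left e2 hS0.le
    rw [mul_one_div, div_le_div_iff₀ (by positivity) (by norm_num), e1]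
    have e5 : 8 * ((l : ℝ) + 1) * 64 ≤ S * 2 ^ 26 := by
      clear e2 e4 key
      linarith
    linarith
  refine (Wm_le hx (by rw [sum_wt]; exact hpow (l + 1) (by omega))).trans ?_
  have h := W_good hx (N := 8 * S) hLM hPh hl hB (by omega)
    (le_trans (by norm_num) (hpow (8 * S) (by omega))) hκ0 hκ1 hκ2 (by positivity) hJa hJb hs0 hs1 hs2
    (w4_err hS hL h2S) key key' l
  refine h.trans ?_
  have : (0 : ℝ) ≤ (l : ℝ) ^ 2 := by positivity
  linarith
-- END w4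

end Pool.Agent.SwT
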