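import Mathlib

/-! THE CHAIN LEMMA (section 3 of the page MP_794e6e_pr_twothirds_helper44.md) for finite sums.

`X` = the legs with span in a window, `z` their masses, `F x y v` = the event (0 or 1) of three
consecutive legs, `al x y` and `be y` bound its sum over the shooter `v`.  No words, no operators:
one Cauchy - Schwarz inequality per leg. -/

set_option linter.unusedSectionVars false
set_option linter.style.longLine false
set_option linter.unusedVariables false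

namespace Pool.Agent.SwT

open Finset

/-- the sum over `m` more legs after `x, y` -/
noncomputable def Psi {ι : Type*} (X : Finset ι) (z : ι → ℝ) (F : ι → ι → ι → ℝ) : ℕ → ι → ι → ℝ
  | 0, _, _ => 1
  | m + 1, x, y => ∑ v ∈ X, z v * (F x y v * Psi X z F m y v)

/-- the mass of the runs of `m + 2` legs -/
noncomputable def AA {ι : Type*} (X : Finset ι) (z : ι → ℝ) (F : ι → ι → ι → ℝ) (m : ℕ) : ℝ :=
  ∑ x ∈ X, ∑ y ∈ X, z x * (z y * Psi X z F m x y)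

section Chain

variable {ι : Type*} {X : Finset ι} {z : ι → ℝ} {F : ι → ι → ι → ℝ}

theorem Psi_nonneg (hz : ∀ x ∈ X, 0 ≤ z x) (hF : ∀ x y v, F x y v = 0 ∨ F x y v = 1)
    (m : ℕ) : ∀ x ∈ X, ∀ y ∈ X, 0 ≤ Psi X z F m x y := by
  induction m with
  | zero => intro x _ y _; exact zero_le_one
  | succ m ih =>
    intro x hx y hy
    refine Finset.sum_nonneg ?_
    intro v hv
    refine mul_nonneg (hz v hv) (mul_nonneg ?_ (ih y hy v hv))
    rcases hF x y v with h | h <;> rw [h] <;> norm_num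

theorem AA_nonneg (hz : ∀ x ∈ X, 0 ≤ z x) (hF : ∀ x y v, F x y v = 0 ∨ F x y v = 1) (m : ℕ) :
    0 ≤ AA X z F m := by
  refine Finset.sum_nonneg ?_
  intro x hx
  refine Finset.sum_nonneg ?_
  intro y hy
  exact mul_nonneg (hz x hx) (mul_nonneg (hz y hy) (Psi_nonneg hz hF m x hx y hy))

/-- Cauchy - Schwarz over the shooter -/
theorem Psi_sq (hz : ∀ x ∈ X, 0 ≤ z x) (hF : ∀ x y v, F x y v = 0 ∨ F x y v = 1) (m : ℕ)
    (x y : ι) :
    Psi X z F (m + 1) x y ^ 2 ≤ (∑ v ∈ X, z v * F x y v) *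
      ∑ v ∈ X, z v * Psi X z F m y v ^ 2 := by
  refine Finset.sum_sq_le_sum_mul_sum_of_sq_le_mul X
    (r := fun v => z v * (F x y v * Psi X z F m y v))
    (f := fun v => z v * F x y v) (g := fun v => z v * Psi X z F m y v ^ 2)
    (fun v hv => mul_nonneg (hz v hv) ?_)
    (fun v hv => mul_nonneg (hz v hv) (sq_nonneg _))
    (fun v hv => ?_)
  · rcases hF x y v with h | h <;> rw [h] <;> norm_num
  · rcases hF x y v with h | h
    · rw [h]; simp
    · rw [h]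
      exact le_of_eq (by ring)

/-- the quadratic form with a weight `G` on the first leg -/
noncomputable def QQ {ι : Type*} (X : Finset ι) (z : ι → ℝ) (F : ι → ι → ι → ℝ) (m : ℕ)
    (G : ι → ℝ) : ℝ :=
  ∑ x ∈ X, ∑ y ∈ X, z x * z y * G x * Psi X z F m x y ^ 2

variable {al : ι → ι → ℝ} {be : ι → ℝ} {P0 D1 D2 : ℝ}

/-- one step: the first leg is summed -/
theorem QQ_step (hz : ∀ x ∈ X, 0 ≤ z x) (hF : ∀ x y v, F x y v = 0 ∨ F x y v = 1)
    (hf : ∀ x ∈ X, ∀ y ∈ X, ∑ v ∈ X, z v * F x y v ≤ al x y + be y)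
    (m : ℕ) {G : ι → ℝ} (hG : ∀ x ∈ X, 0 ≤ G x) :
    QQ X z F (m + 1) G ≤ QQ X z F m (fun y => ∑ x ∈ X, z x * G x * (al x y + be y)) := by
  unfold QQ
  have h1 : ∑ x ∈ X, ∑ y ∈ X, z x * z y * G x * Psi X z F (m + 1) x y ^ 2 ≤
      ∑ x ∈ X, ∑ y ∈ X, z x * z y * G x * ((al x y + be y) *
        ∑ v ∈ X, z v * Psi X z F m y v ^ 2) := by
    refine Finset.sum_le_sum ?_
    intro x hx
    refine Finset.sum_le_sum ?_
    intro y hy
    refine mul_le_mul_of_nonneg_left ?_ (mul_nonneg (mul_nonneg (hz x hx) (hz y hy)) (hG x hx))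
    refine le_trans (Psi_sq hz hF m x y) ?_
    exact mul_le_mul_of_nonneg_right (hf x hx y hy)
      (Finset.sum_nonneg (fun v hv => mul_nonneg (hz v hv) (sq_nonneg _)))
  refine le_trans h1 (le_of_eq ?_)
  rw [Finset.sum_comm]
  refine Finset.sum_congr rfl ?_
  intro y hy
  simp only [Finset.mul_sum, Finset.sum_mul]
  rw [Finset.sum_comm]
  refine Finset.sum_congr rfl ?_
  intro v hv
  refine Finset.sum_congr rfl ?_
  intro x hx
  ring

/-- the 2 x 2 recursion -/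
theorem QQ_le (hz : ∀ x ∈ X, 0 ≤ z x) (hF : ∀ x y v, F x y v = 0 ∨ F x y v = 1)
    (hal : ∀ x ∈ X, ∀ y ∈ X, 0 ≤ al x y) (hbe : ∀ x ∈ X, 0 ≤ be x)
    (hf : ∀ x ∈ X, ∀ y ∈ X, ∑ v ∈ X, z v * F x y v ≤ al x y + be y)
    (h0 : ∑ x ∈ X, z x ≤ P0) (h1 : ∑ x ∈ X, z x * be x ≤ D1)
    (h1' : ∀ y ∈ X, ∑ x ∈ X, z x * al x y ≤ D1)
    (h2 : ∀ y ∈ X, ∑ x ∈ X, z x * (be x * al x y) ≤ D2)
    (hP : 0 < P0) {r : ℝ} (hr : 0 ≤ r) (hd : D1 ≤ r) (hd2 : P0 * D2 ≤ r ^ 2) :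
    ∀ m : ℕ, ∀ p q : ℝ, 0 ≤ p → 0 ≤ q → q * r ≤ P0 * p → ∀ G : ι → ℝ, (∀ x ∈ X, 0 ≤ G x) →
      (∀ x ∈ X, G x ≤ p + q * be x) → QQ X z F m G ≤ 2 * P0 ^ 2 * (2 * r) ^ m * p := by
  intro m
  induction m with
  | zero =>
    intro p q hp hq hqr G hG hG1
    have e1 : QQ X z F 0 G = (∑ y ∈ X, z y) * ∑ x ∈ X, z x * G x := by
      unfold QQ
      rw [Finset.sum_mul_sum, Finset.sum_comm]
      refine Finset.sum_congr rfl ?_
      intro y _
      refine Finset.sum_congr rfl ?_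
      intro x _
      simp only [Psi]
      ring
    rw [e1, pow_zero, mul_one]
    have e2 : ∑ x ∈ X, z x * G x ≤ p * P0 + q * D1 := by
      calc ∑ x ∈ X, z x * G x ≤ ∑ x ∈ X, (p * z x + q * (z x * be x)) := by
            refine Finset.sum_le_sum ?_
            intro x hx
            have := mul_le_mul_of_nonneg_left (hG1 x hx) (hz x hx)
            linarith
        _ = p * (∑ x ∈ X, z x) + q * ∑ x ∈ X, z x * be x := by
            rw [Finset.sum_add_distrib, Finset.mul_sum, Finset.mul_sum]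
        _ ≤ p * P0 + q * D1 := by
            have a1 := mul_le_mul_of_nonneg_left h0 hp
            have a2 := mul_le_mul_of_nonneg_left h1 hq
            linarith
    have e3 : q * D1 ≤ P0 * p := le_trans (mul_le_mul_of_nonneg_left hd hq) hqr
    have e4 : 0 ≤ ∑ x ∈ X, z x * G x :=
      Finset.sum_nonneg (fun x hx => mul_nonneg (hz x hx) (hG x hx))
    calc (∑ y ∈ X, z y) * ∑ x ∈ X, z x * G x ≤ P0 * ∑ x ∈ X, z x * G x :=
          mul_le_mul_of_nonneg_right h0 e4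
      _ ≤ P0 * (2 * (P0 * p)) := mul_le_mul_of_nonneg_left (by linarith) hP.le
      _ = 2 * P0 ^ 2 * p := by ring
  | succ m ih =>
    intro p q hp hq hqr G hG hG1
    refine le_trans (QQ_step hz hF hf m hG) ?_
    have hD1 : 0 ≤ D1 := le_trans
      (Finset.sum_nonneg (fun x hx => mul_nonneg (hz x hx) (hbe x hx))) h1
    set G' : ι → ℝ := fun y => ∑ x ∈ X, z x * G x * (al x y + be y) with hG'
    have hG'0 : ∀ y ∈ X, 0 ≤ G' y := by
      intro y hy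
      refine Finset.sum_nonneg ?_
      intro x hx
      exact mul_nonneg (mul_nonneg (hz x hx) (hG x hx)) (add_nonneg (hal x hx y hy) (hbe y hy))
    have hqD2 : q * D2 ≤ p * r := by
      have a1 : q * (P0 * D2) ≤ q * r ^ 2 := mul_le_mul_of_nonneg_left hd2 hq
      have a2 : q * r * r ≤ P0 * p * r := mul_le_mul_of_nonneg_right hqr hr
      have a3 : P0 * (q * D2) ≤ P0 * (p * r) := by nlinarith
      exact le_of_mul_le_mul_left a3 hP
    have hG'1 : ∀ y ∈ X, G' y ≤ (p * D1 + q * D2) + (p * P0 + q * D1) * be y := by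
      intro y hy
      have hby := hbe y hy
      calc G' y ≤ ∑ x ∈ X, z x * (p + q * be x) * (al x y + be y) := by
            refine Finset.sum_le_sum ?_
            intro x hx
            refine mul_le_mul_of_nonneg_right ?_ (add_nonneg (hal x hx y hy) hby)
            exact mul_le_mul_of_nonneg_left (hG1 x hx) (hz x hx)
        _ = p * (∑ x ∈ X, z x * al x y) + q * (∑ x ∈ X, z x * (be x * al x y)) +
            (p * (∑ x ∈ X, z x) + q * ∑ x ∈ X, z x * be x) * be y := by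
            rw [Finset.mul_sum, Finset.mul_sum, Finset.mul_sum, Finset.mul_sum,
              ← Finset.sum_add_distrib, ← Finset.sum_add_distrib, Finset.sum_mul,
              ← Finset.sum_add_distrib]
            refine Finset.sum_congr rfl ?_
            intro x _
            ring
        _ ≤ _ := by
            have a1 := mul_le_mul_of_nonneg_left (h1' y hy) hp
            have a2 := mul_le_mul_of_nonneg_left (h2 y hy) hq
            have a3 := mul_le_mul_of_nonneg_left h0 hp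
            have a4 := mul_le_mul_of_nonneg_left h1 hq
            have a5 : (p * (∑ x ∈ X, z x) + q * ∑ x ∈ X, z x * be x) * be y ≤
                (p * P0 + q * D1) * be y := mul_le_mul_of_nonneg_right (by linarith) hby
            linarith
    have hp' : p * D1 + q * D2 ≤ 2 * r * p := by
      have := mul_le_mul_of_nonneg_left hd hp
      linarith
    have hq' : p * P0 + q * D1 ≤ 2 * P0 * p := by
      have := mul_le_mul_of_nonneg_left hd hq
      linarith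
    have h5 := ih (2 * r * p) (2 * P0 * p) (by positivity) (by positivity) (by nlinarith) G' hG'0
      (by
        intro y hy
        refine le_trans (hG'1 y hy) ?_
        have := mul_le_mul_of_nonneg_right hq' (hbe y hy)
        linarith)
    refine le_trans h5 (le_of_eq ?_)
    rw [pow_succ]
    ring

/-- THE CHAIN LEMMA, upper bound for the total mass of the legs -/
theorem chain_of_le (hz : ∀ x ∈ X, 0 ≤ z x) (hF : ∀ x y v, F x y v = 0 ∨ F x y v = 1)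
    (hal : ∀ x ∈ X, ∀ y ∈ X, 0 ≤ al x y) (hbe : ∀ x ∈ X, 0 ≤ be x)
    (hf : ∀ x ∈ X, ∀ y ∈ X, ∑ v ∈ X, z v * F x y v ≤ al x y + be y)
    (h0 : ∑ x ∈ X, z x ≤ P0) (h1 : ∑ x ∈ X, z x * be x ≤ D1)
    (h1' : ∀ y ∈ X, ∑ x ∈ X, z x * al x y ≤ D1)
    (h2 : ∀ y ∈ X, ∑ x ∈ X, z x * (be x * al x y) ≤ D2)
    {dl : ℝ} (hdl : 0 ≤ dl) (hd : D1 ≤ dl) (hd2 : P0 * D2 ≤ dl ^ 2) (m : ℕ) :
    AA X z F m ^ 2 ≤ 2 * P0 ^ 4 * (2 * dl) ^ m := by
  have hz0 : 0 ≤ ∑ x ∈ X, z x := Finset.sum_nonneg hz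
  rcases (le_trans hz0 h0).eq_or_lt with hP | hP
  · -- no legs
    have e1 : ∀ x ∈ X, z x = 0 := by
      have : ∑ x ∈ X, z x = 0 := le_antisymm (by rw [hP]; exact h0) hz0
      exact (Finset.sum_eq_zero_iff_of_nonneg hz).mp this
    have e2 : AA X z F m = 0 := by
      refine Finset.sum_eq_zero ?_
      intro x hx
      refine Finset.sum_eq_zero ?_
      intro y _
      rw [e1 x hx, zero_mul]
    rw [e2, ← hP]
    norm_num
  have k1 : QQ X z F m (fun _ => 1) ≤ 2 * P0 ^ 2 * (2 * dl) ^ m * 1 :=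
    QQ_le hz hF hal hbe hf h0 h1 h1' h2 hP hdl hd hd2 m 1 0 zero_le_one le_rfl
      (by nlinarith) (fun _ => 1) (fun _ _ => zero_le_one) (fun x _ => by linarith)
  have k2 : AA X z F m ^ 2 ≤ (∑ x ∈ X, z x) ^ 2 * QQ X z F m (fun _ => 1) := by
    unfold AA QQ
    rw [← Finset.sum_product', ← Finset.sum_product']
    have h := Finset.sum_sq_le_sum_mul_sum_of_sq_le_mul (X ×ˢ X)
      (r := fun t => z t.1 * (z t.2 * Psi X z F m t.1 t.2))
      (f := fun t => z t.1 * z t.2) (g := fun t => z t.1 * z t.2 * 1 * Psi X z F m t.1 t.2 ^ 2)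
      (fun t ht => by
        rw [Finset.mem_product] at ht
        exact mul_nonneg (hz _ ht.1) (hz _ ht.2))
      (fun t ht => by
        rw [Finset.mem_product] at ht
        have := mul_nonneg (hz _ ht.1) (hz _ ht.2)
        exact mul_nonneg (by linarith) (sq_nonneg _))
      (fun t _ => le_of_eq (by ring))
    refine le_trans h (le_of_eq ?_)
    congr 1
    rw [sq, Finset.sum_mul_sum, ← Finset.sum_product']
  have hQ0 : 0 ≤ QQ X z F m (fun _ => 1) := by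
    refine Finset.sum_nonneg ?_
    intro x hx
    refine Finset.sum_nonneg ?_
    intro y hy
    have := mul_nonneg (hz _ hx) (hz _ hy)
    exact mul_nonneg (by linarith) (sq_nonneg _)
  calc AA X z F m ^ 2 ≤ (∑ x ∈ X, z x) ^ 2 * QQ X z F m (fun _ => 1) := k2
    _ ≤ P0 ^ 2 * (2 * P0 ^ 2 * (2 * dl) ^ m * 1) := by
        refine mul_le_mul (pow_le_pow_left₀ hz0 h0 2) k1 hQ0 (by positivity)
    _ = 2 * P0 ^ 4 * (2 * dl) ^ m := by ring

/-- THE CHAIN LEMMA -/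
theorem chain (hz : ∀ x ∈ X, 0 ≤ z x) (hF : ∀ x y v, F x y v = 0 ∨ F x y v = 1)
    (al : ι → ι → ℝ) (be : ι → ℝ)
    (hal : ∀ x ∈ X, ∀ y ∈ X, 0 ≤ al x y) (hbe : ∀ x ∈ X, 0 ≤ be x)
    (hf : ∀ x ∈ X, ∀ y ∈ X, ∑ v ∈ X, z v * F x y v ≤ al x y + be y)
    {P0 D1 D2 dl : ℝ} (h0 : ∑ x ∈ X, z x = P0) (h1 : ∑ x ∈ X, z x * be x ≤ D1)
    (h1' : ∀ y ∈ X, ∑ x ∈ X, z x * al x y ≤ D1)
    (h2 : ∀ y ∈ X, ∑ x ∈ X, z x * (be x * al x y) ≤ D2)
    (hdl : 0 ≤ dl) (hd : D1 ≤ dl) (hd2 : P0 * D2 ≤ dl ^ 2) :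
    ∀ m : ℕ, AA X z F m ^ 2 ≤ 2 * P0 ^ 4 * (2 * dl) ^ m :=
  fun m => chain_of_le hz hF hal hbe hf h0.le h1 h1' h2 hdl hd hd2 m

/-- the chain lemma in a good window (`dl = 1 / 32`) -/
theorem chain_good (hz : ∀ x ∈ X, 0 ≤ z x) (hF : ∀ x y v, F x y v = 0 ∨ F x y v = 1)
    (al : ι → ι → ℝ) (be : ι → ℝ)
    (hal : ∀ x ∈ X, ∀ y ∈ X, 0 ≤ al x y) (hbe : ∀ x ∈ X, 0 ≤ be x)
    (hf : ∀ x ∈ X, ∀ y ∈ X, ∑ v ∈ X, z v * F x y v ≤ al x y + be y)
    {P0 D1 D2 : ℝ} (h0 : ∑ x ∈ X, z x ≤ P0) (h1 : ∑ x ∈ X, z x * be x ≤ D1)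
    (h1' : ∀ y ∈ X, ∑ x ∈ X, z x * al x y ≤ D1)
    (h2 : ∀ y ∈ X, ∑ x ∈ X, z x * (be x * al x y) ≤ D2)
    (hd : D1 ≤ 1 / 32) (hd2 : P0 * D2 ≤ (1 / 32) ^ 2) (m : ℕ) :
    AA X z F m ≤ 3 / 2 * P0 ^ 2 * (1 / 4) ^ m := by
  have h := chain_of_le hz hF hal hbe hf h0 h1 h1' h2 (dl := 1 / 32) (by norm_num) hd hd2 m
  have e : (2 * (1 / 32 : ℝ)) ^ m = ((1 / 4) ^ m) ^ 2 := by
    rw [← pow_mul, mul_comm m 2, pow_mul]
    norm_num
  rw [e] at h
  have h3 : AA X z F m ^ 2 ≤ (3 / 2 * P0 ^ 2 * (1 / 4) ^ m) ^ 2 := by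
    refine le_trans h ?_
    have h4 : 0 ≤ P0 ^ 4 * ((1 / 4 : ℝ) ^ m) ^ 2 := by positivity
    nlinarith
  exact le_of_sq_le_sq h3 (by positivity)

/-- all runs in a good window: one leg, two legs, more legs -/
theorem chain_W (hz : ∀ x ∈ X, 0 ≤ z x) (hF : ∀ x y v, F x y v = 0 ∨ F x y v = 1)
    (al : ι → ι → ℝ) (be : ι → ℝ)
    (hal : ∀ x ∈ X, ∀ y ∈ X, 0 ≤ al x y) (hbe : ∀ x ∈ X, 0 ≤ be x)
    (hf : ∀ x ∈ X, ∀ y ∈ X, ∑ v ∈ X, z v * F x y v ≤ al x y + be y)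
    {P0 D1 D2 : ℝ} (h0 : ∑ x ∈ X, z x ≤ P0) (h1 : ∑ x ∈ X, z x * be x ≤ D1)
    (h1' : ∀ y ∈ X, ∑ x ∈ X, z x * al x y ≤ D1)
    (h2 : ∀ y ∈ X, ∑ x ∈ X, z x * (be x * al x y) ≤ D2)
    (hd : D1 ≤ 1 / 32) (hd2 : P0 * D2 ≤ (1 / 32) ^ 2) (N : ℕ) :
    1 + P0 + ∑ m ∈ range N, AA X z F m ≤ 1 + P0 + 2 * P0 ^ 2 := by
  have k1 : ∑ m ∈ range N, (1 / 4 : ℝ) ^ m ≤ 4 / 3 := by
    rw [geom_sum_eq (by norm_num)]
    have : (0 : ℝ) ≤ (1 / 4) ^ N := by positivity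
    rw [div_le_iff_of_neg (by norm_num)]
    linarith
  have k2 : ∑ m ∈ range N, AA X z F m ≤ 2 * P0 ^ 2 := by
    calc ∑ m ∈ range N, AA X z F m ≤ ∑ m ∈ range N, 3 / 2 * P0 ^ 2 * (1 / 4) ^ m :=
          Finset.sum_le_sum
            (fun m _ => chain_good hz hF al be hal hbe hf h0 h1 h1' h2 hd hd2 m)
      _ = 3 / 2 * P0 ^ 2 * ∑ m ∈ range N, (1 / 4 : ℝ) ^ m := by rw [Finset.mul_sum]
      _ ≤ 3 / 2 * P0 ^ 2 * (4 / 3) := mul_le_mul_of_nonneg_left k1 (by positivity)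
      _ = 2 * P0 ^ 2 := by ring
  linarith

end Chain

end Pool.Agent.SwT
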