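import Pool.Agent.SwR.Spec
import Pool.Agent.SwR.Trip

/-!
# STAR with exponent 2/3: definitions (helper66)

Runs of legs with spans in a window, label `e`, masses; renewal masses of the law of the pieces.
-/

set_option autoImplicit false

namespace Pool.Agent.SwT

open Finset
open scoped Classical
open Pool.Agent.R19 Pool.Agent.SwR Pool.Agent.SwP

/-! ### renewal masses (abstract) -/

section Abstract

variable {P : Type*} [Inhabited P] {V : Type*} [AddCommGroup V]

/-- probability that `n` pieces have total height in `(a, b]` -/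
noncomputable def prI (F : Finset P) (w : P → ℝ) (D : P → V) (ht : V →+ ℤ) (n : ℕ) (a b : ℤ) : ℝ :=
  EE F w n (fun s => if a < ht (SS D s n) ∧ ht (SS D s n) ≤ b then 1 else 0)

/-- probability that `n` pieces have total height at most `T` -/
noncomputable def prL (F : Finset P) (w : P → ℝ) (D : P → V) (ht : V →+ ℤ) (n T : ℕ) : ℝ :=
  EE F w n (fun s => if ht (SS D s n) ≤ (T : ℤ) then 1 else 0)

/-- `U(T)`: mass of all lists of pieces of total height at most `T` -/
noncomputable def Uf (F : Finset P) (w : P → ℝ) (D : P → V) (ht : V →+ ℤ) (T : ℕ) : ℝ :=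
  ∑ n ∈ range (T + 1), prL F w D ht n T

/-- mass of the pieces of height more than `T` -/
noncomputable def Qf (F : Finset P) (w : P → ℝ) (D : P → V) (ht : V →+ ℤ) (T : ℕ) : ℝ :=
  ∑ p ∈ F, if (T : ℤ) < ht (D p) then w p else 0

/-- `P_k(I)` for the window `I = (a, a + l]`, with `U` a real number: `∑_n p_n ^ k P(S_n ∈ I)`,
`p_n = min(1, l / min(n, U))`; the number of pieces is at most `N` -/
noncomputable def Pk (F : Finset P) (w : P → ℝ) (D : P → V) (ht : V →+ ℤ) (U : ℝ) (N k a l : ℕ) : ℝ :=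
  ∑ n ∈ range (N + 1), (min 1 ((l : ℝ) / min (n : ℝ) U)) ^ k * prI F w D ht n a (a + l)

/-- `ρ(I) = ∑_n P(S_n ∈ I) / min(n, U) ^ 2` -/
noncomputable def rho (F : Finset P) (w : P → ℝ) (D : P → V) (ht : V →+ ℤ) (U : ℝ) (N a l : ℕ) : ℝ :=
  ∑ n ∈ Icc 1 N, prI F w D ht n a (a + l) / (min (n : ℝ) U) ^ 2

end Abstract

/-! ### runs -/

variable [Pool.Agent.SwP.Dim]

/-- the word of a chain of legs (every second leg is turned upside down) -/
def cw : List Word → Word
  | [] => []
  | a :: t => a ++ fl (cw t)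

/-- lists of at most `n` words of length at most `L` -/
noncomputable def lst (L : ℕ) : ℕ → Finset (List Word)
  | 0 => {[]}
  | n + 1 => insert [] ((wle L ×ˢ lst L n).image fun p => p.1 :: p.2)

/-- spans in `(a, a + l]`, strictly decreasing, all legs bridges, the whole chain self-avoiding -/
def Run (a l : ℕ) (r : List Word) : Prop :=
  (∀ u ∈ r, Br u ∧ (a : ℤ) < D u 0 ∧ D u 0 ≤ a + l) ∧
    r.Pairwise (fun u v => D v 0 < D u 0) ∧ saw (cw r)

/-- the runs in the window `(a, a + l]` with legs of length at most `L` -/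
noncomputable def runs (L a l : ℕ) : Finset (List Word) := (lst L l).filter (Run a l)

/-- mass of a list of legs -/
noncomputable def ms (x : ℝ) (r : List Word) : ℝ := (r.map fun u => x ^ u.length).prod

/-- total mass of the runs -/
noncomputable def Rm (x : ℝ) (L a l : ℕ) : ℝ := ∑ r ∈ runs L a l, ms x r

/-- label `e` of the third of three consecutive legs: a fresh extension by `l + 1` pieces (of
length at most `M`) misses the three legs with probability at least `1 / 4` -/
def Le (x : ℝ) (M l : ℕ) (a b c : Word) : Prop :=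
  1 / 4 ≤ em x M (l + 1) (fun e => saw (a ++ (fl b ++ (c ++ e))))

/-- no three consecutive legs have the label `e` -/
def Fre (x : ℝ) (M l : ℕ) : List Word → Prop
  | a :: b :: c :: t => ¬ Le x M l a b c ∧ Fre x M l (b :: c :: t)
  | _ => True

/-- total mass of the runs without the label `e` -/
noncomputable def Wm (x : ℝ) (L M a l : ℕ) : ℝ := ∑ r ∈ (runs L a l).filter (Fre x M l), ms x r

/-- triples with label `e` with all spans in `(a, a + l]` -/
noncomputable def tre (x : ℝ) (L M a l : ℕ) : Finset (Word × Word × Word) :=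
  (wle L ×ˢ (wle L ×ˢ wle L)).filter fun t =>
    Br t.1 ∧ Br t.2.1 ∧ Br t.2.2 ∧ D t.1 0 ≤ (a : ℤ) + l ∧ D t.2.1 0 < D t.1 0 ∧
      D t.2.2 0 < D t.2.1 0 ∧ (a : ℤ) < D t.2.2 0 ∧ saw (t.1 ++ (fl t.2.1 ++ t.2.2)) ∧
      Le x M l t.1 t.2.1 t.2.2

/-- their mass -/
noncomputable def Xm (x : ℝ) (L M a l : ℕ) : ℝ := ∑ t ∈ tre x L M a l, w3 x t

/-- `U(T)` of the pieces of length at most `M` -/
noncomputable def UM (x : ℝ) (M T : ℕ) : ℝ := Uf (irs M) (fun p => x ^ p.length) D (ev 0) T

/-- mass of the lists of at most `2 S` pieces with height in `(a, a + l]` -/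
noncomputable def uI (x : ℝ) (M S a l : ℕ) : ℝ :=
  Pk (irs M) (fun p => x ^ p.length) D (ev 0) (UM x M S) (2 * S) 0 a l

/-- the measure `ρ` -/
noncomputable def rI (x : ℝ) (M S a l : ℕ) : ℝ :=
  rho (irs M) (fun p => x ^ p.length) D (ev 0) (UM x M S) (2 * S) a l

/-- the window `(a, a + l]` is good -/
def Good (x : ℝ) (M S a l : ℕ) (K : ℝ) : Prop :=
  K * (l : ℝ) ^ 4 * ((uI x M S a l + 1 / (S : ℝ) ^ 9) * (rI x M S a l + 1 / (S : ℝ) ^ 9)) ≤ 1

/-- **what sections 1 - 3 give**: for a constant `C`, the runs without the label `e` in a good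
window have mass at most `6 l ^ 2` -/
def WBound (μ : ℝ) : Prop :=
  ∀ A : ℕ, ∃ (C : ℝ) (k : ℕ), 1 ≤ C ∧ ∀ S L M a l : ℕ, 2 ≤ S → L ≤ S ^ A → L ≤ M →
    (3 : ℝ) / 4 ≤ Ph μ⁻¹ M ^ (16 * S) → S ≤ a → a + l ≤ 2 * S → 1 ≤ l → 4 * l ≤ S →
    Good μ⁻¹ M S a l (C * (Real.log S + 1) ^ k) → Wm μ⁻¹ L M a l ≤ 6 * (l : ℝ) ^ 2

end Pool.Agent.SwT
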