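import Pool.Agent.SwT.LDefs

/-! The two halves of a leg: existence, sums over the legs of a window. -/

set_option autoImplicit false
set_option linter.unusedSectionVars false
set_option linter.style.longLine false
set_option linter.unusedVariables false

namespace Pool.Agent.SwT

variable [Pool.Agent.SwP.Dim]

open Finset
open scoped Classical
open Pool.Agent.R19
open Pool.Agent.SwR
open Pool.Agent.SwP (Word Pt Step D pts tr saw Br Lo Hi wle mem_wle rv D_rv rv_append rv_rv D_append D_nil pts_append mem_pts mem_tr zero_mem_pts refl refl_refl D_refl rtr rtr_rtr rtr_A D_rtr dd Ix Br_nil sum_le_of_inj length_rv abs_D_le)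

-- BEGIN h1
theorem h1_Sd_mono {M M' n : ℕ} (h : M ≤ M') {E : ℕ → Word} (hE : E ∈ Sd M n) : E ∈ Sd M' n := by
  rw [sp_mem_Sd] at hE ⊢
  exact ⟨fun i hi => irs_mono h (hE.1 i hi), hE.2⟩

theorem h1_list (k : ℕ) : ∀ w : Word, w.length ≤ k → Br w → ∃ n, ∃ E ∈ Sd k n, w = pre E n := by
  induction k with
  | zero =>
    intro w hk _
    have hw0 : w = [] := List.length_eq_zero_iff.1 (by omega)
    refine ⟨0, fun _ => [], ?_, ?_⟩
    · rw [sp_mem_Sd]
      exact ⟨fun i hi => by omega, fun i _ => rfl⟩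
    · rw [hw0, sp_pre_zero]
  | succ k ih =>
    intro w hk hw
    by_cases hne : w = []
    · refine ⟨0, fun _ => [], ?_, ?_⟩
      · rw [sp_mem_Sd]
        exact ⟨fun i hi => by omega, fun i _ => rfl⟩
      · rw [hne, sp_pre_zero]
    · obtain ⟨a, b, hab, ha, hb⟩ := exists_first hw hne
      have hpos := List.length_pos_of_ne_nil ha.ne
      have hl : w.length = a.length + b.length := by rw [hab, List.length_append]
      obtain ⟨n, E, hE, hbE⟩ := ih b (by omega) hb
      refine ⟨n + 1, cns a E, ?_, ?_⟩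
      · have hE' := sp_mem_Sd.1 hE
        rw [sp_mem_Sd]
        refine ⟨?_, ?_⟩
        · intro i hi
          cases i with
          | zero =>
            change a ∈ irs (k + 1)
            exact mem_irs.2 ⟨by omega, ha⟩
          | succ i => exact irs_mono (Nat.le_succ k) (hE'.1 i (by omega))
        · intro i hi
          cases i with
          | zero => omega
          | succ i => exact hE'.2 i (by omega)
      · rw [pre_cns, ← hbE]
        exact hab

theorem h1_cut (E B : ℕ → Word) (n : ℕ) (k : ℕ) (hk : k ≤ n) (hB : ∀ i < k, B i = E (n - 1 - i)) :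
    pre E n = pre E (n - k) ++ preR B k := by
  induction k with
  | zero =>
    change pre E n = pre E n ++ []
    rw [List.append_nil]
  | succ k ih =>
    rw [ih (by omega) (fun i hi => hB i (by omega))]
    have e1 : n - k = (n - (k + 1)) + 1 := by omega
    rw [e1, sp_pre_succ, List.append_assoc]
    congr 1
    change _ = B k ++ preR B k
    rw [hB k (by omega)]
    congr 2
    omega

/-- every bridge is cut in two halves -/
theorem exists_hv {w : Word} (hw : Br w) : ∃ q, IsHv w.length w q := by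
  obtain ⟨n, E, hE, hwE⟩ := h1_list w.length w le_rfl hw
  have hE' := sp_mem_Sd.1 hE
  refine ⟨(n, fun i => if i < n / 2 then E i else [],
    fun i => if i < n - n / 2 then E (n - 1 - i) else []), ?_, ?_, ?_⟩
  · rw [sp_mem_Sd]
    refine ⟨?_, ?_⟩
    · intro i hi
      change (if i < n / 2 then E i else []) ∈ _
      rw [if_pos hi]
      exact hE'.1 i (by
        have hi' : i < n / 2 := hi
        omega)
    · intro i hi
      change (if i < n / 2 then E i else []) = _
      rw [if_neg (by
        have hi' : n / 2 ≤ i := hi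
        omega)]
  · rw [sp_mem_Sd]
    refine ⟨?_, ?_⟩
    · intro i hi
      change (if i < n - n / 2 then E (n - 1 - i) else []) ∈ _
      rw [if_pos hi]
      exact hE'.1 _ (by
        have hi' : i < n - n / 2 := hi
        omega)
    · intro i hi
      change (if i < n - n / 2 then E (n - 1 - i) else []) = _
      rw [if_neg (by
        have hi' : n - n / 2 ≤ i := hi
        omega)]
  · change w = pre (fun i => if i < n / 2 then E i else []) (n / 2) ++
      preR (fun i => if i < n - n / 2 then E (n - 1 - i) else []) (n - n / 2)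
    have h1 : ∀ j ≤ n / 2, pre (fun i => if i < n / 2 then E i else []) j = pre E j := by
      intro j hj
      induction j with
      | zero => rw [sp_pre_zero, sp_pre_zero]
      | succ j ih =>
        rw [sp_pre_succ, sp_pre_succ, ih (by omega), if_pos (by omega)]
    rw [h1 _ le_rfl, hwE]
    have h2 := h1_cut E (fun i => if i < n - n / 2 then E (n - 1 - i) else []) n (n - n / 2)
      (by omega) (fun i hi => if_pos hi)
    have e1 : n - (n - n / 2) = n / 2 := by omega
    rw [e1] at h2
    exact h2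

theorem hv_spec {w : Word} (hw : Br w) : IsHv w.length w (hv w) := by
  unfold hv
  rw [dif_pos (exists_hv hw)]
  exact (exists_hv hw).choose_spec

theorem IsHv.mono {M M' : ℕ} (h : M ≤ M') {w : Word} {q : ℕ × (ℕ → Word) × (ℕ → Word)}
    (hq : IsHv M w q) : IsHv M' w q :=
  ⟨h1_Sd_mono h hq.1, h1_Sd_mono h hq.2.1, hq.2.2⟩
-- END h1

-- BEGIN h2
private theorem h2_len_preR (A : ℕ → Word) (n : ℕ) (x : ℝ) : wt x n A = x ^ (preR A n).length := by
  induction n with
  | zero =>
    unfold wt
    rw [Finset.range_zero, Finset.prod_empty]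
    change 1 = x ^ ([] : Word).length
    rw [List.length_nil, pow_zero]
  | succ n ih =>
    have h1 : wt x (n + 1) A = wt x n A * x ^ (A n).length := by
      unfold wt
      rw [Finset.prod_range_succ]
    change wt x (n + 1) A = x ^ (A n ++ preR A n).length
    rw [h1, ih, List.length_append, pow_add, mul_comm]

private theorem h2_len_pre (A : ℕ → Word) (n : ℕ) (x : ℝ) : wt x n A = x ^ (pre A n).length := by
  induction n with
  | zero =>
    unfold wt
    rw [Finset.range_zero, Finset.prod_empty, sp_pre_zero, List.length_nil, pow_zero]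
  | succ n ih =>
    have h1 : wt x (n + 1) A = wt x n A * x ^ (A n).length := by
      unfold wt
      rw [Finset.prod_range_succ]
    rw [h1, ih, sp_pre_succ, List.length_append, pow_add]

private theorem h2_SS_ge {M n : ℕ} {A : ℕ → Word} (hA : A ∈ Sd M n) : (n : ℤ) ≤ SS D A n 0 := by
  have key : ∀ j : ℕ, j ≤ n → (j : ℤ) ≤ SS D A j 0 := by
    intro j
    induction j with
    | zero =>
      intro _
      rw [SS_zero]
      exact le_rfl
    | succ j ih =>
      intro hj
      have h1 := ih (by omega)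
      have h2 : A j ∈ irs M := (sp_mem_Sd.1 hA).1 j (by omega)
      unfold irs at h2
      rw [mem_filter] at h2
      have h3 : 0 < D (A j) 0 := h2.2.1.pos h2.2.2.1
      rw [SS_succ, Pi.add_apply]
      push_cast
      omega
  exact key n le_rfl

/-- sum over the legs of a window by halves -/
theorem sum_hv {x : ℝ} (hx : 0 ≤ x) {L M : ℕ} (hLM : L ≤ M) (s l : ℕ)
    (Φ : ℕ → (ℕ → Word) → (ℕ → Word) → ℝ) (hΦ : ∀ n A B, 0 ≤ Φ n A B) :
    ∑ w ∈ XW L s l, zw x w * Φ (nn w) (hs1 w) (hs2 w) ≤
      ∑ n ∈ range (s + l + 1), EM x M (n / 2) (fun A => EM x M (n - n / 2) (fun B =>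
        if Win s l L n A B then Φ n A B else 0)) := by
  have hR : ∑ n ∈ range (s + l + 1), EM x M (n / 2) (fun A => EM x M (n - n / 2) (fun B =>
        if Win s l L n A B then Φ n A B else 0)) =
      ∑ q ∈ (range (s + l + 1)).sigma (fun n => Sd M (n / 2) ×ˢ Sd M (n - n / 2)),
        wt x (q.1 / 2) q.2.1 * (wt x (q.1 - q.1 / 2) q.2.2 *
          (if Win s l L q.1 q.2.1 q.2.2 then Φ q.1 q.2.1 q.2.2 else 0)) := by
    rw [Finset.sum_sigma]
    refine sum_congr rfl fun n _ => ?_
    rw [sum_product]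
    change EE (irs M) (fun p => x ^ p.length) (n / 2) _ = _
    rw [← sp_sum_Sd]
    refine sum_congr rfl fun A _ => ?_
    change wt x (n / 2) A * EE (irs M) (fun p => x ^ p.length) (n - n / 2) _ = _
    rw [← sp_sum_Sd, mul_sum]
  rw [hR]
  have hsp : ∀ w ∈ XW L s l, Br w ∧ w.length ≤ L ∧ (s : ℤ) < D w 0 ∧ D w 0 ≤ ((s + l : ℕ) : ℤ) := by
    intro w hw
    have h1 : w ∈ (wle L).filter (fun w => Br w ∧ (s : ℤ) < D w 0 ∧ D w 0 ≤ ((s + l : ℕ) : ℤ)) := hw
    rw [mem_filter, mem_wle] at h1
    exact ⟨h1.2.1, h1.1, h1.2.2⟩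
  have hiv : ∀ w ∈ XW L s l, hs1 w ∈ Sd M (nn w / 2) ∧ hs2 w ∈ Sd M (nn w - nn w / 2) ∧
      w = pre (hs1 w) (nn w / 2) ++ preR (hs2 w) (nn w - nn w / 2) := by
    intro w hw
    obtain ⟨h1, h2, _, _⟩ := hsp w hw
    exact (hv_spec h1).mono (h2.trans hLM)
  have hD : ∀ w ∈ XW L s l, ∀ j, D w j = SS D (hs1 w) (nn w / 2) j + SS D (hs2 w) (nn w - nn w / 2) j := by
    intro w hw j
    have h1 := congrArg (fun u => D u j) (hiv w hw).2.2
    simp only [D_append, Pi.add_apply, sp_D_pre, sp_D_preR] at h1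
    exact h1
  refine sum_le_of_inj (fun w => (⟨nn w, (hs1 w, hs2 w)⟩ : Σ _ : ℕ, (ℕ → Word) × (ℕ → Word))) ?_ ?_ ?_ ?_
  · intro w hw
    obtain ⟨h1, h2, h3⟩ := hiv w hw
    obtain ⟨_, _, _, h7⟩ := hsp w hw
    rw [Finset.mem_sigma, mem_product, mem_range]
    refine ⟨?_, h1, h2⟩
    have h4 := h2_SS_ge h1
    have h5 := h2_SS_ge h2
    have h6 := hD w hw 0
    push_cast at h7
    change nn w < s + l + 1
    omega
  · intro w hw w' hw' h
    have hw1 : w ∈ XW L s l := hw
    have hw2 : w' ∈ XW L s l := hw'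
    have e0 : (⟨nn w, (hs1 w, hs2 w)⟩ : Σ _ : ℕ, (ℕ → Word) × (ℕ → Word)) = ⟨nn w', (hs1 w', hs2 w')⟩ := h
    have e1 : nn w = nn w' := congrArg Sigma.fst e0
    have e2 : (hs1 w, hs2 w) = (hs1 w', hs2 w') := congrArg Sigma.snd e0
    have e3 : hs1 w = hs1 w' := congrArg Prod.fst e2
    have e4 : hs2 w = hs2 w' := congrArg Prod.snd e2
    rw [(hiv w hw1).2.2, (hiv w' hw2).2.2, e1, e3, e4]
  · intro w hw
    obtain ⟨h1, h2, h3⟩ := hiv w hw
    obtain ⟨_, h5, h6, h7⟩ := hsp w hw
    have hlen : w.length = (pre (hs1 w) (nn w / 2)).length + (preR (hs2 w) (nn w - nn w / 2)).length := by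
      have h8 := congrArg List.length h3
      rw [List.length_append] at h8
      exact h8
    have hwin : Win s l L (nn w) (hs1 w) (hs2 w) := by
      refine ⟨⟨?_, ?_⟩, ?_, ?_⟩
      · rw [← hD w hw 0]; exact h6
      · rw [← hD w hw 0]; push_cast at h7; exact h7
      · intro j
        rw [← sp_D_pre]
        refine (abs_D_le _ j).trans ?_
        exact_mod_cast (by omega : (pre (hs1 w) (nn w / 2)).length ≤ L)
      · intro j
        rw [← sp_D_preR]
        refine (abs_D_le _ j).trans ?_
        exact_mod_cast (by omega : (preR (hs2 w) (nn w - nn w / 2)).length ≤ L)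
    simp only
    rw [if_pos hwin, h2_len_pre, h2_len_preR, ← mul_assoc, ← pow_add, ← hlen]
    exact le_rfl
  · rintro ⟨n, A, B⟩ _
    simp only
    refine mul_nonneg ?_ (mul_nonneg ?_ ?_)
    · exact Finset.prod_nonneg fun i _ => pow_nonneg hx _
    · exact Finset.prod_nonneg fun i _ => pow_nonneg hx _
    · split_ifs
      · exact hΦ _ _ _
      · exact le_rfl
-- END h2

-- BEGIN h3
/-- the mass of the lists with span in the window, by halves -/
theorem pI_halves (x : ℝ) (M s l n : ℕ) :
    EM x M (n / 2) (fun A => EM x M (n - n / 2) (fun B =>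
      if (s : ℤ) < (SS D A (n / 2)) 0 + (SS D B (n - n / 2)) 0 ∧
        (SS D A (n / 2)) 0 + (SS D B (n - n / 2)) 0 ≤ s + l then (1 : ℝ) else 0)) =
      pI x M s l n := by
  have key : ∀ a b : ℕ, a + b = n → EM x M a (fun A => EM x M b (fun B =>
      if (s : ℤ) < (SS D A a) 0 + (SS D B b) 0 ∧
        (SS D A a) 0 + (SS D B b) 0 ≤ s + l then (1 : ℝ) else 0)) = pI x M s l n := by
    rintro a b rfl
    unfold pI
    change _ = EE (irs M) (fun p => x ^ p.length) (a + b) _
    rw [EE_add]
    refine EE_congr fun A _ => EE_congr fun B _ => ?_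
    have h1 : SS D (glue a A B) (a + b) 0 = SS D A a 0 + SS D B b 0 := by
      rw [SS_add, SS_glue_le D A B le_rfl, shl_glue, Pi.add_apply]
    rw [h1]
  exact key _ _ (by omega)

theorem pI_nonneg {x : ℝ} (hx : 0 ≤ x) (M s l n : ℕ) : 0 ≤ pI x M s l n := by
  unfold pI
  refine EE_nonneg (fun p _ => pow_nonneg hx _) fun A _ => ?_
  split_ifs
  · exact zero_le_one
  · exact le_rfl
-- END h3

-- BEGIN h4
private theorem h4_Dv (p : Word) (j : Ix) : Dv p j = if j = 0 then D p j else - D p j := by
  unfold Dv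
  rw [D_rv, Pi.neg_apply, sp_D_fl]
  split_ifs
  · rw [neg_neg]
  · rfl

private theorem h4_SS (A : ℕ → Word) (n : ℕ) (j : Ix) :
    SS Dv A n j = if j = 0 then SS D A n j else - SS D A n j := by
  induction n with
  | zero => simp [SS_zero]
  | succ n ih =>
    rw [SS_succ, SS_succ, Pi.add_apply, Pi.add_apply, ih, h4_Dv]
    split_ifs
    · rfl
    · ring

/-- heights: a strand of `n` pieces has height at least `n`, displacements upside down -/
theorem Dv_zero (p : Word) : Dv p 0 = D p 0 := by
  rw [h4_Dv, if_pos rfl]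

theorem Dv_abs (p : Word) (j : Ix) : |Dv p j| = |D p j| := by
  rw [h4_Dv]
  split_ifs
  · rfl
  · rw [abs_neg]

theorem SS_Dv_abs (A : ℕ → Word) (n : ℕ) (j : Ix) : |SS Dv A n j| = |SS D A n j| := by
  rw [h4_SS]
  split_ifs
  · rfl
  · rw [abs_neg]

theorem SS_Dv_zero (A : ℕ → Word) (n : ℕ) : SS Dv A n 0 = SS D A n 0 := by
  rw [h4_SS, if_pos rfl]

theorem Dv_append (u v : Word) : Dv (u ++ v) = Dv u + Dv v := by
  unfold Dv
  rw [sp_fl_append, rv_append, D_append, add_comm]

theorem Dv_pre (A : ℕ → Word) (n : ℕ) : Dv (pre A n) = SS Dv A n := by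
  induction n with
  | zero => rw [SS_zero]; rfl
  | succ n ih => rw [sp_pre_succ, Dv_append, ih, SS_succ]

theorem Dv_preR (A : ℕ → Word) (n : ℕ) : Dv (preR A n) = SS Dv A n := by
  induction n with
  | zero => rw [SS_zero]; rfl
  | succ n ih =>
    change Dv (A n ++ preR A n) = _
    rw [Dv_append, ih, SS_succ, add_comm]

/-- the displacement of a leg by halves -/
theorem D_halves {w : Word} (hw : Br w) :
    D w = SS D (hs1 w) (n1 w) + SS D (hs2 w) (n2 w) := by
  have h := congrArg D (hv_spec hw).2.2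
  rw [D_append, sp_D_pre, sp_D_preR] at h
  exact h

theorem Dv_halves {w : Word} (hw : Br w) :
    Dv w = SS Dv (hs1 w) (n1 w) + SS Dv (hs2 w) (n2 w) := by
  have h := congrArg Dv (hv_spec hw).2.2
  rw [Dv_append, Dv_pre, Dv_preR] at h
  exact h

theorem InF_hs1 {w : Word} (hw : Br w) {M : ℕ} (hM : w.length ≤ M) :
    InF (irs M) (n1 w) (hs1 w) :=
  (sp_mem_Sd.1 ((hv_spec hw).mono hM).1).1

theorem InF_hs2 {w : Word} (hw : Br w) {M : ℕ} (hM : w.length ≤ M) :
    InF (irs M) (n2 w) (hs2 w) :=
  (sp_mem_Sd.1 ((hv_spec hw).mono hM).2.1).1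

theorem SS_D_ge {M n : ℕ} {A : ℕ → Word} (hA : InF (irs M) n A) {j : ℕ} (hj : j ≤ n) :
    (j : ℤ) ≤ SS D A j 0 := by
  induction j with
  | zero => simp [SS_zero]
  | succ j ih =>
    have h1 := ih (by omega)
    have h2 := (mem_irs.1 (hA j (by omega))).2
    have h3 := h2.1.pos h2.2.1
    rw [SS_succ, Pi.add_apply]
    push_cast
    omega
-- END h4

end Pool.Agent.SwT
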