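import Pool.Agent.SwR.Geo
import Pool.Agent.SwT.Defs
import Pool.Agent.SwT.Chain
import Pool.Agent.R19b.LemmaJ

/-! STAR 2/3: the two halves of a leg, the labels. Definitions (helper44). -/

set_option autoImplicit false
set_option linter.unusedSectionVars false
set_option linter.style.longLine false
set_option linter.unusedVariables false

namespace Pool.Agent.SwT

variable [Pool.Agent.SwP.Dim]

open Finset
open scoped Classical
open Pool.Agent.R19
open Pool.Agent.SwR
open Pool.Agent.SwP (Word Pt Step D pts tr saw Br Lo Hi wle mem_wle rv D_rv rv_append rv_rv D_append D_nil pts_append mem_pts mem_tr zero_mem_pts refl refl_refl D_refl rtr rtr_rtr rtr_A D_rtr dd Ix Br_nil sum_le_of_inj length_rv abs_D_le)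

/-- the legs with span in `(s, s + l]` -/
noncomputable abbrev XW (L s l : ℕ) : Finset Word := Tr.BW L s (s + l)

/-- the weight of a word -/
noncomputable def zw (x : ℝ) (w : Word) : ℝ := x ^ w.length

/-- displacement of a piece turned upside down -/
def Dv (p : Word) : Pt := D (rv (fl p))

/-- points of a piece, and of a piece turned upside down -/
def Qp (p : Word) : Set Pt := (pts p : Set Pt)
def Qv (p : Word) : Set Pt := (pts (rv (fl p)) : Set Pt)

/-- `q` is a cut of the leg `w` in two halves with `q.1 / 2` and `q.1 - q.1 / 2` pieces; the first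
half is read from the start, the second one from the end -/
def IsHv (M : ℕ) (w : Word) (q : ℕ × (ℕ → Word) × (ℕ → Word)) : Prop :=
  q.2.1 ∈ Sd M (q.1 / 2) ∧ q.2.2 ∈ Sd M (q.1 - q.1 / 2) ∧
    w = pre q.2.1 (q.1 / 2) ++ preR q.2.2 (q.1 - q.1 / 2)

/-- the cut -/
noncomputable def hv (w : Word) : ℕ × (ℕ → Word) × (ℕ → Word) :=
  if h : ∃ q, IsHv w.length w q then h.choose else (0, fun _ => [], fun _ => [])

/-- number of pieces of a leg -/
noncomputable def nn (w : Word) : ℕ := (hv w).1

/-- number of pieces of the first half, of the second half -/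
noncomputable def n1 (w : Word) : ℕ := nn w / 2
noncomputable def n2 (w : Word) : ℕ := nn w - nn w / 2

/-- the first half, read from the start; the second half, read from the end -/
noncomputable def hs1 (w : Word) : ℕ → Word := (hv w).2.1
noncomputable def hs2 (w : Word) : ℕ → Word := (hv w).2.2

/-- the end cap of leg `a` is hit in its top `l` levels by the walk `u` from the lower corner;
`v` = the upper corner seen from the lower one -/
def LA (l : ℕ) (a : Word) (v : Pt) (u : Word) : Prop :=
  Low (Pool.Agent.SwP.ev 0) D Qp {q | q ∈ pts u} l (n2 a) v (hs2 a)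

/-- the start cap of leg `b` is hit in its top `l` levels by the walk `u` from the lower corner -/
def LB (l : ℕ) (b : Word) (v : Pt) (u : Word) : Prop :=
  Low (Pool.Agent.SwP.ev 0) Dv Qv {q | q ∈ pts u} l (n1 b) v (hs1 b)

/-- label a: legs `a` (end cap), `b` (connector), `c` (shooter, extended by `l + 1` pieces) -/
def fa (x : ℝ) (M l : ℕ) (a b c : Word) : Prop :=
  n2 a ≤ l ∨ 1 / 4 ≤ em x M (l + 1) (fun e => LA l a (Dv b) (c ++ e))

/-- label b -/
def fb (x : ℝ) (M l : ℕ) (b c : Word) : Prop :=
  n1 b ≤ l ∨ 1 / 4 ≤ em x M (l + 1) (fun e => LB l b (Dv b) (c ++ e))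

/-- label a or b -/
noncomputable def Fab (x : ℝ) (M l : ℕ) (a b c : Word) : ℝ :=
  if fa x M l a b c ∨ fb x M l b c then 1 else 0

/-- label a, the shooter integrated out -/
noncomputable def al (x : ℝ) (L M s l : ℕ) (a b : Word) : ℝ :=
  ∑ c ∈ XW L s l, zw x c * if fa x M l a b c then 1 else 0

/-- label b, the shooter integrated out -/
noncomputable def be (x : ℝ) (L M s l : ℕ) (b : Word) : ℝ :=
  ∑ c ∈ XW L s l, zw x c * if fb x M l b c then 1 else 0

/-- expectation over lists of pieces of length at most `M` -/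
noncomputable abbrev EM (x : ℝ) (M n : ℕ) (Φ : (ℕ → Word) → ℝ) : ℝ :=
  EE (irs M) (fun p => x ^ p.length) n Φ

/-- a strand of `N` pieces from the lower corner hits the list `A` of `n` pieces hanging from `v`
(displacements `D'`, points `Q'`) in its top `l` levels, and not below -/
def LU (D' : Word → Pt) (Q' : Word → Set Pt) (l n N : ℕ) (v : Pt) (A G : ℕ → Word) : Prop :=
  Low (Pool.Agent.SwP.ev 0) D' Q' {q | Up D Qp G N q} l n v A

/-- mass of the strands hitting `A` -/
noncomputable def hit (x : ℝ) (M : ℕ) (D' : Word → Pt) (Q' : Word → Set Pt) (l n N : ℕ) (v : Pt)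
    (A : ℕ → Word) : ℝ := EM x M N (fun G => if LU D' Q' l n N v A G then 1 else 0)

/-- mass of the lists of `n` pieces with span in `(s, s + l]` -/
noncomputable def pI (x : ℝ) (M s l n : ℕ) : ℝ :=
  EM x M n (fun A => if (s : ℤ) < (SS D A n) 0 ∧ (SS D A n) 0 ≤ s + l then 1 else 0)

/-- mass of the lists of `n` pieces with sum `y` -/
noncomputable def wnM (x : ℝ) (M : ℕ) (D' : Word → Pt) (n : ℕ) (y : Pt) : ℝ :=
  EM x M n (fun A => if SS D' A n = y then 1 else 0)

/-- the two halves: span in `(s, s + l]`, both displacements at most `L` in every coordinate -/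
def Win (s l L n : ℕ) (A B : ℕ → Word) : Prop :=
  ((s : ℤ) < (SS D A (n / 2)) 0 + (SS D B (n - n / 2)) 0 ∧
    (SS D A (n / 2)) 0 + (SS D B (n - n / 2)) 0 ≤ s + l) ∧
  (∀ j, |SS D A (n / 2) j| ≤ (L : ℤ)) ∧ ∀ j, |SS D B (n - n / 2) j| ≤ (L : ℤ)

/-- the bound of LEMMA J, as a hypothesis: `κ n` for a half leg with `n` pieces, additive error
`ε` -/
def HJ (x : ℝ) (M N s l : ℕ) (κ : ℕ → ℝ) (ε : ℝ) (D' : Word → Pt) (Q' : Word → Set Pt) : Prop :=
  ∀ n, l < n → n ≤ s + l → ∀ v : Pt, (s : ℤ) < v 0 → v 0 ≤ s + l → ∀ y : Pt,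
    EM x M n (fun A => (if SS D' A n = y then 1 else 0) * hit x M D' Q' l n N v A) ≤
      κ n * wnM x M D' n y + ε

/-- the `κ` of LEMMA J -/
noncomputable def kap (x : ℝ) (M S l : ℕ) (C : ℝ) (n : ℕ) : ℝ :=
  if n ≤ l then 1 else min 1 (C * ((l : ℝ) / min (n : ℝ) (UM x M S)))

end Pool.Agent.SwT
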