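import Pool.Agent.SwT.Halves

/-! The labels: every narrow triple which is not free has label a or b. -/

set_option autoImplicit false
set_option linter.unusedSectionVars false
set_option linter.style.longLine false
set_option linter.unusedVariables false

namespace Pool.Agent.SwT

variable [Pool.Agent.SwP.Dim]

open Finset
open scoped Classical
open Pool.Agent.R19
open Pool.Agent.SwR
open Pool.Agent.SwP (Word Pt Step D pts tr saw Br Lo Hi wle mem_wle rv D_rv rv_append rv_rv D_append D_nil pts_append mem_pts mem_tr zero_mem_pts refl refl_refl D_refl rtr rtr_rtr rtr_A D_rtr dd Ix Br_nil sum_le_of_inj length_rv abs_D_le)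

-- BEGIN g1
private theorem g1_mem (a b : Word) (q : Pt) : q ∈ Pa a b ↔ q - Dv b + D a ∈ pts a := by
  unfold Pa
  rw [mem_tr, sp_mem_rv]
  rfl

private theorem g1_br {E : ℕ → Word} {j : ℕ} (h : ∀ i < j, Br (E i)) : Br (pre E j) := by
  induction j with
  | zero => exact Br_nil
  | succ j ih =>
    rw [sp_pre_succ]
    exact (ih fun i hi => h i (by omega)).append (h j (by omega))

private theorem g1_split {a : Word} (ha : Br a) :
    a = pre (hs1 a) (n1 a) ++ preR (hs2 a) (n2 a) := (hv_spec ha).2.2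

private theorem g1_pts {a : Word} (ha : Br a) (p : Pt) : p ∈ pts a ↔
    p ∈ pts (pre (hs1 a) (n1 a)) ∨ p - SS D (hs1 a) (n1 a) ∈ pts (preR (hs2 a) (n2 a)) := by
  have h : pts a = pts (pre (hs1 a) (n1 a) ++ preR (hs2 a) (n2 a)) := congrArg pts (g1_split ha)
  rw [h, pts_append, mem_union, mem_tr, sp_D_pre]

/-- the points of leg `a`: in the second half or low -/
theorem Pa_cases {a : Word} (ha : Br a) (b : Word) {q : Pt} (hq : q ∈ Pa a b) :
    Dn D Qp (Dv b) (hs2 a) (n2 a) q ∨ q 0 ≤ (Dv b) 0 - (n2 a : ℤ) := by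
  rw [g1_mem, g1_pts ha] at hq
  have hge := SS_D_ge (InF_hs2 ha le_rfl) (le_refl (n2 a))
  have hD := congrFun (D_halves ha) 0
  rw [Pi.add_apply] at hD
  rcases hq with hq | hq
  · right
    have hbr : Br (pre (hs1 a) (n1 a)) := g1_br (fun i hi => (mem_irs.1 (InF_hs1 ha le_rfl i hi)).2.1)
    have h1 := (hbr.pts_range hq).2
    rw [sp_D_pre, Pi.add_apply, Pi.sub_apply] at h1
    linarith
  · rcases Nat.eq_zero_or_pos (n2 a) with h0 | h0
    · right
      rw [h0] at hq hge hD ⊢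
      have h1 : q - Dv b + D a - SS D (hs1 a) (n1 a) = 0 := by
        obtain ⟨u, v, huv, he⟩ := mem_pts.1 hq
        have hu : u = [] := by
          have h2 : ([] : Word) = u ++ v := huv
          exact (List.append_eq_nil_iff.1 h2.symm).1
        rw [hu] at he
        rw [← he]
        rfl
      have h2 := congrFun h1 0
      simp only [Pi.sub_apply, Pi.add_apply, Pi.zero_apply] at h2
      rw [SS_zero, Pi.zero_apply] at hD
      push_cast
      linarith
    · left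
      obtain ⟨m, hm⟩ : ∃ m, n2 a = m + 1 := ⟨n2 a - 1, by omega⟩
      rw [hm, sp_mem_preR] at hq
      obtain ⟨i, hi, hq⟩ := hq
      refine ⟨i, by omega, ?_⟩
      have e : q - (Dv b - SS D (hs2 a) (i + 1)) =
          q - Dv b + D a - SS D (hs1 a) (n1 a) - (SS D (hs2 a) (m + 1) - SS D (hs2 a) (i + 1)) := by
        rw [D_halves ha, hm]
        abel
      rw [e]
      exact hq

theorem Pa_of {a : Word} (ha : Br a) (b : Word) {q : Pt}
    (hq : Dn D Qp (Dv b) (hs2 a) (n2 a) q) : q ∈ Pa a b := by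
  obtain ⟨i, hi, hq⟩ := hq
  rw [g1_mem, g1_pts ha]
  right
  obtain ⟨m, hm⟩ : ∃ m, n2 a = m + 1 := ⟨n2 a - 1, by omega⟩
  rw [hm, sp_mem_preR]
  refine ⟨i, by omega, ?_⟩
  have e : q - Dv b + D a - SS D (hs1 a) (n1 a) - (SS D (hs2 a) (m + 1) - SS D (hs2 a) (i + 1)) =
      q - (Dv b - SS D (hs2 a) (i + 1)) := by
    rw [D_halves ha, hm]
    abel
  rw [e]
  exact hq
-- END g1

-- BEGIN g2
private theorem g2_rv_fl_pre (A : ℕ → Word) (n : ℕ) :
    rv (fl (pre A n)) = preR (fun i => rv (fl (A i))) n := by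
  induction n with
  | zero => rfl
  | succ n ih =>
    rw [sp_pre_succ, sp_fl_append, rv_append, ih]
    rfl

private theorem g2_br_preR {B : ℕ → Word} {n : ℕ} (h : ∀ i < n, Br (B i)) : Br (preR B n) := by
  induction n with
  | zero => exact Br_nil
  | succ n ih => exact (h n (by omega)).append (ih fun i hi => h i (by omega))

private theorem g2_br_pre {B : ℕ → Word} {n : ℕ} (h : ∀ i < n, Br (B i)) : Br (pre B n) := by
  induction n with
  | zero => exact Br_nil
  | succ n ih =>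
    rw [sp_pre_succ]
    exact (ih fun i hi => h i (by omega)).append (h n (by omega))

private theorem g2_split {b : Word} (hb : Br b) :
    b = pre (hs1 b) (n1 b) ++ preR (hs2 b) (n2 b) := (hv_spec hb).2.2

private theorem g2_br1 {b : Word} (hb : Br b) : Br (pre (hs1 b) (n1 b)) :=
  g2_br_pre fun i hi => (mem_irs.1 ((sp_mem_Sd.1 (hv_spec hb).1).1 i hi)).2.br

private theorem g2_br2 {b : Word} (hb : Br b) : Br (preR (hs2 b) (n2 b)) :=
  g2_br_preR fun i hi => (mem_irs.1 ((sp_mem_Sd.1 (hv_spec hb).2.1).1 i hi)).2.br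

private theorem g2_ht1 {b : Word} (hb : Br b) : (n1 b : ℤ) ≤ D (pre (hs1 b) (n1 b)) 0 := by
  rw [sp_D_pre]
  exact SS_D_ge (InF_hs1 hb le_rfl) le_rfl

private theorem g2_ht2 {b : Word} (hb : Br b) : (n2 b : ℤ) ≤ D (preR (hs2 b) (n2 b)) 0 := by
  rw [sp_D_preR]
  exact SS_D_ge (InF_hs2 hb le_rfl) le_rfl

private theorem g2_rvfl {b : Word} (hb : Br b) : rv (fl b) =
    rv (fl (preR (hs2 b) (n2 b))) ++ rv (fl (pre (hs1 b) (n1 b))) := by
  conv_lhs => rw [g2_split hb]
  rw [sp_fl_append, rv_append]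

private theorem g2_mem {b : Word} (hb : Br b) (q : Pt) : q ∈ Pb b ↔
    q ∈ pts (rv (fl (preR (hs2 b) (n2 b)))) ∨
      q - D (rv (fl (preR (hs2 b) (n2 b)))) ∈ pts (rv (fl (pre (hs1 b) (n1 b)))) := by
  unfold Pb
  rw [g2_rvfl hb, pts_append, mem_union, mem_tr]

private theorem g2_Dv {b : Word} (hb : Br b) :
    Dv b = D (rv (fl (preR (hs2 b) (n2 b)))) + D (rv (fl (pre (hs1 b) (n1 b)))) := by
  unfold Dv
  rw [g2_rvfl hb, D_append]

private theorem g2_dn {b : Word} (hb : Br b) (hn : 1 ≤ n1 b) (q : Pt) :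
    Dn Dv Qv (Dv b) (hs1 b) (n1 b) q ↔
      q - D (rv (fl (preR (hs2 b) (n2 b)))) ∈ pts (rv (fl (pre (hs1 b) (n1 b)))) := by
  rw [g2_Dv hb, g2_rv_fl_pre]
  obtain ⟨m, hm⟩ : ∃ m, n1 b = m + 1 := ⟨n1 b - 1, by omega⟩
  rw [hm, sp_mem_preR, sp_D_preR]
  unfold Dn
  refine exists_congr ?_
  intro i
  refine and_congr_right ?_
  intro _
  have e1 : SS Dv (hs1 b) (i + 1) = SS D (fun i => rv (fl (hs1 b i))) (i + 1) := rfl
  have e : q - (D (rv (fl (preR (hs2 b) (n2 b)))) +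
      SS D (fun i => rv (fl (hs1 b i))) (m + 1) - SS Dv (hs1 b) (i + 1)) =
      q - D (rv (fl (preR (hs2 b) (n2 b)))) - (SS D (fun i => rv (fl (hs1 b i))) (m + 1) -
        SS D (fun i => rv (fl (hs1 b i))) (i + 1)) := by
    rw [e1]
    abel
  rw [e]
  rfl

private theorem g2_dv0 (p : Word) : Dv p 0 = D p 0 := by
  unfold Dv
  exact sp_D_rv_fl p

/-- the points of leg `b`: in the first half or low -/
theorem Pb_cases {b : Word} (hb : Br b) {q : Pt} (hq : q ∈ Pb b) :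
    Dn Dv Qv (Dv b) (hs1 b) (n1 b) q ∨ q 0 ≤ (Dv b) 0 - (n1 b : ℤ) := by
  have h0 : Dv b 0 = D (preR (hs2 b) (n2 b)) 0 + D (pre (hs1 b) (n1 b)) 0 := by
    rw [g2_Dv hb, Pi.add_apply, sp_D_rv_fl, sp_D_rv_fl]
  have h1 := g2_ht1 hb
  rcases (g2_mem hb q).1 hq with h | h
  · right
    have h2 := sp_pts_range (g2_br2 hb) h
    linarith [h2.2]
  · by_cases hn : 1 ≤ n1 b
    · exact Or.inl ((g2_dn hb hn q).2 h)
    · right
      have hn0 : n1 b = 0 := by omega
      have h2 := sp_pts_range (g2_br1 hb) h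
      rw [Pi.sub_apply, sp_D_rv_fl] at h2
      rw [hn0]
      push_cast
      linarith [h2.2]

theorem Pb_of {b : Word} (hb : Br b) {q : Pt}
    (hq : Dn Dv Qv (Dv b) (hs1 b) (n1 b) q) : q ∈ Pb b ∧ (n2 b : ℤ) ≤ q 0 := by
  have hn : 1 ≤ n1 b := by
    obtain ⟨i, hi, _⟩ := hq
    omega
  have h := (g2_dn hb hn q).1 hq
  have h2 := sp_pts_range (g2_br1 hb) h
  rw [Pi.sub_apply, sp_D_rv_fl] at h2
  exact ⟨(g2_mem hb q).2 (Or.inr h), by linarith [h2.1, g2_ht2 hb]⟩
-- END g2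

-- BEGIN g3
private theorem g3_facts {L s l : ℕ} {w : Word} (h : w ∈ XW L s l) :
    Br w ∧ (s : ℤ) < D w 0 ∧ D w 0 ≤ (s : ℤ) + l := by
  unfold XW Tr.BW at h
  rw [mem_filter] at h
  obtain ⟨_, h1, h2, h3⟩ := h
  refine ⟨h1, h2, ?_⟩
  rw [← Nat.cast_add]
  exact h3

private theorem g3_low {s l n : ℕ} {b c e : Word} {y : Pt} (hb2 : D b 0 ≤ (s : ℤ) + l)
    (hc1 : (s : ℤ) < D c 0) (he : Br e) (hy : y - D c ∈ pts e) :
    (Dv b) 0 - (l : ℤ) < y 0 := by
  have h1 := (he.pts_range hy).1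
  rw [Pi.sub_apply] at h1
  rw [Dv_zero]
  linarith

/-- the extension `e` of `c` meets `a`: its end cap is hit -/
theorem LA_of {L s l : ℕ} {a b c e : Word} (ha : a ∈ XW L s l) (hb : b ∈ XW L s l)
    (hc : c ∈ XW L s l) (h1 : D c 0 < D b 0) (h2 : saw (a ++ (fl b ++ c))) (he : Br e)
    (hn : l < n2 a) (h : HAw a b c e) : LA l a (Dv b) (c ++ e) := by
  obtain ⟨ha0, ha1, ha2⟩ := g3_facts ha
  obtain ⟨hb0, hb1, hb2⟩ := g3_facts hb
  obtain ⟨hc0, hc1, hc2⟩ := g3_facts hc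
  obtain ⟨q, hq1, hq2⟩ := h
  have hlow : ∀ y : Pt, y - D c ∈ pts e → (Dv b) 0 - (l : ℤ) < y 0 := by
    intro y hy
    exact g3_low (n := 0) hb2 hc1 he hy
  unfold LA Low
  refine ⟨⟨q, ?_, ?_⟩, ?_⟩
  · change q ∈ pts (c ++ e)
    rw [pts_append, mem_union, mem_tr]
    exact Or.inr hq2
  · rcases Pa_cases ha0 b hq1 with h3 | h3
    · exact h3
    · exfalso
      have h4 := hlow q hq2
      have h5 : (l : ℤ) < (n2 a : ℤ) := by exact_mod_cast hn
      linarith
  · intro y hy hdn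
    change y ∈ pts (c ++ e) at hy
    rw [pts_append, mem_union, mem_tr] at hy
    rcases hy with hy | hy
    · exfalso
      refine sp_saw_a (a := a) (u := b) (v := c) h2 ?_ (q := y) (Pa_of ha0 b hdn) hy
      intro h0
      rw [h0, D_nil, Pi.zero_apply] at hb1
      have : (0 : ℤ) ≤ (s : ℤ) := Int.natCast_nonneg s
      linarith
    · exact le_of_lt (hlow y hy)
-- END g3

-- BEGIN g4
private theorem g4_facts {L s l : ℕ} {w : Word} (h : w ∈ XW L s l) :
    Br w ∧ (s : ℤ) < D w 0 ∧ D w 0 ≤ (s : ℤ) + l := by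
  unfold XW Tr.BW at h
  rw [mem_filter] at h
  obtain ⟨_, h1, h2, h3⟩ := h
  refine ⟨h1, h2, ?_⟩
  rw [← Nat.cast_add]
  exact h3

/-- the extension `e` of `c` meets `b`: its start cap is hit -/
theorem LB_of {L s l : ℕ} {a b c e : Word} (hb : b ∈ XW L s l)
    (hc : c ∈ XW L s l) (h1 : D c 0 < D b 0) (h2 : saw (a ++ (fl b ++ c))) (he : Br e)
    (hn : l < n1 b) (h : HBw b c e) : LB l b (Dv b) (c ++ e) := by
  obtain ⟨hb0, hb1, hb2⟩ := g4_facts hb
  obtain ⟨hc0, hc1, hc2⟩ := g4_facts hc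
  obtain ⟨q, hq1, hq2, hq3⟩ := h
  have hlow : ∀ y : Pt, y - D c ∈ pts e → (Dv b) 0 - (l : ℤ) < y 0 := by
    intro y hy
    have h1 := (he.pts_range hy).1
    rw [Pi.sub_apply] at h1
    rw [Dv_zero]
    linarith
  unfold LB Low
  refine ⟨⟨q, ?_, ?_⟩, ?_⟩
  · change q ∈ pts (c ++ e)
    rw [pts_append, mem_union, mem_tr]
    exact Or.inr hq2
  · rcases Pb_cases hb0 hq1 with h3 | h3
    · exact h3
    · exfalso
      have h4 := hlow q hq2
      have h5 : (l : ℤ) < (n1 b : ℤ) := by exact_mod_cast hn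
      linarith
  · intro y hy hdn
    change y ∈ pts (c ++ e) at hy
    rw [pts_append, mem_union, mem_tr] at hy
    rcases hy with hy | hy
    · exfalso
      obtain ⟨h3, h4⟩ := Pb_of hb0 hdn
      have h5 : y = 0 := sp_saw_b (u := b) (v := c) h2.right h3 hy
      rw [h5, Pi.zero_apply] at h4
      have h6 : n2 b ≤ 0 := by exact_mod_cast h4
      unfold n1 at hn
      unfold n2 at h6
      omega
    · exact le_of_lt (hlow y hy)
-- END g4

-- BEGIN g5
private theorem g5_three {x : ℝ} (hx : 0 ≤ x) {M k : ℕ} (P Q R : Word → Prop)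
    (h : ∀ E ∈ Sd M k, ¬ P (pre E k) → Q (pre E k) ∨ R (pre E k)) :
    ∑ E ∈ Sd M k, wt x k E ≤ em x M k P + (em x M k Q + em x M k R) := by
  unfold SwR.em
  rw [Finset.sum_filter, Finset.sum_filter, Finset.sum_filter, ← Finset.sum_add_distrib,
    ← Finset.sum_add_distrib]
  refine Finset.sum_le_sum ?_
  intro E hE
  have hw : 0 ≤ wt x k E := Finset.prod_nonneg (fun _ _ => pow_nonneg hx _)
  have h2 : (0 : ℝ) ≤ if Q (pre E k) then wt x k E else 0 := by split <;> [exact hw; exact le_rfl]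
  have h3 : (0 : ℝ) ≤ if R (pre E k) then wt x k E else 0 := by split <;> [exact hw; exact le_rfl]
  by_cases h1 : P (pre E k)
  · rw [if_pos h1]
    linarith
  · rw [if_neg h1]
    rcases h E hE h1 with h4 | h4
    · rw [if_pos h4]
      linarith
    · rw [if_pos h4]
      linarith

/-- **the labels**: a narrow self-avoiding triple which is not free has label a or b -/
theorem Fab_of {x : ℝ} (hx : 0 ≤ x) {L M s l : ℕ}
    (hM : 3 / 4 ≤ ∑ E ∈ Sd M (l + 1), wt x (l + 1) E)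
    {a b c : Word} (ha : a ∈ XW L s l) (hb : b ∈ XW L s l) (hc : c ∈ XW L s l)
    (h1 : D c 0 < D b 0) (h2 : saw (a ++ (fl b ++ c)))
    (hfree : ¬ 1 / 4 ≤ em x M (l + 1) (fun e => saw (a ++ (fl b ++ (c ++ e))))) :
    Fab x M l a b c = 1 := by
  unfold Fab
  refine if_pos ?_
  by_contra hn
  unfold fa fb at hn
  push Not at hn
  obtain ⟨⟨ha1, ha2⟩, hb1, hb2⟩ := hn
  rw [not_le] at hfree
  have hcb : Br c := (mem_filter.1 hc).2.1
  have h3 := g5_three hx (M := M) (k := l + 1) (fun e => saw (a ++ (fl b ++ (c ++ e))))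
    (fun e => LB l b (Dv b) (c ++ e)) (fun e => LA l a (Dv b) (c ++ e)) (by
      intro E hE hns
      have hbr := ge_br_pre hE le_rfl
      rcases ge_split hcb.lo hbr h2 hns with h | h
      · exact Or.inl (LB_of hb hc h1 h2 hbr hb1 h)
      · exact Or.inr (LA_of ha hb hc h1 h2 hbr ha1 h))
  linarith
-- END g5

end Pool.Agent.SwT
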