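import Pool.Agent.SwT.Halves

/-! The shooters integrated out. -/

set_option autoImplicit false
set_option linter.unusedSectionVars false
set_option linter.style.longLine false
set_option linter.unusedVariables false

namespace Pool.Agent.SwT

variable [Pool.Agent.SwP.Dim]

open Finset
open scoped Classical
open Pool.Agent.R19
open Pool.Agent.SwR
open Pool.Agent.SwP (Word Pt Step D pts tr saw Br Lo Hi wle mem_wle rv D_rv rv_append rv_rv D_append D_nil pts_append mem_pts mem_tr zero_mem_pts refl refl_refl D_refl rtr rtr_rtr rtr_A D_rtr dd Ix Br_nil sum_le_of_inj length_rv abs_D_le)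

-- BEGIN s1
private theorem s1_glue_self (m : ℕ) (G : ℕ → Word) : glue m G (shl m G) = G := by
  funext i
  unfold glue shl
  by_cases h : i < m
  · rw [if_pos h]
  · rw [if_neg h, Nat.add_sub_cancel' (by omega)]

private theorem s1_pre (m k : ℕ) (C E : ℕ → Word) :
    pre C m ++ pre E k = pre (glue m C E) (m + k) := by
  induction k with
  | zero =>
    rw [sp_pre_zero, List.append_nil, Nat.add_zero]
    unfold pre
    congr 1
    refine List.map_congr_left ?_
    intro i hi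
    rw [List.mem_range] at hi
    rw [glue_lt _ _ hi]
  | succ k ih =>
    rw [sp_pre_succ, ← List.append_assoc, ih, ← Nat.add_assoc, sp_pre_succ]
    congr 1
    unfold glue
    rw [if_neg (by omega), Nat.add_sub_cancel_left]

/-- the shooter `c` and its extension together are a strand of `N` pieces with a marked cut in
the window -/
theorem shoot {x : ℝ} (hx : 0 ≤ x) {L M s l N n : ℕ} (hLM : L ≤ M) (hPh : Ph x M ≤ 1)
    (hN : s + 2 * l + 2 ≤ N) (hhalf : (1 : ℝ) / 2 ≤ Ph x M ^ N)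
    {D' : Word → Pt} {Q' : Word → Set Pt} (hD' : ∀ p ∈ irs M, 1 ≤ D' p 0)
    (hQ' : ∀ p ∈ irs M, ∀ q ∈ Q' p, 0 ≤ q 0 ∧ q 0 ≤ D' p 0)
    {A : ℕ → Word} (hA : InF (irs M) n A) {v : Pt} (hv : v 0 ≤ s + l) :
    ∑ c ∈ XW L s l, zw x c * em x M (l + 1)
      (fun e => Low (Pool.Agent.SwP.ev 0) D' Q' {q | q ∈ pts (c ++ e)} l n v A) ≤
      2 * (l + 1) * hit x M D' Q' l n N v A := by
  have hw : ∀ p ∈ irs M, (0 : ℝ) ≤ x ^ p.length := fun p _ => pow_nonneg hx _
  have hD : ∀ p ∈ irs M, (1 : ℤ) ≤ (Pool.Agent.SwP.ev 0) (D p) := fun p hp =>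
    (mem_irs.1 hp).2.one_le
  -- the extended function
  let F : Word → ℝ := fun c => if (s : ℤ) < D c 0 ∧ D c 0 ≤ ((s + l : ℕ) : ℤ) then em x M (l + 1)
    (fun e => Low (Pool.Agent.SwP.ev 0) D' Q' {q | q ∈ pts (c ++ e)} l n v A) else 0
  have hF : ∀ c, 0 ≤ F c := by
    intro c
    simp only [F]
    split_ifs
    · unfold Pool.Agent.SwR.em
      refine sum_nonneg ?_
      intro E _
      unfold wt
      exact prod_nonneg fun i _ => pow_nonneg hx _
    · exact le_refl _
  have h1 : ∑ c ∈ XW L s l, zw x c * em x M (l + 1)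
      (fun e => Low (Pool.Agent.SwP.ev 0) D' Q' {q | q ∈ pts (c ++ e)} l n v A) ≤
      ∑ c ∈ (wle M).filter (fun w => Br w ∧ D w 0 ≤ ((s + l : ℕ) : ℤ)), x ^ c.length * F c := by
    have h2 : ∑ c ∈ XW L s l, zw x c * em x M (l + 1)
      (fun e => Low (Pool.Agent.SwP.ev 0) D' Q' {q | q ∈ pts (c ++ e)} l n v A) =
        ∑ c ∈ XW L s l, x ^ c.length * F c := by
      refine sum_congr rfl ?_
      intro c hc
      unfold XW Tr.BW at hc
      rw [mem_filter] at hc
      simp only [F]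
      rw [if_pos ⟨hc.2.2.1, hc.2.2.2⟩]
      rfl
    rw [h2]
    refine sum_le_sum_of_subset_of_nonneg ?_ ?_
    · intro c hc
      unfold XW Tr.BW at hc
      rw [mem_filter, mem_wle] at hc
      rw [mem_filter, mem_wle]
      exact ⟨by omega, hc.2.1, hc.2.2.2⟩
    · intro c _ _
      exact mul_nonneg (pow_nonneg hx _) (hF c)
  refine h1.trans ?_
  refine (sum_br_le hx M (s + l) F hF).trans ?_
  -- each number of pieces
  have h3 : ∀ m ∈ range (s + l + 1), EE (irs M) (fun p => x ^ p.length) m (fun C => F (pre C m)) ≤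
      2 * EE (irs M) (fun p => x ^ p.length) N (fun G =>
        (if (s : ℤ) ≤ (Pool.Agent.SwP.ev 0) (SS D G m) ∧
          (Pool.Agent.SwP.ev 0) (SS D G m) ≤ (s : ℤ) + l then (1 : ℝ) else 0) *
        (if LU D' Q' l n N v A G then 1 else 0)) := by
    intro m hm
    rw [mem_range] at hm
    obtain ⟨r, hr⟩ : ∃ r, N = m + (l + 1) + r := ⟨N - (m + (l + 1)), by omega⟩
    let Φ : (ℕ → Word) → (ℕ → Word) → ℝ := fun f h =>
      if ((s : ℤ) < SS D f m 0 ∧ SS D f m 0 ≤ ((s + l : ℕ) : ℤ)) ∧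
        Low (Pool.Agent.SwP.ev 0) D' Q' {q | Up D Qp (glue m f h) (m + (l + 1)) q} l n v A
        then 1 else 0
    have h4 : EE (irs M) (fun p => x ^ p.length) m (fun C => F (pre C m)) =
        EE (irs M) (fun p => x ^ p.length) m (fun f =>
          EE (irs M) (fun p => x ^ p.length) (l + 1) (fun h => Φ f h)) := by
      refine EE_congr ?_
      intro C _
      simp only [F]
      rw [sp_D_pre]
      split_ifs with h5
      · rw [sp_em]
        refine EE_congr ?_
        intro E _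
        simp only [Φ]
        have h6 : {q | q ∈ pts (pre C m ++ pre E (l + 1))} =
            {q | Up D Qp (glue m C E) (m + (l + 1)) q} := by
          ext q
          simp only [Set.mem_ofPred_eq]
          rw [s1_pre, sp_mem_pre' _ (by omega)]
          rfl
        rw [h6]
        by_cases h7 : Low (Pool.Agent.SwP.ev 0) D' Q'
            {q | Up D Qp (glue m C E) (m + (l + 1)) q} l n v A
        · rw [if_pos h7, if_pos ⟨h5, h7⟩]
        · rw [if_neg h7, if_neg (fun h => h7 h.2)]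
      · symm
        rw [← EE_zero_fun (F := irs M) (w := fun p => x ^ p.length) (l + 1)]
        refine EE_congr ?_
        intro E _
        simp only [Φ]
        rw [if_neg (fun h => h5 h.1)]
    rw [h4]
    have h0 : ∀ f h, 0 ≤ Φ f h := by
      intro f h
      simp only [Φ]
      split_ifs <;> norm_num
    have hΦ : ∀ f h f' h', (∀ i < m, f i = f' i) → (∀ i < l + 1, h i = h' i) →
        Φ f h = Φ f' h' := by
      intro f h f' h' hf hh
      simp only [Φ]
      have e1 : SS D f m = SS D f' m := SS_congr hf (le_refl m)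
      have e2 : {q | Up D Qp (glue m f h) (m + (l + 1)) q} =
          {q | Up D Qp (glue m f' h') (m + (l + 1)) q} := by
        ext q
        simp only [Set.mem_ofPred_eq]
        refine Up_congr ?_
        intro i hi
        unfold glue
        by_cases h1 : i < m
        · rw [if_pos h1, if_pos h1, hf i h1]
        · rw [if_neg h1, if_neg h1, hh (i - m) (by omega)]
      rw [e1, e2]
    have hr' : (1 : ℝ) / 2 ≤ (∑ p ∈ irs M, x ^ p.length) ^ r :=
      half_mono hw hPh (show r ≤ N by omega) hhalf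
    refine (EE_two_extend (a := m) (b := l + 1) (r := r) hw hr' h0 hΦ).trans ?_
    rw [← hr]
    refine mul_le_mul_of_nonneg_left ?_ (by norm_num)
    refine EE_mono hw ?_
    intro G hG
    simp only [Φ]
    rw [s1_glue_self]
    by_cases h8 : ((s : ℤ) < SS D G m 0 ∧ SS D G m 0 ≤ ((s + l : ℕ) : ℤ)) ∧
        Low (Pool.Agent.SwP.ev 0) D' Q' {q | Up D Qp G (m + (l + 1)) q} l n v A
    · rw [if_pos h8]
      obtain ⟨⟨h9, h10⟩, h11, h12⟩ := h8
      have h13 : LU D' Q' l n N v A G := by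
        refine ⟨?_, ?_⟩
        · obtain ⟨y, ⟨i, hi, hy1⟩, hy⟩ := h11
          exact ⟨y, ⟨i, by omega, hy1⟩, hy⟩
        · rintro y ⟨i, hi, hy1⟩ hy
          by_cases hi' : i < m + (l + 1)
          · exact h12 y ⟨i, hi', hy1⟩ hy
          · have h14 := Up_ht (ht := Pool.Agent.SwP.ev 0) (D := D) (pts := Qp) hD
              (fun p hp y hy => (mem_irs.1 hp).2.br.pts_range hy) hG hi hy1
            have h15 := ht_SS_mono (ht := Pool.Agent.SwP.ev 0) (D := D) hD hG
              (show m ≤ i by omega) hi.le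
            have h16 : (Pool.Agent.SwP.ev 0) (SS D G m) = SS D G m 0 := rfl
            have h17 : (Pool.Agent.SwP.ev 0) v = v 0 := rfl
            rw [h16] at h15
            rw [h17]
            have h18 : (m : ℤ) + (l + 1) ≤ i := by
              have : m + (l + 1) ≤ i := by omega
              exact_mod_cast this
            have h19 := h14.1
            omega
      have h20 : (s : ℤ) ≤ (Pool.Agent.SwP.ev 0) (SS D G m) ∧
          (Pool.Agent.SwP.ev 0) (SS D G m) ≤ (s : ℤ) + l := by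
        have h16 : (Pool.Agent.SwP.ev 0) (SS D G m) = SS D G m 0 := rfl
        rw [h16]
        push_cast at h10
        exact ⟨h9.le, h10⟩
      rw [if_pos h20, if_pos h13, mul_one]
    · rw [if_neg h8]
      refine mul_nonneg ?_ ?_
      · split_ifs <;> norm_num
      · split_ifs <;> norm_num
  refine (sum_le_sum h3).trans ?_
  rw [← mul_sum, ← EE_sum]
  rw [mul_assoc]
  refine mul_le_mul_of_nonneg_left ?_ (by norm_num)
  unfold hit EM
  rw [← EE_mul_left]
  refine EE_mono hw ?_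
  intro G hG
  rw [← sum_mul]
  refine mul_le_mul_of_nonneg_right ?_ ?_
  · rw [← sum_filter_add_sum_filter_not (range (s + l + 1)) (fun m =>
      (s : ℤ) ≤ (Pool.Agent.SwP.ev 0) (SS D G m) ∧
          (Pool.Agent.SwP.ev 0) (SS D G m) ≤ (s : ℤ) + l)]
    have e1 : ∑ m ∈ (range (s + l + 1)).filter (fun m =>
        (s : ℤ) ≤ (Pool.Agent.SwP.ev 0) (SS D G m) ∧
          (Pool.Agent.SwP.ev 0) (SS D G m) ≤ (s : ℤ) + l),
        (if (s : ℤ) ≤ (Pool.Agent.SwP.ev 0) (SS D G m) ∧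
          (Pool.Agent.SwP.ev 0) (SS D G m) ≤ (s : ℤ) + l then (1 : ℝ) else 0) =
        (((range (s + l + 1)).filter (fun m =>
        (s : ℤ) ≤ (Pool.Agent.SwP.ev 0) (SS D G m) ∧
          (Pool.Agent.SwP.ev 0) (SS D G m) ≤ (s : ℤ) + l)).card : ℝ) := by
      rw [sum_congr rfl (fun m hm => if_pos (mem_filter.1 hm).2), sum_const, nsmul_eq_mul, mul_one]
    have e2 : ∑ m ∈ (range (s + l + 1)).filter (fun m =>
        ¬ ((s : ℤ) ≤ (Pool.Agent.SwP.ev 0) (SS D G m) ∧
          (Pool.Agent.SwP.ev 0) (SS D G m) ≤ (s : ℤ) + l)),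
        (if (s : ℤ) ≤ (Pool.Agent.SwP.ev 0) (SS D G m) ∧
          (Pool.Agent.SwP.ev 0) (SS D G m) ≤ (s : ℤ) + l then (1 : ℝ) else 0) = 0 :=
      sum_eq_zero (fun m hm => if_neg (mem_filter.1 hm).2)
    rw [e1, e2, add_zero]
    have e3 : ((range (s + l + 1)).filter (fun m =>
        (s : ℤ) ≤ (Pool.Agent.SwP.ev 0) (SS D G m) ∧
          (Pool.Agent.SwP.ev 0) (SS D G m) ≤ (s : ℤ) + l)).card ≤ l + 1 := by
      refine le_trans (card_le_card ?_) (win_count (ht := Pool.Agent.SwP.ev 0) (D := D) hD hG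
        (s : ℤ) l)
      intro m hm
      rw [mem_filter, mem_range] at hm
      rw [mem_filter, mem_range]
      exact ⟨by omega, hm.2⟩
    exact_mod_cast e3
  · split_ifs <;> norm_num
-- END s1

-- BEGIN s2
theorem hit_nonneg {x : ℝ} (hx : 0 ≤ x) (M : ℕ) (D' : Word → Pt) (Q' : Word → Set Pt)
    (l n N : ℕ) (v : Pt) (A : ℕ → Word) : 0 ≤ hit x M D' Q' l n N v A := by
  unfold hit
  refine EE_nonneg (fun p _ => pow_nonneg hx _) fun s _ => ?_
  split_ifs <;> norm_num

theorem hit_le_one {x : ℝ} (hx : 0 ≤ x) {M : ℕ} (hPh : Ph x M ≤ 1) (D' : Word → Pt)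
    (Q' : Word → Set Pt) (l n N : ℕ) (v : Pt) (A : ℕ → Word) :
    hit x M D' Q' l n N v A ≤ 1 := by
  unfold hit
  refine EE_le_one (fun p _ => pow_nonneg hx _) hPh zero_le_one fun s _ => ?_
  split_ifs <;> norm_num

theorem al_nonneg {x : ℝ} (hx : 0 ≤ x) (L M s l : ℕ) (a b : Word) : 0 ≤ al x L M s l a b := by
  unfold al zw
  refine sum_nonneg fun c _ => mul_nonneg (pow_nonneg hx _) ?_
  split_ifs <;> norm_num

theorem be_nonneg {x : ℝ} (hx : 0 ≤ x) (L M s l : ℕ) (b : Word) : 0 ≤ be x L M s l b := by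
  unfold be zw
  refine sum_nonneg fun c _ => mul_nonneg (pow_nonneg hx _) ?_
  split_ifs <;> norm_num

/-- label a or b, the shooter integrated out -/
theorem Fab_sum_le {x : ℝ} (hx : 0 ≤ x) (L M s l : ℕ) (a b : Word) :
    ∑ c ∈ XW L s l, zw x c * Fab x M l a b c ≤ al x L M s l a b + be x L M s l b := by
  unfold al be
  rw [← sum_add_distrib]
  refine sum_le_sum fun c _ => ?_
  have hz : 0 ≤ zw x c := pow_nonneg hx _
  rw [← mul_add]
  refine mul_le_mul_of_nonneg_left ?_ hz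
  unfold Fab
  by_cases h1 : fa x M l a b c <;> by_cases h2 : fb x M l b c <;> simp [h1, h2]
-- END s2

/-- the bound for a shooter: `hit` for long caps, the whole window for short ones -/
noncomputable def cap (x : ℝ) (M : ℕ) (D' : Word → Pt) (Q' : Word → Set Pt) (l n N : ℕ) (v : Pt)
    (A : ℕ → Word) : ℝ := if n ≤ l then 1 else hit x M D' Q' l n N v A

-- BEGIN s3
private theorem s3_XW {L s l : ℕ} {w : Word} (h : w ∈ XW L s l) :
    w.length ≤ L ∧ Br w ∧ D w 0 ≤ s + l := by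
  have h1 := mem_filter.1 h
  refine ⟨mem_wle.1 h1.1, h1.2.1, ?_⟩
  have h2 := h1.2.2.2
  push_cast at h2
  exact h2

private theorem s3_em {x : ℝ} (hx : 0 ≤ x) (M k : ℕ) (P : Word → Prop) : 0 ≤ em x M k P := by
  unfold SwR.em wt
  exact sum_nonneg fun E _ => prod_nonneg fun i _ => pow_nonneg hx _

private theorem s3_sum {x : ℝ} (hx : 0 ≤ x) {L M s l N n : ℕ} (hLM : L ≤ M) (hPh : Ph x M ≤ 1)
    (hB : ∀ s, Pool.Agent.SwP.Bs x L s ≤ 1)
    (hN : s + 2 * l + 2 ≤ N) (hhalf : (1 : ℝ) / 2 ≤ Ph x M ^ N)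
    {D' : Word → Pt} {Q' : Word → Set Pt} (hD' : ∀ p ∈ irs M, 1 ≤ D' p 0)
    (hQ' : ∀ p ∈ irs M, ∀ q ∈ Q' p, 0 ≤ q 0 ∧ q 0 ≤ D' p 0)
    {A : ℕ → Word} (hA : InF (irs M) n A) {v : Pt} (hv : v 0 ≤ s + l) {F : Word → Prop}
    (hF : ∀ c, F c → n ≤ l ∨ 1 / 4 ≤ em x M (l + 1)
      (fun e => Low (Pool.Agent.SwP.ev 0) D' Q' {q | q ∈ pts (c ++ e)} l n v A)) :
    ∑ c ∈ XW L s l, zw x c * (if F c then 1 else 0) ≤
      8 * (l + 1) * cap x M D' Q' l n N v A := by
  have hl0 : (0 : ℝ) ≤ l := Nat.cast_nonneg l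
  unfold cap
  by_cases hn : n ≤ l
  · rw [if_pos hn, mul_one]
    have h1 : ∑ c ∈ XW L s l, zw x c * (if F c then (1 : ℝ) else 0) ≤
        ∑ c ∈ XW L s l, x ^ c.length := by
      refine sum_le_sum fun c _ => ?_
      have hz : 0 ≤ x ^ c.length := pow_nonneg hx _
      unfold zw
      split_ifs <;> linarith
    have h2 : ∑ c ∈ XW L s l, x ^ c.length ≤ (l : ℝ) := Tr.sum_BW L s hB l
    linarith
  · rw [if_neg hn]
    have hs := shoot hx hLM hPh hN hhalf hD' hQ' hA hv
    have h1 : ∑ c ∈ XW L s l, zw x c * (if F c then (1 : ℝ) else 0) ≤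
        ∑ c ∈ XW L s l, 4 * (zw x c * em x M (l + 1)
      (fun e => Low (Pool.Agent.SwP.ev 0) D' Q' {q | q ∈ pts (c ++ e)} l n v A)) := by
      refine sum_le_sum fun c _ => ?_
      have hz : 0 ≤ zw x c := pow_nonneg hx _
      have h4 : 4 * (zw x c * em x M (l + 1)
          (fun e => Low (Pool.Agent.SwP.ev 0) D' Q' {q | q ∈ pts (c ++ e)} l n v A)) =
          zw x c * (4 * em x M (l + 1)
          (fun e => Low (Pool.Agent.SwP.ev 0) D' Q' {q | q ∈ pts (c ++ e)} l n v A)) := by ring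
      rw [h4]
      refine mul_le_mul_of_nonneg_left ?_ hz
      have h5 := s3_em hx M (l + 1)
        (fun e => Low (Pool.Agent.SwP.ev 0) D' Q' {q | q ∈ pts (c ++ e)} l n v A)
      split_ifs with h6
      · rcases hF c h6 with h7 | h7
        · exact absurd h7 hn
        · linarith
      · linarith
    rw [← mul_sum] at h1
    calc _ ≤ _ := h1
      _ ≤ 4 * (2 * (l + 1) * hit x M D' Q' l n N v A) := by linarith
      _ = _ := by ring

theorem al_le {x : ℝ} (hx : 0 ≤ x) {L M s l N : ℕ} (hLM : L ≤ M) (hPh : Ph x M ≤ 1)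
    (hB : ∀ s, Pool.Agent.SwP.Bs x L s ≤ 1)
    (hN : s + 2 * l + 2 ≤ N) (hhalf : (1 : ℝ) / 2 ≤ Ph x M ^ N) {a b : Word}
    (ha : a ∈ XW L s l) (hb : b ∈ XW L s l) :
    al x L M s l a b ≤ 8 * (l + 1) * cap x M D Qp l (n2 a) N (Dv b) (hs2 a) := by
  have h1 := s3_XW ha
  have h2 := s3_XW hb
  unfold al
  refine s3_sum hx hLM hPh hB hN hhalf (D' := D) (Q' := Qp) (n := n2 a) (A := hs2 a) (v := Dv b)
    (F := fun c => fa x M l a b c) (fun p hp => (mem_irs.1 hp).2.one_le) ?_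
    (InF_hs2 h1.2.1 (h1.1.trans hLM)) ?_ (fun c h => h)
  · intro p hp q hq
    exact (mem_irs.1 hp).2.br.pts_range hq
  · rw [Dv_zero]
    exact h2.2.2

theorem be_le {x : ℝ} (hx : 0 ≤ x) {L M s l N : ℕ} (hLM : L ≤ M) (hPh : Ph x M ≤ 1)
    (hB : ∀ s, Pool.Agent.SwP.Bs x L s ≤ 1)
    (hN : s + 2 * l + 2 ≤ N) (hhalf : (1 : ℝ) / 2 ≤ Ph x M ^ N) {b : Word}
    (hb : b ∈ XW L s l) :
    be x L M s l b ≤ 8 * (l + 1) * cap x M Dv Qv l (n1 b) N (Dv b) (hs1 b) := by
  have h2 := s3_XW hb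
  unfold be
  refine s3_sum hx hLM hPh hB hN hhalf (D' := Dv) (Q' := Qv) (n := n1 b) (A := hs1 b) (v := Dv b)
    (F := fun c => fb x M l b c) ?_ ?_
    (InF_hs1 h2.2.1 (h2.1.trans hLM)) ?_ (fun c h => h)
  · intro p hp
    rw [Dv_zero]
    exact (mem_irs.1 hp).2.one_le
  · intro p hp q hq
    rw [Dv_zero]
    exact sp_pts_range (mem_irs.1 hp).2.br hq
  · rw [Dv_zero]
    exact h2.2.2
-- END s3

end Pool.Agent.SwT
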